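import Pool.Agent.J4.H98.OrbE

/-!
# Maps of circle bundles: lifting, uniform estimates
-/

set_option autoImplicit false
set_option linter.unusedSectionVars false

open scoped Manifold ContDiff Topology
open Filter Set

universe u v

namespace Pool.Agent.J4.H98.Fib

open Pool.Agent.J4.H98.Orb

/-- `p : N → B` is the projection of a principal circle bundle: `ψ_t`, `t ∈ ℝ/ℤ`, is a free action of
the circle on `N`, and the fibres of `p` are its orbits. -/
structure CircleBundle {N : Type u} {B : Type v} [TopologicalSpace N] [TopologicalSpace B]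
    (ψ : ℝ → N → N) (p : N → B) : Prop where
  cont : Continuous p
  surj : Function.Surjective p
  fib : ∀ z w, p z = p w ↔ ∃ t, ψ t z = w
  free : ∀ z t, ψ t z = z ↔ ∃ k : ℤ, t = k

/-- continuous flows -/
structure Flw {N : Type u} [TopologicalSpace N] (ψ : ℝ → N → N) : Prop where
  cont : Continuous fun q : ℝ × N => ψ q.1 q.2
  zero : ∀ y, ψ 0 y = y
  add : ∀ s t y, ψ (s + t) y = ψ s (ψ t y)

variable {N : Type u} {B : Type v} [MetricSpace N] [CompactSpace N] [MetricSpace B]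
  {ψ : ℝ → N → N} {p : N → B}

theorem Flw.int (hψ : Flw ψ) (hb : CircleBundle ψ p) (k : ℤ) (t : ℝ) (y : N) :
    ψ (t + k) y = ψ t y := by
  rw [hψ.add, (hb.free y k).2 ⟨k, rfl⟩]

theorem small_time (hψ : Flw ψ) (hb : CircleBundle ψ p) {σ : ℝ} (hσ : 0 < σ) :
    ∃ η : ℝ, 0 < η ∧ ∀ (x : N) (t : ℝ), dist (ψ t x) x < η → ∃ u : ℝ, |u| < σ ∧
      ∃ k : ℤ, t = u + k := by
  have hK : IsCompact (({t : ℝ | σ ≤ |t|} ∩ Icc (-(1 / 2)) (1 / 2)) ×ˢ (univ : Set N)) :=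
    (isCompact_Icc.inter_left (isClosed_le continuous_const continuous_abs)).prod isCompact_univ
  have hc : Continuous fun q : ℝ × N => dist (ψ q.1 q.2) q.2 := hψ.cont.dist continuous_snd
  have hI := hK.image hc
  have h0 : (0 : ℝ) ∉ (fun q : ℝ × N => dist (ψ q.1 q.2) q.2) ''
      (({t : ℝ | σ ≤ |t|} ∩ Icc (-(1 / 2)) (1 / 2)) ×ˢ (univ : Set N)) := by
    rintro ⟨⟨t, x⟩, ⟨⟨h1, h2⟩, -⟩, h3⟩
    obtain ⟨k, hk⟩ := (hb.free x t).1 (dist_eq_zero.1 h3)
    have h1' : σ ≤ |t| := h1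
    have h2' : -(1 / 2) ≤ t ∧ t ≤ 1 / 2 := h2
    rw [hk] at h1' h2'
    have h4 : (-1 : ℝ) < k := by linarith [h2'.1]
    have h5 : (k : ℝ) < 1 := by linarith [h2'.2]
    have h6 : -1 < k := by exact_mod_cast h4
    have h7 : k < 1 := by exact_mod_cast h5
    have h8 : k = 0 := by omega
    rw [h8, Int.cast_zero, abs_zero] at h1'
    linarith
  obtain ⟨η, hη, hsub⟩ := Metric.mem_nhds_iff.1 (hI.isClosed.isOpen_compl.mem_nhds h0)
  refine ⟨η, hη, fun x t hd => ⟨t - round t, ?_, round t, by ring⟩⟩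
  by_contra hcon
  push Not at hcon
  have h1 : |t - round t| ≤ 1 / 2 := abs_sub_round t
  have e : ψ t x = ψ (t - round t) x := by
    have := hψ.int hb (round t) (t - round t) x
    rwa [sub_add_cancel] at this
  have h2 : dist (ψ (t - round t) x) x ∈ Metric.ball (0 : ℝ) η := by
    rw [mem_ball_zero_iff, Real.norm_eq_abs, abs_of_nonneg dist_nonneg, ← e]
    exact hd
  exact hsub h2 ⟨(t - round t, x), ⟨⟨hcon, (abs_le.1 h1).1, (abs_le.1 h1).2⟩, mem_univ _⟩, rfl⟩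

/-- uniform lifting of points -/
theorem lift_near (hψ : Flw ψ) (hb : CircleBundle ψ p) {η : ℝ} (hη : 0 < η) :
    ∃ δ : ℝ, 0 < δ ∧ ∀ (z : N) (x : B), dist x (p z) < δ → ∃ w, p w = x ∧ dist w z < η := by
  by_contra hcon
  push Not at hcon
  have hc := fun j : ℕ => hcon (1 / ((j : ℝ) + 1)) Nat.one_div_pos_of_nat
  choose z x hzx hw using hc
  choose y hy using fun j => hb.surj (x j)
  obtain ⟨⟨a, b⟩, φ, hφ, hlim⟩ := CompactSpace.tendsto_subseq fun j => (z j, y j)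
  have h1 : Tendsto (fun j => z (φ j)) atTop (𝓝 a) := (continuous_fst.tendsto (a, b)).comp hlim
  have h2 : Tendsto (fun j => y (φ j)) atTop (𝓝 b) := (continuous_snd.tendsto (a, b)).comp hlim
  have h3 : Tendsto (fun j => dist (p (y (φ j))) (p (z (φ j)))) atTop (𝓝 (dist (p b) (p a))) :=
    ((hb.cont.tendsto b).comp h2).dist ((hb.cont.tendsto a).comp h1)
  have h4 : Tendsto (fun j => dist (p (y (φ j))) (p (z (φ j)))) atTop (𝓝 0) := by
    have h5 : Tendsto (fun j : ℕ => 1 / (((φ j : ℕ) : ℝ) + 1)) atTop (𝓝 0) :=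
      tendsto_one_div_add_atTop_nhds_zero_nat.comp hφ.tendsto_atTop
    refine squeeze_zero (fun j => dist_nonneg) (fun j => ?_) h5
    rw [hy]
    exact (hzx (φ j)).le
  have h5 : p b = p a := dist_eq_zero.1 (tendsto_nhds_unique h3 h4)
  obtain ⟨t, ht⟩ := (hb.fib b a).1 h5
  have hct : Continuous (ψ t) := hψ.cont.comp (continuous_const.prodMk continuous_id)
  have h6 : Tendsto (fun j => dist (ψ t (y (φ j))) (z (φ j))) atTop (𝓝 (dist (ψ t b) a)) :=
    ((hct.tendsto b).comp h2).dist h1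
  rw [ht, dist_self] at h6
  obtain ⟨j, hj⟩ := (h6.eventually_lt_const hη).exists
  refine absurd hj (not_lt.2 (hw (φ j) (ψ t (y (φ j))) ?_))
  rw [← hy (φ j)]
  exact ((hb.fib (y (φ j)) (ψ t (y (φ j)))).2 ⟨t, rfl⟩).symm

/-- same fibre and close: the time is small -/
theorem time_of_near (hψ : Flw ψ) (hb : CircleBundle ψ p) {σ : ℝ} (hσ : 0 < σ) :
    ∃ η : ℝ, 0 < η ∧ ∀ x y : N, p x = p y → dist y x < η → ∃ u : ℝ, |u| < σ ∧ y = ψ u x := by
  obtain ⟨η, hη, h⟩ := small_time hψ hb hσ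
  refine ⟨η, hη, fun x y hxy hd => ?_⟩
  obtain ⟨t, ht⟩ := (hb.fib x y).1 hxy
  rw [← ht] at hd
  obtain ⟨u, hu, k, hk⟩ := h x t hd
  refine ⟨u, hu, ?_⟩
  rw [← ht, hk, hψ.int hb]

theorem int_zero {e : ℝ → ℝ} (hc : Continuous e) (h0 : e 0 = 0) (hi : ∀ h, ∃ k : ℤ, e h = k)
    (h : ℝ) : e h = 0 := by
  by_contra hne
  obtain ⟨k, hk⟩ := hi h
  have hk1 : (1 : ℝ) ≤ |e h| := by
    rw [hk] at hne ⊢
    have h1 : k ≠ 0 := fun h => hne (by rw [h]; simp)
    have h2 : 1 ≤ |k| := Int.one_le_abs h1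
    exact_mod_cast h2
  have h2 : (1 / 2 : ℝ) ∈ Icc |e 0| |e h| := by
    rw [h0, abs_zero]
    exact ⟨by norm_num, by linarith⟩
  obtain ⟨t, -, ht⟩ := isPreconnected_univ.intermediate_value (mem_univ (0 : ℝ)) (mem_univ h)
    hc.abs.continuousOn h2
  obtain ⟨j, hj⟩ := hi t
  have ht' : |e t| = 1 / 2 := ht
  rw [hj] at ht'
  have h3 : ((|2 * j| : ℤ) : ℝ) = ((1 : ℤ) : ℝ) := by
    push_cast
    rw [abs_mul, ht', abs_two]
    norm_num
  have h4 : |2 * j| = 1 := by exact_mod_cast h3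
  rcases abs_eq (by norm_num : (0 : ℤ) ≤ 1) |>.1 h4 with h5 | h5 <;> omega

variable {G : N → N} {θ : N → ℝ → ℝ}

theorem theta_add (hψ : Flw ψ) (hb : CircleBundle ψ p) (h : OrbitMap G ψ θ) (w : N) (t τ : ℝ) :
    θ w (t + τ) = θ w t + θ (ψ t w) τ := by
  have key := int_zero (e := fun τ => θ w (t + τ) - θ w t - θ (ψ t w) τ)
    (((h.cont w).comp (continuous_const.add continuous_id)).sub continuous_const |>.sub
      (h.cont (ψ t w))) (by show θ w (t + 0) - θ w t - θ (ψ t w) 0 = 0; rw [h.zero]; simp)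
    (fun τ => by
      refine (hb.free (ψ (θ w t + θ (ψ t w) τ) (G w)) _).1 ?_
      rw [← hψ.add]
      have e1 : θ w (t + τ) - θ w t - θ (ψ t w) τ + (θ w t + θ (ψ t w) τ) = θ w (t + τ) := by ring
      show ψ (θ w (t + τ) - θ w t - θ (ψ t w) τ + (θ w t + θ (ψ t w) τ)) (G w) = _
      rw [e1, ← h.eq, add_comm t τ, hψ.add, h.eq, h.eq, ← hψ.add, add_comm (θ (ψ t w) τ)]) τ
  have key' : θ w (t + τ) - θ w t - θ (ψ t w) τ = 0 := key
  linarith

theorem theta_unif (hψ : Flw ψ) (hb : CircleBundle ψ p) (h : OrbitMap G ψ θ) (hG : Continuous G)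
    (w₀ : N) (R : ℝ) {σ : ℝ} (hσ : 0 < σ) :
    ∀ᶠ w in 𝓝 w₀, ∀ t ∈ Icc (-R) R, |θ w t - θ w₀ t| < σ := by
  rcases lt_or_ge R 0 with hR | hR
  · refine Eventually.of_forall fun w t ht => ?_
    linarith [ht.1, ht.2]
  obtain ⟨η, hη, hsm⟩ := small_time hψ hb (lt_min hσ (by norm_num : (0 : ℝ) < 1 / 4))
  have hc : Continuous fun q : N × ℝ => dist (G (ψ q.2 q.1)) (ψ (θ w₀ q.2) (G q.1)) :=
    (hG.comp (hψ.cont.comp (continuous_snd.prodMk continuous_fst))).dist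
      (hψ.cont.comp (((h.cont w₀).comp continuous_snd).prodMk (hG.comp continuous_fst)))
  have hev : ∀ᶠ w in 𝓝 w₀, ∀ t ∈ Icc (-R) R, dist (G (ψ t w)) (ψ (θ w₀ t) (G w)) < η := by
    refine isCompact_Icc.eventually_forall_of_forall_eventually fun t _ => ?_
    refine hc.continuousAt.eventually_lt continuousAt_const ?_
    show dist (G (ψ t w₀)) (ψ (θ w₀ t) (G w₀)) < η
    rw [h.eq, dist_self]
    exact hη
  filter_upwards [hev] with w hw
  have hint : ∀ t ∈ Icc (-R) R, ∃ u : ℝ, |u| < min σ (1 / 4) ∧ ∃ k : ℤ, θ w t - θ w₀ t = u + k := by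
    intro t ht
    have h1 := hw t ht
    have e : G (ψ t w) = ψ (θ w t - θ w₀ t) (ψ (θ w₀ t) (G w)) := by
      rw [h.eq, ← hψ.add, sub_add_cancel]
    rw [e] at h1
    exact hsm _ _ h1
  intro t ht
  obtain ⟨u, hu, k, hk⟩ := hint t ht
  have hk0 : k = 0 := by
    by_contra hne
    have h1 : (1 : ℝ) ≤ |(k : ℝ)| := by
      have h2 : 1 ≤ |k| := Int.one_le_abs hne
      exact_mod_cast h2
    have h2 : |u| < 1 / 4 := hu.trans_le (min_le_right _ _)
    have h3 : (1 / 2 : ℝ) ≤ |θ w t - θ w₀ t| := by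
      rw [hk]
      have := abs_sub_abs_le_abs_sub (k : ℝ) (-u)
      rw [abs_neg, sub_neg_eq_add] at this
      rw [add_comm]
      linarith
    have h4 : (1 / 2 : ℝ) ∈ Icc |θ w 0 - θ w₀ 0| |θ w t - θ w₀ t| := by
      rw [h.zero, h.zero, sub_zero, abs_zero]
      exact ⟨by norm_num, h3⟩
    obtain ⟨t₂, ht₂, ht₃⟩ := (isPreconnected_Icc (a := -R) (b := R)).intermediate_value
      (f := fun t => |θ w t - θ w₀ t|) (show (0 : ℝ) ∈ Icc (-R) R from ⟨by linarith, hR⟩) ht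
      (((h.cont w).sub (h.cont w₀)).abs.continuousOn) h4
    obtain ⟨u', hu', k', hk'⟩ := hint t₂ ht₂
    have h5 : |θ w t₂ - θ w₀ t₂| = 1 / 2 := ht₃
    rw [hk'] at h5
    have h6 : |u'| < 1 / 4 := hu'.trans_le (min_le_right _ _)
    rw [abs_lt] at h6
    rcases abs_cases (u' + (k' : ℝ)) with ⟨h7, -⟩ | ⟨h7, -⟩
    · have h8 : (0 : ℝ) < k' := by linarith [h6.1, h6.2]
      have h9 : (k' : ℝ) < 1 := by linarith [h6.1, h6.2]
      have h10 : 0 < k' := by exact_mod_cast h8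
      have h11 : k' < 1 := by exact_mod_cast h9
      omega
    · have h8 : (k' : ℝ) < 0 := by linarith [h6.1, h6.2]
      have h9 : (-1 : ℝ) < k' := by linarith [h6.1, h6.2]
      have h10 : k' < 0 := by exact_mod_cast h8
      have h11 : -1 < k' := by exact_mod_cast h9
      omega
  rw [hk, hk0, Int.cast_zero, add_zero]
  exact hu.trans_le (min_le_left _ _)

theorem theta_cont (hψ : Flw ψ) (hb : CircleBundle ψ p) (h : OrbitMap G ψ θ) (hG : Continuous G) :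
    Continuous fun q : N × ℝ => θ q.1 q.2 := by
  rw [continuous_iff_continuousAt]
  rintro ⟨w₀, t₀⟩
  rw [Metric.continuousAt_iff']
  intro σ hσ
  have h1 := theta_unif hψ hb h hG w₀ (|t₀| + 1) (half_pos hσ)
  have h2 : ∀ᶠ q : N × ℝ in 𝓝 (w₀, t₀), ∀ t ∈ Icc (-(|t₀| + 1)) (|t₀| + 1),
      |θ q.1 t - θ w₀ t| < σ / 2 := (continuous_fst.tendsto (w₀, t₀)).eventually h1
  have h3 : ∀ᶠ q : N × ℝ in 𝓝 (w₀, t₀), |θ w₀ q.2 - θ w₀ t₀| < σ / 2 := by
    have hc : Continuous fun q : N × ℝ => |θ w₀ q.2 - θ w₀ t₀| :=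
      (((h.cont w₀).comp continuous_snd).sub continuous_const).abs
    refine hc.continuousAt.eventually_lt continuousAt_const ?_
    show |θ w₀ t₀ - θ w₀ t₀| < σ / 2
    rw [sub_self, abs_zero]
    exact half_pos hσ
  have h4 : ∀ᶠ q : N × ℝ in 𝓝 (w₀, t₀), |q.2 - t₀| < 1 := by
    have hc : Continuous fun q : N × ℝ => |q.2 - t₀| := (continuous_snd.sub continuous_const).abs
    refine hc.continuousAt.eventually_lt continuousAt_const ?_
    show |t₀ - t₀| < 1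
    rw [sub_self, abs_zero]
    exact one_pos
  filter_upwards [h2, h3, h4] with q hq1 hq2 hq3
  have hq4 : q.2 ∈ Icc (-(|t₀| + 1)) (|t₀| + 1) := by
    rw [abs_lt] at hq3
    constructor
    · linarith [neg_abs_le t₀, hq3.1]
    · linarith [le_abs_self t₀, hq3.2]
  rw [Real.dist_eq]
  have := abs_sub_le (θ q.1 q.2) (θ w₀ q.2) (θ w₀ t₀)
  linarith [hq1 q.2 hq4]

theorem theta_small (hψ : Flw ψ) (hb : CircleBundle ψ p) (h : OrbitMap G ψ θ) (hG : Continuous G)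
    {ζ : ℝ} (hζ : 0 < ζ) : ∃ ξ : ℝ, 0 < ξ ∧ ∀ (w : N) (t : ℝ), |t| ≤ ξ → |θ w t| ≤ ζ := by
  have hc := theta_cont hψ hb h hG
  have h1 : ∀ᶠ t in 𝓝 (0 : ℝ), ∀ w ∈ (univ : Set N), |θ w t| < ζ := by
    refine isCompact_univ.eventually_forall_of_forall_eventually fun w _ => ?_
    have hc' : Continuous fun q : ℝ × N => |θ q.2 q.1| :=
      (hc.comp (continuous_snd.prodMk continuous_fst)).abs
    refine hc'.continuousAt.eventually_lt continuousAt_const ?_
    show |θ w 0| < ζ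
    rw [h.zero, abs_zero]
    exact hζ
  obtain ⟨ξ, hξ, h2⟩ := Metric.eventually_nhds_iff.1 h1
  refine ⟨ξ / 2, half_pos hξ, fun w t ht => (h2 ?_ w (mem_univ w)).le⟩
  rw [Real.dist_eq, sub_zero]
  linarith

theorem theta_low (hψ : Flw ψ) (hb : CircleBundle ψ p) (h : OrbitMap G ψ θ) (hG : Continuous G)
    {τ : ℝ} (hτ : 0 < τ) : ∃ κ : ℝ, 0 < κ ∧ ∀ w : N, κ ≤ θ w τ := by
  rcases isEmpty_or_nonempty N with hN | hN
  · exact ⟨1, one_pos, fun w => (hN.false w).elim⟩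
  have hc : Continuous fun w => θ w τ :=
    (theta_cont hψ hb h hG).comp (continuous_id.prodMk continuous_const)
  obtain ⟨w₀, -, hmin⟩ := isCompact_univ.exists_isMinOn (univ_nonempty (α := N)) hc.continuousOn
  refine ⟨θ w₀ τ, ?_, fun w => hmin (mem_univ w)⟩
  have := h.mono w₀ hτ
  rwa [h.zero] at this

theorem LT_up (hψ : Flw ψ) (hb : CircleBundle ψ p) (h : OrbitMap G ψ θ) (hG : Continuous G)
    (m : ℕ) : ∀ {ζ : ℝ}, 0 < ζ → ∃ ξ : ℝ, 0 < ξ ∧ ∀ (s : ℝ) (w : N) (t τ : ℝ), 0 ≤ τ → τ ≤ ξ →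
      LT G θ s m w (t + τ) - LT G θ s m w t ≤ ζ := by
  induction m with
  | zero =>
    intro ζ hζ
    refine ⟨ζ, hζ, fun s w t τ _ hτ => ?_⟩
    show t + τ - t ≤ ζ
    linarith
  | succ m ih =>
    intro ζ hζ
    obtain ⟨ξ, hξ, h1⟩ := theta_small hψ hb h hG hζ
    obtain ⟨ξ', hξ', h2⟩ := ih hξ
    refine ⟨ξ', hξ', fun s w t τ h0 hτ => ?_⟩
    show s + θ (G^[m] w) (LT G θ s m w (t + τ)) - (s + θ (G^[m] w) (LT G θ s m w t)) ≤ ζ
    have h3 := h2 s w t τ h0 hτ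
    have h4 : 0 ≤ LT G θ s m w (t + τ) - LT G θ s m w t :=
      sub_nonneg.2 ((LT_mono h s m w).monotone (by linarith))
    have e := theta_add hψ hb h (G^[m] w) (LT G θ s m w t)
      (LT G θ s m w (t + τ) - LT G θ s m w t)
    rw [add_sub_cancel] at e
    rw [e]
    have h5 := h1 (ψ (LT G θ s m w t) (G^[m] w)) (LT G θ s m w (t + τ) - LT G θ s m w t)
      (by rw [abs_of_nonneg h4]; exact h3)
    linarith [le_abs_self (θ (ψ (LT G θ s m w t) (G^[m] w))
      (LT G θ s m w (t + τ) - LT G θ s m w t))]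

theorem LT_low (hψ : Flw ψ) (hb : CircleBundle ψ p) (h : OrbitMap G ψ θ) (hG : Continuous G)
    (m : ℕ) : ∀ {τ : ℝ}, 0 < τ → ∃ κ : ℝ, 0 < κ ∧ ∀ (s : ℝ) (w : N) (t : ℝ),
      κ ≤ LT G θ s m w (t + τ) - LT G θ s m w t := by
  induction m with
  | zero =>
    intro τ hτ
    refine ⟨τ, hτ, fun s w t => ?_⟩
    show τ ≤ t + τ - t
    linarith
  | succ m ih =>
    intro τ hτ
    obtain ⟨κ, hκ, h2⟩ := ih hτ
    obtain ⟨κ', hκ', h1⟩ := theta_low hψ hb h hG hκ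
    refine ⟨κ', hκ', fun s w t => ?_⟩
    show κ' ≤ s + θ (G^[m] w) (LT G θ s m w (t + τ)) - (s + θ (G^[m] w) (LT G θ s m w t))
    have e := theta_add hψ hb h (G^[m] w) (LT G θ s m w t)
      (LT G θ s m w (t + τ) - LT G θ s m w t)
    rw [add_sub_cancel] at e
    rw [e]
    have h5 := h1 (ψ (LT G θ s m w t) (G^[m] w))
    have h6 := (h.mono (ψ (LT G θ s m w t) (G^[m] w))).monotone (h2 s w t)
    linarith

theorem LT_joint (hψ : Flw ψ) (hb : CircleBundle ψ p) (h : OrbitMap G ψ θ) (hG : Continuous G)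
    (m : ℕ) : Continuous fun q : (ℝ × ℝ) × N => LT G θ q.1.1 m q.2 q.1.2 := by
  induction m with
  | zero => exact continuous_snd.comp continuous_fst
  | succ m ih =>
    have hc := theta_cont hψ hb h hG
    exact (continuous_fst.comp continuous_fst).add
      (hc.comp (((hG.iterate m).comp continuous_snd).prodMk ih))

end Pool.Agent.J4.H98.Fib
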