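import Pool.Agent.J4.H98.FibA
import Pool.Agent.R774.OS2

/-!
# Maps of circle bundles: lifting closed chains, and closing
-/

set_option autoImplicit false
set_option linter.unusedSectionVars false

open scoped Manifold ContDiff Topology
open Filter Set

universe u v

namespace Pool.Agent.J4.H98.Fib

open Pool.Agent.J4.H98.Orb Pool.Agent.R774.OS Pool.Agent.TH80.OMS Pool.Agent.Y504.CO
open Pool.Agent.H718R2.G
open Pool.Agent.TH290.CL (IsFlow)

/-- `f` has the periodic shadowing property: every closed `δ`-pseudo-orbit of length `m` is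
`η`-traced by a point with `f^m y = y`. -/
def PerShadow {B : Type v} [MetricSpace B] (f : B → B) : Prop :=
  ∀ η : ℝ, 0 < η → ∃ δ : ℝ, 0 < δ ∧ ∀ (m : ℕ) (x : ℕ → B), 1 ≤ m → x m = x 0 →
    (∀ i < m, dist (f (x i)) (x (i + 1)) < δ) → ∃ y, f^[m] y = y ∧ ∀ i < m, dist (f^[i] y) (x i) < η

section chains

variable {N : Type u} {B : Type v} [MetricSpace N] [CompactSpace N] [MetricSpace B]
  {ψ : ℝ → N → N} {p : N → B} {G : N → N} {θ : N → ℝ → ℝ} {f : B → B}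

theorem lift_chain (hψ : Flw ψ) (hb : CircleBundle ψ p) (hG : Continuous G)
    (hf : ∀ z, p (G z) = f (p z)) (hsh : PerShadow f) {σ η : ℝ} (hσ : 0 < σ) (hη : 0 < η) :
    ∃ δ : ℝ, 0 < δ ∧ ∀ (m : ℕ) (X : ℕ → N), 1 ≤ m → p (X m) = p (X 0) →
      (∀ j < m, dist (G (X j)) (X (j + 1)) < δ) → ∃ (w : ℕ → N) (u : ℕ → ℝ),
        (∀ j ≤ m, dist (w j) (X j) < η) ∧ (∀ j < m, |u j| < σ ∧ G (w j) = ψ (u j) (w (j + 1))) ∧
        p (w m) = p (w 0) := by
  obtain ⟨η₁, hη₁, htime⟩ := time_of_near hψ hb hσ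
  obtain ⟨η₂, hη₂, hGu⟩ := unif hG (show (0 : ℝ) < η₁ / 3 by positivity)
  have hη₃ : 0 < min η (min (η₁ / 3) η₂) := by positivity
  obtain ⟨δ₂, hδ₂, hlift⟩ := lift_near hψ hb hη₃
  obtain ⟨δ₃, hδ₃, hshad⟩ := hsh δ₂ hδ₂
  have hpu : ∃ δ > 0, ∀ a b : N, dist a b < δ → dist (p a) (p b) < δ₃ := by
    have h1 := CompactSpace.uniformContinuous_of_continuous hb.cont
    obtain ⟨δ, hδ, h⟩ := Metric.uniformContinuous_iff.1 h1 δ₃ hδ₃
    exact ⟨δ, hδ, fun a b hab => h hab⟩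
  obtain ⟨δ₄, hδ₄, hpu⟩ := hpu
  refine ⟨min δ₄ (η₁ / 3), by positivity, fun m X hm hX hch => ?_⟩
  obtain ⟨y, hy, hyc⟩ := hshad m (fun j => p (X j)) hm hX (fun i hi => by
    rw [← hf]
    exact hpu _ _ ((hch i hi).trans_le (min_le_left _ _)))
  have hyc' : ∀ j ≤ m, dist (f^[j] y) (p (X j)) < δ₂ := by
    intro j hj
    rcases hj.lt_or_eq with h1 | h1
    · exact hyc j h1
    · rw [h1, hy, hX]
      exact hyc 0 (by omega)
  have hex : ∀ j : ℕ, ∃ w : N, j ≤ m → p w = f^[j] y ∧ dist w (X j) < min η (min (η₁ / 3) η₂) := by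
    intro j
    by_cases hj : j ≤ m
    · obtain ⟨w, h1, h2⟩ := hlift (X j) (f^[j] y) (hyc' j hj)
      exact ⟨w, fun _ => ⟨h1, h2⟩⟩
    · exact ⟨X j, fun h => absurd h hj⟩
  choose w hw using hex
  have hu : ∀ j : ℕ, ∃ u : ℝ, j < m → |u| < σ ∧ G (w j) = ψ u (w (j + 1)) := by
    intro j
    by_cases hj : j < m
    · obtain ⟨h1, h2⟩ := hw j hj.le
      obtain ⟨h3, h4⟩ := hw (j + 1) hj
      have e : p (w (j + 1)) = p (G (w j)) := by
        rw [h3, hf, h1, Function.iterate_succ_apply']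
      have d1 : dist (G (w j)) (G (X j)) < η₁ / 3 :=
        hGu _ _ (h2.trans_le ((min_le_right _ _).trans (min_le_right _ _)))
      have d2 : dist (G (X j)) (X (j + 1)) < η₁ / 3 := (hch j hj).trans_le (min_le_right _ _)
      have d3 : dist (X (j + 1)) (w (j + 1)) < η₁ / 3 := by
        rw [dist_comm]
        exact h4.trans_le ((min_le_right _ _).trans (min_le_left _ _))
      have d4 := dist_triangle4 (G (w j)) (G (X j)) (X (j + 1)) (w (j + 1))
      obtain ⟨u, hu1, hu2⟩ := htime (w (j + 1)) (G (w j)) e (by linarith)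
      exact ⟨u, fun _ => ⟨hu1, hu2⟩⟩
    · exact ⟨0, fun h => absurd h hj⟩
  choose u hu using hu
  refine ⟨w, u, fun j hj => (hw j hj).2.trans_le (min_le_left _ _), hu, ?_⟩
  rw [(hw m le_rfl).1, (hw 0 (Nat.zero_le _)).1, hy]
  rfl

/-- positions along a chain of fibres -/
def run (θ : N → ℝ → ℝ) (w : ℕ → N) (u : ℕ → ℝ) (s : ℝ) (a : ℕ) : ℕ → ℝ → ℝ
  | 0, t => t
  | j + 1, t => s + u (a + j) + θ (w (a + j)) (run θ w u s a j t)

variable {w : ℕ → N} {u : ℕ → ℝ}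

theorem run_apply (hψ : Flw ψ) (h : OrbitMap G ψ θ) (s : ℝ) (a j : ℕ)
    (hc : ∀ i < j, G (w (a + i)) = ψ (u (a + i)) (w (a + i + 1))) (t : ℝ) :
    (fun y => ψ s (G y))^[j] (ψ t (w a)) = ψ (run θ w u s a j t) (w (a + j)) := by
  induction j with
  | zero => rfl
  | succ j ih =>
    rw [Function.iterate_succ_apply', ih fun i hi => hc i (by omega)]
    show ψ s (G (ψ (run θ w u s a j t) (w (a + j)))) = _
    rw [h.eq, hc j (Nat.lt_succ_self j), ← hψ.add, ← hψ.add]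
    show _ = ψ (s + u (a + j) + θ (w (a + j)) (run θ w u s a j t)) (w (a + j + 1))
    congr 1
    ring

theorem run_mono (h : OrbitMap G ψ θ) (s : ℝ) (a j : ℕ) : StrictMono (run θ w u s a j) := by
  induction j with
  | zero => exact fun _ _ h => h
  | succ j ih =>
    intro t t' htt
    show s + u (a + j) + θ (w (a + j)) (run θ w u s a j t) <
      s + u (a + j) + θ (w (a + j)) (run θ w u s a j t')
    have := h.mono (w (a + j)) (ih htt)
    linarith

theorem run_cont (h : OrbitMap G ψ θ) (a j : ℕ) :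
    Continuous fun q : ℝ × ℝ => run θ w u q.1 a j q.2 := by
  induction j with
  | zero => exact continuous_snd
  | succ j ih => exact (continuous_fst.add continuous_const).add ((h.cont (w (a + j))).comp ih)

/-- pushing up -/
theorem run_pos (h : OrbitMap G ψ θ) {s : ℝ} {a j : ℕ} {β : ℝ} (hβ : 0 ≤ β)
    (hu : ∀ i < j, β ≤ s + u (a + i)) {t : ℝ} (ht : 0 ≤ t) (hj : 1 ≤ j) :
    β ≤ run θ w u s a j t := by
  have key : ∀ j, (∀ i < j, β ≤ s + u (a + i)) → 0 ≤ run θ w u s a j t ∧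
      (1 ≤ j → β ≤ run θ w u s a j t) := by
    intro j
    induction j with
    | zero => exact fun _ => ⟨ht, fun h => absurd h (by omega)⟩
    | succ j ih =>
      intro hu'
      have h1 := (ih fun i hi => hu' i (by omega)).1
      have h2 := (h.mono (w (a + j))).monotone h1
      rw [h.zero] at h2
      have h3 := hu' j (Nat.lt_succ_self j)
      have h4 : β ≤ s + u (a + j) + θ (w (a + j)) (run θ w u s a j t) := by linarith
      exact ⟨hβ.trans h4, fun _ => h4⟩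
  exact (key j hu).2 hj

/-- pushing down -/
theorem run_neg (h : OrbitMap G ψ θ) {s : ℝ} {a j : ℕ} {β : ℝ} (hβ : 0 ≤ β)
    (hu : ∀ i < j, s + u (a + i) ≤ -β) {t : ℝ} (ht : t ≤ 0) (hj : 1 ≤ j) :
    run θ w u s a j t ≤ -β := by
  have key : ∀ j, (∀ i < j, s + u (a + i) ≤ -β) → run θ w u s a j t ≤ 0 ∧
      (1 ≤ j → run θ w u s a j t ≤ -β) := by
    intro j
    induction j with
    | zero => exact fun _ => ⟨ht, fun h => absurd h (by omega)⟩
    | succ j ih =>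
      intro hu'
      have h1 := (ih fun i hi => hu' i (by omega)).1
      have h2 := (h.mono (w (a + j))).monotone h1
      rw [h.zero] at h2
      have h3 := hu' j (Nat.lt_succ_self j)
      have h4 : s + u (a + j) + θ (w (a + j)) (run θ w u s a j t) ≤ -β := by linarith
      exact ⟨h4.trans (by linarith), fun _ => h4⟩
  exact (key j hu).2 hj

/-- the closing lemma: a small push along the fibres closes chain recurrent orbits -/
theorem closing (hψ : Flw ψ) (hb : CircleBundle ψ p) (hG : Continuous G)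
    (h : OrbitMap G ψ θ) (hf : ∀ z, p (G z) = f (p z)) (hsh : PerShadow f) {z : N}
    (hz : z ∈ CR G) {O : Set N} (hO : O ∈ 𝓝 z) {s₀ : ℝ} (hs₀ : 0 < s₀) :
    ∃ s : ℝ, |s| ≤ s₀ ∧ ∃ w ∈ O, w ∈ Per (fun y => ψ s (G y)) := by
  obtain ⟨ρ, hρ, hρO⟩ := Metric.mem_nhds_iff.1 hO
  obtain ⟨η₁, hη₁, htime⟩ := time_of_near hψ hb (show (0 : ℝ) < s₀ / 3 by positivity)
  obtain ⟨δ, hδ, hch⟩ := lift_chain hψ hb hG hf hsh (show (0 : ℝ) < s₀ / 3 by positivity)
    (lt_min hρ (half_pos hη₁))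
  obtain ⟨m, X, hm, hX0, hXm, hX⟩ := mem_CR.1 hz δ hδ
  have hXm' : X m = X 0 := by
    have := hXm 0
    rwa [zero_add] at this
  obtain ⟨w, u, hw, hu, hwm⟩ := hch m X hm (by rw [hXm']) (fun j _ => hX j)
  have hd : dist (w m) (w 0) < η₁ := by
    have h1 := hw m le_rfl
    have h2 := hw 0 (Nat.zero_le _)
    have h3 := dist_triangle_right (w m) (w 0) (X 0)
    rw [hXm'] at h1
    have h4 := min_le_right ρ (η₁ / 2)
    linarith
  obtain ⟨c, hc, hwc⟩ := htime (w 0) (w m) hwm.symm hd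
  have hret : ∀ s t, (fun y => ψ s (G y))^[m] (ψ t (w 0)) = ψ (run θ w u s 0 m t + c) (w 0) := by
    intro s t
    have h1 := run_apply (θ := θ) (w := w) (u := u) hψ h s 0 m
      (fun i hi => by rw [zero_add]; exact (hu i hi).2) t
    rw [zero_add, hwc, ← hψ.add] at h1
    exact h1
  have hcont : ContinuousOn (fun s => run θ w u s 0 m 0 + c) (Icc (-s₀) s₀) :=
    (((run_cont h 0 m).comp (continuous_id.prodMk continuous_const)).add
      continuous_const).continuousOn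
  rw [abs_lt] at hc
  have hpos : 0 ≤ run θ w u s₀ 0 m 0 + c := by
    have := run_pos (w := w) h (β := 2 * s₀ / 3) (by positivity) (s := s₀) (a := 0) (j := m) (u := u)
      (fun i hi => by
        have := abs_lt.1 (hu i hi).1
        rw [zero_add]
        linarith [this.1]) le_rfl hm
    linarith [hc.1]
  have hneg : run θ w u (-s₀) 0 m 0 + c ≤ 0 := by
    have := run_neg (w := w) h (β := 2 * s₀ / 3) (by positivity) (s := -s₀) (a := 0) (j := m)
      (u := u) (fun i hi => by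
        have := abs_lt.1 (hu i hi).1
        rw [zero_add]
        linarith [this.2]) le_rfl hm
    linarith [hc.2]
  obtain ⟨s, hs, hs'⟩ := intermediate_value_Icc (by linarith : -s₀ ≤ s₀) hcont ⟨hneg, hpos⟩
  refine ⟨s, abs_le.2 hs, w 0, hρO ?_, m, hm, ?_⟩
  · have h2 := hw 0 (Nat.zero_le _)
    rw [hX0] at h2
    exact h2.trans_le (min_le_left _ _)
  · have h1 := hret s 0
    rw [hψ.zero] at h1
    have hs'' : run θ w u s 0 m 0 + c = 0 := hs'
    rw [h1, hs'', hψ.zero]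

end chains

theorem sign_of_deriv {e : ℝ → ℝ} {d : ℝ} (he : HasDerivAt e d 0) (h0 : e 0 = 0) (hd : 0 < d)
    {ρ : ℝ} (hρ : 0 < ρ) : ∃ t₁ t₂ : ℝ, -ρ < t₁ ∧ t₁ < 0 ∧ 0 < t₂ ∧ t₂ < ρ ∧ e t₁ < 0 ∧ 0 < e t₂ := by
  have h1 := hasDerivAt_iff_tendsto_slope_zero.1 he
  have h2 : ∀ᶠ t in 𝓝[≠] (0 : ℝ), 0 < t⁻¹ • (e (0 + t) - e 0) := h1.eventually_const_lt hd
  have hr : ∀ᶠ t in 𝓝[>] (0 : ℝ), 0 < t⁻¹ • (e (0 + t) - e 0) :=
    h2.filter_mono (nhdsWithin_mono _ fun x (hx : 0 < x) => hx.ne')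
  have hl : ∀ᶠ t in 𝓝[<] (0 : ℝ), 0 < t⁻¹ • (e (0 + t) - e 0) :=
    h2.filter_mono (nhdsWithin_mono _ fun x (hx : x < 0) => hx.ne)
  obtain ⟨t₂, h3, h4⟩ := (hr.and (Ioo_mem_nhdsGT hρ)).exists
  obtain ⟨t₁, h5, h6⟩ := (hl.and (Ioo_mem_nhdsLT (neg_lt_zero.2 hρ))).exists
  rw [zero_add, h0, sub_zero, smul_eq_mul] at h3 h5
  refine ⟨t₁, t₂, h6.1, h6.2, h4.1, h4.2, ?_, ?_⟩
  · by_contra hcon
    push Not at hcon
    have : t₁⁻¹ * e t₁ ≤ 0 := mul_nonpos_of_nonpos_of_nonneg (inv_nonpos.2 h6.2.le) hcon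
    linarith
  · by_contra hcon
    push Not at hcon
    have : t₂⁻¹ * e t₂ ≤ 0 := mul_nonpos_of_nonneg_of_nonpos (inv_nonneg.2 h4.1.le) hcon
    linarith

/-- zeros with nonzero derivative persist -/
theorem zero_persist {e : ℝ → ℝ → ℝ} (hc : Continuous fun q : ℝ × ℝ => e q.1 q.2) {d : ℝ}
    (he : HasDerivAt (e 0) d 0) (h0 : e 0 0 = 0) (hd : d ≠ 0) {ρ : ℝ} (hρ : 0 < ρ) :
    ∀ᶠ s in 𝓝 (0 : ℝ), ∃ t, |t| < ρ ∧ e s t = 0 := by
  have key : ∀ (e : ℝ → ℝ → ℝ) (d : ℝ), (Continuous fun q : ℝ × ℝ => e q.1 q.2) →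
      HasDerivAt (e 0) d 0 → e 0 0 = 0 → 0 < d → ∀ᶠ s in 𝓝 (0 : ℝ), ∃ t, |t| < ρ ∧ e s t = 0 := by
    intro e d hc he h0 hd
    obtain ⟨t₁, t₂, h1, h2, h3, h4, h5, h6⟩ := sign_of_deriv he h0 hd hρ
    have c1 : ∀ t, Continuous fun s => e s t := fun t =>
      hc.comp (continuous_id.prodMk continuous_const)
    have e1 : ∀ᶠ s in 𝓝 (0 : ℝ), e s t₁ < 0 :=
      (c1 t₁).continuousAt.eventually_lt continuousAt_const h5
    have e2 : ∀ᶠ s in 𝓝 (0 : ℝ), 0 < e s t₂ :=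
      continuousAt_const.eventually_lt (c1 t₂).continuousAt h6
    filter_upwards [e1, e2] with s hs1 hs2
    have hct : Continuous (e s) := hc.comp (continuous_const.prodMk continuous_id)
    obtain ⟨t, ht, ht'⟩ := intermediate_value_Icc (by linarith : t₁ ≤ t₂) hct.continuousOn
      ⟨hs1.le, hs2.le⟩
    refine ⟨t, abs_lt.2 ⟨by linarith [ht.1], by linarith [ht.2]⟩, ht'⟩
  rcases lt_or_gt_of_ne hd with h1 | h1
  · have := key (fun s t => -e s t) (-d) hc.neg he.neg (by simp [h0]) (neg_pos.2 h1)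
    filter_upwards [this] with s hs
    obtain ⟨t, ht, ht'⟩ := hs
    exact ⟨t, ht, neg_eq_zero.1 ht'⟩
  · exact key e d hc he h0 h1

variable {n : ℕ} {N : Type u} [TopologicalSpace N] [ChartedSpace (V n) N] [IsManifold (𝓡 n) ∞ N]
  [T2Space N]

theorem persist {G : N → N} {ψ : ℝ → N → N} {θ : N → ℝ → ℝ} {κ : ℝ} (hκ : 0 < κ)
    (hψ : IsFlow n N ψ) (h : OrbitMap G ψ θ) (hyp : AllHyp n G ψ κ)
    {w : N} (hnf : ∃ t, ψ t w ≠ w) (hw : w ∈ Per G) {O : Set N} (hO : O ∈ 𝓝 w) :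
    ∀ᶠ s in 𝓝 (0 : ℝ), ∃ w' ∈ O, w' ∈ Per (fun y => ψ s (G y)) := by
  obtain ⟨m, hm, hwm⟩ := hw
  have hz : G^[m] w = ψ 0 w := by rw [hwm, hψ.zero]
  have h00 : LT G θ 0 m w 0 = 0 := by
    have key : ∀ k, LT G θ 0 k w 0 = 0 := by
      intro k
      induction k with
      | zero => rfl
      | succ k ih =>
        show 0 + θ (G^[k] w) (LT G θ 0 k w 0) = 0
        rw [ih, h.zero, add_zero]
    exact key m
  obtain ⟨κ', hκ', hd⟩ := ret_hyp hψ h hyp hm hnf hz (s := 0) (by rwa [abs_zero]) le_rfl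
    (d := 0) (hψ.zero w) (t := 0) (by
      show LT G θ 0 m w 0 + 0 = 0 + 0
      rw [h00])
  have hd' : HasDerivAt (fun t => LT G θ 0 m w t - t) (κ' - 1) 0 := by
    have h1 : HasDerivAt (fun t => LT G θ 0 m w t + 0) κ' 0 := hd
    simp only [add_zero] at h1
    exact h1.sub (hasDerivAt_id 0)
  have hcont := flow_cont hψ w
  have hev : ∀ᶠ t in 𝓝 (0 : ℝ), ψ t w ∈ O :=
    hcont.continuousAt (by show O ∈ 𝓝 (ψ 0 w); rw [hψ.zero]; exact hO)
  obtain ⟨ρ, hρ, hρO⟩ := Metric.eventually_nhds_iff.1 hev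
  have := zero_persist (e := fun s t => LT G θ s m w t - t)
    ((LT_cont h m w).sub continuous_snd) hd' (by show LT G θ 0 m w 0 - 0 = 0; rw [h00, sub_zero])
    (sub_ne_zero.2 hκ') hρ
  filter_upwards [this] with s hs
  obtain ⟨t, ht, ht'⟩ := hs
  refine ⟨ψ t w, hρO (by rw [Real.dist_eq, sub_zero]; exact ht), m, hm, ?_⟩
  rw [ret hψ.add h hz s t]
  have ht'' : LT G θ s m w t - t = 0 := ht'
  rw [add_zero, sub_eq_zero.1 ht'']

end Pool.Agent.J4.H98.Fib
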