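import Pool.Agent.J4.H98.FibB

/-!
# Maps of circle bundles: density of the periodic points
-/

set_option autoImplicit false
set_option linter.unusedSectionVars false

open scoped Manifold ContDiff Topology
open Filter Set

universe u v

namespace Pool.Agent.J4.H98.Fib

open Pool.Agent.J4.H98.Orb Pool.Agent.R774.OS Pool.Agent.TH80.OMS Pool.Agent.Y504.CO
open Pool.Agent.TH80.CLX
open Pool.Agent.H718R2.G
open Pool.Agent.N102.UF (flow_fam)
open Pool.Agent.TH290.CL (IsFlow)

variable {n : ℕ} {N : Type u} [TopologicalSpace N] [ChartedSpace (V n) N] [IsManifold (𝓡 n) ∞ N]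
  [T2Space N] [CompactSpace N] {B : Type v} [MetricSpace B]

theorem flw {ψ : ℝ → N → N} (hψ : IsFlow n N ψ) : Flw ψ :=
  ⟨hψ.smooth.continuous, hψ.zero, hψ.add⟩

theorem moves {ψ : ℝ → N → N} {p : N → B} (hb : CircleBundle ψ p) (z : N) : ∃ t, ψ t z ≠ z := by
  refine ⟨1 / 2, fun he => ?_⟩
  obtain ⟨k, hk⟩ := (hb.free z _).1 he
  have h2 : ((2 * k : ℤ) : ℝ) = ((1 : ℤ) : ℝ) := by push_cast; linarith
  have h3 : 2 * k = 1 := by exact_mod_cast h2
  omega

theorem per_sub_CR {N : Type u} [MetricSpace N] [CompactSpace N] {G : N → N}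
    (hG : Continuous G) : closure (Per G) ⊆ CR G := by
  rw [(isClosed_CR hG).closure_subset_iff]
  rintro q ⟨k', hk', hp⟩
  exact omega_CR hG (per_mem_omega hk' hp)

theorem generic (r : ℕ∞) (hr : 1 ≤ r) (F : DiffM n N r) (hF : OmegaStable n N r F)
    {ψ : ℝ → N → N} (hψ : IsFlow n N ψ) {θ : N → ℝ → ℝ} (hθ : OrbitMap (F : N → N) ψ θ)
    {p : N → B} (hb : CircleBundle ψ p) {f : B → B} (hf : ∀ z, p (F z) = f (p z))
    (hsh : PerShadow f) :
    ∃ ε : ℝ, 0 < ε ∧ ∀ᶠ s in residual ℝ, |s| < ε →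
      CR (fun y => ψ s (F y)) = closure (Per (fun y => ψ s (F y))) := by
  rcases isEmpty_or_nonempty N with hN | ⟨⟨z₀⟩⟩
  · refine ⟨1, one_pos, Eventually.of_forall fun s _ => ?_⟩
    ext x
    exact (hN.false x).elim
  have : SecondCountableTopology N := ChartedSpace.secondCountable_of_sigmaCompact (V n) N
  let _ : MetricSpace N := TopologicalSpace.metrizableSpaceMetric N
  have hψ' := flw hψ
  obtain ⟨κ, hκ, hyp⟩ := all_hyp r hr F hF hψ z₀
  have hcs : ∀ s, Continuous (fun y => ψ s (F y)) := fun s =>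
    hψ'.cont.comp (continuous_const.prodMk F.continuous)
  have hpush : ∀ s s' : ℝ, (fun y => ψ s' (ψ s (F y))) = fun y => ψ (s' + s) (F y) := by
    intro s s'
    funext y
    rw [hψ.add]
  have hfib : ∀ s z, p (ψ s (F z)) = f (p z) := by
    intro s z
    rw [← hf]
    exact ((hb.fib _ _).2 ⟨s, rfl⟩).symm
  obtain ⟨A, hA⟩ : ∃ A : Set N → Set ℝ, ∀ O s, s ∈ A O ↔ |s| < κ / 2 ∧
      ∃ w ∈ O, w ∈ Per (fun y => ψ s (F y)) := ⟨fun O => {s | |s| < κ / 2 ∧
        ∃ w ∈ O, w ∈ Per (fun y => ψ s (F y))}, fun _ _ => Iff.rfl⟩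
  have hAo : ∀ O, IsOpen O → IsOpen (A O) := by
    intro O hO
    rw [isOpen_iff_mem_nhds]
    intro s hs
    obtain ⟨hs1, w, hwO, hw⟩ := (hA O s).1 hs
    have h1 := persist (half_pos hκ) hψ (hθ.push hψ s) (hyp.shift hψ hs1) (moves hb w) hw
      (hO.mem_nhds hwO)
    have h2 : ∀ᶠ s' in 𝓝 s, ∃ w' ∈ O, w' ∈ Per (fun y => ψ s' (F y)) := by
      have h3 : Tendsto (fun s' => s' - s) (𝓝 s) (𝓝 0) := by
        have h3c : Continuous fun s' : ℝ => s' - s := continuous_id.sub continuous_const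
        have := h3c.tendsto s
        rwa [sub_self] at this
      have h4 := h3.eventually h1
      filter_upwards [h4] with s' hs'
      have e := hpush s (s' - s)
      rw [sub_add_cancel] at e
      rw [← e]
      exact hs'
    have h5 : ∀ᶠ s' in 𝓝 s, |s'| < κ / 2 := continuous_abs.continuousAt.eventually_lt
      continuousAt_const hs1
    filter_upwards [h2, h5] with s' h6 h7
    exact (hA O s').2 ⟨h7, h6⟩
  obtain ⟨𝓑, hcount, -, hbas⟩ := TopologicalSpace.exists_countable_basis N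
  have hres : ∀ᶠ s in residual ℝ, ∀ O ∈ 𝓑, s ∈ A O ∪ (closure (A O))ᶜ := by
    rw [eventually_countable_ball hcount]
    intro O hO
    have ho : IsOpen (A O ∪ (closure (A O))ᶜ) :=
      (hAo O (hbas.isOpen hO)).union isClosed_closure.isOpen_compl
    refine residual_of_dense_open ho ?_
    intro s
    by_cases hs : s ∈ closure (A O)
    · exact closure_mono subset_union_left hs
    · exact subset_closure (Or.inr hs)
  refine ⟨κ / 2, half_pos hκ, ?_⟩
  filter_upwards [hres] with s hs hsκ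
  refine Subset.antisymm (fun z hz => ?_) (per_sub_CR (hcs s))
  rw [mem_closure_iff_nhds_basis (hbas.nhds_hasBasis (a := z))]
  rintro O ⟨hO, hzO⟩
  have hcl : s ∈ closure (A O) := by
    rw [Metric.mem_closure_iff]
    intro ε hε
    obtain ⟨s', hs', w, hwO, hw⟩ := closing hψ' hb (hcs s) (hθ.push hψ s) (hfib s) hsh hz
      ((hbas.isOpen hO).mem_nhds hzO) (s₀ := min (ε / 2) ((κ / 2 - |s|) / 2))
      (lt_min (half_pos hε) (by linarith))
    rw [hpush] at hw
    have h1 : |s'| ≤ ε / 2 := hs'.trans (min_le_left _ _)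
    have h2 : |s'| ≤ (κ / 2 - |s|) / 2 := hs'.trans (min_le_right _ _)
    refine ⟨s' + s, (hA O _).2 ⟨?_, w, hwO, hw⟩, ?_⟩
    · have := abs_add_le s' s
      linarith
    · rw [Real.dist_eq, show s - (s' + s) = -s' by ring, abs_neg]
      linarith
  rcases hs O hO with h1 | h1
  · obtain ⟨-, w, hwO, hw⟩ := (hA O s).1 h1
    exact ⟨w, hw, hwO⟩
  · exact absurd hcl h1

theorem closure_per_sub {G : N → N} : closure (Per G) ⊆ Omega G := by
  have hcl : IsClosed (Omega G) := by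
    rw [← isOpen_compl_iff, isOpen_iff_mem_nhds]
    intro x hx
    have hx' : ¬ ∀ W : Set N, IsOpen W → x ∈ W → ∃ k : ℕ, 1 ≤ k ∧ ∃ y ∈ W, G^[k] y ∈ W := hx
    push Not at hx'
    obtain ⟨W, hW, hxW, h⟩ := hx'
    filter_upwards [hW.mem_nhds hxW] with y hy hcon
    obtain ⟨k', hk', w, hw, hw'⟩ := hcon W hW hy
    exact h k' hk' w hw hw'
  rw [hcl.closure_subset_iff]
  rintro q ⟨k', hk', hp⟩
  exact per_mem_omega hk' hp

/-- `Ω`-conjugacies transport the density of periodic points -/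
theorem dense_of_conj {F G : N → N} (hF : Continuous F) (hG : Continuous G)
    (h : Omega F ≃ₜ Omega G) (hh : ∀ x y : Omega F, F x = y → G (h x) = h y)
    (hd : Omega G ⊆ closure (Per G)) : Omega F ⊆ closure (Per F) := by
  intro x hx
  rw [mem_closure_iff_nhds]
  intro W hW
  have h1 : (h (⟨x, hx⟩ : Omega F) : N) ∈ closure (Per G) := hd (h ⟨x, hx⟩).2
  have hcs : Continuous (h.symm : Omega G → Omega F) := h.symm.continuous
  have hcs2 : Continuous fun y : Omega G => ((h.symm y : Omega F) : N) :=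
    continuous_subtype_val.comp hcs
  have h2 : ∀ᶠ y : Omega G in 𝓝 (h ⟨x, hx⟩), ((h.symm y : Omega F) : N) ∈ W := by
    refine hcs2.continuousAt ?_
    rw [h.symm_apply_apply]
    exact hW
  rw [nhds_subtype_eq_comap] at h2
  obtain ⟨W', hW', hsub⟩ := mem_comap.1 h2
  obtain ⟨q, hqW, hq⟩ := mem_closure_iff_nhds.1 h1 W' hW'
  obtain ⟨m, hm, hqm⟩ := hq
  have hqO : q ∈ Omega G := per_mem_omega hm hqm
  have h3 : ((h.symm ⟨q, hqO⟩ : Omega F) : N) ∈ W := hsub (a := ⟨q, hqO⟩) hqW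
  exact ⟨_, h3, m, hm, conj_iter hG h.symm (conj_symm hF h hh) m ⟨q, hqO⟩ ⟨q, hqO⟩ hqm⟩

/-- density of the periodic points in the nonwandering set -/
theorem dense (r : ℕ∞) (hr : 1 ≤ r) (F : DiffM n N r) (hF : OmegaStable n N r F)
    {ψ : ℝ → N → N} (hψ : IsFlow n N ψ) {θ : N → ℝ → ℝ} (hθ : OrbitMap (F : N → N) ψ θ)
    {p : N → B} (hb : CircleBundle ψ p) {f : B → B} (hf : ∀ z, p (F z) = f (p z))
    (hsh : PerShadow f) : Omega (F : N → N) = closure (Per (F : N → N)) := by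
  refine Subset.antisymm ?_ closure_per_sub
  rcases isEmpty_or_nonempty N with hN | ⟨⟨z₀⟩⟩
  · intro x
    exact (hN.false x).elim
  obtain ⟨ε, hε, hgen⟩ := generic r hr F hF hψ hθ hb hf hsh
  obtain ⟨U, hU, hFU, hconj⟩ := hF
  obtain ⟨H, hfam, hH, hH0⟩ := flow_fam hψ r F
  obtain ⟨κ, hκ, hmem⟩ := fam_mem r hr H hfam z₀ U hU (by rw [hH0]; exact hFU)
  have hd : Dense {s : ℝ | |s| < ε → CR (fun y => ψ s (F y)) =
      closure (Per (fun y => ψ s (F y)))} := dense_of_mem_residual hgen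
  obtain ⟨s, hs, hs'⟩ := hd.exists_mem_open (Metric.isOpen_ball (x := (0 : ℝ)) (ε := min ε κ))
    ⟨0, Metric.mem_ball_self (lt_min hε hκ)⟩
  rw [mem_ball_zero_iff, Real.norm_eq_abs] at hs'
  have h1 : CR (fun y => ψ s (F y)) = closure (Per (fun y => ψ s (F y))) :=
    hs (hs'.trans_le (min_le_left _ _))
  have hG := hmem s (by rw [Real.norm_eq_abs]; exact hs'.trans_le (min_le_right _ _))
  obtain ⟨h, hh⟩ := hconj _ hG
  have e : (H s : N → N) = fun y => ψ s (F y) := by
    funext y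
    exact hH s y
  refine dense_of_conj F.continuous (H s).continuous h hh ?_
  rw [e, ← h1]
  have hc : Continuous fun y => ψ s (F y) :=
    (flw hψ).cont.comp (continuous_const.prodMk F.continuous)
  have : SecondCountableTopology N := ChartedSpace.secondCountable_of_sigmaCompact (V n) N
  let _ : MetricSpace N := TopologicalSpace.metrizableSpaceMetric N
  exact fun x hx => omega_CR hc hx

end Pool.Agent.J4.H98.Fib
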