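import Mathlib

/-!
# Compositions of monotone maps of the line with many loops: two close fixed points
-/

set_option autoImplicit false

open Filter Set Topology

namespace Pool.Agent.J4.H98.Fib

/-- A loop: an increasing map of the line for each parameter `s`, with an attracting point near `0`
and the next repelling point near `ϱ > 0`. -/
structure Loop (σ₀ κ ϱ lam mu β β' : ℝ) (ℓ : ℝ → ℝ → ℝ) : Prop where
  cont : Continuous fun q : ℝ × ℝ => ℓ q.1 q.2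
  mono : ∀ s, StrictMono (ℓ s)
  t1 : ∀ s, |s| ≤ σ₀ → ℓ s κ ≤ κ
  t2 : ∀ s, |s| ≤ σ₀ → -κ ≤ ℓ s (-κ)
  con : ∀ s, |s| ≤ σ₀ → ∀ t t', -κ ≤ t → t ≤ t' → t' ≤ κ → ℓ s t' - ℓ s t ≤ lam * (t' - t)
  down : ∀ s, |s| ≤ σ₀ → ∀ t, κ ≤ t → t ≤ ϱ - κ → ℓ s t ≤ t - β'
  exp : ∀ s, |s| ≤ σ₀ → ∀ t t', ϱ - κ ≤ t → t ≤ t' → t' ≤ ϱ + κ → mu * (t' - t) ≤ ℓ s t' - ℓ s t
  t3 : ∀ s, |s| ≤ σ₀ → ϱ + κ ≤ ℓ s (ϱ + κ)
  lo : ∀ t, 0 ≤ t → t ≤ ϱ → ℓ (-σ₀) t ≤ t - β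
  hi0 : 0 ≤ ℓ σ₀ 0
  hi1 : ϱ ≤ ℓ σ₀ ϱ

/-- compositions -/
def comps (ℓ : ℕ → ℝ → ℝ → ℝ) (s : ℝ) (a : ℕ) : ℕ → ℝ → ℝ
  | 0, t => t
  | j + 1, t => ℓ (a + j) s (comps ℓ s a j t)

section comps

variable {ℓ : ℕ → ℝ → ℝ → ℝ}

theorem comps_add (s : ℝ) (a i j : ℕ) (t : ℝ) :
    comps ℓ s a (i + j) t = comps ℓ s (a + i) j (comps ℓ s a i t) := by
  induction j with
  | zero => rfl
  | succ j ih =>
    show ℓ (a + (i + j)) s (comps ℓ s a (i + j) t) = ℓ (a + i + j) s _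
    rw [ih, Nat.add_assoc]

variable {σ₀ κ ϱ lam mu β β' : ℝ} {a n : ℕ}

theorem comps_cont {j : ℕ} (h : ∀ i < j, Continuous fun q : ℝ × ℝ => ℓ (a + i) q.1 q.2) :
    Continuous fun q : ℝ × ℝ => comps ℓ q.1 a j q.2 := by
  induction j with
  | zero => exact continuous_snd
  | succ j ih =>
    exact (h j (Nat.lt_succ_self j)).comp (continuous_fst.prodMk (ih fun i hi => h i (by omega)))

theorem comps_mono {j : ℕ} {s : ℝ} (h : ∀ i < j, StrictMono (ℓ (a + i) s)) :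
    StrictMono (comps ℓ s a j) := by
  induction j with
  | zero => exact fun _ _ h => h
  | succ j ih =>
    exact fun t t' htt => h j (Nat.lt_succ_self j) (ih (fun i hi => h i (by omega)) htt)

theorem f1 {j : ℕ} {s : ℝ} (hs : |s| ≤ σ₀)
    (h : ∀ i < j, Loop σ₀ κ ϱ lam mu β β' (ℓ (a + i))) {t : ℝ} (ht : t ≤ κ) :
    comps ℓ s a j t ≤ κ := by
  induction j with
  | zero => exact ht
  | succ j ih =>
    have hj := h j (Nat.lt_succ_self j)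
    exact ((hj.mono s).monotone (ih fun i hi => h i (by omega))).trans (hj.t1 s hs)

theorem f2 {j : ℕ} {s : ℝ} (hs : |s| ≤ σ₀)
    (h : ∀ i < j, Loop σ₀ κ ϱ lam mu β β' (ℓ (a + i))) {t : ℝ} (ht : -κ ≤ t) :
    -κ ≤ comps ℓ s a j t := by
  induction j with
  | zero => exact ht
  | succ j ih =>
    have hj := h j (Nat.lt_succ_self j)
    exact (hj.t2 s hs).trans ((hj.mono s).monotone (ih fun i hi => h i (by omega)))

theorem f3 {j : ℕ} {s : ℝ} (hs : |s| ≤ σ₀)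
    (h : ∀ i < j, Loop σ₀ κ ϱ lam mu β β' (ℓ (a + i))) {t : ℝ} (ht : ϱ + κ ≤ t) :
    ϱ + κ ≤ comps ℓ s a j t := by
  induction j with
  | zero => exact ht
  | succ j ih =>
    have hj := h j (Nat.lt_succ_self j)
    exact (hj.t3 s hs).trans ((hj.mono s).monotone (ih fun i hi => h i (by omega)))

theorem f4 {j : ℕ} {s : ℝ} (hs : |s| ≤ σ₀) (hlam : 0 ≤ lam)
    (h : ∀ i < j, Loop σ₀ κ ϱ lam mu β β' (ℓ (a + i))) {t t' : ℝ} (ht : -κ ≤ t) (htt : t ≤ t')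
    (ht' : t' ≤ κ) : comps ℓ s a j t' - comps ℓ s a j t ≤ lam ^ j * (t' - t) := by
  induction j with
  | zero => show t' - t ≤ _; rw [pow_zero, one_mul]
  | succ j ih =>
    have hj := h j (Nat.lt_succ_self j)
    have hi := fun i (hi : i < j) => h i (by omega)
    have e1 := hj.con s hs _ _ (f2 hs hi ht)
      ((comps_mono (s := s) fun i hi' => (hi i hi').mono s).monotone htt) (f1 hs hi ht')
    have e2 := mul_le_mul_of_nonneg_left (ih hi) hlam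
    rw [← mul_assoc, ← pow_succ'] at e2
    exact e1.trans e2

theorem f5 {j : ℕ} (h : ∀ i < j, Loop σ₀ κ ϱ lam mu β β' (ℓ (a + i))) (hβ : 0 ≤ β)
    (hϱ : 0 ≤ ϱ) {t : ℝ} (ht : t ≤ ϱ) : comps ℓ (-σ₀) a j t ≤ max 0 (t - j * β) := by
  induction j with
  | zero => show t ≤ _; simp
  | succ j ih =>
    have hj := h j (Nat.lt_succ_self j)
    have h1 := ih fun i hi => h i (by omega)
    have h2 : max 0 (t - j * β) ≤ ϱ := max_le hϱ (by
      have : 0 ≤ (j : ℝ) * β := by positivity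
      linarith)
    have h3 := (hj.mono (-σ₀)).monotone h1
    have h4 := hj.lo _ (le_max_left 0 (t - j * β)) h2
    show ℓ (a + j) (-σ₀) (comps ℓ (-σ₀) a j t) ≤ _
    refine (h3.trans h4).trans ?_
    push_cast
    rcases le_total 0 (t - j * β) with h5 | h5
    · rw [max_eq_right h5]
      exact le_max_of_le_right (by linarith)
    · rw [max_eq_left h5]
      exact le_max_of_le_left (by linarith)

theorem f6 {j : ℕ} (h : ∀ i < j, Loop σ₀ κ ϱ lam mu β β' (ℓ (a + i))) {t : ℝ} (ht : 0 ≤ t) :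
    0 ≤ comps ℓ σ₀ a j t := by
  induction j with
  | zero => exact ht
  | succ j ih =>
    have hj := h j (Nat.lt_succ_self j)
    exact hj.hi0.trans ((hj.mono σ₀).monotone (ih fun i hi => h i (by omega)))

theorem f6' {j : ℕ} (h : ∀ i < j, Loop σ₀ κ ϱ lam mu β β' (ℓ (a + i))) {t : ℝ} (ht : ϱ ≤ t) :
    ϱ ≤ comps ℓ σ₀ a j t := by
  induction j with
  | zero => exact ht
  | succ j ih =>
    have hj := h j (Nat.lt_succ_self j)
    exact hj.hi1.trans ((hj.mono σ₀).monotone (ih fun i hi => h i (by omega)))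

end comps

theorem impl_cont {H : ℝ → ℝ → ℝ} (hc : Continuous fun q : ℝ × ℝ => H q.1 q.2)
    (hm : ∀ s, StrictMono (H s)) {S : Set ℝ} {e : ℝ → ℝ} {c : ℝ} (he : ∀ s ∈ S, H s (e s) = c) :
    ContinuousOn e S := by
  intro s₁ hs₁
  have hcs : ∀ t, Continuous fun s => H s t := fun t =>
    hc.comp (continuous_id.prodMk continuous_const)
  refine tendsto_order.2 ⟨fun a ha => ?_, fun b hb => ?_⟩
  · have h1 : H s₁ a < c := by
      rw [← he s₁ hs₁]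
      exact hm s₁ ha
    have h2 : ∀ᶠ s in 𝓝[S] s₁, H s a < c :=
      ((hcs a).continuousAt.eventually_lt continuousAt_const h1).filter_mono nhdsWithin_le_nhds
    filter_upwards [h2, self_mem_nhdsWithin] with s hs hsS
    rw [← he s hsS] at hs
    exact (hm s).lt_iff_lt.1 hs
  · have h1 : c < H s₁ b := by
      rw [← he s₁ hs₁]
      exact hm s₁ hb
    have h2 : ∀ᶠ s in 𝓝[S] s₁, c < H s b :=
      (continuousAt_const.eventually_lt (hcs b).continuousAt h1).filter_mono nhdsWithin_le_nhds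
    filter_upwards [h2, self_mem_nhdsWithin] with s hs hsS
    rw [← he s hsS] at hs
    exact (hm s).lt_iff_lt.1 hs

/-- the core lemma -/
theorem core {σ₀ κ ϱ lam mu β β' κℓ εg ζ ξ : ℝ} (hσ : 0 < σ₀) (hκ : 0 < κ) (hκϱ : 2 * κ < ϱ)
    (hlam : 0 ≤ lam) (hlam1 : lam < 1) (hmu : 1 < mu) (hβ : 0 < β) (hβ' : 0 < β') (hκℓ : 0 < κℓ)
    (hεg : 0 < εg) (hζ : 0 < ζ) (hξ : 0 < ξ) (hζ1 : ζ ≤ κℓ / 4) (hζ2 : ζ ≤ εg / 8)
    (hζ3 : ζ ≤ β / 2) (hζ4 : 2 * ζ ≤ ϱ) :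
    ∃ n : ℕ, ∀ (ℓ : ℕ → ℝ → ℝ → ℝ) (C : ℝ → ℝ → ℝ),
      (∀ j < n, Loop σ₀ κ ϱ lam mu β β' (ℓ j)) → (Continuous fun q : ℝ × ℝ => C q.1 q.2) →
      (∀ s, StrictMono (C s)) → ϱ ≤ C σ₀ 0 → C (-σ₀) 0 ≤ ϱ - β →
      (∀ s, |s| ≤ σ₀ → C s κ + κℓ ≤ C s (ϱ + κ)) →
      (∀ s, |s| ≤ σ₀ → ∀ t t', -κ ≤ t → t ≤ t' → t' ≤ κ → t' - t ≤ ξ → C s t' - C s t ≤ ζ / 2) →
      ∃ s t t' : ℝ, |s| ≤ σ₀ ∧ t < t' ∧ t' - t < εg ∧ C s (comps ℓ s 0 n t) = t ∧
        C s (comps ℓ s 0 n t') = t' := by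
  obtain ⟨j₀, hj₀⟩ : ∃ j₀ : ℕ, ϱ ≤ j₀ * β' := by
    obtain ⟨j, hj⟩ := exists_nat_ge (ϱ / β')
    exact ⟨j, by rwa [div_le_iff₀ hβ'] at hj⟩
  obtain ⟨i₀, hi₀⟩ : ∃ i₀ : ℕ, 2 * κ < mu ^ i₀ * min (κℓ / 4) (εg / 4) := by
    have hm : 0 < min (κℓ / 4) (εg / 4) := by positivity
    obtain ⟨i, hi⟩ := pow_unbounded_of_one_lt (2 * κ / min (κℓ / 4) (εg / 4)) hmu
    exact ⟨i, by rwa [div_lt_iff₀ hm] at hi⟩
  obtain ⟨b₁, hb₁⟩ : ∃ b₁ : ℕ, ϱ ≤ b₁ * β := by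
    obtain ⟨j, hj⟩ := exists_nat_ge (ϱ / β)
    exact ⟨j, by rwa [div_le_iff₀ hβ] at hj⟩
  obtain ⟨i₂, hi₂⟩ : ∃ i₂ : ℕ, lam ^ i₂ * (2 * κ) ≤ ξ := by
    obtain ⟨i, hi⟩ := exists_pow_lt_of_lt_one (show 0 < ξ / (2 * κ) by positivity) hlam1
    refine ⟨i, ?_⟩
    rw [lt_div_iff₀ (by positivity)] at hi
    exact hi.le
  obtain ⟨n₁, hn₁, hn₁'⟩ : ∃ n₁ : ℕ, j₀ + i₀ ≤ n₁ ∧ ϱ ≤ n₁ * β := by
    refine ⟨j₀ + i₀ + b₁, by omega, hb₁.trans (mul_le_mul_of_nonneg_right ?_ hβ.le)⟩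
    push_cast
    have h1 : (0 : ℝ) ≤ j₀ := Nat.cast_nonneg j₀
    have h2 : (0 : ℝ) ≤ i₀ := Nat.cast_nonneg i₀
    linarith
  obtain ⟨n₂, hn₂, hn₂'⟩ : ∃ n₂ : ℕ, lam ^ n₂ * (2 * κ) ≤ ξ ∧ κ ≤ n₂ * β := by
    refine ⟨i₂ + b₁, ?_, ?_⟩
    · rw [pow_add, mul_assoc]
      have h1 : lam ^ b₁ * (2 * κ) ≤ 2 * κ := by
        have := pow_le_one₀ (n := b₁) hlam hlam1.le
        nlinarith
      exact (mul_le_mul_of_nonneg_left h1 (pow_nonneg hlam i₂)).trans hi₂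
    · push_cast
      have h1 : (0 : ℝ) ≤ (i₂ : ℝ) * β := by positivity
      nlinarith
  refine ⟨n₁ + n₂, fun ℓ C hL hCc hCm hC1 hC2 hC3 hC4 => ?_⟩
  have hL1 : ∀ i < n₁, Loop σ₀ κ ϱ lam mu β β' (ℓ (0 + i)) := fun i hi => by
    rw [zero_add]; exact hL i (by omega)
  have hL2 : ∀ i < n₂, Loop σ₀ κ ϱ lam mu β β' (ℓ (n₁ + i)) := fun i hi => hL _ (by omega)
  have hV : ∀ s t, comps ℓ s 0 (n₁ + n₂) t = comps ℓ s n₁ n₂ (comps ℓ s 0 n₁ t) := by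
    intro s t
    rw [comps_add, zero_add]
  have c1 : Continuous fun q : ℝ × ℝ => comps ℓ q.1 0 n₁ q.2 :=
    comps_cont fun i hi => (hL1 i hi).cont
  have c2 : Continuous fun q : ℝ × ℝ => comps ℓ q.1 n₁ n₂ q.2 :=
    comps_cont fun i hi => (hL2 i hi).cont
  have m1 : ∀ s, StrictMono (comps ℓ s 0 n₁) := fun s => comps_mono fun i hi => (hL1 i hi).mono s
  have m2 : ∀ s, StrictMono (comps ℓ s n₁ n₂) := fun s => comps_mono fun i hi => (hL2 i hi).mono s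
  have hσσ : |σ₀| ≤ σ₀ := (abs_of_pos hσ).le
  have hσσ' : |-σ₀| ≤ σ₀ := by rw [abs_neg]; exact hσσ
  -- the point mapped to `κ`
  have hex : ∀ s, ∃ e, |s| ≤ σ₀ → comps ℓ s 0 n₁ e = κ := by
    intro s
    by_cases hs : |s| ≤ σ₀
    · have h1 : comps ℓ s 0 n₁ (-κ) ≤ κ := f1 hs hL1 (by linarith)
      have h2 : κ ≤ comps ℓ s 0 n₁ (ϱ + κ) := le_trans (by linarith) (f3 hs hL1 le_rfl)
      obtain ⟨e, -, he⟩ := intermediate_value_Icc (by linarith : -κ ≤ ϱ + κ)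
        ((c1.comp (continuous_const.prodMk continuous_id)).continuousOn) ⟨h1, h2⟩
      exact ⟨e, fun _ => he⟩
    · exact ⟨0, fun h => absurd h hs⟩
  choose e₁ he₁ using hex
  have hmem : ∀ s ∈ Icc (-σ₀) σ₀, |s| ≤ σ₀ := fun s hs => abs_le.2 hs
  have ec : ContinuousOn e₁ (Icc (-σ₀) σ₀) := impl_cont c1 m1 fun s hs => he₁ s (hmem s hs)
  have gc : ContinuousOn (fun s => C s (comps ℓ s n₁ n₂ κ) - e₁ s + ζ) (Icc (-σ₀) σ₀) := by
    refine ContinuousOn.add (ContinuousOn.sub ?_ ec) continuousOn_const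
    have h1 : Continuous fun s => comps ℓ s n₁ n₂ κ :=
      c2.comp (continuous_id.prodMk continuous_const)
    exact (hCc.comp (continuous_id.prodMk h1)).continuousOn
  have g1 : 0 ≤ C σ₀ (comps ℓ σ₀ n₁ n₂ κ) - e₁ σ₀ + ζ := by
    have h1 : ϱ ≤ C σ₀ (comps ℓ σ₀ n₁ n₂ κ) :=
      hC1.trans ((hCm σ₀).monotone (f6 hL2 hκ.le))
    have h2 : e₁ σ₀ ≤ ϱ := by
      refine (m1 σ₀).le_iff_le.1 ?_
      rw [he₁ σ₀ hσσ]
      exact le_trans (by linarith) (f6' hL1 le_rfl)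
    linarith
  have g2 : C (-σ₀) (comps ℓ (-σ₀) n₁ n₂ κ) - e₁ (-σ₀) + ζ ≤ 0 := by
    have h1 : comps ℓ (-σ₀) n₁ n₂ κ ≤ 0 := by
      have := f5 (j := n₂) hL2 hβ.le (by linarith) (t := κ) (by linarith)
      rwa [max_eq_left (by linarith)] at this
    have h2 := (hCm (-σ₀)).monotone h1
    have h3 : ϱ ≤ e₁ (-σ₀) := by
      refine (m1 (-σ₀)).le_iff_le.1 ?_
      rw [he₁ (-σ₀) hσσ']
      have := f5 (j := n₁) hL1 hβ.le (by linarith) (t := ϱ) le_rfl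
      rw [max_eq_left (by linarith)] at this
      linarith
    linarith
  obtain ⟨s, hsI, hs0⟩ := intermediate_value_Icc (by linarith : -σ₀ ≤ σ₀) gc ⟨g2, g1⟩
  have hs := hmem s hsI
  have hs0' : C s (comps ℓ s n₁ n₂ κ) = e₁ s - ζ := by
    have : C s (comps ℓ s n₁ n₂ κ) - e₁ s + ζ = 0 := hs0
    linarith
  obtain ⟨e, hed⟩ : ∃ e, e = e₁ s := ⟨_, rfl⟩
  have heκ : comps ℓ s 0 n₁ e = κ := by rw [hed]; exact he₁ s hs
  rw [← hed] at hs0'
  obtain ⟨Γ, hΓ⟩ : ∃ Γ : ℝ → ℝ, Γ = fun t => C s (comps ℓ s 0 (n₁ + n₂) t) := ⟨_, rfl⟩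
  have hΓt : ∀ t, Γ t = C s (comps ℓ s n₁ n₂ (comps ℓ s 0 n₁ t)) := by
    intro t
    rw [hΓ]
    show C s (comps ℓ s 0 (n₁ + n₂) t) = _
    rw [hV]
  have hΓe : Γ e = e - ζ := by rw [hΓt, heκ, hs0']
  have hcV : Continuous (comps ℓ s 0 (n₁ + n₂)) := by
    have : Continuous fun t => comps ℓ s n₁ n₂ (comps ℓ s 0 n₁ t) :=
      c2.comp (continuous_const.prodMk (c1.comp (continuous_const.prodMk continuous_id)))
    refine this.congr fun t => ?_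
    rw [hV]
  have hΓc : Continuous Γ := by
    rw [hΓ]
    exact hCc.comp (continuous_const.prodMk hcV)
  have mV : StrictMono (comps ℓ s 0 (n₁ + n₂)) :=
    comps_mono fun i hi => (hL _ (by omega)).mono s
  have hT2κ : comps ℓ s n₁ n₂ κ ≤ κ := f1 hs hL2 le_rfl
  have heϱ : e ≤ ϱ + κ := by
    refine (m1 s).le_iff_le.1 ?_
    rw [heκ]
    exact le_trans (by linarith) (f3 hs hL1 le_rfl)
  -- the point mapped to `ϱ + κ`
  obtain ⟨e₂, he₂I, he₂⟩ := intermediate_value_Icc heϱ hcV.continuousOn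
    (show ϱ + κ ∈ Icc (comps ℓ s 0 (n₁ + n₂) e) (comps ℓ s 0 (n₁ + n₂) (ϱ + κ)) by
      constructor
      · rw [hV, heκ]
        linarith
      · exact f3 hs (fun i hi => by rw [zero_add]; exact hL i hi) le_rfl)
  have hsplit : ∀ i ≤ n₁, ∀ t, comps ℓ s 0 n₁ t = comps ℓ s i (n₁ - i) (comps ℓ s 0 i t) := by
    intro i hi t
    have := comps_add (ℓ := ℓ) s 0 i (n₁ - i) t
    rwa [Nat.add_sub_cancel' hi, zero_add] at this
  have hsplit2 : ∀ i ≤ n₁, ∀ t, comps ℓ s 0 (n₁ + n₂) t =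
      comps ℓ s i (n₁ + n₂ - i) (comps ℓ s 0 i t) := by
    intro i hi t
    have := comps_add (ℓ := ℓ) s 0 i (n₁ + n₂ - i) t
    rwa [Nat.add_sub_cancel' (by omega), zero_add] at this
  have f7 : ∀ i ≤ n₁, κ ≤ comps ℓ s 0 i e := by
    intro i hi
    by_contra hcon
    push Not at hcon
    have h1 := comps_mono (ℓ := ℓ) (a := i) (j := n₁ - i) (s := s)
      (fun i' hi' => (hL (i + i') (by omega)).mono s) hcon
    have h2 : comps ℓ s i (n₁ - i) κ ≤ κ := f1 hs (fun i' hi' => hL (i + i') (by omega)) le_rfl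
    rw [← hsplit i hi, heκ] at h1
    linarith
  have f8 : ∀ i ≤ n₁, comps ℓ s 0 i e₂ ≤ ϱ + κ := by
    intro i hi
    by_contra hcon
    push Not at hcon
    have h1 := comps_mono (ℓ := ℓ) (a := i) (j := n₁ + n₂ - i) (s := s)
      (fun i' hi' => (hL (i + i') (by omega)).mono s) hcon
    have h2 : ϱ + κ ≤ comps ℓ s i (n₁ + n₂ - i) (ϱ + κ) :=
      f3 hs (fun i' hi' => hL (i + i') (by omega)) le_rfl
    rw [← hsplit2 i hi, he₂] at h1
    linarith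
  have f9 : ∀ i, i + j₀ ≤ n₁ → ϱ - κ ≤ comps ℓ s 0 i e := by
    intro i hi
    by_contra hcon
    push Not at hcon
    have key : ∀ j ≤ j₀, comps ℓ s 0 (i + j) e ≤ comps ℓ s 0 i e - j * β' := by
      intro j
      induction j with
      | zero => intro _; simp
      | succ j ih =>
        intro hj
        have h1 := ih (by omega)
        have h2 := f7 (i + j) (by omega)
        have h3 : (0 : ℝ) ≤ j * β' := by positivity
        have h4 := (hL (i + j) (by omega)).down s hs (comps ℓ s 0 (i + j) e) h2 (by linarith)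
        have e3 : comps ℓ s 0 (i + (j + 1)) e = ℓ (i + j) s (comps ℓ s 0 (i + j) e) := by
          show ℓ (0 + (i + j)) s (comps ℓ s 0 (i + j) e) = _
          rw [zero_add]
        rw [e3]
        push_cast
        linarith
    have h1 := key j₀ le_rfl
    have h2 := f7 (i + j₀) hi
    linarith
  have hee₂ : e ≤ e₂ := he₂I.1
  have f10 : ∀ i ≤ i₀, mu ^ i * (e₂ - e) ≤ comps ℓ s 0 i e₂ - comps ℓ s 0 i e := by
    intro i
    induction i with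
    | zero => intro _; show mu ^ 0 * (e₂ - e) ≤ e₂ - e; rw [pow_zero, one_mul]
    | succ i ih =>
      intro hi
      have h1 := ih (by omega)
      have h2 := (hL i (by omega)).exp s hs (comps ℓ s 0 i e) (comps ℓ s 0 i e₂)
        (f9 i (by omega)) ((comps_mono (ℓ := ℓ) (a := 0) (j := i) (s := s)
          (fun i' hi' => by rw [zero_add]; exact (hL i' (by omega)).mono s)).monotone hee₂)
        (f8 i (by omega))
      have e3 : ∀ t, comps ℓ s 0 (i + 1) t = ℓ i s (comps ℓ s 0 i t) := by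
        intro t
        show ℓ (0 + i) s (comps ℓ s 0 i t) = _
        rw [zero_add]
      rw [e3, e3, pow_succ', mul_assoc]
      exact (mul_le_mul_of_nonneg_left h1 (by linarith)).trans h2
  have hsmall : e₂ - e < min (κℓ / 4) (εg / 4) := by
    have h1 := f10 i₀ le_rfl
    have h2 := f8 i₀ (by omega)
    have h3 := f9 i₀ (by omega)
    have h4 : mu ^ i₀ * (e₂ - e) < mu ^ i₀ * min (κℓ / 4) (εg / 4) := by linarith
    exact lt_of_mul_lt_mul_left h4 (pow_nonneg (by linarith) i₀)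
  have hs1 : e₂ - e < κℓ / 4 := hsmall.trans_le (min_le_left _ _)
  have hs2 : e₂ - e < εg / 4 := hsmall.trans_le (min_le_right _ _)
  have hΓe₂ : e₂ < Γ e₂ := by
    have h1 : Γ e₂ = C s (ϱ + κ) := by
      rw [hΓ]
      show C s (comps ℓ s 0 (n₁ + n₂) e₂) = _
      rw [he₂]
    have h2 := hC3 s hs
    have h3 := (hCm s).monotone hT2κ
    rw [h1]
    linarith
  have heϱ' : ϱ - κ ≤ e := f9 0 (by omega)
  have hΓt₀ : e - 2 * ζ < Γ (e - 2 * ζ) := by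
    have h1 : -κ ≤ comps ℓ s 0 n₁ (e - 2 * ζ) := f2 hs hL1 (by linarith)
    have h2 : comps ℓ s 0 n₁ (e - 2 * ζ) ≤ κ := by
      rw [← heκ]
      exact (m1 s).monotone (by linarith)
    have h3 := f4 hs hlam hL2 h1 h2 le_rfl
    have h4 : comps ℓ s n₁ n₂ κ - comps ℓ s n₁ n₂ (comps ℓ s 0 n₁ (e - 2 * ζ)) ≤ ξ := by
      refine h3.trans (le_trans (mul_le_mul_of_nonneg_left ?_ (pow_nonneg hlam n₂)) hn₂)
      linarith
    have h5 := hC4 s hs (comps ℓ s n₁ n₂ (comps ℓ s 0 n₁ (e - 2 * ζ))) (comps ℓ s n₁ n₂ κ)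
      (f2 hs hL2 h1) ((m2 s).monotone h2) hT2κ h4
    rw [hΓt]
    linarith
  have hfix : ∀ t, Γ t = t ↔ Γ t - t = 0 := fun t => sub_eq_zero.symm
  have hdc : Continuous fun t => Γ t - t := hΓc.sub continuous_id
  obtain ⟨t, htI, ht⟩ := intermediate_value_Icc' (by linarith : e - 2 * ζ ≤ e) hdc.continuousOn
    (show (0 : ℝ) ∈ Icc (Γ e - e) (Γ (e - 2 * ζ) - (e - 2 * ζ)) by
      constructor
      · rw [hΓe]; linarith
      · linarith)
  obtain ⟨t', ht'I, ht'⟩ := intermediate_value_Icc hee₂ hdc.continuousOn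
    (show (0 : ℝ) ∈ Icc (Γ e - e) (Γ e₂ - e₂) by
      constructor
      · rw [hΓe]; linarith
      · linarith)
  have ht1 : Γ t = t := (hfix t).2 ht
  have ht1' : Γ t' = t' := (hfix t').2 ht'
  have hte : t < e := by
    refine lt_of_le_of_ne htI.2 fun h => ?_
    rw [h, hΓe] at ht1
    linarith
  have hte' : e < t' := by
    refine lt_of_le_of_ne ht'I.1 fun h => ?_
    rw [← h, hΓe] at ht1'
    linarith
  rw [hΓ] at ht1 ht1'
  refine ⟨s, t, t', hs, by linarith, ?_, ht1, ht1'⟩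
  linarith [htI.1, ht'I.2]

end Pool.Agent.J4.H98.Fib
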