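import Pool.Agent.J4.H98.OrbC

/-!
# Uniform derivatives along the orbits of a flow near periodic points
-/

set_option autoImplicit false
set_option linter.unusedSectionVars false

open scoped Manifold ContDiff Topology
open Filter Set Asymptotics

universe u

namespace Pool.Agent.J4.H98.Fib

open Pool.Agent.J4.H98.Orb
open Pool.Agent.H718R2.G
open Pool.Agent.TH290.CL (IsFlow)

variable {n : ℕ} {N : Type u} [TopologicalSpace N] [ChartedSpace (V n) N] [IsManifold (𝓡 n) ∞ N]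

theorem strict_chart {r : ℕ∞} (hr : 1 ≤ r) {H : ℝ × N → N}
    (hH : ContMDiff (𝓘(ℝ, ℝ).prod (𝓡 n)) (𝓡 n) r H) {z : N} (hz : H (0, z) = z) :
    ∃ D : ℝ × V n →L[ℝ] V n, HasStrictFDerivAt
      (fun q : ℝ × V n => chartAt (V n) z (H (q.1, (chartAt (V n) z).symm q.2))) D
      (0, chartAt (V n) z z) := by
  have hr' : (r : WithTop ℕ∞) ≤ ∞ := by exact_mod_cast le_top
  have h1 : ContMDiffAt 𝓘(ℝ, ℝ × V n) 𝓘(ℝ, ℝ) r (fun q : ℝ × V n => q.1)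
      (0, chartAt (V n) z z) := contDiffAt_fst.contMDiffAt
  have h2 : ContMDiffAt 𝓘(ℝ, ℝ × V n) (𝓡 n) r (fun q : ℝ × V n => q.2)
      (0, chartAt (V n) z z) := contDiffAt_snd.contMDiffAt
  have h3 : ContMDiffAt (𝓡 n) (𝓡 n) r (chartAt (V n) z).symm (chartAt (V n) z z) := by
    have h4 : ContMDiffOn (𝓡 n) (𝓡 n) ∞ (chartAt (V n) z).symm (chartAt (V n) z).target :=
      contMDiffOn_symm_of_mem_maximalAtlas (IsManifold.chart_mem_maximalAtlas z)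
    exact (h4.contMDiffAt ((chartAt (V n) z).open_target.mem_nhds
      ((chartAt (V n) z).map_source (mem_chart_source _ z)))).of_le hr'
  have h5 : ContMDiffAt 𝓘(ℝ, ℝ × V n) (𝓡 n) r
      (fun q : ℝ × V n => (chartAt (V n) z).symm q.2) (0, chartAt (V n) z z) :=
    ContMDiffAt.comp (g := (chartAt (V n) z).symm) (f := fun q : ℝ × V n => q.2) _ h3 h2
  have h6 : ContMDiffAt 𝓘(ℝ, ℝ × V n) (𝓘(ℝ, ℝ).prod (𝓡 n)) r
      (fun q : ℝ × V n => (q.1, (chartAt (V n) z).symm q.2)) (0, chartAt (V n) z z) :=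
    h1.prodMk h5
  have h7 : ContMDiffAt 𝓘(ℝ, ℝ × V n) (𝓡 n) r
      (fun q : ℝ × V n => H (q.1, (chartAt (V n) z).symm q.2)) (0, chartAt (V n) z z) :=
    ContMDiffAt.comp (g := H)
      (f := fun q : ℝ × V n => (q.1, (chartAt (V n) z).symm q.2)) _ hH.contMDiffAt h6
  have h8 : ContMDiffAt (𝓡 n) (𝓡 n) r (chartAt (V n) z)
      (H (0, (chartAt (V n) z).symm (chartAt (V n) z z))) := by
    rw [(chartAt (V n) z).left_inv (mem_chart_source _ z), hz]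
    have h9 : ContMDiffAt (𝓡 n) (𝓡 n) ∞ (chartAt (V n) z) z :=
      contMDiffAt_of_mem_maximalAtlas (IsManifold.chart_mem_maximalAtlas z)
        (mem_chart_source _ z)
    exact h9.of_le hr'
  have h9 : ContMDiffAt 𝓘(ℝ, ℝ × V n) (𝓡 n) r
      (fun q : ℝ × V n => chartAt (V n) z (H (q.1, (chartAt (V n) z).symm q.2)))
      (0, chartAt (V n) z z) :=
    ContMDiffAt.comp (g := chartAt (V n) z)
      (f := fun q : ℝ × V n => H (q.1, (chartAt (V n) z).symm q.2)) _ h8 h7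
  have h10 := contMDiffAt_iff_contDiffAt.1 h9
  refine ⟨_, h10.hasStrictFDerivAt ?_⟩
  have : (1 : ℕ∞) ≤ r := hr
  intro h
  have h11 : r = 0 := by exact_mod_cast h
  rw [h11] at this
  exact absurd this (by norm_num)

theorem iter_smooth {r : ℕ∞} {ψ : ℝ → N → N} (hψ : IsFlow n N ψ) (F : DiffM n N r) (k : ℕ) :
    ContMDiff (𝓘(ℝ, ℝ).prod (𝓡 n)) (𝓡 n) r
      (fun q : ℝ × N => (fun y => ψ q.1 (F y))^[k] q.2) := by
  have hr' : (r : WithTop ℕ∞) ≤ ∞ := by exact_mod_cast le_top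
  have hj : ContMDiff (𝓘(ℝ, ℝ).prod (𝓡 n)) (𝓡 n) r (fun q : ℝ × N => ψ q.1 q.2) :=
    hψ.smooth.of_le hr'
  induction k with
  | zero => exact contMDiff_snd
  | succ k ih =>
    have h1 : ContMDiff (𝓘(ℝ, ℝ).prod (𝓡 n)) (𝓘(ℝ, ℝ).prod (𝓡 n)) r
        (fun q : ℝ × N => (q.1, F ((fun y => ψ q.1 (F y))^[k] q.2))) :=
      contMDiff_fst.prodMk (F.contMDiff_toFun.comp ih)
    have h2 := ContMDiff.comp (g := fun q : ℝ × N => ψ q.1 q.2)
      (f := fun q : ℝ × N => (q.1, F ((fun y => ψ q.1 (F y))^[k] q.2))) hj h1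
    refine h2.congr fun q => ?_
    rw [Function.iterate_succ_apply']
    rfl

theorem from_ev {N : Type u} [TopologicalSpace N] {z : N} {P : (ℝ × N) × (ℝ × ℝ) → Prop}
    (h : ∀ᶠ q in 𝓝 (((0 : ℝ), z), ((0 : ℝ), (0 : ℝ))), P q) :
    ∃ ρ : ℝ, 0 < ρ ∧ ∀ᶠ w in 𝓝 z, ∀ s t t' : ℝ, |s| ≤ ρ → |t| ≤ ρ → |t'| ≤ ρ →
      P ((s, w), (t, t')) := by
  rw [nhds_prod_eq, nhds_prod_eq, nhds_prod_eq] at h
  obtain ⟨pa, ha, pb, hb, hab⟩ := eventually_prod_iff.1 h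
  obtain ⟨p1, h1, p2, h2, h12⟩ := eventually_prod_iff.1 ha
  obtain ⟨p3, h3, p4, h4, h34⟩ := eventually_prod_iff.1 hb
  obtain ⟨ρ1, hρ1, hb1⟩ := Metric.eventually_nhds_iff.1 h1
  obtain ⟨ρ3, hρ3, hb3⟩ := Metric.eventually_nhds_iff.1 h3
  obtain ⟨ρ4, hρ4, hb4⟩ := Metric.eventually_nhds_iff.1 h4
  have hpos : 0 < min ρ1 (min ρ3 ρ4) := by positivity
  refine ⟨min ρ1 (min ρ3 ρ4) / 2, by positivity, ?_⟩
  filter_upwards [h2] with w hw s t t' hs ht ht'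
  have e1 := min_le_left ρ1 (min ρ3 ρ4)
  have e2 := min_le_right ρ1 (min ρ3 ρ4)
  have e3 := min_le_left ρ3 ρ4
  have e4 := min_le_right ρ3 ρ4
  refine hab (h12 (hb1 ?_) hw) (h34 (hb3 ?_) (hb4 ?_)) <;> rw [Real.dist_eq, sub_zero] <;> linarith

/-- Near a periodic point the return maps of all nearby maps `ψ_s ∘ F` along all nearby orbits of the
flow have almost the same derivative. -/
theorem sd [T2Space N] {r : ℕ∞} (hr : 1 ≤ r) (F : DiffM n N r) {ψ : ℝ → N → N}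
    (hψ : IsFlow n N ψ) {θ : N → ℝ → ℝ} (h : OrbitMap (F : N → N) ψ θ) {k : ℕ}
    (hLT : Continuous fun q : (ℝ × ℝ) × N => LT (F : N → N) θ q.1.1 k q.2 q.1.2) {z : N}
    (hz : (F : N → N)^[k] z = z) (hnf : ∃ t, ψ t z ≠ z) {d : ℝ}
    (hd : HasDerivAt (LT (F : N → N) θ 0 k z) d 0) (h00 : LT (F : N → N) θ 0 k z 0 = 0)
    {ϵ : ℝ} (hϵ : 0 < ϵ) :
    ∃ ρ : ℝ, 0 < ρ ∧ ∀ᶠ w in 𝓝 z, ∀ s t t' : ℝ, |s| ≤ ρ → |t| ≤ ρ → |t'| ≤ ρ → t ≤ t' →
      |LT (F : N → N) θ s k w t' - LT (F : N → N) θ s k w t - d * (t' - t)| ≤ ϵ * (t' - t) := by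
  have hr' : (r : WithTop ℕ∞) ≤ ∞ := by exact_mod_cast le_top
  obtain ⟨φ, hφd⟩ : ∃ φ : OpenPartialHomeomorph N (V n), φ = chartAt (V n) z := ⟨_, rfl⟩
  have hzs : z ∈ φ.source := by rw [hφd]; exact mem_chart_source _ _
  obtain ⟨Γ', hΓ'⟩ := strict_chart (n := n) hr (H := fun q : ℝ × N => ψ q.1 q.2)
    (hψ.smooth.of_le hr') (z := z) (hψ.zero z)
  have hT0 : (fun y => ψ 0 (F y))^[k] z = z := by
    have e : (fun y => ψ 0 (F y)) = (F : N → N) := by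
      funext y
      exact hψ.zero _
    rw [e]
    exact hz
  obtain ⟨Φ', hΦ'⟩ := strict_chart (n := n) hr (H := fun q : ℝ × N => (fun y => ψ q.1 (F y))^[k] q.2)
    (iter_smooth hψ F k) (z := z) hT0
  rw [← hφd] at hΓ' hΦ'
  obtain ⟨Γ, hΓd⟩ : ∃ Γ : ℝ × V n → V n, Γ = fun q => φ (ψ q.1 (φ.symm q.2)) := ⟨_, rfl⟩
  obtain ⟨Φ, hΦd⟩ : ∃ Φ : ℝ × V n → V n, Φ = fun q => φ ((fun y => ψ q.1 (F y))^[k] (φ.symm q.2)) :=
    ⟨_, rfl⟩
  have hΓ : HasStrictFDerivAt Γ Γ' (0, φ z) := by rw [hΓd]; exact hΓ'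
  have hΦ : HasStrictFDerivAt Φ Φ' (0, φ z) := by rw [hΦd]; exact hΦ'
  obtain ⟨e, hed⟩ : ∃ e, e = Γ' (1, 0) := ⟨_, rfl⟩
  have hΓ1 : ∀ t : ℝ, Γ' (t, 0) = t • e := by
    intro t
    rw [hed, ← map_smul]
    congr 1
    ext <;> simp
  -- the velocity
  have hcψ := flow_cont hψ z
  have hγ : HasDerivAt (fun t => φ (ψ t z)) e 0 := by
    have h1 : HasDerivAt (fun t : ℝ => ((t, φ z) : ℝ × V n)) (1, 0) 0 :=
      (hasDerivAt_id (0 : ℝ)).prodMk (hasDerivAt_const (0 : ℝ) (φ z))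
    have h2 := HasFDerivAt.comp_hasDerivAt (x := (0 : ℝ)) (l := Γ)
      (f := fun t : ℝ => ((t, φ z) : ℝ × V n)) hΓ.hasFDerivAt h1
    rw [← hed] at h2
    refine h2.congr_of_eventuallyEq (Eventually.of_forall fun t => ?_)
    rw [hΓd]
    show φ (ψ t z) = φ (ψ t (φ.symm (φ z)))
    rw [φ.left_inv hzs]
  have he0 : e ≠ 0 := by
    intro he
    obtain ⟨t, ht⟩ := hnf
    apply ht
    refine fixed_of_velocity hψ z ?_ t
    rw [he, hφd] at hγ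
    exact hγ
  have hE : 0 < ‖e‖ := norm_pos_iff.2 he0
  have hΦe : Φ' (0, e) = d • e := by
    have h1 : HasDerivAt (fun t : ℝ => (((0 : ℝ), φ (ψ t z)) : ℝ × V n)) (0, e) 0 :=
      (hasDerivAt_const (0 : ℝ) (0 : ℝ)).prodMk hγ
    have hΦ0 : HasFDerivAt Φ Φ' ((0 : ℝ), φ (ψ 0 z)) := by
      rw [hψ.zero]
      exact hΦ.hasFDerivAt
    have h2 := HasFDerivAt.comp_hasDerivAt (x := (0 : ℝ)) (l := Φ)
      (f := fun t : ℝ => (((0 : ℝ), φ (ψ t z)) : ℝ × V n)) hΦ0 h1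
    have h3 : HasDerivAt (fun t => φ (ψ (LT (F : N → N) θ 0 k z t) z)) (d • e) 0 := by
      have h4 : HasDerivAt (fun t => φ (ψ t z)) e (LT (F : N → N) θ 0 k z 0) := by
        rw [h00]; exact hγ
      exact HasDerivAt.scomp (0 : ℝ) h4 hd
    have hev : ∀ᶠ t in 𝓝 (0 : ℝ), ψ t z ∈ φ.source :=
      hcψ.continuousAt (φ.open_source.mem_nhds (by rw [hψ.zero]; exact hzs))
    have h5 : HasDerivAt (fun t => φ (ψ (LT (F : N → N) θ 0 k z t) z)) (Φ' (0, e)) 0 := by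
      refine h2.congr_of_eventuallyEq ?_
      filter_upwards [hev] with t ht
      rw [hΦd]
      show φ (ψ (LT (F : N → N) θ 0 k z t) z) =
        φ ((fun y => ψ 0 (F y))^[k] (φ.symm (φ (ψ t z))))
      rw [φ.left_inv ht, LT_apply hψ.add h, hz]
    exact h5.unique h3
  -- the constants
  obtain ⟨c, hc, hc1, hcE, hcϵ⟩ : ∃ c : ℝ, 0 < c ∧ c ≤ 1 ∧ c ≤ ‖e‖ / 2 ∧
      c * (|d| + ‖e‖ + 1 + ‖Φ'‖) ≤ ϵ * (‖e‖ / 2) := by
    have hK : 0 < |d| + ‖e‖ + 1 + ‖Φ'‖ := by positivity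
    refine ⟨min 1 (min (‖e‖ / 2) (ϵ * (‖e‖ / 2) / (|d| + ‖e‖ + 1 + ‖Φ'‖))), by positivity,
      min_le_left _ _, (min_le_right _ _).trans (min_le_left _ _), ?_⟩
    rw [← le_div_iff₀ hK]
    exact (min_le_right _ _).trans (min_le_right _ _)
  -- the neighbourhoods
  obtain ⟨𝓛, h𝓛⟩ : ∃ 𝓛 : Filter ((ℝ × N) × (ℝ × ℝ)),
    𝓛 = 𝓝 (((0 : ℝ), z), ((0 : ℝ), (0 : ℝ))) := ⟨_, rfl⟩
  have cψ : Continuous fun q : ℝ × N => ψ q.1 q.2 := hψ.smooth.continuous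
  have cT : Continuous fun q : ℝ × N => (fun y => ψ q.1 (F y))^[k] q.2 :=
    (iter_smooth hψ F k).continuous
  have t1 : Tendsto (fun q : (ℝ × N) × (ℝ × ℝ) => ψ q.2.1 q.1.2) 𝓛 (𝓝 z) := by
    have hc : Continuous fun q : (ℝ × N) × (ℝ × ℝ) => ψ q.2.1 q.1.2 :=
      cψ.comp ((continuous_fst.comp continuous_snd).prodMk (continuous_snd.comp continuous_fst))
    have := hc.tendsto (((0 : ℝ), z), ((0 : ℝ), (0 : ℝ)))
    rw [h𝓛]
    simpa only [hψ.zero] using this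
  have t2 : Tendsto (fun q : (ℝ × N) × (ℝ × ℝ) => ψ q.2.2 q.1.2) 𝓛 (𝓝 z) := by
    have hc : Continuous fun q : (ℝ × N) × (ℝ × ℝ) => ψ q.2.2 q.1.2 :=
      cψ.comp ((continuous_snd.comp continuous_snd).prodMk (continuous_snd.comp continuous_fst))
    have := hc.tendsto (((0 : ℝ), z), ((0 : ℝ), (0 : ℝ)))
    rw [h𝓛]
    simpa only [hψ.zero] using this
  have t0 : Tendsto (fun q : (ℝ × N) × (ℝ × ℝ) => q.1.2) 𝓛 (𝓝 z) := by
    rw [h𝓛]
    exact (continuous_snd.comp continuous_fst).tendsto _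
  have ts : Tendsto (fun q : (ℝ × N) × (ℝ × ℝ) => q.1.1) 𝓛 (𝓝 0) := by
    rw [h𝓛]
    exact (continuous_fst.comp continuous_fst).tendsto _
  have ta : Tendsto (fun q : (ℝ × N) × (ℝ × ℝ) => q.2.1) 𝓛 (𝓝 0) := by
    rw [h𝓛]
    exact (continuous_fst.comp continuous_snd).tendsto _
  have tb : Tendsto (fun q : (ℝ × N) × (ℝ × ℝ) => q.2.2) 𝓛 (𝓝 0) := by
    rw [h𝓛]
    exact (continuous_snd.comp continuous_snd).tendsto _
  have t3 : Tendsto (fun q : (ℝ × N) × (ℝ × ℝ) =>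
      (fun y => ψ q.1.1 (F y))^[k] (ψ q.2.1 q.1.2)) 𝓛 (𝓝 z) := by
    have h1 : Tendsto (fun q : (ℝ × N) × (ℝ × ℝ) => ((q.1.1, ψ q.2.1 q.1.2) : ℝ × N)) 𝓛
        (𝓝 (0, z)) := ts.prodMk_nhds t1
    have h2 := (cT.tendsto (0, z)).comp h1
    rw [hT0] at h2
    exact h2
  have t4 : Tendsto (fun q : (ℝ × N) × (ℝ × ℝ) =>
      (fun y => ψ q.1.1 (F y))^[k] (ψ q.2.2 q.1.2)) 𝓛 (𝓝 z) := by
    have h1 : Tendsto (fun q : (ℝ × N) × (ℝ × ℝ) => ((q.1.1, ψ q.2.2 q.1.2) : ℝ × N)) 𝓛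
        (𝓝 (0, z)) := ts.prodMk_nhds t2
    have h2 := (cT.tendsto (0, z)).comp h1
    rw [hT0] at h2
    exact h2
  have tτ : Tendsto (fun q : (ℝ × N) × (ℝ × ℝ) => LT (F : N → N) θ q.1.1 k q.1.2 q.2.2 -
      LT (F : N → N) θ q.1.1 k q.1.2 q.2.1) 𝓛 (𝓝 0) := by
    have hc : Continuous fun q : (ℝ × N) × (ℝ × ℝ) => LT (F : N → N) θ q.1.1 k q.1.2 q.2.2 -
        LT (F : N → N) θ q.1.1 k q.1.2 q.2.1 := by
      refine Continuous.sub ?_ ?_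
      · exact hLT.comp (((continuous_fst.comp continuous_fst).prodMk
          (continuous_snd.comp continuous_snd)).prodMk (continuous_snd.comp continuous_fst))
      · exact hLT.comp (((continuous_fst.comp continuous_fst).prodMk
          (continuous_fst.comp continuous_snd)).prodMk (continuous_snd.comp continuous_fst))
    have := hc.tendsto (((0 : ℝ), z), ((0 : ℝ), (0 : ℝ)))
    rw [h𝓛]
    simpa only [sub_self] using this
  have hφc : ContinuousAt φ z := φ.continuousAt hzs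
  have hsrc : φ.source ∈ 𝓝 z := φ.open_source.mem_nhds hzs
  have E2 := (hΓ.isLittleO.def hc)
  have E3 := (hΦ.isLittleO.def hc)
  have T2 : Tendsto (fun q : (ℝ × N) × (ℝ × ℝ) =>
      (((q.2.2, φ q.1.2) : ℝ × V n), ((q.2.1, φ q.1.2) : ℝ × V n))) 𝓛
      (𝓝 (((0 : ℝ), φ z), ((0 : ℝ), φ z))) :=
    (tb.prodMk_nhds (hφc.tendsto.comp t0)).prodMk_nhds (ta.prodMk_nhds (hφc.tendsto.comp t0))
  have T3 : Tendsto (fun q : (ℝ × N) × (ℝ × ℝ) =>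
      (((q.1.1, φ (ψ q.2.2 q.1.2)) : ℝ × V n), ((q.1.1, φ (ψ q.2.1 q.1.2)) : ℝ × V n))) 𝓛
      (𝓝 (((0 : ℝ), φ z), ((0 : ℝ), φ z))) :=
    (ts.prodMk_nhds (hφc.tendsto.comp t2)).prodMk_nhds (ts.prodMk_nhds (hφc.tendsto.comp t1))
  have T4 : Tendsto (fun q : (ℝ × N) × (ℝ × ℝ) =>
      (((LT (F : N → N) θ q.1.1 k q.1.2 q.2.2 - LT (F : N → N) θ q.1.1 k q.1.2 q.2.1,
        φ ((fun y => ψ q.1.1 (F y))^[k] (ψ q.2.1 q.1.2))) : ℝ × V n),
       (((0 : ℝ), φ ((fun y => ψ q.1.1 (F y))^[k] (ψ q.2.1 q.1.2))) : ℝ × V n))) 𝓛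
      (𝓝 (((0 : ℝ), φ z), ((0 : ℝ), φ z))) :=
    (tτ.prodMk_nhds (hφc.tendsto.comp t3)).prodMk_nhds
      (tendsto_const_nhds.prodMk_nhds (hφc.tendsto.comp t3))
  have hall : ∀ᶠ q in 𝓛, q.2.1 ≤ q.2.2 →
      |LT (F : N → N) θ q.1.1 k q.1.2 q.2.2 - LT (F : N → N) θ q.1.1 k q.1.2 q.2.1 -
        d * (q.2.2 - q.2.1)| ≤ ϵ * (q.2.2 - q.2.1) := by
    filter_upwards [t0.eventually hsrc, t1.eventually hsrc, t2.eventually hsrc,
      t3.eventually hsrc, t4.eventually hsrc, T2.eventually E2, T3.eventually E3,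
      T4.eventually E2] with q q0 q1 q2 q3 q4 e2 e3 e4 htt
    obtain ⟨⟨s, w⟩, ⟨t, t'⟩⟩ := q
    simp only at q0 q1 q2 q3 q4 e2 e3 e4 htt ⊢
    obtain ⟨τ, hτ⟩ : ∃ τ, τ = LT (F : N → N) θ s k w t' - LT (F : N → N) θ s k w t := ⟨_, rfl⟩
    rw [← hτ] at e4 ⊢
    obtain ⟨η, hη⟩ : ∃ η : ℝ, η = t' - t := ⟨_, rfl⟩
    have hη0 : 0 ≤ η := by rw [hη]; linarith
    rw [← hη]
    obtain ⟨A, hA⟩ : ∃ A, A = φ (ψ t' w) - φ (ψ t w) := ⟨_, rfl⟩
    obtain ⟨Bv, hB⟩ : ∃ Bv, Bv = φ ((fun y => ψ s (F y))^[k] (ψ t' w)) -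
      φ ((fun y => ψ s (F y))^[k] (ψ t w)) := ⟨_, rfl⟩
    have g2 : ‖A - η • e‖ ≤ c * η := by
      rw [hΓd] at e2
      simp only at e2
      rw [φ.left_inv q0, ← hA, Prod.mk_sub_mk, sub_self, hΓ1, ← hη, Prod.norm_def] at e2
      simp only [norm_zero] at e2
      rwa [max_eq_left (norm_nonneg _), Real.norm_eq_abs, abs_of_nonneg hη0] at e2
    have g3 : ‖Bv - Φ' (0, A)‖ ≤ c * ‖A‖ := by
      rw [hΦd] at e3
      simp only at e3
      rw [φ.left_inv q1, φ.left_inv q2, ← hB, Prod.mk_sub_mk, sub_self, ← hA, Prod.norm_def] at e3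
      simp only [norm_zero] at e3
      rwa [max_eq_right (norm_nonneg _)] at e3
    have g4 : ‖Bv - τ • e‖ ≤ c * |τ| := by
      rw [hΓd] at e4
      simp only at e4
      have e5 : ψ τ ((fun y => ψ s (F y))^[k] (ψ t w)) = (fun y => ψ s (F y))^[k] (ψ t' w) := by
        rw [LT_apply hψ.add h, LT_apply hψ.add h, ← hψ.add, hτ, sub_add_cancel]
      rw [φ.left_inv q3, e5, hψ.zero, ← hB, Prod.mk_sub_mk, sub_self, sub_zero, hΓ1,
        Prod.norm_def] at e4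
      simp only [norm_zero] at e4
      rwa [max_eq_left (norm_nonneg _), Real.norm_eq_abs] at e4
    have g5 : ‖Φ' (0, A) - (η * d) • e‖ ≤ ‖Φ'‖ * (c * η) := by
      have e6 : (η * d) • e = Φ' (0, η • e) := by
        have : ((0 : ℝ), η • e) = η • (((0 : ℝ), e) : ℝ × V n) := by ext <;> simp
        rw [this, map_smul, hΦe, smul_smul]
      rw [e6, ← map_sub]
      refine (Φ'.le_opNorm _).trans (mul_le_mul_of_nonneg_left ?_ (norm_nonneg _))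
      rw [Prod.mk_sub_mk, sub_self, Prod.norm_def]
      simp only [norm_zero]
      rw [max_eq_right (norm_nonneg _)]
      exact g2
    have g6 : ‖A‖ ≤ (‖e‖ + c) * η := by
      have := norm_le_norm_add_norm_sub' A (η • e)
      rw [norm_smul, Real.norm_eq_abs, abs_of_nonneg hη0] at this
      linarith
    have g7 : |τ - d * η| * ‖e‖ ≤ c * |τ| + c * ‖A‖ + ‖Φ'‖ * (c * η) := by
      have e7 : ‖(τ - d * η) • e‖ = |τ - d * η| * ‖e‖ := by rw [norm_smul, Real.norm_eq_abs]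
      have e8 : (τ - d * η) • e = (τ • e - Bv) + (Bv - Φ' (0, A)) + (Φ' (0, A) - (η * d) • e) := by
        rw [sub_smul, mul_comm d η]
        abel
      rw [← e7, e8]
      have e9 := norm_add₃_le (a := τ • e - Bv) (b := Bv - Φ' (0, A))
        (c := Φ' (0, A) - (η * d) • e)
      rw [norm_sub_rev (τ • e) Bv] at e9
      linarith
    have g8 : |τ| ≤ |τ - d * η| + |d| * η := by
      have := abs_add_le (τ - d * η) (d * η)
      rw [sub_add_cancel, abs_mul, abs_of_nonneg hη0] at this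
      exact this
    obtain ⟨x, hx⟩ : ∃ x, x = |τ - d * η| := ⟨_, rfl⟩
    have hx0 : 0 ≤ x := by rw [hx]; exact abs_nonneg _
    rw [← hx] at g7 g8 ⊢
    have g9 : x * ‖e‖ ≤ c * x + c * (|d| + ‖e‖ + 1 + ‖Φ'‖) * η := by
      have h1 : c * |τ| ≤ c * (x + |d| * η) := mul_le_mul_of_nonneg_left g8 hc.le
      have h2 : c * ‖A‖ ≤ c * ((‖e‖ + 1) * η) := by
        refine mul_le_mul_of_nonneg_left (g6.trans ?_) hc.le
        exact mul_le_mul_of_nonneg_right (by linarith) hη0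
      calc x * ‖e‖ ≤ c * (x + |d| * η) + c * ((‖e‖ + 1) * η) + ‖Φ'‖ * (c * η) := by linarith
        _ = c * x + c * (|d| + ‖e‖ + 1 + ‖Φ'‖) * η := by ring
    have g10 : c * x ≤ ‖e‖ / 2 * x := mul_le_mul_of_nonneg_right hcE hx0
    have g11 : c * (|d| + ‖e‖ + 1 + ‖Φ'‖) * η ≤ ϵ * (‖e‖ / 2) * η :=
      mul_le_mul_of_nonneg_right hcϵ hη0
    have g12 : x * (‖e‖ / 2) ≤ ϵ * η * (‖e‖ / 2) := by linarith
    exact le_of_mul_le_mul_right g12 (by positivity)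
  rw [h𝓛] at hall
  obtain ⟨ρ, hρ, hw⟩ := from_ev hall
  refine ⟨ρ, hρ, ?_⟩
  filter_upwards [hw] with w hw s t t' hs ht ht' htt
  exact hw s t t' hs ht ht' htt

end Pool.Agent.J4.H98.Fib
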