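import Pool.Agent.J4.H98.FibC
import Pool.Agent.J4.H98.FibD
import Pool.Agent.J4.H98.FibE

/-!
# Maps of circle bundles: loops near periodic points
-/

set_option autoImplicit false
set_option linter.unusedSectionVars false

open scoped Manifold ContDiff Topology
open Filter Set

universe u v

namespace Pool.Agent.J4.H98.Fib

open Pool.Agent.J4.H98.Orb
open Pool.Agent.H718R2.G
open Pool.Agent.TH290.CL (IsFlow)

section metric

variable {N : Type u} {B : Type v} [MetricSpace N] [CompactSpace N] [MetricSpace B]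
  {ψ : ℝ → N → N} {p : N → B} {G : N → N} {θ : N → ℝ → ℝ}

theorem theta_one (_hψ : Flw ψ) (hb : CircleBundle ψ p) (h : OrbitMap G ψ θ)
    (hG : Function.Injective G) (w : N) : θ w 1 = 1 := by
  have h1 : ψ (θ w 1) (G w) = G w := by
    rw [← h.eq, (hb.free w 1).2 ⟨1, by simp⟩]
  obtain ⟨k, hk⟩ := (hb.free _ _).1 h1
  have hpos : (0 : ℝ) < θ w 1 := by
    have := h.mono w one_pos
    rwa [h.zero] at this
  rw [hk] at hpos
  have hk0 : 0 < k := by exact_mod_cast hpos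
  have hk1 : k ≤ 1 := by
    by_contra hcon
    push Not at hcon
    have h2 : (2 : ℝ) ≤ k := by exact_mod_cast hcon
    obtain ⟨t, htI, ht⟩ := intermediate_value_Icc (zero_le_one (α := ℝ)) (h.cont w).continuousOn
      (show (1 : ℝ) ∈ Icc (θ w 0) (θ w 1) by rw [h.zero, hk]; exact ⟨zero_le_one, by linarith⟩)
    have h3 : G (ψ t w) = G w := by
      rw [h.eq, ht, (hb.free (G w) 1).2 ⟨1, by simp⟩]
    obtain ⟨j, hj⟩ := (hb.free _ _).1 (hG h3)
    have h4 : (0 : ℝ) < t := by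
      refine lt_of_le_of_ne htI.1 fun he => ?_
      rw [← he, h.zero] at ht
      linarith
    have h5 : t < 1 := by
      refine lt_of_le_of_ne htI.2 fun he => ?_
      rw [he, hk] at ht
      linarith
    rw [hj] at h4 h5
    have h6 : 0 < j := by exact_mod_cast h4
    have h7 : j < 1 := by exact_mod_cast h5
    omega
  have : k = 1 := by omega
  rw [hk, this, Int.cast_one]

theorem theta_per (hψ : Flw ψ) (hb : CircleBundle ψ p) (h : OrbitMap G ψ θ)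
    (hG : Function.Injective G) (w : N) : Function.Periodic (fun t => θ w t - t) 1 := by
  intro t
  show θ w (t + 1) - (t + 1) = θ w t - t
  rw [theta_add hψ hb h, theta_one hψ hb h hG]
  ring

theorem theta_close (hψ : Flw ψ) (hb : CircleBundle ψ p) (h : OrbitMap G ψ θ) (hGc : Continuous G)
    (hG : Function.Injective G) {om : ℝ} (hom : 0 < om) :
    ∃ η : ℝ, 0 < η ∧ ∀ z w : N, dist w z < η → ∀ t, |θ w t - θ z t| < om := by
  have hc := theta_cont hψ hb h hGc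
  have key : ∃ η : ℝ, 0 < η ∧ ∀ z w : N, dist w z < η → ∀ t ∈ Icc (0 : ℝ) 1,
      |θ w t - θ z t| < om := by
    by_contra hcon
    push Not at hcon
    have hc' := fun j : ℕ => hcon (1 / ((j : ℝ) + 1)) Nat.one_div_pos_of_nat
    choose z w hzw t ht hw using hc'
    have hK : IsCompact ((univ : Set N) ×ˢ Icc (0 : ℝ) 1) := isCompact_univ.prod isCompact_Icc
    obtain ⟨⟨a, t₀⟩, -, φ, hφ, hlim⟩ := hK.tendsto_subseq (x := fun j => (z j, t j))
      fun j => ⟨mem_univ _, ht j⟩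
    have h1 : Tendsto (fun j => z (φ j)) atTop (𝓝 a) := (continuous_fst.tendsto (a, t₀)).comp hlim
    have h2 : Tendsto (fun j => t (φ j)) atTop (𝓝 t₀) :=
      (continuous_snd.tendsto (a, t₀)).comp hlim
    have h5 : Tendsto (fun j : ℕ => 1 / (((φ j : ℕ) : ℝ) + 1)) atTop (𝓝 0) :=
      tendsto_one_div_add_atTop_nhds_zero_nat.comp hφ.tendsto_atTop
    have h6 : Tendsto (fun j => dist (w (φ j)) (z (φ j))) atTop (𝓝 0) :=
      squeeze_zero (fun j => dist_nonneg) (fun j => (hzw (φ j)).le) h5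
    have h7 : Tendsto (fun j => w (φ j)) atTop (𝓝 a) := by
      rw [tendsto_iff_dist_tendsto_zero]
      have h8 := h6.add (tendsto_iff_dist_tendsto_zero.1 h1)
      rw [add_zero] at h8
      exact squeeze_zero (fun j => dist_nonneg) (fun j => dist_triangle _ _ _) h8
    have h8 : Tendsto (fun j => |θ (w (φ j)) (t (φ j)) - θ (z (φ j)) (t (φ j))|) atTop
        (𝓝 |θ a t₀ - θ a t₀|) := by
      refine Tendsto.abs (Tendsto.sub ?_ ?_)
      · exact (hc.tendsto (a, t₀)).comp (h7.prodMk_nhds h2)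
      · exact (hc.tendsto (a, t₀)).comp (h1.prodMk_nhds h2)
    rw [sub_self, abs_zero] at h8
    obtain ⟨j, hj⟩ := (h8.eventually_lt_const hom).exists
    exact absurd hj (not_lt.2 (hw (φ j)))
  obtain ⟨η, hη, hk⟩ := key
  refine ⟨η, hη, fun z w hzw t => ?_⟩
  have e1 := (theta_per hψ hb h hG w).sub_int_mul_eq (x := t) ⌊t⌋
  have e2 := (theta_per hψ hb h hG z).sub_int_mul_eq (x := t) ⌊t⌋
  rw [mul_one] at e1 e2
  have e3 : θ w t - θ z t = θ w (t - ⌊t⌋) - θ z (t - ⌊t⌋) := by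
    have e1' : θ w (t - ⌊t⌋) - (t - ⌊t⌋) = θ w t - t := e1
    have e2' : θ z (t - ⌊t⌋) - (t - ⌊t⌋) = θ z t - t := e2
    linarith
  rw [e3]
  refine hk z w hzw _ ⟨?_, ?_⟩
  · linarith [Int.floor_le t]
  · linarith [Int.lt_floor_add_one t]

theorem LT_add (hψ : Flw ψ) (hb : CircleBundle ψ p) (h : OrbitMap G ψ θ) (s : ℝ) (k : ℕ) (w : N)
    (t τ : ℝ) : LT G θ s k w (t + τ) = LT G θ 0 k w t + LT G θ s k (ψ t w) τ := by
  induction k with
  | zero => rfl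
  | succ k ih =>
    show s + θ (G^[k] w) (LT G θ s k w (t + τ)) = 0 + θ (G^[k] w) (LT G θ 0 k w t) +
      (s + θ (G^[k] (ψ t w)) (LT G θ s k (ψ t w) τ))
    have e0 : (fun y => ψ 0 (G y)) = G := by
      funext y
      exact hψ.zero _
    have e := LT_apply hψ.add h 0 k w t
    rw [e0] at e
    rw [ih, theta_add hψ hb h, e]
    ring

theorem run_LT (hψ : Flw ψ) (hb : CircleBundle ψ p) (h : OrbitMap G ψ θ) {w : ℕ → N} {u : ℕ → ℝ}
    (s : ℝ) (a j : ℕ) (hc : ∀ i < j, G (w (a + i)) = ψ (u (a + i)) (w (a + i + 1))) (t : ℝ) :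
    run θ w u s a j t = LT G θ s j (w a) t + run θ w u 0 a j 0 := by
  have e0 : (fun y => ψ 0 (G y)) = G := by
    funext y
    exact hψ.zero _
  induction j with
  | zero => exact (add_zero t).symm
  | succ j ih =>
    have hc' : ∀ i < j, G (w (a + i)) = ψ (u (a + i)) (w (a + i + 1)) := fun i hi => hc i (by omega)
    have e := run_apply (θ := θ) hψ h 0 a j hc' 0
    rw [e0, hψ.zero] at e
    show s + u (a + j) + θ (w (a + j)) (run θ w u s a j t) =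
      s + θ (G^[j] (w a)) (LT G θ s j (w a) t) +
        (0 + u (a + j) + θ (w (a + j)) (run θ w u 0 a j 0))
    rw [ih hc', e, add_comm (LT G θ s j (w a) t), theta_add hψ hb h]
    ring

theorem run_small (hψ : Flw ψ) (hb : CircleBundle ψ p) (h : OrbitMap G ψ θ) (hG : Continuous G)
    (j : ℕ) : ∀ {ζ : ℝ}, 0 < ζ → ∃ σ : ℝ, 0 < σ ∧ ∀ (w : ℕ → N) (u : ℕ → ℝ) (a : ℕ),
      (∀ i < j, |u (a + i)| ≤ σ) → |run θ w u 0 a j 0| ≤ ζ := by
  induction j with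
  | zero =>
    intro ζ hζ
    refine ⟨1, one_pos, fun w u a _ => ?_⟩
    show |(0 : ℝ)| ≤ ζ
    rw [abs_zero]
    exact hζ.le
  | succ j ih =>
    intro ζ hζ
    obtain ⟨ξ, hξ, h1⟩ := theta_small hψ hb h hG (half_pos hζ)
    obtain ⟨σ, hσ, h2⟩ := ih hξ
    refine ⟨min σ (ζ / 2), by positivity, fun w u a hu => ?_⟩
    have h3 := h2 w u a fun i hi => (hu i (by omega)).trans (min_le_left _ _)
    have h4 := h1 (w (a + j)) _ h3
    have h5 := (hu j (Nat.lt_succ_self j)).trans (min_le_right _ _)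
    show |0 + u (a + j) + θ (w (a + j)) (run θ w u 0 a j 0)| ≤ ζ
    rw [zero_add]
    have := abs_add_le (u (a + j)) (θ (w (a + j)) (run θ w u 0 a j 0))
    linarith

theorem LT_close (hψ : Flw ψ) (hb : CircleBundle ψ p) (h : OrbitMap G ψ θ) (hG : Continuous G)
    (k : ℕ) (P : N) (R : ℝ) {om : ℝ} (hom : 0 < om) :
    ∃ σ : ℝ, 0 < σ ∧ ∀ᶠ w in 𝓝 P, ∀ s, |s| ≤ σ → ∀ t ∈ Icc (-R) R,
      |LT G θ s k w t - LT G θ 0 k P t| < om := by
  have hj := LT_joint hψ hb h hG k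
  have hev : ∀ᶠ q : ℝ × N in 𝓝 ((0 : ℝ), P), ∀ t ∈ Icc (-R) R,
      |LT G θ q.1 k q.2 t - LT G θ 0 k P t| < om := by
    refine isCompact_Icc.eventually_forall_of_forall_eventually fun t _ => ?_
    have hc : Continuous fun q : (ℝ × N) × ℝ =>
        |LT G θ q.1.1 k q.1.2 q.2 - LT G θ 0 k P q.2| := by
      refine Continuous.abs (Continuous.sub ?_ ?_)
      · exact hj.comp (((continuous_fst.comp continuous_fst).prodMk continuous_snd).prodMk
          (continuous_snd.comp continuous_fst))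
      · exact hj.comp ((continuous_const.prodMk continuous_snd).prodMk continuous_const)
    refine hc.continuousAt.eventually_lt continuousAt_const ?_
    show |LT G θ 0 k P t - LT G θ 0 k P t| < om
    rw [sub_self, abs_zero]
    exact hom
  rw [nhds_prod_eq] at hev
  obtain ⟨pa, ha, pb, hb', hab⟩ := eventually_prod_iff.1 hev
  obtain ⟨σ, hσ, hs⟩ := Metric.eventually_nhds_iff.1 ha
  refine ⟨σ / 2, half_pos hσ, ?_⟩
  filter_upwards [hb'] with w hw s hs' t ht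
  exact hab (hs (by rw [Real.dist_eq, sub_zero]; linarith)) hw t ht

theorem LT_push (h : OrbitMap G ψ θ) {k : ℕ} (hk : 1 ≤ k) (w : N) {s s' : ℝ} (hs : s' ≤ s) (t : ℝ) :
    LT G θ s' k w t + (s - s') ≤ LT G θ s k w t := by
  have := (LT_fam h hk w 0).push s' s t hs
  simpa only [add_zero] using this

/-- near a point at which the return map does not move down -/
theorem up_loop (hψ : Flw ψ) (hb : CircleBundle ψ p) (h : OrbitMap G ψ θ) (hG : Continuous G)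
    {k : ℕ} (hk : 1 ≤ k) {Q : N} {ϱ : ℝ} (hϱ1 : ϱ ≤ 1)
    (hv : ∀ t, 0 ≤ t → t ≤ ϱ → t ≤ LT G θ 0 k Q t) {σ₀ : ℝ} (hσ₀ : 0 < σ₀) :
    ∃ ζ : ℝ, 0 < ζ ∧ ∀ᶠ w in 𝓝 Q, ∀ U, |U| ≤ ζ → ∀ t, 0 ≤ t → t ≤ ϱ →
      t + σ₀ / 2 ≤ LT G θ σ₀ k w t + U := by
  obtain ⟨σ, hσ, hev⟩ := LT_close hψ hb h hG k Q 1 (show (0 : ℝ) < σ₀ / 8 by positivity)
  refine ⟨σ₀ / 8, by positivity, ?_⟩
  filter_upwards [hev] with w hw U hU t ht0 ht1
  have h1 := hw 0 (by rw [abs_zero]; exact hσ.le) t ⟨by linarith, by linarith⟩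
  have h2 := LT_push h hk w hσ₀.le t
  have h3 := hv t ht0 ht1
  rw [abs_lt] at h1
  rw [abs_le] at hU
  linarith [h1.1, hU.1]

end metric

variable {n : ℕ} {N : Type u} [MetricSpace N] [CompactSpace N] [ChartedSpace (V n) N]
  [IsManifold (𝓡 n) ∞ N] {B : Type v} [MetricSpace B]

/-- the loops near a fibrewise attracting periodic point -/
theorem exists_loop {r : ℕ∞} (hr : 1 ≤ r) (F : DiffM n N r) {ψ : ℝ → N → N}
    (hψ : IsFlow n N ψ) {p : N → B} (hb : CircleBundle ψ p) {θ : N → ℝ → ℝ}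
    (h : OrbitMap (F : N → N) ψ θ) {k : ℕ} (hk : 1 ≤ k) {P : N} (hP : (F : N → N)^[k] P = P)
    {d d' ϱ : ℝ} (h00 : LT (F : N → N) θ 0 k P 0 = 0) (hd : HasDerivAt (LT (F : N → N) θ 0 k P) d 0)
    (hd1 : d < 1) (hϱ : 0 < ϱ) (hϱ1 : ϱ ≤ 1) (hϱϱ : LT (F : N → N) θ 0 k P ϱ = ϱ)
    (hlt : ∀ t, 0 < t → t < ϱ → LT (F : N → N) θ 0 k P t < t)
    (hd' : HasDerivAt (LT (F : N → N) θ 0 k P) d' ϱ) (hd'1 : 1 < d') :
    ∃ κ lam mu β' σ₁ : ℝ, 0 < κ ∧ 2 * κ < ϱ ∧ 0 ≤ lam ∧ lam < 1 ∧ 1 < mu ∧ 0 < β' ∧ 0 < σ₁ ∧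
      ∀ σ₀, 0 < σ₀ → σ₀ ≤ σ₁ → ∃ ζ : ℝ, 0 < ζ ∧ ∀ᶠ w in 𝓝 P, ∀ U, |U| ≤ ζ →
        Loop σ₀ κ ϱ lam mu (σ₀ / 2) β' (fun s t => LT (F : N → N) θ s k w t + U) := by
  have hψ' := flw hψ
  have hFc : Continuous (F : N → N) := F.continuous
  have hj := LT_joint hψ' hb h hFc k
  obtain ⟨v, hv⟩ : ∃ v : ℝ → ℝ, v = LT (F : N → N) θ 0 k P := ⟨_, rfl⟩
  rw [← hv] at h00 hd hϱϱ hlt hd'
  have hvm : StrictMono v := by rw [hv]; exact LT_mono h 0 k P
  have hvc : Continuous v := by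
    rw [hv]
    exact (LT_cont h k P).comp (continuous_const.prodMk continuous_id)
  have hP' : (F : N → N)^[k] (ψ ϱ P) = ψ ϱ P := by
    have e0 : (fun y => ψ 0 (F y)) = (F : N → N) := by
      funext y
      exact hψ.zero _
    have e := LT_apply hψ'.add h 0 k P ϱ
    rw [e0, hP, ← hv, hϱϱ] at e
    exact e
  have hvP' : ∀ t, LT (F : N → N) θ 0 k (ψ ϱ P) t = v (ϱ + t) - ϱ := by
    intro t
    have e := LT_add hψ' hb h 0 k P ϱ t
    rw [← hv, hϱϱ] at e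
    rw [e]
    ring
  obtain ⟨ρ₁, hρ₁, hsd1⟩ := sd hr F hψ h hj hP (moves hb P) (d := d) (by rw [← hv]; exact hd)
    (by rw [← hv]; exact h00) (show 0 < (1 - d) / 2 by linarith)
  have hd'' : HasDerivAt (LT (F : N → N) θ 0 k (ψ ϱ P)) d' 0 := by
    have h1 : HasDerivAt (fun t : ℝ => ϱ + t) 1 0 := (hasDerivAt_id (0 : ℝ)).const_add ϱ
    have h2 : HasDerivAt v d' (ϱ + 0) := by rw [add_zero]; exact hd'
    have h3 := (HasDerivAt.comp (0 : ℝ) h2 h1).sub_const ϱ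
    rw [mul_one] at h3
    refine h3.congr_of_eventuallyEq (Eventually.of_forall fun t => ?_)
    exact hvP' t
  obtain ⟨ρ₂, hρ₂, hsd2⟩ := sd hr F hψ h hj hP' (moves hb (ψ ϱ P)) (d := d') hd''
    (by rw [hvP', add_zero, hϱϱ, sub_self]) (show 0 < (d' - 1) / 2 by linarith)
  obtain ⟨κ, hκ, hκ1, hκ2, hκ3⟩ : ∃ κ : ℝ, 0 < κ ∧ κ ≤ ρ₁ ∧ κ ≤ ρ₂ ∧ κ ≤ ϱ / 4 :=
    ⟨min ρ₁ (min ρ₂ (ϱ / 4)), by positivity, min_le_left _ _,
      (min_le_right _ _).trans (min_le_left _ _), (min_le_right _ _).trans (min_le_right _ _)⟩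
  -- margins
  have m1 : v κ < κ := hlt κ hκ (by linarith)
  have m2 : -κ < v (-κ) := by
    have h1 := hsd1.self_of_nhds 0 (-κ) 0 (by rw [abs_zero]; exact hρ₁.le)
      (by rw [abs_neg, abs_of_pos hκ]; exact hκ1) (by rw [abs_zero]; exact hρ₁.le) (by linarith)
    rw [← hv, h00, abs_le] at h1
    nlinarith [h1.2]
  have m3 : ϱ + κ < v (ϱ + κ) := by
    have h1 := hsd2.self_of_nhds 0 0 κ (by rw [abs_zero]; exact hρ₂.le)
      (by rw [abs_zero]; exact hρ₂.le) (by rw [abs_of_pos hκ]; exact hκ2) hκ.le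
    rw [hvP', hvP', add_zero, hϱϱ, abs_le] at h1
    nlinarith [h1.1]
  obtain ⟨β₂, hβ₂, hdown⟩ : ∃ β₂ : ℝ, 0 < β₂ ∧ ∀ t ∈ Icc κ (ϱ - κ), v t ≤ t - β₂ := by
    have hne : (Icc κ (ϱ - κ)).Nonempty := ⟨κ, le_rfl, by linarith⟩
    obtain ⟨t₀, ht₀, hmin⟩ := isCompact_Icc.exists_isMinOn hne
      (f := fun t => t - v t) (continuous_id.sub hvc).continuousOn
    refine ⟨t₀ - v t₀, sub_pos.2 (hlt t₀ (by linarith [ht₀.1]) (by linarith [ht₀.2])),
      fun t ht => ?_⟩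
    have : t₀ - v t₀ ≤ t - v t := hmin ht
    linarith
  obtain ⟨om, hom, hom1, hom2, hom3, hom4⟩ : ∃ om : ℝ, 0 < om ∧ 4 * om ≤ κ - v κ ∧ 4 * om ≤ v (-κ) + κ ∧
      4 * om ≤ v (ϱ + κ) - (ϱ + κ) ∧ 4 * om ≤ β₂ := by
    have p1 : 0 < κ - v κ := by linarith
    have p2 : 0 < v (-κ) + κ := by linarith
    have p3 : 0 < v (ϱ + κ) - (ϱ + κ) := by linarith
    refine ⟨min (κ - v κ) (min (v (-κ) + κ) (min (v (ϱ + κ) - (ϱ + κ)) β₂)) / 4, by positivity,
      ?_, ?_, ?_, ?_⟩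
    · linarith [min_le_left (κ - v κ) (min (v (-κ) + κ) (min (v (ϱ + κ) - (ϱ + κ)) β₂))]
    · linarith [min_le_right (κ - v κ) (min (v (-κ) + κ) (min (v (ϱ + κ) - (ϱ + κ)) β₂)),
        min_le_left (v (-κ) + κ) (min (v (ϱ + κ) - (ϱ + κ)) β₂)]
    · linarith [min_le_right (κ - v κ) (min (v (-κ) + κ) (min (v (ϱ + κ) - (ϱ + κ)) β₂)),
        min_le_right (v (-κ) + κ) (min (v (ϱ + κ) - (ϱ + κ)) β₂),
        min_le_left (v (ϱ + κ) - (ϱ + κ)) β₂]
    · linarith [min_le_right (κ - v κ) (min (v (-κ) + κ) (min (v (ϱ + κ) - (ϱ + κ)) β₂)),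
        min_le_right (v (-κ) + κ) (min (v (ϱ + κ) - (ϱ + κ)) β₂),
        min_le_right (v (ϱ + κ) - (ϱ + κ)) β₂]
  obtain ⟨σ₁, hσ₁, hcl⟩ := LT_close hψ' hb h hFc k P 2 hom
  rw [← hv] at hcl
  refine ⟨κ, max 0 ((1 + d) / 2), (1 + d') / 2, β₂ / 2, min σ₁ (min ρ₁ ρ₂), hκ, by linarith,
    le_max_left _ _, max_lt one_pos (by linarith), by linarith, by positivity, by positivity,
    fun σ₀ hσ₀ hσ₀' => ?_⟩
  have hs1 : ∀ s, |s| ≤ σ₀ → |s| ≤ σ₁ := fun s hs => hs.trans (hσ₀'.trans (min_le_left _ _))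
  have hs2 : ∀ s, |s| ≤ σ₀ → |s| ≤ ρ₁ := fun s hs =>
    hs.trans (hσ₀'.trans ((min_le_right _ _).trans (min_le_left _ _)))
  have hs3 : ∀ s, |s| ≤ σ₀ → |s| ≤ ρ₂ := fun s hs =>
    hs.trans (hσ₀'.trans ((min_le_right _ _).trans (min_le_right _ _)))
  obtain ⟨σ₂, hσ₂, hcl2⟩ := LT_close hψ' hb h hFc k P 2 (show (0 : ℝ) < σ₀ / 8 by positivity)
  rw [← hv] at hcl2
  have hψϱ : ∀ᶠ w in 𝓝 P, ∀ s t t' : ℝ, |s| ≤ ρ₂ → |t| ≤ ρ₂ → |t'| ≤ ρ₂ → t ≤ t' →
      |LT (F : N → N) θ s k (ψ ϱ w) t' - LT (F : N → N) θ s k (ψ ϱ w) t - d' * (t' - t)| ≤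
        (d' - 1) / 2 * (t' - t) := by
    have hc : Continuous (ψ ϱ) := hψ'.cont.comp (continuous_const.prodMk continuous_id)
    exact (hc.tendsto P).eventually hsd2
  refine ⟨min om (σ₀ / 8), by positivity, ?_⟩
  filter_upwards [hsd1, hcl, hcl2, hψϱ] with w w1 w2 w3 w4 U hU
  have hU1 := abs_le.1 (hU.trans (min_le_left _ _))
  have hU2 := abs_le.1 (hU.trans (min_le_right _ _))
  have cl : ∀ s, |s| ≤ σ₀ → ∀ t, -2 ≤ t → t ≤ 2 →
      v t - om ≤ LT (F : N → N) θ s k w t ∧ LT (F : N → N) θ s k w t ≤ v t + om := by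
    intro s hs t h1 h2
    have := abs_lt.1 (w2 s (hs1 s hs) t ⟨h1, h2⟩)
    exact ⟨by linarith [this.1], by linarith [this.2]⟩
  have cl0 : ∀ t, -2 ≤ t → t ≤ 2 →
      v t - σ₀ / 8 ≤ LT (F : N → N) θ 0 k w t ∧ LT (F : N → N) θ 0 k w t ≤ v t + σ₀ / 8 := by
    intro t h1 h2
    have := abs_lt.1 (w3 0 (by rw [abs_zero]; exact hσ₂.le) t ⟨h1, h2⟩)
    exact ⟨by linarith [this.1], by linarith [this.2]⟩
  refine
    { cont := (LT_cont h k w).add continuous_const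
      mono := fun s t t' htt => ?_
      t1 := fun s hs => ?_
      t2 := fun s hs => ?_
      con := fun s hs t t' h1 h2 h3 => ?_
      down := fun s hs t h1 h2 => ?_
      exp := fun s hs t t' h1 h2 h3 => ?_
      t3 := fun s hs => ?_
      lo := fun t h1 h2 => ?_
      hi0 := ?_
      hi1 := ?_ }
  · have := LT_mono h s k w htt
    show LT (F : N → N) θ s k w t + U < LT (F : N → N) θ s k w t' + U
    linarith
  · show LT (F : N → N) θ s k w κ + U ≤ κ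
    have := (cl s hs κ (by linarith) (by linarith)).2
    linarith [hU1.2]
  · show -κ ≤ LT (F : N → N) θ s k w (-κ) + U
    have := (cl s hs (-κ) (by linarith) (by linarith)).1
    linarith [hU1.1]
  · show LT (F : N → N) θ s k w t' + U - (LT (F : N → N) θ s k w t + U) ≤ _
    have := abs_le.1 (w1 s t t' (hs2 s hs) (abs_le.2 ⟨by linarith, by linarith⟩)
      (abs_le.2 ⟨by linarith, by linarith⟩) h2)
    have h5 : (1 + d) / 2 * (t' - t) ≤ max 0 ((1 + d) / 2) * (t' - t) :=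
      mul_le_mul_of_nonneg_right (le_max_right _ _) (by linarith)
    linarith [this.2]
  · show LT (F : N → N) θ s k w t + U ≤ t - β₂ / 2
    have e1 := (cl s hs t (by linarith) (by linarith)).2
    have e2 := hdown t ⟨h1, h2⟩
    linarith [hU1.2]
  · show _ ≤ LT (F : N → N) θ s k w t' + U - (LT (F : N → N) θ s k w t + U)
    have e1 := LT_add hψ' hb h s k w ϱ (t - ϱ)
    have e2 := LT_add hψ' hb h s k w ϱ (t' - ϱ)
    rw [add_sub_cancel] at e1 e2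
    have := abs_le.1 (w4 s (t - ϱ) (t' - ϱ) (hs3 s hs) (abs_le.2 ⟨by linarith, by linarith⟩)
      (abs_le.2 ⟨by linarith, by linarith⟩) (by linarith))
    rw [e1, e2]
    linarith [this.1]
  · show ϱ + κ ≤ LT (F : N → N) θ s k w (ϱ + κ) + U
    have := (cl s hs (ϱ + κ) (by linarith) (by linarith)).1
    linarith [hU1.1]
  · show LT (F : N → N) θ (-σ₀) k w t + U ≤ t - σ₀ / 2
    have e1 := LT_push h hk w (s := 0) (s' := -σ₀) (by linarith) t
    have e2 := (cl0 t (by linarith) (by linarith)).2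
    have e3 : v t ≤ t := by
      rcases h1.eq_or_lt with h5 | h5
      · rw [← h5, h00]
      · rcases h2.eq_or_lt with h6 | h6
        · rw [h6, hϱϱ]
        · exact (hlt t h5 h6).le
    linarith [hU2.2]
  · show 0 ≤ LT (F : N → N) θ σ₀ k w 0 + U
    have e1 := LT_push h hk w (s := σ₀) (s' := 0) hσ₀.le 0
    have e2 := (cl0 0 (by linarith) (by linarith)).1
    rw [h00] at e2
    linarith [hU2.1]
  · show ϱ ≤ LT (F : N → N) θ σ₀ k w ϱ + U
    have e1 := LT_push h hk w (s := σ₀) (s' := 0) hσ₀.le ϱ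
    have e2 := (cl0 ϱ (by linarith) (by linarith)).1
    rw [hϱϱ] at e2
    linarith [hU2.1]

end Pool.Agent.J4.H98.Fib
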