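import Pool.Agent.J4.H98.FibF

/-!
# Maps of circle bundles: chains between attracting and repelling periodic points
-/

set_option autoImplicit false
set_option linter.unusedSectionVars false

open scoped Manifold ContDiff Topology
open Filter Set

universe u v

namespace Pool.Agent.J4.H98.Fib

open Pool.Agent.J4.H98.Orb Pool.Agent.TH80.OMS
open Pool.Agent.H718R2.G
open Pool.Agent.TH290.CL (IsFlow)

/-- No map `ψ_s ∘ G` with small `s` has iterates with two fixed points at a small distance on an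
orbit of the flow. -/
def Gap {N : Type u} (G : N → N) (ψ : ℝ → N → N) (ε : ℝ) : Prop :=
  ∀ s : ℝ, |s| < ε → ∀ m : ℕ, 1 ≤ m → ∀ z : N, (fun y => ψ s (G y))^[m] z = z →
    ∀ τ : ℝ, 0 < τ → τ < ε → (fun y => ψ s (G y))^[m] (ψ τ z) ≠ ψ τ z

/-- positions along a chain, without the jumps -/
def idr {N : Type u} (θ : N → ℝ → ℝ) (Z : ℕ → N) (s : ℝ) : ℕ → ℝ → ℝ
  | 0, t => t
  | j + 1, t => s + θ (Z j) (idr θ Z s j t)

/-- concatenation -/
def cat {N : Type u} (l : ℕ) (X Y : ℕ → N) (i : ℕ) : N := if i < l then X i else Y (i - l)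

theorem cat_hi {N : Type u} (l : ℕ) (X Y : ℕ → N) (i : ℕ) : cat l X Y (l + i) = Y i := by
  unfold cat
  rw [if_neg (by omega), Nat.add_sub_cancel_left]

theorem cat_lo {N : Type u} {l : ℕ} {X Y : ℕ → N} (h : X l = Y 0) {i : ℕ} (hi : i ≤ l) :
    cat l X Y i = X i := by
  unfold cat
  rcases hi.lt_or_eq with h1 | h1
  · rw [if_pos h1]
  · rw [if_neg (by omega), h1, Nat.sub_self, h]

/-- a `δ`-chain of length `l` -/
def IsCh {N : Type u} [MetricSpace N] (G : N → N) (δ : ℝ) (l : ℕ) (X : ℕ → N) : Prop :=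
  ∀ i < l, dist (G (X i)) (X (i + 1)) < δ

theorem IsCh.cat {N : Type u} [MetricSpace N] {G : N → N} {δ : ℝ} {l l' : ℕ} {X Y : ℕ → N}
    (hX : IsCh G δ l X) (hY : IsCh G δ l' Y) (h : X l = Y 0) :
    IsCh G δ (l + l') (Fib.cat l X Y) := by
  intro i hi
  rcases Nat.lt_or_ge i l with h1 | h1
  · rw [cat_lo h h1.le, cat_lo h (by omega : i + 1 ≤ l)]
    exact hX i h1
  · obtain ⟨j, rfl⟩ := Nat.exists_eq_add_of_le h1
    rw [cat_hi, Nat.add_assoc, cat_hi]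
    exact hY j (by omega)

theorem IsCh.orbit {N : Type u} [MetricSpace N] {G : N → N} {δ : ℝ} (hδ : 0 < δ) (l : ℕ) (P : N) :
    IsCh G δ l (fun i => G^[i] P) := by
  intro i _
  show dist (G (G^[i] P)) (G^[i + 1] P) < δ
  rw [Function.iterate_succ_apply', dist_self]
  exact hδ

section metric

variable {N : Type u} {B : Type v} [MetricSpace N] [CompactSpace N] [MetricSpace B]
  {ψ : ℝ → N → N} {p : N → B} {G : N → N} {θ : N → ℝ → ℝ} {w : ℕ → N} {u : ℕ → ℝ}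

theorem run_add (s : ℝ) (a i j : ℕ) (t : ℝ) :
    run θ w u s a (i + j) t = run θ w u s (a + i) j (run θ w u s a i t) := by
  induction j with
  | zero => rfl
  | succ j ih =>
    show s + u (a + (i + j)) + θ (w (a + (i + j))) (run θ w u s a (i + j) t) =
      s + u (a + i + j) + θ (w (a + i + j)) (run θ w u s (a + i) j (run θ w u s a i t))
    rw [ih, Nat.add_assoc]

theorem run_comps (s : ℝ) (a k j : ℕ) (t : ℝ) :
    run θ w u s a (j * k) t = comps (fun i s t => run θ w u s (a + i * k) k t) s 0 j t := by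
  induction j with
  | zero => rw [Nat.zero_mul]; rfl
  | succ j ih =>
    rw [Nat.succ_mul, run_add, ih]
    show _ = run θ w u s (a + (0 + j) * k) k _
    rw [zero_add]

theorem mul_per {P : N} {k : ℕ} (hP : G^[k] P = P) (j : ℕ) : G^[j * k] P = P := by
  induction j with
  | zero => rw [Nat.zero_mul]; rfl
  | succ j ih => rw [Nat.succ_mul, Function.iterate_add_apply, hP, ih]

theorem up_comps {ℓ : ℕ → ℝ → ℝ → ℝ} {s ϱ β : ℝ} (hβ : 0 ≤ β) {j : ℕ}
    (hm : ∀ i < j, StrictMono (ℓ i s)) (hu : ∀ i < j, ∀ t, 0 ≤ t → t ≤ ϱ → t + β ≤ ℓ i s t)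
    {t : ℝ} (ht : 0 ≤ t) (hϱ : 0 ≤ ϱ) : min ϱ (t + j * β) ≤ comps ℓ s 0 j t := by
  induction j with
  | zero => show _ ≤ t; simp
  | succ j ih =>
    have h1 := ih (fun i hi => hm i (by omega)) (fun i hi => hu i (by omega))
    have h2 := (hm j (Nat.lt_succ_self j)).monotone h1
    have h3 : 0 ≤ min ϱ (t + j * β) := le_min hϱ (by positivity)
    have h4 := hu j (Nat.lt_succ_self j) _ h3 (min_le_left _ _)
    show _ ≤ ℓ (0 + j) s (comps ℓ s 0 j t)
    rw [zero_add]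
    refine le_trans ?_ (h4.trans h2)
    push_cast
    rcases le_total ϱ (t + j * β) with h5 | h5
    · rw [min_eq_left h5]
      exact (min_le_left _ _).trans (by linarith)
    · rw [min_eq_right h5]
      exact (min_le_right _ _).trans (by linarith)

end metric

variable {n : ℕ} {N : Type u} [MetricSpace N] [CompactSpace N] [ChartedSpace (V n) N]
  [IsManifold (𝓡 n) ∞ N] {B : Type v} [MetricSpace B]

/-- the half of the theorem -/
theorem half {r : ℕ∞} (hr : 1 ≤ r) (F : DiffM n N r) {ψ : ℝ → N → N}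
    (hψ : IsFlow n N ψ) {p : N → B} (hb : CircleBundle ψ p) {θ : N → ℝ → ℝ}
    (h : OrbitMap (F : N → N) ψ θ) {f : B → B} (hf : ∀ z, p (F z) = f (p z)) (hsh : PerShadow f)
    {ε : ℝ} (hε : 0 < ε) (hgap : Gap (F : N → N) ψ ε)
    {k : ℕ} (hk : 1 ≤ k) {P : N} (hP : (F : N → N)^[k] P = P)
    {d d' ϱ : ℝ} (h00 : LT (F : N → N) θ 0 k P 0 = 0) (hd : HasDerivAt (LT (F : N → N) θ 0 k P) d 0)
    (hd1 : d < 1) (hϱ : 0 < ϱ) (hϱ1 : ϱ ≤ 1) (hϱϱ : LT (F : N → N) θ 0 k P ϱ = ϱ)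
    (hlt : ∀ t, 0 < t → t < ϱ → LT (F : N → N) θ 0 k P t < t)
    (hd' : HasDerivAt (LT (F : N → N) θ 0 k P) d' ϱ) (hd'1 : 1 < d')
    {Q : N} (hQ : (F : N → N)^[k] Q = Q) {ϱq : ℝ} (hϱq : 0 < ϱq) (hϱq1 : ϱq ≤ 1)
    (hup : ∀ t, 0 ≤ t → t ≤ ϱq → t ≤ LT (F : N → N) θ 0 k Q t) :
    ∃ s₁ : ℝ, 0 < s₁ ∧ ∃ δ : ℝ, 0 < δ ∧ ∀ (l₁ l₂ : ℕ) (Y Z : ℕ → N), 1 ≤ l₁ → 1 ≤ l₂ →
      Y 0 = P → Y l₁ = Q → Z 0 = Q → Z l₂ = P → IsCh (F : N → N) δ l₁ Y →
      IsCh (F : N → N) δ l₂ Z → idr θ Z s₁ l₂ ϱq < ϱ := by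
  have hψ' := flw hψ
  have hFc : Continuous (F : N → N) := F.continuous
  obtain ⟨κ, lam, mu, β', σ₁, hκ, hκϱ, hlam, hlam1, hmu, hβ', hσ₁, hloop⟩ :=
    exists_loop hr F hψ hb h hk hP h00 hd hd1 hϱ hϱ1 hϱϱ hlt hd' hd'1
  obtain ⟨σ₀, hσ₀, hσ1, hσ2, hσ3⟩ : ∃ σ₀ : ℝ, 0 < σ₀ ∧ σ₀ ≤ σ₁ ∧ σ₀ < ε ∧ σ₀ ≤ ϱ :=
    ⟨min σ₁ (min (ε / 2) ϱ), by positivity, min_le_left _ _,
      ((min_le_right _ _).trans (min_le_left _ _)).trans_lt (by linarith),
      (min_le_right _ _).trans (min_le_right _ _)⟩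
  obtain ⟨ζP, hζP, hevP⟩ := hloop σ₀ hσ₀ hσ1
  obtain ⟨ζQ, hζQ, hevQ⟩ := up_loop hψ' hb h hFc hk hϱq1 hup hσ₀
  obtain ⟨ηP, hηP, hPl⟩ := Metric.eventually_nhds_iff.1 hevP
  obtain ⟨ηQ, hηQ, hQl⟩ := Metric.eventually_nhds_iff.1 hevQ
  obtain ⟨ηc, hηc, hcl⟩ := theta_close hψ' hb h hFc F.injective
    (show (0 : ℝ) < σ₀ / 8 by positivity)
  obtain ⟨σr, hσr, hrs⟩ := run_small hψ' hb h hFc k (lt_min hζP hζQ)
  obtain ⟨ηt, hηt, htm⟩ := time_of_near hψ' hb (show (0 : ℝ) < σ₀ / 8 by positivity)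
  obtain ⟨δ, hδ, hlift⟩ := lift_chain hψ' hb hFc hf hsh (σ := min σr (σ₀ / 8))
    (η := min (min ηP ηQ) (min ηc (ηt / 2))) (by positivity) (by positivity)
  refine ⟨σ₀ / 2, half_pos hσ₀, δ, hδ, fun l₁ l₂ Y Z hl₁ hl₂ hY0 hY1 hZ0 hZ1 hYc hZc => ?_⟩
  by_contra hcon
  push Not at hcon
  -- number of loops near `Q`
  obtain ⟨m, hm⟩ : ∃ m : ℕ, ϱq ≤ m * (σ₀ / 2) := by
    obtain ⟨j, hj⟩ := exists_nat_ge (ϱq / (σ₀ / 2))
    exact ⟨j, by rwa [div_le_iff₀ (half_pos hσ₀)] at hj⟩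
  obtain ⟨l, hl⟩ : ∃ l, l = l₁ + (m * k + l₂) := ⟨_, rfl⟩
  obtain ⟨κℓ, hκℓ, hlow⟩ := LT_low hψ' hb h hFc l hϱ
  obtain ⟨ζ, hζ, hζ1, hζ2, hζ3, hζ4⟩ : ∃ ζ : ℝ, 0 < ζ ∧ ζ ≤ κℓ / 4 ∧ ζ ≤ ε / 8 ∧
      ζ ≤ σ₀ / 2 / 2 ∧ 2 * ζ ≤ ϱ := by
    refine ⟨min (min (κℓ / 4) (ε / 8)) (min (σ₀ / 2 / 2) (ϱ / 2)), by positivity,
      (min_le_left _ _).trans (min_le_left _ _), (min_le_left _ _).trans (min_le_right _ _),
      (min_le_right _ _).trans (min_le_left _ _), ?_⟩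
    have : min (min (κℓ / 4) (ε / 8)) (min (σ₀ / 2 / 2) (ϱ / 2)) ≤ ϱ / 2 :=
      (min_le_right _ _).trans (min_le_right _ _)
    linarith
  obtain ⟨ξ, hξ, hLup⟩ := LT_up hψ' hb h hFc l (half_pos hζ)
  obtain ⟨ν, hcore⟩ := core hσ₀ hκ hκϱ hlam hlam1 hmu (half_pos hσ₀) hβ' hκℓ hε hζ hξ hζ1 hζ2 hζ3 hζ4
  -- the chain
  obtain ⟨X, hXd⟩ : ∃ X : ℕ → N, X = cat (ν * k) (fun i => (F : N → N)^[i] P)
    (cat l₁ Y (cat (m * k) (fun i => (F : N → N)^[i] Q) Z)) := ⟨_, rfl⟩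
  have j3 : (fun i => (F : N → N)^[i] Q) (m * k) = Z 0 := by
    show (F : N → N)^[m * k] Q = Z 0
    rw [mul_per hQ, hZ0]
  have j2 : Y l₁ = cat (m * k) (fun i => (F : N → N)^[i] Q) Z 0 := by
    rw [cat_lo j3 (Nat.zero_le _), hY1]
    rfl
  have j1 : (fun i => (F : N → N)^[i] P) (ν * k) =
      cat l₁ Y (cat (m * k) (fun i => (F : N → N)^[i] Q) Z) 0 := by
    rw [cat_lo j2 (Nat.zero_le _), hY0]
    exact mul_per hP ν
  have c3 : IsCh (F : N → N) δ (m * k + l₂) (cat (m * k) (fun i => (F : N → N)^[i] Q) Z) :=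
    (IsCh.orbit hδ _ _).cat hZc j3
  have c2 : IsCh (F : N → N) δ l (cat l₁ Y (cat (m * k) (fun i => (F : N → N)^[i] Q) Z)) := by
    rw [hl]
    exact hYc.cat c3 j2
  have c1 : IsCh (F : N → N) δ (ν * k + l) X := by
    rw [hXd]
    exact (IsCh.orbit hδ _ _).cat c2 j1
  have hXP : ∀ i ≤ ν * k, X i = (F : N → N)^[i] P := fun i hi => by
    rw [hXd, cat_lo j1 hi]
  have hXQ : ∀ i ≤ m * k, X (ν * k + (l₁ + i)) = (F : N → N)^[i] Q := fun i hi => by
    rw [hXd, cat_hi, cat_hi, cat_lo j3 hi]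
  have hXZ : ∀ i, X (ν * k + (l₁ + (m * k + i))) = Z i := fun i => by
    rw [hXd, cat_hi, cat_hi, cat_hi]
  have hX0 : X 0 = P := by rw [hXP 0 (Nat.zero_le _)]; rfl
  have hXM : X (ν * k + l) = P := by rw [hl, hXZ, hZ1]
  have hM : 1 ≤ ν * k + l := by omega
  obtain ⟨w, u, hw, hu, hwM⟩ := hlift (ν * k + l) X hM (by rw [hXM, hX0]) c1
  have ηle1 : min (min ηP ηQ) (min ηc (ηt / 2)) ≤ ηP := (min_le_left _ _).trans (min_le_left _ _)
  have ηle2 : min (min ηP ηQ) (min ηc (ηt / 2)) ≤ ηQ := (min_le_left _ _).trans (min_le_right _ _)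
  have ηle3 : min (min ηP ηQ) (min ηc (ηt / 2)) ≤ ηc := (min_le_right _ _).trans (min_le_left _ _)
  have ηle4 : min (min ηP ηQ) (min ηc (ηt / 2)) ≤ ηt / 2 :=
    (min_le_right _ _).trans (min_le_right _ _)
  have hu1 : ∀ j < ν * k + l, |u j| ≤ σr := fun j hj => ((hu j hj).1.trans_le (min_le_left _ _)).le
  have hu2 : ∀ j < ν * k + l, |u j| ≤ σ₀ / 8 := fun j hj =>
    ((hu j hj).1.trans_le (min_le_right _ _)).le
  obtain ⟨c₀, hc₀, hwc⟩ := htm (w 0) (w (ν * k + l)) hwM.symm (by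
    have e1 := hw (ν * k + l) le_rfl
    have e2 := hw 0 (Nat.zero_le _)
    rw [hXM] at e1
    rw [hX0] at e2
    have e3 := dist_triangle_right (w (ν * k + l)) (w 0) P
    linarith)
  rw [abs_lt] at hc₀
  have hret : ∀ s t, (fun y => ψ s (F y))^[ν * k + l] (ψ t (w 0)) =
      ψ (run θ w u s 0 (ν * k + l) t + c₀) (w 0) := by
    intro s t
    have h1 := run_apply (θ := θ) (w := w) (u := u) hψ' h s 0 (ν * k + l)
      (fun i hi => by rw [zero_add]; exact (hu i hi).2) t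
    rw [zero_add, hwc, ← hψ'.add] at h1
    exact h1
  -- the loops near `P`
  have hLoop : ∀ j < ν, Loop σ₀ κ ϱ lam mu (σ₀ / 2) β'
      ((fun i s t => run θ w u s (0 + i * k) k t) j) := by
    intro j hj
    have hjk : j * k + k ≤ ν * k := by
      have := Nat.mul_le_mul_right k (show j + 1 ≤ ν by omega)
      rwa [Nat.succ_mul] at this
    have e1 : dist (w (0 + j * k)) P < ηP := by
      rw [zero_add]
      have e2 := hw (j * k) (by omega)
      rw [hXP (j * k) (by omega), mul_per hP] at e2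
      exact e2.trans_le ηle1
    have e3 := hrs w u (0 + j * k) (fun i hi => hu1 _ (by omega))
    have e4 := hPl e1 _ (e3.trans (min_le_left _ _))
    have e5 : (fun i s t => run θ w u s (0 + i * k) k t) j =
        fun s t => LT (F : N → N) θ s k (w (0 + j * k)) t + run θ w u 0 (0 + j * k) k 0 := by
      funext s t
      exact run_LT hψ' hb h s (0 + j * k) k (fun i hi => (hu _ (by omega)).2) t
    rw [e5]
    exact e4
  obtain ⟨C, hCd⟩ : ∃ C : ℝ → ℝ → ℝ, ∀ s t, C s t = run θ w u s (ν * k) l t + c₀ :=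
    ⟨_, fun _ _ => rfl⟩
  have hCf : C = fun s t => run θ w u s (ν * k) l t + c₀ := by
    funext s t
    exact hCd s t
  have hCLT : ∀ s t, C s t = LT (F : N → N) θ s l (w (ν * k)) t +
      run θ w u 0 (ν * k) l 0 + c₀ := by
    intro s t
    rw [hCd, run_LT hψ' hb h s (ν * k) l (fun i hi => (hu _ (by omega)).2) t]
  have hC1 : ϱ ≤ C σ₀ 0 := by
    have y1 : 0 ≤ run θ w u σ₀ (ν * k) l₁ 0 := by
      have := run_pos (w := w) h (β := 7 * σ₀ / 8) (by positivity) (s := σ₀) (a := ν * k)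
        (j := l₁) (u := u) (fun i hi => by
          have := abs_le.1 (hu2 (ν * k + i) (by omega))
          linarith [this.1]) le_rfl hl₁
      linarith
    have y2 : ϱq ≤ run θ w u σ₀ (ν * k + l₁) (m * k) (run θ w u σ₀ (ν * k) l₁ 0) := by
      rw [run_comps]
      have hQ1 : ∀ i < m, ∀ t, 0 ≤ t → t ≤ ϱq →
          t + σ₀ / 2 ≤ (fun i s t => run θ w u s (ν * k + l₁ + i * k) k t) i σ₀ t := by
        intro i hi t ht0 ht1
        have hik : i * k + k ≤ m * k := by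
          have := Nat.mul_le_mul_right k (show i + 1 ≤ m by omega)
          rwa [Nat.succ_mul] at this
        have e1 : dist (w (ν * k + l₁ + i * k)) Q < ηQ := by
          have e2 := hw (ν * k + (l₁ + i * k)) (by omega)
          rw [hXQ (i * k) (by omega), mul_per hQ, ← Nat.add_assoc] at e2
          exact e2.trans_le ηle2
        have e3 := hrs w u (ν * k + l₁ + i * k) (fun i' hi' => hu1 _ (by omega))
        have e4 := hQl e1 _ (e3.trans (min_le_right _ _)) t ht0 ht1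
        show t + σ₀ / 2 ≤ run θ w u σ₀ (ν * k + l₁ + i * k) k t
        rw [run_LT hψ' hb h σ₀ (ν * k + l₁ + i * k) k (fun i' hi' => (hu _ (by omega)).2) t]
        exact e4
      have := up_comps (ℓ := fun i s t => run θ w u s (ν * k + l₁ + i * k) k t) (s := σ₀)
        (half_pos hσ₀).le (j := m) (fun i _ => run_mono h σ₀ _ k) hQ1 y1 hϱq.le
      refine le_trans (le_min le_rfl ?_) this
      linarith
    have key : ∀ j ≤ l₂, idr θ Z (σ₀ / 2) j ϱq ≤
        run θ w u σ₀ (ν * k + l₁ + m * k) j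
          (run θ w u σ₀ (ν * k + l₁) (m * k) (run θ w u σ₀ (ν * k) l₁ 0)) ∧
        (1 ≤ j → idr θ Z (σ₀ / 2) j ϱq + σ₀ / 8 ≤ run θ w u σ₀ (ν * k + l₁ + m * k) j
          (run θ w u σ₀ (ν * k + l₁) (m * k) (run θ w u σ₀ (ν * k) l₁ 0))) := by
      intro j
      induction j with
      | zero => exact fun _ => ⟨y2, fun h => absurd h (by omega)⟩
      | succ j ih =>
        intro hj
        have h1 := (ih (by omega)).1
        have h2 := (h.mono (w (ν * k + l₁ + m * k + j))).monotone h1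
        have h3 := abs_le.1 (hu2 (ν * k + l₁ + m * k + j) (by omega))
        have h4 : dist (w (ν * k + l₁ + m * k + j)) (Z j) < ηc := by
          have e2 := hw (ν * k + (l₁ + (m * k + j))) (by omega)
          rw [hXZ, ← Nat.add_assoc, ← Nat.add_assoc] at e2
          exact e2.trans_le ηle3
        have h5 := abs_lt.1 (hcl (Z j) (w (ν * k + l₁ + m * k + j)) h4
          (idr θ Z (σ₀ / 2) j ϱq))
        have h6 : idr θ Z (σ₀ / 2) (j + 1) ϱq + σ₀ / 8 ≤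
            run θ w u σ₀ (ν * k + l₁ + m * k) (j + 1)
              (run θ w u σ₀ (ν * k + l₁) (m * k) (run θ w u σ₀ (ν * k) l₁ 0)) := by
          show σ₀ / 2 + θ (Z j) (idr θ Z (σ₀ / 2) j ϱq) + σ₀ / 8 ≤
            σ₀ + u (ν * k + l₁ + m * k + j) + θ (w (ν * k + l₁ + m * k + j))
              (run θ w u σ₀ (ν * k + l₁ + m * k) j
                (run θ w u σ₀ (ν * k + l₁) (m * k) (run θ w u σ₀ (ν * k) l₁ 0)))
          linarith [h3.1, h5.1]
        exact ⟨by linarith, fun _ => h6⟩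
    have h7 := (key l₂ le_rfl).2 hl₂
    rw [hCd, hl, run_add, run_add]
    linarith [hc₀.1]
  have hC2 : C (-σ₀) 0 ≤ ϱ - σ₀ / 2 := by
    have h1 := run_neg (w := w) h (β := 7 * σ₀ / 8) (by positivity) (s := -σ₀) (a := ν * k)
      (j := l) (u := u) (fun i hi => by
        have := abs_le.1 (hu2 (ν * k + i) (by omega))
        linarith [this.2]) le_rfl (by omega)
    rw [hCd]
    linarith [hc₀.2]
  obtain ⟨s, t, t', hs, htt, htt', ht, ht'⟩ := hcore
    (fun i s t => run θ w u s (0 + i * k) k t) C hLoop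
    (by rw [hCf]; exact (run_cont h _ _).add continuous_const)
    (fun s t t' htt => by
      rw [hCd, hCd]
      have := run_mono (w := w) (u := u) h s (ν * k) l htt
      linarith) hC1 hC2
    (fun s _ => by
      rw [hCLT, hCLT, add_comm ϱ κ]
      have := hlow s (w (ν * k)) κ
      linarith)
    (fun s _ t t' _ h2 _ h4 => by
      rw [hCLT, hCLT]
      have := hLup s (w (ν * k)) t (t' - t) (by linarith) h4
      rw [add_sub_cancel] at this
      linarith)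
  have hfix : ∀ t, C s (comps (fun i s t => run θ w u s (0 + i * k) k t) s 0 ν t) = t →
      (fun y => ψ s (F y))^[ν * k + l] (ψ t (w 0)) = ψ t (w 0) := by
    intro t ht
    rw [hret, run_add, run_comps, zero_add (ν * k), ← hCd, ht]
  refine hgap s (hs.trans_lt hσ2) (ν * k + l) hM (ψ t (w 0)) (hfix t ht) (t' - t) (by linarith)
    htt' ?_
  rw [← hψ'.add, sub_add_cancel]
  exact hfix t' ht'

end Pool.Agent.J4.H98.Fib
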