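import Pool.Agent.J4.H98.FibG

/-!
# Maps of circle bundles: inverse maps, and the structure of the return maps
-/

set_option autoImplicit false
set_option linter.unusedSectionVars false

open scoped Manifold ContDiff Topology
open Filter Set

universe u v

namespace Pool.Agent.J4.H98.Fib

open Pool.Agent.J4.H98.Orb Pool.Agent.TH80.OMS
open Pool.Agent.H718R2.G
open Pool.Agent.TH290.CL (IsFlow)

section metric

variable {N : Type u} {B : Type v} [MetricSpace N] [CompactSpace N] [MetricSpace B]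
  {ψ : ℝ → N → N} {p : N → B} {G : N → N} {θ : N → ℝ → ℝ}

theorem theta_int (hψ : Flw ψ) (hb : CircleBundle ψ p) (h : OrbitMap G ψ θ)
    (hG : Function.Injective G) (w : N) (k : ℤ) : θ w k = k := by
  have e := (theta_per hψ hb h hG w).int_mul_eq k
  rw [mul_one] at e
  have e' : θ w k - k = θ w 0 - 0 := e
  rw [h.zero] at e'
  linarith

theorem theta_surj (hψ : Flw ψ) (hb : CircleBundle ψ p) (h : OrbitMap G ψ θ)
    (hG : Function.Injective G) (w : N) : Function.Surjective (θ w) := by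
  intro y
  have h1 : θ w ((⌊y⌋ : ℤ) : ℝ) ≤ y := by
    rw [theta_int hψ hb h hG]
    exact Int.floor_le y
  have h2 : y ≤ θ w ((⌊y⌋ + 1 : ℤ) : ℝ) := by
    rw [theta_int hψ hb h hG]
    push_cast
    exact (Int.lt_floor_add_one y).le
  obtain ⟨t, -, ht⟩ := intermediate_value_Icc (by push_cast; linarith :
    ((⌊y⌋ : ℤ) : ℝ) ≤ ((⌊y⌋ + 1 : ℤ) : ℝ)) (h.cont w).continuousOn ⟨h1, h2⟩
  exact ⟨t, ht⟩

/-- inverse maps preserve the orbits -/
theorem inv_map (hψ : Flw ψ) (hb : CircleBundle ψ p) (h : OrbitMap G ψ θ)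
    {G' : N → N} (h1 : ∀ z, G (G' z) = z) (h2 : ∀ z, G' (G z) = z) :
    ∃ θ' : N → ℝ → ℝ, OrbitMap G' ψ θ' ∧ ∀ z t, θ (G' z) (θ' z t) = t := by
  have hG : Function.Injective G := fun a b hab => by rw [← h2 a, hab, h2]
  obtain ⟨e, he⟩ : ∃ e : N → (ℝ ≃o ℝ), ∀ w t, e w t = θ w t :=
    ⟨fun w => StrictMono.orderIsoOfSurjective (θ w) (h.mono w) (theta_surj hψ hb h hG w),
      fun w t => rfl⟩
  refine ⟨fun z t => (e (G' z)).symm t, ⟨fun z => (e (G' z)).symm.continuous,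
    fun z => (e (G' z)).symm.strictMono, fun z => ?_, fun z t => ?_⟩, fun z t => ?_⟩
  · show (e (G' z)).symm 0 = 0
    rw [OrderIso.symm_apply_eq, he, h.zero]
  · show G' (ψ t z) = ψ ((e (G' z)).symm t) (G' z)
    rw [← h2 (ψ ((e (G' z)).symm t) (G' z)), h.eq, ← he, OrderIso.apply_symm_apply, h1]
  · show θ (G' z) ((e (G' z)).symm t) = t
    rw [← he, OrderIso.apply_symm_apply]

/-- the inverse of the base map, with shadowing -/
theorem base_inv (hψ : Flw ψ) (hb : CircleBundle ψ p) (hGc : Continuous G) {G' : N → N}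
    {θ' : N → ℝ → ℝ} (h' : OrbitMap G' ψ θ') (h1 : ∀ z, G (G' z) = z) (h2 : ∀ z, G' (G z) = z)
    {f : B → B} (hf : ∀ z, p (G z) = f (p z)) (hsh : PerShadow f) :
    ∃ f' : B → B, (∀ z, p (G' z) = f' (p z)) ∧ PerShadow f' := by
  choose g hg using hb.surj
  have hwd : ∀ z, p (G' z) = p (G' (g (p z))) := by
    intro z
    obtain ⟨t, ht⟩ := (hb.fib z (g (p z))).1 (hg (p z)).symm
    rw [← ht, h'.eq]
    exact (hb.fib _ _).2 ⟨_, rfl⟩
  obtain ⟨f', hf'⟩ : ∃ f' : B → B, ∀ x, f' x = p (G' (g x)) := ⟨_, fun _ => rfl⟩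
  have hf1 : ∀ z, p (G' z) = f' (p z) := fun z => by rw [hf', ← hwd]
  have hff' : ∀ x, f (f' x) = x := fun x => by rw [hf', ← hf, h1, hg]
  have hf'f : ∀ x, f' (f x) = x := by
    intro x
    obtain ⟨z, rfl⟩ := hb.surj x
    rw [← hf, ← hf1, h2]
  refine ⟨f', hf1, fun η hη => ?_⟩
  obtain ⟨δ₁, hδ₁, hs⟩ := hsh η hη
  -- uniform continuity of `f`
  have huf : ∃ δ > 0, ∀ x x' : B, dist x x' < δ → dist (f x) (f x') < δ₁ := by
    have h3 := CompactSpace.uniformContinuous_of_continuous (hb.cont.comp hGc)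
    obtain ⟨δ₂, hδ₂, h4⟩ := Metric.uniformContinuous_iff.1 h3 δ₁ hδ₁
    obtain ⟨δ, hδ, h5⟩ := lift_near hψ hb hδ₂
    refine ⟨δ, hδ, fun x x' hxx => ?_⟩
    obtain ⟨z, rfl⟩ := hb.surj x'
    obtain ⟨w, rfl, hw⟩ := h5 z x hxx
    rw [← hf, ← hf]
    exact h4 hw
  obtain ⟨δ, hδ, huf⟩ := huf
  refine ⟨δ, hδ, fun m x hm hxm hx => ?_⟩
  obtain ⟨y, hy, hyc⟩ := hs m (fun i => x (m - i)) hm (by
    show x (m - m) = x (m - 0)
    rw [Nat.sub_self, Nat.sub_zero, hxm]) (fun i hi => by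
    show dist (f (x (m - i))) (x (m - (i + 1))) < δ₁
    have e1 : m - i = (m - (i + 1)) + 1 := by omega
    have e2 := huf _ _ (hx (m - (i + 1)) (by omega))
    rw [hff', dist_comm, ← e1] at e2
    exact e2)
  have hit : ∀ i ≤ m, f'^[i] y = f^[m - i] y := by
    intro i
    induction i with
    | zero => intro _; rw [Nat.sub_zero, hy]; rfl
    | succ i ih =>
      intro hi
      rw [Function.iterate_succ_apply', ih (by omega), show m - i = (m - (i + 1)) + 1 by omega,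
        Function.iterate_succ_apply', hf'f]
  refine ⟨y, by rw [hit m le_rfl, Nat.sub_self]; rfl, fun i hi => ?_⟩
  rw [hit i hi.le]
  rcases Nat.eq_zero_or_pos i with h0 | h0
  · rw [h0, Nat.sub_zero, hy, ← hxm]
    exact hyc 0 (by omega)
  · have := hyc (m - i) (by omega)
    have e : m - (m - i) = i := by omega
    simp only [e] at this
    exact this

theorem gap_symm (hψ : Flw ψ) {G' : N → N} (h1 : ∀ z, G (G' z) = z) {ε : ℝ}
    (hg : Gap G ψ ε) : Gap G' ψ ε := by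
  intro s hs m hm z hz τ hτ0 hτ1 hz'
  have key : ∀ (j : ℕ) (y : N),
      (fun y => ψ (-s) (G y))^[j] (ψ (-s) ((fun y => ψ s (G' y))^[j] y)) = ψ (-s) y := by
    intro j
    induction j with
    | zero => intro y; rfl
    | succ j ih =>
      intro y
      have e1 : ψ (-s) (G (ψ (-s) (ψ s (G' ((fun y => ψ s (G' y))^[j] y)))))
          = ψ (-s) ((fun y => ψ s (G' y))^[j] y) := by
        rw [← hψ.add, neg_add_cancel, hψ.zero, h1]
      rw [Function.iterate_succ_apply' (fun y => ψ s (G' y)), Function.iterate_succ_apply, e1, ih]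
  refine hg (-s) (by rwa [abs_neg]) m hm (ψ (-s) z) ?_ τ hτ0 hτ1 ?_
  · have := key m z
    rwa [hz] at this
  · have := key m (ψ τ z)
    rw [hz', ← hψ.add, add_comm (-s) τ, hψ.add] at this
    exact this

theorem LT_zero0 (h : OrbitMap G ψ θ) (k : ℕ) (z : N) : LT G θ 0 k z 0 = 0 := by
  induction k with
  | zero => rfl
  | succ k ih =>
    show 0 + θ (G^[k] z) (LT G θ 0 k z 0) = 0
    rw [ih, h.zero, add_zero]

theorem LT_one (hψ : Flw ψ) (hb : CircleBundle ψ p) (h : OrbitMap G ψ θ)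
    (hG : Function.Injective G) (k : ℕ) (z : N) : LT G θ 0 k z 1 = 1 := by
  induction k with
  | zero => rfl
  | succ k ih =>
    show 0 + θ (G^[k] z) (LT G θ 0 k z 1) = 1
    rw [ih, theta_one hψ hb h hG, zero_add]

theorem LT_apply0 (hψ : Flw ψ) (h : OrbitMap G ψ θ) (k : ℕ) (z : N) (t : ℝ) :
    G^[k] (ψ t z) = ψ (LT G θ 0 k z t) (G^[k] z) := by
  have e0 : (fun y => ψ 0 (G y)) = G := by
    funext y
    exact hψ.zero _
  have e := LT_apply hψ.add h 0 k z t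
  rwa [e0] at e

/-- the return maps of the inverse map are the inverse maps -/
theorem LT_inv (hψ : Flw ψ) (hb : CircleBundle ψ p) (h : OrbitMap G ψ θ) {G' : N → N}
    {θ' : N → ℝ → ℝ} (h' : OrbitMap G' ψ θ') (h2 : ∀ z, G' (G z) = z) {k : ℕ} {z : N}
    (hz : G^[k] z = z) (t : ℝ) : LT G' θ' 0 k z (LT G θ 0 k z t) = t := by
  have hz' : G'^[k] z = z := by
    have : ∀ j (y : N), G'^[j] (G^[j] y) = y := by
      intro j
      induction j with
      | zero => intro y; rfl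
      | succ j ih =>
        intro y
        rw [Function.iterate_succ_apply' G, Function.iterate_succ_apply G', h2, ih]
    have := this k z
    rwa [hz] at this
  have hc1 : Continuous (LT G θ 0 k z) :=
    (LT_cont h k z).comp (continuous_const.prodMk continuous_id)
  have hc2 : Continuous (LT G' θ' 0 k z) :=
    (LT_cont h' k z).comp (continuous_const.prodMk continuous_id)
  have key := int_zero (e := fun t => LT G' θ' 0 k z (LT G θ 0 k z t) - t)
    ((hc2.comp hc1).sub continuous_id) (by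
      show LT G' θ' 0 k z (LT G θ 0 k z 0) - 0 = 0
      rw [LT_zero0 h, LT_zero0 h', sub_zero]) (fun t => by
      have e1 := LT_apply0 hψ h k z t
      rw [hz] at e1
      have e2 := LT_apply0 hψ h' k z (LT G θ 0 k z t)
      rw [hz', ← e1] at e2
      have e3 : G'^[k] (G^[k] (ψ t z)) = ψ t z := by
        have : ∀ j (y : N), G'^[j] (G^[j] y) = y := by
          intro j
          induction j with
          | zero => intro y; rfl
          | succ j ih =>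
            intro y
            rw [Function.iterate_succ_apply' G, Function.iterate_succ_apply G', h2, ih]
        exact this k _
      rw [e3] at e2
      refine (hb.free (ψ t z) _).1 ?_
      rw [← hψ.add, sub_add_cancel, ← e2]) t
  have key' : LT G' θ' 0 k z (LT G θ 0 k z t) - t = 0 := key
  linarith

/-- points near `z` on its orbit come closer -/
def Closer (G : N → N) (ψ : ℝ → N → N) (z : N) : Prop :=
  ∃ m : ℕ, 1 ≤ m ∧ G^[m] z = z ∧ ∃ ρ : ℝ, 0 < ρ ∧ ∀ t : ℝ, 0 < |t| → |t| < ρ →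
    ∃ t' : ℝ, |t'| < |t| ∧ G^[m] (ψ t z) = ψ t' z

theorem closer_mul (hψ : Flw ψ) {m : ℕ} {z : N} (hz : G^[m] z = z) {ρ : ℝ}
    (hc : ∀ t : ℝ, 0 < |t| → |t| < ρ → ∃ t' : ℝ, |t'| < |t| ∧ G^[m] (ψ t z) = ψ t' z) {j : ℕ}
    (hj : 1 ≤ j) : ∀ t : ℝ, 0 < |t| → |t| < ρ → ∃ t' : ℝ, |t'| < |t| ∧
      G^[j * m] (ψ t z) = ψ t' z := by
  induction j with
  | zero => omega
  | succ j ih =>
    intro t h0 h1
    obtain ⟨t₁, h2, h3⟩ := hc t h0 h1
    rw [Nat.succ_mul, Function.iterate_add_apply, h3]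
    rcases Nat.eq_zero_or_pos j with hj0 | hj0
    · refine ⟨t₁, h2, ?_⟩
      rw [hj0, Nat.zero_mul]
      rfl
    · rcases (abs_nonneg t₁).eq_or_lt with h4 | h4
      · have h5 : t₁ = 0 := abs_eq_zero.1 h4.symm
        refine ⟨0, by rwa [abs_zero], ?_⟩
        rw [h5, hψ.zero]
        exact mul_per hz j
      · obtain ⟨t₂, h5, h6⟩ := ih hj0 t₁ h4 (h2.trans h1)
        exact ⟨t₂, h5.trans h2, h6⟩

theorem closer_le (hψ : Flw ψ) (hb : CircleBundle ψ p) (h : OrbitMap G ψ θ) {k : ℕ} {z : N}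
    (hz : G^[k] z = z) {ρ : ℝ} (hρ : 0 < ρ)
    (hc : ∀ t : ℝ, 0 < |t| → |t| < ρ → ∃ t' : ℝ, |t'| < |t| ∧ G^[k] (ψ t z) = ψ t' z) {d : ℝ}
    (hd : HasDerivAt (LT G θ 0 k z) d 0) : d ≤ 1 := by
  have hcont : Continuous (LT G θ 0 k z) :=
    (LT_cont h k z).comp (continuous_const.prodMk continuous_id)
  have h00 := LT_zero0 h k z
  have hev : ∀ᶠ t in 𝓝 (0 : ℝ), |LT G θ 0 k z t| < 1 / 2 := by
    refine hcont.abs.continuousAt.eventually_lt continuousAt_const ?_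
    show |LT G θ 0 k z 0| < 1 / 2
    rw [h00, abs_zero]
    norm_num
  have hev2 : ∀ᶠ t in 𝓝 (0 : ℝ), |t| < min ρ (1 / 2) := by
    refine continuous_abs.continuousAt.eventually_lt continuousAt_const ?_
    show |(0 : ℝ)| < _
    rw [abs_zero]
    positivity
  have hlt : ∀ᶠ t in 𝓝[>] (0 : ℝ), LT G θ 0 k z t < t := by
    filter_upwards [hev.filter_mono nhdsWithin_le_nhds, hev2.filter_mono nhdsWithin_le_nhds,
      self_mem_nhdsWithin] with t h1 h2 h3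
    have h3' : 0 < t := h3
    have ht : |t| = t := abs_of_pos h3'
    obtain ⟨t', h4, h5⟩ := hc t (by rw [ht]; exact h3') (h2.trans_le (min_le_left _ _))
    rw [LT_apply0 hψ h, hz] at h5
    have h6 : ψ (LT G θ 0 k z t - t') (ψ t' z) = ψ t' z := by
      rw [← hψ.add, sub_add_cancel, h5]
    obtain ⟨j, hj⟩ := (hb.free _ _).1 h6
    have h7 : |t'| < 1 / 2 := h4.trans (h2.trans_le (min_le_right _ _))
    have h8 : |(j : ℝ)| < 1 := by
      rw [← hj]
      have := abs_sub (LT G θ 0 k z t) t'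
      linarith
    have h9 : j = 0 := by
      rw [abs_lt] at h8
      have h10 : -1 < j := by exact_mod_cast h8.1
      have h11 : j < 1 := by exact_mod_cast h8.2
      omega
    rw [h9, Int.cast_zero, sub_eq_zero] at hj
    rw [hj]
    exact (le_abs_self t').trans_lt (by rwa [ht] at h4)
  have hsl := (hasDerivAt_iff_tendsto_slope_zero.1 hd).mono_left
    (nhdsWithin_mono (0 : ℝ) fun x (hx : 0 < x) => hx.ne' : 𝓝[>] (0 : ℝ) ≤ 𝓝[≠] 0)
  refine le_of_tendsto hsl ?_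
  filter_upwards [hlt, self_mem_nhdsWithin] with t h1 h2
  have h2' : 0 < t := h2
  rw [zero_add, h00, sub_zero, smul_eq_mul, inv_mul_le_iff₀ h2', mul_one]
  exact h1.le

/-- the next fixed point -/
theorem next_fixed {v : ℝ → ℝ} (hv : Continuous v) (h0 : v 0 = 0) (h1 : v 1 = 1) {d : ℝ}
    (hd : HasDerivAt v d 0) (hd1 : d < 1)
    (hne : ∀ t, v t = t → ∃ d', d' ≠ 1 ∧ HasDerivAt v d' t) :
    ∃ ϱ d' : ℝ, 0 < ϱ ∧ ϱ ≤ 1 ∧ v ϱ = ϱ ∧ (∀ t, 0 < t → t < ϱ → v t < t) ∧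
      HasDerivAt v d' ϱ ∧ 1 < d' := by
  have hlt : ∀ᶠ t in 𝓝[>] (0 : ℝ), v t < t := by
    have hsl := (hasDerivAt_iff_tendsto_slope_zero.1 hd).mono_left
      (nhdsWithin_mono (0 : ℝ) fun x (hx : 0 < x) => hx.ne' : 𝓝[>] (0 : ℝ) ≤ 𝓝[≠] 0)
    filter_upwards [hsl.eventually_lt_const hd1, self_mem_nhdsWithin] with t h2 h3
    have h3' : 0 < t := h3
    rw [zero_add, h0, sub_zero, smul_eq_mul, inv_mul_lt_iff₀ h3', mul_one] at h2
    exact h2
  obtain ⟨ρ, hρ, hρ'⟩ := mem_nhdsGT_iff_exists_Ioo_subset.1 hlt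
  have hρ0 : 0 < ρ := hρ
  have hlt' : ∀ t, 0 < t → t < ρ → v t < t := fun t h2 h3 => hρ' ⟨h2, h3⟩
  have hρ1 : ρ ≤ 1 := by
    by_contra hcon
    push Not at hcon
    have := hlt' 1 one_pos hcon
    linarith
  have hK : IsCompact (Icc (ρ / 2) 1 ∩ {t | v t = t}) :=
    isCompact_Icc.inter_right (isClosed_eq hv continuous_id)
  obtain ⟨ϱ, ⟨hϱI, hϱ⟩, hmin⟩ := hK.exists_isLeast ⟨1, ⟨by linarith, le_rfl⟩, h1⟩
  have hϱ' : v ϱ = ϱ := hϱ
  have hϱ0 : 0 < ϱ := by linarith [hϱI.1]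
  have hbelow : ∀ t, 0 < t → t < ϱ → v t < t := by
    intro t ht0 ht1
    rcases lt_or_ge t ρ with h2 | h2
    · exact hlt' t ht0 h2
    · by_contra hcon
      push Not at hcon
      have h3 := hlt' (ρ / 2) (by linarith) (by linarith)
      obtain ⟨x, hxI, hx⟩ := intermediate_value_Icc (by linarith : ρ / 2 ≤ t)
        (hv.sub continuous_id).continuousOn
        (show (0 : ℝ) ∈ Icc (v (ρ / 2) - ρ / 2) (v t - t) from ⟨by linarith, by linarith⟩)
      have hx' : v x - x = 0 := hx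
      have h4 := hmin ⟨⟨hxI.1, by linarith [hxI.2, hϱI.2]⟩, show v x = x by linarith⟩
      linarith [hxI.2]
  obtain ⟨d', hd'1, hd'⟩ := hne ϱ hϱ'
  refine ⟨ϱ, d', hϱ0, hϱI.2, hϱ', hbelow, hd', lt_of_le_of_ne ?_ (Ne.symm hd'1)⟩
  have hsl := (hasDerivAt_iff_tendsto_slope_zero.1 hd').mono_left
    (nhdsWithin_mono (0 : ℝ) fun x (hx : x < 0) => hx.ne : 𝓝[<] (0 : ℝ) ≤ 𝓝[≠] 0)
  refine ge_of_tendsto hsl ?_
  filter_upwards [Ioo_mem_nhdsLT (neg_lt_zero.2 hϱ0)] with t ht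
  have h2 := hbelow (ϱ + t) (by linarith [ht.1]) (by linarith [ht.2])
  rw [hϱ', smul_eq_mul, inv_mul_eq_div, le_div_iff_of_neg ht.2, one_mul]
  linarith

end metric

variable {n : ℕ} {N : Type u} [MetricSpace N] [CompactSpace N] [ChartedSpace (V n) N]
  [IsManifold (𝓡 n) ∞ N] {B : Type v} [MetricSpace B]

/-- differentiability of the return maps -/
theorem diff_at {r : ℕ∞} (hr : 1 ≤ r) (F : DiffM n N r) {ψ : ℝ → N → N}
    (hψ : IsFlow n N ψ) {θ : N → ℝ → ℝ} (h : OrbitMap (F : N → N) ψ θ) {k : ℕ} {z : N}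
    (hz : (F : N → N)^[k] z = z) (hnf : ∃ t, ψ t z ≠ z) :
    ∃ d : ℝ, HasDerivAt (LT (F : N → N) θ 0 k z) d 0 := by
  have hr' : (r : WithTop ℕ∞) ≤ ∞ := by exact_mod_cast le_top
  have hψ' := flw hψ
  have h00 := LT_zero0 h k z
  obtain ⟨φ, hφd⟩ : ∃ φ : OpenPartialHomeomorph N (V n), φ = chartAt (V n) z := ⟨_, rfl⟩
  have hzs : z ∈ φ.source := by rw [hφd]; exact mem_chart_source _ _
  have hT0 : (fun y => ψ 0 (F y))^[k] z = z := by
    have e : (fun y => ψ 0 (F y)) = (F : N → N) := by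
      funext y
      exact hψ.zero _
    rw [e]
    exact hz
  obtain ⟨Γ', hΓ'⟩ := strict_chart (n := n) hr (H := fun q : ℝ × N => ψ q.1 q.2)
    (hψ.smooth.of_le hr') (z := z) (hψ.zero z)
  obtain ⟨Φ', hΦ'⟩ := strict_chart (n := n) hr (H := fun q : ℝ × N => (fun y => ψ q.1 (F y))^[k] q.2)
    (iter_smooth hψ F k) (z := z) hT0
  rw [← hφd] at hΓ' hΦ'
  obtain ⟨Γ, hΓd⟩ : ∃ Γ : ℝ × V n → V n, Γ = fun q => φ (ψ q.1 (φ.symm q.2)) := ⟨_, rfl⟩
  obtain ⟨Φ, hΦd⟩ : ∃ Φ : ℝ × V n → V n, Φ = fun q => φ ((fun y => ψ q.1 (F y))^[k] (φ.symm q.2)) :=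
    ⟨_, rfl⟩
  have hΓ : HasStrictFDerivAt Γ Γ' (0, φ z) := by rw [hΓd]; exact hΓ'
  have hΦ : HasStrictFDerivAt Φ Φ' (0, φ z) := by rw [hΦd]; exact hΦ'
  obtain ⟨e, hed⟩ : ∃ e, e = Γ' (1, 0) := ⟨_, rfl⟩
  have hcψ := flow_cont hψ z
  obtain ⟨γ, hγd⟩ : ∃ γ : ℝ → V n, γ = fun t => φ (ψ t z) := ⟨_, rfl⟩
  have hγ0 : γ 0 = φ z := by rw [hγd]; show φ (ψ 0 z) = φ z; rw [hψ.zero]
  have hγ : HasDerivAt γ e 0 := by
    have h1 : HasDerivAt (fun t : ℝ => ((t, φ z) : ℝ × V n)) (1, 0) 0 :=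
      (hasDerivAt_id (0 : ℝ)).prodMk (hasDerivAt_const (0 : ℝ) (φ z))
    have h2 := HasFDerivAt.comp_hasDerivAt (x := (0 : ℝ)) (l := Γ)
      (f := fun t : ℝ => ((t, φ z) : ℝ × V n)) hΓ.hasFDerivAt h1
    rw [← hed] at h2
    refine h2.congr_of_eventuallyEq (Eventually.of_forall fun t => ?_)
    rw [hΓd, hγd]
    show φ (ψ t z) = φ (ψ t (φ.symm (φ z)))
    rw [φ.left_inv hzs]
  have he0 : e ≠ 0 := by
    intro he
    obtain ⟨t, ht⟩ := hnf
    apply ht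
    refine fixed_of_velocity hψ z ?_ t
    rw [he, hγd, hφd] at hγ
    exact hγ
  have hwn : ‖e‖ ^ 2 ≠ 0 := pow_ne_zero _ (norm_ne_zero_iff.2 he0)
  obtain ⟨lam, hlam⟩ : ∃ lam : V n →L[ℝ] ℝ, lam e = 1 := by
    refine ⟨(‖e‖ ^ 2)⁻¹ • innerSL ℝ e, ?_⟩
    rw [smul_apply, innerSL_apply_apply, real_inner_self_eq_norm_sq,
      smul_eq_mul, inv_mul_cancel₀ hwn]
  have hh : HasDerivAt (fun t => lam (γ t - γ 0)) 1 0 := by
    have h1 := lam.hasFDerivAt.comp_hasDerivAt (0 : ℝ) (hγ.sub_const (γ 0))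
    rw [hlam] at h1
    exact h1
  have hΦγ : HasDerivAt (fun t : ℝ => Φ ((0 : ℝ), γ t)) (Φ' (0, e)) 0 := by
    have h1 : HasDerivAt (fun t : ℝ => (((0 : ℝ), γ t) : ℝ × V n)) (0, e) 0 :=
      (hasDerivAt_const (0 : ℝ) (0 : ℝ)).prodMk hγ
    have hΦ0 : HasFDerivAt Φ Φ' ((0 : ℝ), γ 0) := by
      rw [hγ0]
      exact hΦ.hasFDerivAt
    exact HasFDerivAt.comp_hasDerivAt (x := (0 : ℝ)) (l := Φ)
      (f := fun t : ℝ => (((0 : ℝ), γ t) : ℝ × V n)) hΦ0 h1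
  have hΦ0 : Φ ((0 : ℝ), γ 0) = γ 0 := by
    rw [hΦd, hγ0]
    show φ ((fun y => ψ 0 (F y))^[k] (φ.symm (φ z))) = φ z
    rw [φ.left_inv hzs, hT0]
  have hk : HasDerivAt (fun t => lam (Φ ((0 : ℝ), γ t) - γ 0)) (lam (Φ' (0, e))) 0 :=
    lam.hasFDerivAt.comp_hasDerivAt (0 : ℝ) (hΦγ.sub_const (γ 0))
  have hcont : Continuous (LT (F : N → N) θ 0 k z) :=
    (LT_cont h k z).comp (continuous_const.prodMk continuous_id)
  refine ⟨lam (Φ' (0, e)), hasDerivAt_of_comp hh (by simp) hcont.continuousAt h00 hk ?_ ?_⟩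
  · show lam (Φ ((0 : ℝ), γ 0) - γ 0) = 0
    rw [hΦ0, sub_self, map_zero]
  · have hev : ∀ᶠ t in 𝓝 (0 : ℝ), ψ t z ∈ φ.source :=
      hcψ.continuousAt (φ.open_source.mem_nhds (by rw [hψ.zero]; exact hzs))
    filter_upwards [hev] with t ht
    show lam (γ (LT (F : N → N) θ 0 k z t) - γ 0) = lam (Φ ((0 : ℝ), γ t) - γ 0)
    congr 2
    rw [hΦd, hγd]
    show φ (ψ (LT (F : N → N) θ 0 k z t) z) = φ ((fun y => ψ 0 (F y))^[k] (φ.symm (φ (ψ t z))))
    rw [φ.left_inv ht, LT_apply hψ.add h, hz]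

theorem gap_of_hyp {G : N → N} {ψ : ℝ → N → N} (hψ : IsFlow n N ψ) {p : N → B}
    (hb : CircleBundle ψ p) {θ : N → ℝ → ℝ} (h : OrbitMap G ψ θ) (hG : Function.Injective G)
    {κ : ℝ} (hκ : 0 < κ) (hyp : AllHyp n G ψ κ) : Gap G ψ (min (κ / 2) 1) := by
  intro s hs m hm z hz τ hτ0 hτ1 hz'
  have hψ' := flw hψ
  have hs' : |s| < κ / 2 := hs.trans_le (min_le_left _ _)
  have hθ := h.push hψ s
  have hyp' := hyp.shift hψ hs'
  have hinj : Function.Injective (fun y => ψ s (G y)) := by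
    intro y y' hy
    have h1 : ψ s (G y) = ψ s (G y') := hy
    have h2 := congrArg (ψ (-s)) h1
    rw [← hψ.add, ← hψ.add, neg_add_cancel, hψ.zero, hψ.zero] at h2
    exact hG h2
  obtain ⟨T, hT⟩ : ∃ T : N → N, T = fun y => ψ s (G y) := ⟨_, rfl⟩
  rw [← hT] at hθ hyp' hinj hz hz'
  have e0 := LT_zero0 hθ m z
  have e1 := LT_one hψ' hb hθ hinj m z
  have hLτ : LT T θ 0 m z τ = τ := by
    have h1 := LT_apply0 hψ' hθ m z τ
    rw [hz', hz] at h1
    have h2 : ψ (LT T θ 0 m z τ - τ) (ψ τ z) = ψ τ z := by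
      rw [← hψ.add, sub_add_cancel, ← h1]
    obtain ⟨j, hj⟩ := (hb.free _ _).1 h2
    have h3 := LT_mono hθ 0 m z hτ0
    have h4 := LT_mono hθ 0 m z (hτ1.trans_le (min_le_right _ _))
    rw [e0] at h3
    rw [e1] at h4
    have h5 : (-1 : ℝ) < j := by rw [← hj]; linarith [hτ1.trans_le (min_le_right (κ / 2) 1)]
    have h6 : (j : ℝ) < 1 := by rw [← hj]; linarith
    have h7 : -1 < j := by exact_mod_cast h5
    have h8 : j < 1 := by exact_mod_cast h6
    have h9 : j = 0 := by omega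
    rw [h9, Int.cast_zero] at hj
    linarith
  have hfam := LT_fam hθ hm z 0
  have hfix : HypFix (fun s t => LT T θ s m z t + 0) (κ / 2) := by
    intro s hs u hu
    obtain ⟨κ', hκ', hd⟩ := ret_hyp hψ hθ hyp' hm (moves hb z) (c := 0)
      (by rw [hz, hψ.zero]) hs le_rfl (d := 0) (hψ.zero z)
      (t := u) (by rw [add_zero]; exact hu)
    exact ⟨κ', hκ', hd⟩
  have := gap (half_pos hκ) hfam hfix hτ0 (by show LT T θ 0 m z 0 + 0 = 0; rw [e0, add_zero])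
    (by show LT T θ 0 m z τ + 0 = τ; rw [hLτ, add_zero])
  linarith [hτ1.trans_le (min_le_left (κ / 2) 1)]

end Pool.Agent.J4.H98.Fib
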