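import Pool.Agent.J4.H98.FibH

/-!
# Maps of circle bundles: no chain class contains attracting and repelling periodic points
-/

set_option autoImplicit false
set_option linter.unusedSectionVars false

open scoped Manifold ContDiff Topology
open Filter Set

universe u v

namespace Pool.Agent.J4.H98.Fib

open Pool.Agent.J4.H98.Orb Pool.Agent.TH80.OMS Pool.Agent.R774.OS
open Pool.Agent.H718R2.G
open Pool.Agent.TH290.CL (IsFlow)

theorem iter_inv {N : Type u} {G G' : N → N} (h2 : ∀ z, G' (G z) = z) (j : ℕ) (y : N) :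
    G'^[j] (G^[j] y) = y := by
  induction j generalizing y with
  | zero => rfl
  | succ j ih => rw [Function.iterate_succ_apply' G, Function.iterate_succ_apply G', h2, ih]

theorem per_inv {N : Type u} {G G' : N → N} (h2 : ∀ z, G' (G z) = z) {k : ℕ} {z : N}
    (hz : G^[k] z = z) : G'^[k] z = z := by
  have := iter_inv h2 k z
  rwa [hz] at this

section metric

variable {N : Type u} {B : Type v} [MetricSpace N] [CompactSpace N] [MetricSpace B]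
  {ψ : ℝ → N → N} {p : N → B} {G : N → N} {θ : N → ℝ → ℝ}

theorem IsCh.rev {G' : N → N} {δ δ' : ℝ} (hd : ∀ a b, dist (G a) b < δ → dist (G' b) a < δ')
    {l : ℕ} {X : ℕ → N} (hX : IsCh G δ l X) : IsCh G' δ' l (fun i => X (l - i)) := by
  intro i hi
  show dist (G' (X (l - i))) (X (l - (i + 1))) < δ'
  have e : l - i = (l - (i + 1)) + 1 := by omega
  rw [e]
  exact hd _ _ (hX (l - (i + 1)) (by omega))

theorem idr_mono_s (h : OrbitMap G ψ θ) {Z : ℕ → N} {s s' : ℝ} (hs : s ≤ s') (j : ℕ) (t : ℝ) :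
    idr θ Z s j t ≤ idr θ Z s' j t := by
  induction j with
  | zero => exact le_rfl
  | succ j ih =>
    show s + θ (Z j) (idr θ Z s j t) ≤ s' + θ (Z j) (idr θ Z s' j t)
    have := (h.mono (Z j)).monotone ih
    linarith

/-- reversing ideal chains -/
theorem idr_rev {G' : N → N} {θ' : N → ℝ → ℝ} (h : OrbitMap G ψ θ)
    (h' : OrbitMap G' ψ θ') (hinv : ∀ z t, θ (G' z) (θ' z t) = t) {s κ δ : ℝ}
    (hlow : ∀ (w : N) (t : ℝ), κ ≤ θ w t - θ w (t - s))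
    (hcl : ∀ a b, dist (G a) b < δ → ∀ t, |θ a t - θ (G' b) t| < κ) {l : ℕ} {Z : ℕ → N}
    (hZ : IsCh G δ l Z) {x y : ℝ} (hx : idr θ Z 0 l x ≤ y) :
    ∀ j ≤ l, idr θ Z 0 (l - j) x ≤ idr θ' (fun i => Z (l - i)) s j y := by
  intro j
  induction j with
  | zero => intro _; rw [Nat.sub_zero]; exact hx
  | succ j ih =>
    intro hj
    have h1 := ih (by omega)
    have e : l - j = (l - (j + 1)) + 1 := by omega
    obtain ⟨i, hi⟩ : ∃ i, i = l - (j + 1) := ⟨_, rfl⟩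
    rw [← hi] at e ⊢
    show idr θ Z 0 i x ≤ s + θ' (Z (l - j)) (idr θ' (fun i => Z (l - i)) s j y)
    obtain ⟨a, ha⟩ : ∃ a, a = idr θ Z 0 i x := ⟨_, rfl⟩
    have h2 : θ (Z i) a ≤ idr θ' (fun i => Z (l - i)) s j y := by
      have e2 : idr θ Z 0 (l - j) x = 0 + θ (Z i) a := by
        rw [e, ha]
        rfl
      rw [e2, zero_add] at h1
      exact h1
    have h3 := (h'.mono (Z (l - j))).monotone h2
    have h4 : a - s ≤ θ' (Z (l - j)) (θ (Z i) a) := by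
      refine (h.mono (G' (Z (l - j)))).le_iff_le.1 ?_
      rw [hinv]
      have h5 := hZ i (by omega)
      rw [← e] at h5
      have h6 := abs_lt.1 (hcl _ _ h5 a)
      have h7 := hlow (G' (Z (l - j))) a
      linarith [h6.1]
    rw [← ha]
    linarith

end metric

variable {n : ℕ} {N : Type u} [MetricSpace N] [CompactSpace N] [ChartedSpace (V n) N]
  [IsManifold (𝓡 n) ∞ N] {B : Type v} [MetricSpace B]

theorem ne_of_hyp {r : ℕ∞} (F : DiffM n N r) {ψ : ℝ → N → N}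
    (hψ : IsFlow n N ψ) {p : N → B} (hb : CircleBundle ψ p) {θ : N → ℝ → ℝ}
    (h : OrbitMap (F : N → N) ψ θ) {κ₀ : ℝ} (hκ₀ : 0 < κ₀) (hyp : AllHyp n (F : N → N) ψ κ₀)
    {k : ℕ} (hk : 1 ≤ k) {z : N} (hz : (F : N → N)^[k] z = z) {t : ℝ}
    (ht : LT (F : N → N) θ 0 k z t = t) :
    ∃ d : ℝ, d ≠ 1 ∧ HasDerivAt (LT (F : N → N) θ 0 k z) d t := by
  obtain ⟨κ', hκ', hd⟩ := ret_hyp hψ h hyp hk (moves hb z) (c := 0)
    (by rw [hz, hψ.zero]) (s := 0) (by rwa [abs_zero]) le_rfl (d := 0) (hψ.zero z)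
    (t := t) (by
      show LT (F : N → N) θ 0 k z t + 0 = t + 0
      rw [ht])
  refine ⟨κ', hκ', ?_⟩
  have h1 : HasDerivAt (fun t => LT (F : N → N) θ 0 k z t + 0) κ' t := hd
  simp only [add_zero] at h1
  exact h1

/-- the derivative at another point of the orbit -/
theorem der_shift {G : N → N} {ψ : ℝ → N → N} (hψ : Flw ψ) {p : N → B} (hb : CircleBundle ψ p)
    {θ : N → ℝ → ℝ} (h : OrbitMap G ψ θ) {k : ℕ} {z : N} {t d : ℝ} (ht : LT G θ 0 k z t = t) :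
    HasDerivAt (LT G θ 0 k z) d t ↔ HasDerivAt (LT G θ 0 k (ψ t z)) d 0 := by
  have e : ∀ x, LT G θ 0 k z (t + x) = t + LT G θ 0 k (ψ t z) x := by
    intro x
    rw [LT_add hψ hb h, ht]
  constructor
  · intro hd
    have h1 : HasDerivAt (fun x : ℝ => t + x) 1 0 := (hasDerivAt_id (0 : ℝ)).const_add t
    have h2 : HasDerivAt (LT G θ 0 k z) d (t + 0) := by rw [add_zero]; exact hd
    have h3 := (HasDerivAt.comp (0 : ℝ) h2 h1).sub_const t
    rw [mul_one] at h3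
    refine h3.congr_of_eventuallyEq (Eventually.of_forall fun x => ?_)
    show LT G θ 0 k (ψ t z) x = LT G θ 0 k z (t + x) - t
    rw [e]
    ring
  · intro hd
    have h1 : HasDerivAt (fun x : ℝ => x - t) 1 t := (hasDerivAt_id t).sub_const t
    have h2 : HasDerivAt (LT G θ 0 k (ψ t z)) d (t - t) := by rw [sub_self]; exact hd
    have h3 := (HasDerivAt.comp t (h₂ := LT G θ 0 k (ψ t z)) (h := fun x => x - t) h2 h1).const_add t
    rw [mul_one] at h3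
    refine h3.congr_of_eventuallyEq (Eventually.of_forall fun x => ?_)
    show LT G θ 0 k z x = t + LT G θ 0 k (ψ t z) (x - t)
    rw [← e, add_sub_cancel]

theorem fix_shift {G : N → N} {ψ : ℝ → N → N} (hψ : Flw ψ)
    {θ : N → ℝ → ℝ} (h : OrbitMap G ψ θ) {k : ℕ} {z : N} (hz : G^[k] z = z) {t : ℝ}
    (ht : LT G θ 0 k z t = t) : G^[k] (ψ t z) = ψ t z := by
  rw [LT_apply0 hψ h, hz, ht]

/-- derivatives of inverse return maps -/
theorem der_inv {r : ℕ∞} (hr : 1 ≤ r) (F' : DiffM n N r) {G : N → N} {ψ : ℝ → N → N}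
    (hψ : IsFlow n N ψ) {p : N → B} (hb : CircleBundle ψ p) {θ θ' : N → ℝ → ℝ}
    (h : OrbitMap G ψ θ) (h' : OrbitMap (F' : N → N) ψ θ') (h2 : ∀ z, F' (G z) = z) {k : ℕ} {z : N}
    (hz : G^[k] z = z) {d : ℝ} (hd : HasDerivAt (LT G θ 0 k z) d 0) :
    ∃ d', d' * d = 1 ∧ HasDerivAt (LT (F' : N → N) θ' 0 k z) d' 0 := by
  obtain ⟨d', hd'⟩ := diff_at hr F' hψ h' (per_inv h2 hz) (moves hb z)
  refine ⟨d', ?_, hd'⟩
  have h3 : HasDerivAt (LT (F' : N → N) θ' 0 k z) d' (LT G θ 0 k z 0) := by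
    rw [LT_zero0 h]
    exact hd'
  have h4 := HasDerivAt.comp (0 : ℝ) h3 hd
  have h5 : HasDerivAt (fun t : ℝ => t) (d' * d) 0 := by
    refine h4.congr_of_eventuallyEq (Eventually.of_forall fun t => ?_)
    exact (LT_inv (flw hψ) hb h h' h2 hz t).symm
  exact h5.unique (hasDerivAt_id 0)

theorem no_mix {r : ℕ∞} (hr : 1 ≤ r) (F : DiffM n N r) {ψ : ℝ → N → N}
    (hψ : IsFlow n N ψ) {p : N → B} (hb : CircleBundle ψ p) {θ : N → ℝ → ℝ}
    (h : OrbitMap (F : N → N) ψ θ) {f : B → B} (hf : ∀ z, p (F z) = f (p z)) (hsh : PerShadow f)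
    {κ₀ : ℝ} (hκ₀ : 0 < κ₀) (hyp : AllHyp n (F : N → N) ψ κ₀) {P Q : N}
    (hP : Closer (F : N → N) ψ P) (hQ : Closer (F.symm : N → N) ψ Q) :
    ∃ δ : ℝ, 0 < δ ∧ ∀ (l₁ l₂ : ℕ) (Y Z : ℕ → N), 1 ≤ l₁ → 1 ≤ l₂ →
      Y 0 = P → Y l₁ = Q → Z 0 = Q → Z l₂ = P → IsCh (F : N → N) δ l₁ Y →
      IsCh (F : N → N) δ l₂ Z → False := by
  have hψ' := flw hψ
  have i1 : ∀ z, F (F.symm z) = z := fun z => F.apply_symm_apply z
  have i2 : ∀ z, F.symm (F z) = z := fun z => F.symm_apply_apply z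
  obtain ⟨θ', h', hθθ⟩ := inv_map hψ' hb h i1 i2
  obtain ⟨f', hf', hsh'⟩ := base_inv hψ' hb F.continuous h' i1 i2 hf hsh
  have hgap := gap_of_hyp hψ hb h F.injective hκ₀ hyp
  have hgap' : Gap (F.symm : N → N) ψ (min (κ₀ / 2) 1) := gap_symm hψ' i1 hgap
  obtain ⟨mP, hmP, hPm, ρP, hρP, hcP⟩ := hP
  obtain ⟨mQ, hmQ, hQm, ρQ, hρQ, hcQ⟩ := hQ
  obtain ⟨k, hkd⟩ : ∃ k, k = mQ * mP := ⟨_, rfl⟩
  have hk : 1 ≤ k := by rw [hkd]; exact Nat.one_le_iff_ne_zero.2 (by positivity)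
  have hPk : (F : N → N)^[k] P = P := by rw [hkd]; exact mul_per hPm mQ
  have hQk' : (F.symm : N → N)^[k] Q = Q := by rw [hkd, Nat.mul_comm]; exact mul_per hQm mP
  have hQk : (F : N → N)^[k] Q = Q := per_inv i1 hQk'
  have hPk' : (F.symm : N → N)^[k] P = P := per_inv i2 hPk
  have hcPk := closer_mul hψ' hPm hcP hmQ
  rw [← hkd] at hcPk
  have hcQk := closer_mul hψ' hQm hcQ hmP
  rw [Nat.mul_comm, ← hkd] at hcQk
  -- hyperbolicity of `F` and of the inverse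
  have hne : ∀ z, (F : N → N)^[k] z = z → ∀ t, LT (F : N → N) θ 0 k z t = t →
      ∃ d, d ≠ 1 ∧ HasDerivAt (LT (F : N → N) θ 0 k z) d t := fun z hz t ht =>
    ne_of_hyp F hψ hb h hκ₀ hyp hk hz ht
  have hne' : ∀ z, (F : N → N)^[k] z = z → ∀ t, LT (F.symm : N → N) θ' 0 k z t = t →
      ∃ d, d ≠ 1 ∧ HasDerivAt (LT (F.symm : N → N) θ' 0 k z) d t := by
    intro z hz t ht
    have hz' := per_inv i2 hz
    have hzt : (F.symm : N → N)^[k] (ψ t z) = ψ t z := fix_shift hψ' h' hz' ht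
    have hzt' : (F : N → N)^[k] (ψ t z) = ψ t z := per_inv i1 hzt
    obtain ⟨d, hd1, hd⟩ := hne (ψ t z) hzt' 0 (LT_zero0 h k _)
    obtain ⟨d', hdd, hd'⟩ := der_inv hr F.symm hψ hb h h' i2 hzt' hd
    refine ⟨d', fun he => hd1 ?_, (der_shift hψ' hb h' ht).2 hd'⟩
    rw [he, one_mul] at hdd
    exact hdd
  -- the structure at `P`
  obtain ⟨d, hd1, hd⟩ := hne P hPk 0 (LT_zero0 h k P)
  have hdlt : d < 1 := lt_of_le_of_ne (closer_le hψ' hb h hPk hρP hcPk hd) hd1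
  have hc1 : ∀ z, Continuous (LT (F : N → N) θ 0 k z) := fun z =>
    (LT_cont h k z).comp (continuous_const.prodMk continuous_id)
  have hc2 : ∀ z, Continuous (LT (F.symm : N → N) θ' 0 k z) := fun z =>
    (LT_cont h' k z).comp (continuous_const.prodMk continuous_id)
  obtain ⟨ϱ, dϱ, hϱ, hϱ1, hϱϱ, hlt, hdϱ, hdϱ1⟩ := next_fixed (hc1 P) (LT_zero0 h k P)
    (LT_one hψ' hb h F.injective k P) hd hdlt (hne P hPk)
  -- the structure at `Q`
  obtain ⟨e, he1, he⟩ := hne' Q hQk 0 (LT_zero0 h' k Q)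
  have helt : e < 1 := lt_of_le_of_ne (closer_le hψ' hb h' hQk' hρQ hcQk he) he1
  obtain ⟨ϱq, dq, hϱq, hϱq1, hϱqϱ, hltq, hdq, hdq1⟩ := next_fixed (hc2 Q) (LT_zero0 h' k Q)
    (LT_one hψ' hb h' F.symm.injective k Q) he helt (hne' Q hQk)
  have hupQ : ∀ t, 0 ≤ t → t ≤ ϱq → t ≤ LT (F : N → N) θ 0 k Q t := by
    intro t ht0 ht1
    by_contra hcon
    push Not at hcon
    have h3 := LT_inv hψ' hb h h' i2 hQk t
    rcases ht0.eq_or_lt with h4 | h4
    · rw [← h4, LT_zero0 h] at hcon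
      exact lt_irrefl _ hcon
    · have h5 := LT_mono h 0 k Q h4
      rw [LT_zero0 h] at h5
      have h6 := hltq _ h5 (hcon.trans_le ht1)
      rw [h3] at h6
      linarith
  have hupP : ∀ t, 0 ≤ t → t ≤ ϱ → t ≤ LT (F.symm : N → N) θ' 0 k P t := by
    intro t ht0 ht1
    by_contra hcon
    push Not at hcon
    have h3 := LT_inv hψ' hb h' h i1 hPk' t
    rcases ht0.eq_or_lt with h4 | h4
    · rw [← h4, LT_zero0 h'] at hcon
      exact lt_irrefl _ hcon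
    · have h5 := LT_mono h' 0 k P h4
      rw [LT_zero0 h'] at h5
      have h6 := hlt _ h5 (hcon.trans_le ht1)
      rw [h3] at h6
      linarith
  have hεpos : 0 < min (κ₀ / 2) 1 := by positivity
  obtain ⟨s₁, hs₁, δ₁, hδ₁, H1⟩ := half hr F hψ hb h hf hsh hεpos hgap hk hPk
    (LT_zero0 h k P) hd hdlt hϱ hϱ1 hϱϱ hlt hdϱ hdϱ1 hQk hϱq hϱq1 hupQ
  obtain ⟨s₂, hs₂, δ₂, hδ₂, H2⟩ := half hr F.symm hψ hb h' hf' hsh' hεpos hgap' hk hQk'
    (LT_zero0 h' k Q) he helt hϱq hϱq1 hϱqϱ hltq hdq hdq1 hPk' hϱ hϱ1 hupP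
  obtain ⟨κ, hκ, hlow⟩ := theta_low hψ' hb h F.continuous hs₂
  obtain ⟨ηc, hηc, hcl⟩ := theta_close hψ' hb h F.continuous F.injective hκ
  obtain ⟨δ₃, hδ₃, hu⟩ := unif F.symm.continuous (lt_min hδ₂ hηc)
  refine ⟨min δ₁ δ₃, by positivity, fun l₁ l₂ Y Z hl₁ hl₂ hY0 hY1 hZ0 hZ1 hY hZ => ?_⟩
  have hd0 : ∀ a b : N, dist (F a) b < min δ₁ δ₃ → dist (F.symm b) a < min δ₂ ηc := by
    intro a b hab
    have := hu _ _ (hab.trans_le (min_le_right _ _))
    rwa [i2, dist_comm] at this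
  have mono : ∀ {l : ℕ} {X : ℕ → N}, IsCh (F : N → N) (min δ₁ δ₃) l X → IsCh (F : N → N) δ₁ l X :=
    fun hX i hi => (hX i hi).trans_le (min_le_left _ _)
  have e1 := H1 l₁ l₂ Y Z hl₁ hl₂ hY0 hY1 hZ0 hZ1 (mono hY) (mono hZ)
  have hd2 : ∀ a b : N, dist (F a) b < min δ₁ δ₃ → dist (F.symm b) a < δ₂ := fun a b hab =>
    (hd0 a b hab).trans_le (min_le_left _ _)
  have e2 := H2 l₁ l₂ (fun i => Y (l₁ - i)) (fun i => Z (l₂ - i)) hl₁ hl₂
    (by rw [Nat.sub_zero, hY1]) (by rw [Nat.sub_self, hY0]) (by rw [Nat.sub_zero, hZ1])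
    (by rw [Nat.sub_self, hZ0]) (hY.rev hd2) (hZ.rev hd2)
  have e3 := idr_rev (G := (F : N → N)) (G' := (F.symm : N → N)) h h' hθθ (s := s₂) (κ := κ)
    (δ := min δ₁ δ₃) (fun w t => by
      have h3 := theta_add hψ' hb h w (t - s₂) s₂
      rw [sub_add_cancel] at h3
      rw [h3]
      have := hlow (ψ (t - s₂) w)
      linarith) (fun a b hab t => by
      refine hcl (F.symm b) a ?_ t
      rw [dist_comm]
      exact (hd0 a b hab).trans_le (min_le_right _ _)) hZ (x := ϱq) (y := ϱ)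
    ((idr_mono_s h hs₁.le l₂ ϱq).trans e1.le) l₂ le_rfl
  rw [Nat.sub_self] at e3
  have e4 : ϱq ≤ idr θ' (fun i => Z (l₂ - i)) s₂ l₂ ϱ := e3
  linarith

end Pool.Agent.J4.H98.Fib
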