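import Pool.Agent.J4.H98.FibI

/-!
# Maps of circle bundles: main theorem
-/

set_option autoImplicit false
set_option linter.unusedSectionVars false

open scoped Manifold ContDiff Topology
open Filter Set

universe u v

namespace Pool.Agent.J4.H98.Fib

open Pool.Agent.J4.H98.Orb Pool.Agent.TH80.OMS Pool.Agent.R774.OS Pool.Agent.Y504.CO
open Pool.Agent.TH80.CLX
open Pool.Agent.H718R2.G
open Pool.Agent.TH290.CL (IsFlow)

/-- For every open neighbourhood `W` of the diagonal there is a `W`-chain of `G` from `x` to `y`. -/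
def ChainTo {N : Type u} [TopologicalSpace N] (G : N → N) (x y : N) : Prop :=
  ∀ W : Set (N × N), IsOpen W → (∀ z, (z, z) ∈ W) → ∃ (l : ℕ) (X : ℕ → N), 1 ≤ l ∧ X 0 = x ∧
    X l = y ∧ ∀ i < l, (G (X i), X (i + 1)) ∈ W

theorem chain_of {N : Type u} [MetricSpace N] {G : N → N} {x y : N} (h : ChainTo G x y) {δ : ℝ}
    (hδ : 0 < δ) : ∃ (l : ℕ) (X : ℕ → N), 1 ≤ l ∧ X 0 = x ∧ X l = y ∧ IsCh G δ l X :=
  h {q | dist q.1 q.2 < δ} (isOpen_lt continuous_dist continuous_const)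
    (fun x => by show dist x x < δ; rw [dist_self]; exact hδ)

/-- in a connected chain recurrent space there are chains between any two points -/
theorem chain_conn {N : Type u} [MetricSpace N] [CompactSpace N] [ConnectedSpace N] {G : N → N}
    (hG : Continuous G) (hCR : CR G = univ) {δ : ℝ} (hδ : 0 < δ) (x y : N) :
    ∃ (l : ℕ) (X : ℕ → N), 1 ≤ l ∧ X 0 = x ∧ X l = y ∧ IsCh G δ l X := by
  obtain ⟨R, hR⟩ : ∃ R : Set N, ∀ y, y ∈ R ↔ ∃ (l : ℕ) (X : ℕ → N), 1 ≤ l ∧ X 0 = x ∧ X l = y ∧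
      IsCh G δ l X := ⟨{y | ∃ (l : ℕ) (X : ℕ → N), 1 ≤ l ∧ X 0 = x ∧ X l = y ∧ IsCh G δ l X},
        fun _ => Iff.rfl⟩
  have hopen : IsOpen R := by
    rw [Metric.isOpen_iff]
    intro y hy
    obtain ⟨l, X, hl, hX0, hXl, hX⟩ := (hR y).1 hy
    have h1 := hX (l - 1) (by omega)
    rw [show l - 1 + 1 = l by omega, hXl] at h1
    refine ⟨δ - dist (G (X (l - 1))) y, sub_pos.2 h1, fun y' hy' => ?_⟩
    rw [Metric.mem_ball, dist_comm] at hy'
    refine (hR y').2 ⟨l, fun i => if i = l then y' else X i, hl, ?_, if_pos rfl, fun i hi => ?_⟩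
    · show (if 0 = l then y' else X 0) = x
      rw [if_neg (by omega), hX0]
    · show dist (G (if i = l then y' else X i)) (if i + 1 = l then y' else X (i + 1)) < δ
      rw [if_neg (by omega)]
      by_cases h2 : i + 1 = l
      · rw [if_pos h2]
        have e : i = l - 1 := by omega
        rw [e]
        have := dist_triangle (G (X (l - 1))) y y'
        linarith
      · rw [if_neg h2]
        exact hX i hi
  have hclosed : IsClosed R := by
    rw [← closure_subset_iff_isClosed]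
    intro y hy
    obtain ⟨η, hη, hu⟩ := unif hG (half_pos hδ)
    obtain ⟨y', hy', hd⟩ := Metric.mem_closure_iff.1 hy η hη
    obtain ⟨l, X, hl, hX0, hXl, hX⟩ := (hR y').1 hy'
    have hyCR : y ∈ CR G := by rw [hCR]; exact mem_univ y
    obtain ⟨m, X', hm, h0, h1, h2⟩ := mem_CR.1 hyCR (δ / 2) (half_pos hδ)
    have hm1 : X' m = y := by
      have := h1 0
      rwa [zero_add, h0] at this
    have hY : IsCh G δ m (fun i => if i = 0 then y' else X' i) := by
      intro i hi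
      show dist (G (if i = 0 then y' else X' i)) (if i + 1 = 0 then y' else X' (i + 1)) < δ
      rw [if_neg (by omega : ¬ i + 1 = 0)]
      by_cases h3 : i = 0
      · rw [if_pos h3, h3]
        have e1 := h2 0
        rw [h0] at e1
        have e2 := hu y y' hd
        rw [dist_comm] at e2
        have := dist_triangle (G y') (G y) (X' (0 + 1))
        linarith
      · rw [if_neg h3]
        have := h2 i
        linarith
    refine (hR y).2 ⟨l + m, cat l X (fun i => if i = 0 then y' else X' i), by omega, ?_, ?_,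
      hX.cat hY (by show X l = (if 0 = 0 then y' else X' 0); rw [if_pos rfl, hXl])⟩
    · rw [cat_lo (by show X l = (if 0 = 0 then y' else X' 0); rw [if_pos rfl, hXl])
        (Nat.zero_le _), hX0]
    · rw [cat_hi]
      show (if m = 0 then y' else X' m) = y
      rw [if_neg (by omega), hm1]
  have huniv : R = univ := by
    refine IsClopen.eq_univ ⟨hclosed, hopen⟩ ⟨G x, (hR _).2 ⟨1, fun i => if i = 0 then x else G x,
      le_rfl, if_pos rfl, if_neg (by norm_num), fun i hi => ?_⟩⟩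
    have e : i = 0 := by omega
    show dist (G (if i = 0 then x else G x)) (if i + 1 = 0 then x else G x) < δ
    rw [if_pos e, if_neg (by omega), dist_self]
    exact hδ
  exact (hR y).1 (by rw [huniv]; exact mem_univ y)

theorem closer_of_deriv {N : Type u} [MetricSpace N] [CompactSpace N] {ψ : ℝ → N → N}
    (hψ : Flw ψ) {G : N → N} {θ : N → ℝ → ℝ} (h : OrbitMap G ψ θ) {k : ℕ} (hk : 1 ≤ k) {z : N}
    (hz : G^[k] z = z) {d : ℝ} (hd : HasDerivAt (LT G θ 0 k z) d 0) (hd1 : d < 1) :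
    Closer G ψ z := by
  have h00 := LT_zero0 h k z
  have hm := LT_mono h 0 k z
  have hsl := (hasDerivAt_iff_tendsto_slope_zero.1 hd).eventually_lt_const hd1
  rw [eventually_nhdsWithin_iff] at hsl
  obtain ⟨ρ, hρ, hρ'⟩ := Metric.eventually_nhds_iff.1 hsl
  refine ⟨k, hk, hz, ρ, hρ, fun t ht0 ht1 => ⟨LT G θ 0 k z t, ?_, ?_⟩⟩
  · have h1 := hρ' (y := t) (by rw [Real.dist_eq, sub_zero]; exact ht1) (abs_pos.1 ht0)
    rw [zero_add, h00, sub_zero, smul_eq_mul] at h1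
    rcases lt_or_gt_of_ne (abs_pos.1 ht0) with h2 | h2
    · have h3 : LT G θ 0 k z t < 0 := by
        have := hm h2
        rwa [h00] at this
      rw [abs_of_neg h3, abs_of_neg h2]
      rw [inv_mul_eq_div, div_lt_iff_of_neg h2, one_mul] at h1
      linarith
    · have h3 : 0 < LT G θ 0 k z t := by
        have := hm h2
        rwa [h00] at this
      rw [abs_of_pos h3, abs_of_pos h2]
      rw [inv_mul_eq_div, div_lt_iff₀ h2, one_mul] at h1
      exact h1
  · rw [LT_apply0 hψ h, hz]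

section

variable {n : ℕ} {N : Type u} [MetricSpace N] [CompactSpace N] [ChartedSpace (V n) N]
  [IsManifold (𝓡 n) ∞ N] {B : Type v} [MetricSpace B]

/-- every periodic point is attracting or repelling along its fibre -/
theorem dichotomy {r : ℕ∞} (hr : 1 ≤ r) (F : DiffM n N r) {ψ : ℝ → N → N}
    (hψ : IsFlow n N ψ) {p : N → B} (hb : CircleBundle ψ p) {θ : N → ℝ → ℝ}
    (h : OrbitMap (F : N → N) ψ θ) {κ₀ : ℝ} (hκ₀ : 0 < κ₀) (hyp : AllHyp n (F : N → N) ψ κ₀)
    {z : N} (hz : z ∈ Per (F : N → N)) :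
    Closer (F : N → N) ψ z ∨ Closer (F.symm : N → N) ψ z := by
  have hψ' := flw hψ
  have i1 : ∀ z, F (F.symm z) = z := fun z => F.apply_symm_apply z
  have i2 : ∀ z, F.symm (F z) = z := fun z => F.symm_apply_apply z
  obtain ⟨θ', h', -⟩ := inv_map hψ' hb h i1 i2
  obtain ⟨k, hk, hzk⟩ := hz
  obtain ⟨d, hd1, hd⟩ := ne_of_hyp F hψ hb h hκ₀ hyp hk hzk (LT_zero0 h k z)
  rcases lt_or_gt_of_ne hd1 with h1 | h1
  · exact Or.inl (closer_of_deriv hψ' h hk hzk hd h1)
  · obtain ⟨e, hed, he⟩ := der_inv hr F.symm hψ hb h h' i2 hzk hd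
    refine Or.inr (closer_of_deriv hψ' h' hk (per_inv i2 hzk) he ?_)
    nlinarith

theorem exists_both {r : ℕ∞} (hr : 1 ≤ r) (F : DiffM n N r) {ψ : ℝ → N → N}
    (hψ : IsFlow n N ψ) {p : N → B} (hb : CircleBundle ψ p) {θ : N → ℝ → ℝ}
    (h : OrbitMap (F : N → N) ψ θ) {κ₀ : ℝ} (hκ₀ : 0 < κ₀) (hyp : AllHyp n (F : N → N) ψ κ₀)
    {z : N} (hz : z ∈ Per (F : N → N)) :
    ∃ P Q : N, Closer (F : N → N) ψ P ∧ Closer (F.symm : N → N) ψ Q := by
  have hψ' := flw hψ
  have i1 : ∀ z, F (F.symm z) = z := fun z => F.apply_symm_apply z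
  have i2 : ∀ z, F.symm (F z) = z := fun z => F.symm_apply_apply z
  obtain ⟨θ', h', -⟩ := inv_map hψ' hb h i1 i2
  obtain ⟨k, hk, hzk⟩ := hz
  have hzk' := per_inv i2 hzk
  have hne : ∀ z, (F : N → N)^[k] z = z → ∀ t, LT (F : N → N) θ 0 k z t = t →
      ∃ d, d ≠ 1 ∧ HasDerivAt (LT (F : N → N) θ 0 k z) d t := fun z hz t ht =>
    ne_of_hyp F hψ hb h hκ₀ hyp hk hz ht
  have hne' : ∀ z, (F : N → N)^[k] z = z → ∀ t, LT (F.symm : N → N) θ' 0 k z t = t →
      ∃ d, d ≠ 1 ∧ HasDerivAt (LT (F.symm : N → N) θ' 0 k z) d t := by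
    intro z hz t ht
    have hz' := per_inv i2 hz
    have hzt : (F.symm : N → N)^[k] (ψ t z) = ψ t z := fix_shift hψ' h' hz' ht
    have hzt' : (F : N → N)^[k] (ψ t z) = ψ t z := per_inv i1 hzt
    obtain ⟨d, hd1, hd⟩ := hne (ψ t z) hzt' 0 (LT_zero0 h k _)
    obtain ⟨d', hdd, hd'⟩ := der_inv hr F.symm hψ hb h h' i2 hzt' hd
    refine ⟨d', fun he => hd1 ?_, (der_shift hψ' hb h' ht).2 hd'⟩
    rw [he, one_mul] at hdd
    exact hdd
  have hc1 : Continuous (LT (F : N → N) θ 0 k z) :=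
    (LT_cont h k z).comp (continuous_const.prodMk continuous_id)
  have hc2 : Continuous (LT (F.symm : N → N) θ' 0 k z) :=
    (LT_cont h' k z).comp (continuous_const.prodMk continuous_id)
  obtain ⟨d, hd1, hd⟩ := hne z hzk 0 (LT_zero0 h k z)
  rcases lt_or_gt_of_ne hd1 with h1 | h1
  · obtain ⟨ϱ, dϱ, -, -, hϱϱ, -, hdϱ, hdϱ1⟩ := next_fixed hc1 (LT_zero0 h k z)
      (LT_one hψ' hb h F.injective k z) hd h1 (hne z hzk)
    have hzϱ := fix_shift hψ' h hzk hϱϱ
    obtain ⟨e, hed, he⟩ := der_inv hr F.symm hψ hb h h' i2 hzϱ ((der_shift hψ' hb h hϱϱ).1 hdϱ)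
    exact ⟨z, ψ ϱ z, closer_of_deriv hψ' h hk hzk hd h1,
      closer_of_deriv hψ' h' hk (per_inv i2 hzϱ) he (by nlinarith)⟩
  · obtain ⟨e, hed, he⟩ := der_inv hr F.symm hψ hb h h' i2 hzk hd
    have he1 : e < 1 := by nlinarith
    obtain ⟨ϱ, dϱ, -, -, hϱϱ, -, hdϱ, hdϱ1⟩ := next_fixed hc2 (LT_zero0 h' k z)
      (LT_one hψ' hb h' F.symm.injective k z) he he1 (hne' z hzk)
    have hzϱ := fix_shift hψ' h' hzk' hϱϱ
    obtain ⟨e', hed', he'⟩ := der_inv hr F hψ hb h' h i1 hzϱ ((der_shift hψ' hb h' hϱϱ).1 hdϱ)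
    exact ⟨ψ ϱ z, z, closer_of_deriv hψ' h hk (per_inv i1 hzϱ) he' (by nlinarith),
      closer_of_deriv hψ' h' hk hzk' he he1⟩

end

variable {n : ℕ} {N : Type u} [TopologicalSpace N] [ChartedSpace (V n) N] [IsManifold (𝓡 n) ∞ N]
  [T2Space N] [CompactSpace N] {B : Type v} [MetricSpace B]

/-- (2) a chain class contains no attracting and repelling periodic points -/
theorem classes (r : ℕ∞) (hr : 1 ≤ r) (F : DiffM n N r) (hF : OmegaStable n N r F)
    {ψ : ℝ → N → N} (hψ : IsFlow n N ψ) {θ : N → ℝ → ℝ} (hθ : OrbitMap (F : N → N) ψ θ)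
    {p : N → B} (hb : CircleBundle ψ p) {f : B → B} (hf : ∀ z, p (F z) = f (p z))
    (hsh : PerShadow f) {P Q : N} (hP : Closer (F : N → N) ψ P)
    (hQ : Closer (F.symm : N → N) ψ Q) :
    ¬ (ChainTo (F : N → N) P Q ∧ ChainTo (F : N → N) Q P) := by
  rintro ⟨h1, h2⟩
  obtain ⟨κ, hκ, hyp⟩ := all_hyp r hr F hF hψ P
  have : SecondCountableTopology N := ChartedSpace.secondCountable_of_sigmaCompact (V n) N
  let _ : MetricSpace N := TopologicalSpace.metrizableSpaceMetric N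
  obtain ⟨δ, hδ, hno⟩ := no_mix hr F hψ hb hθ hf hsh hκ hyp hP hQ
  obtain ⟨l₁, Y, hl₁, hY0, hY1, hY⟩ := chain_of h1 hδ
  obtain ⟨l₂, Z, hl₂, hZ0, hZ1, hZ⟩ := chain_of h2 hδ
  exact hno l₁ l₂ Y Z hl₁ hl₂ hY0 hY1 hZ0 hZ1 hY hZ

theorem types (r : ℕ∞) (hr : 1 ≤ r) (F : DiffM n N r) (hF : OmegaStable n N r F)
    {ψ : ℝ → N → N} (hψ : IsFlow n N ψ) {θ : N → ℝ → ℝ} (hθ : OrbitMap (F : N → N) ψ θ)
    {p : N → B} (hb : CircleBundle ψ p) {z : N} (hz : z ∈ Per (F : N → N)) :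
    Closer (F : N → N) ψ z ∨ Closer (F.symm : N → N) ψ z := by
  obtain ⟨κ, hκ, hyp⟩ := all_hyp r hr F hF hψ z
  have : SecondCountableTopology N := ChartedSpace.secondCountable_of_sigmaCompact (V n) N
  let _ : MetricSpace N := TopologicalSpace.metrizableSpaceMetric N
  exact dichotomy hr F hψ hb hθ hκ hyp hz

/-- (3) on a connected manifold there are points which are not chain recurrent -/
theorem not_transitive (r : ℕ∞) (hr : 1 ≤ r) (F : DiffM n N r) (hF : OmegaStable n N r F)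
    {ψ : ℝ → N → N} (hψ : IsFlow n N ψ) {θ : N → ℝ → ℝ} (hθ : OrbitMap (F : N → N) ψ θ)
    {p : N → B} (hb : CircleBundle ψ p) {f : B → B} (hf : ∀ z, p (F z) = f (p z))
    (hsh : PerShadow f) [ConnectedSpace N] : CR (F : N → N) ≠ univ := by
  intro hCR
  obtain ⟨z₀⟩ : Nonempty N := inferInstance
  obtain ⟨κ, hκ, hyp⟩ := all_hyp r hr F hF hψ z₀
  obtain ⟨ε, hε, hmain⟩ := main r hr F hF hψ hθ
  have : SecondCountableTopology N := ChartedSpace.secondCountable_of_sigmaCompact (V n) N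
  let _ : MetricSpace N := TopologicalSpace.metrizableSpaceMetric N
  have hψ' := flw hψ
  -- a periodic point of `f`
  obtain ⟨s, -, w, -, m, hm, hw⟩ := closing hψ' hb F.continuous hθ hf hsh
    (z := z₀) (by rw [hCR]; exact mem_univ z₀) (O := univ) univ_mem one_pos
  have hpw : ∀ j (y : N), p ((fun y => ψ s (F y))^[j] y) = p ((F : N → N)^[j] y) := by
    intro j
    induction j with
    | zero => intro y; rfl
    | succ j ih =>
      intro y
      rw [Function.iterate_succ_apply', Function.iterate_succ_apply']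
      have e1 : p (ψ s (F ((fun y => ψ s (F y))^[j] y))) = p (F ((fun y => ψ s (F y))^[j] y)) :=
        ((hb.fib _ _).2 ⟨s, rfl⟩).symm
      show p (ψ s (F ((fun y => ψ s (F y))^[j] y))) = _
      rw [e1, hf, ih, hf]
  obtain ⟨c, hc⟩ := (hb.fib w ((F : N → N)^[m] w)).1 (by rw [← hpw, hw])
  have hT : ClosedOrbit ψ 1 w := ⟨one_pos, fun t => by
    rw [hb.free]
    simp⟩
  have e0 : (fun y => ψ 0 (F y)) = (F : N → N) := by
    funext y
    exact hψ.zero _
  obtain ⟨-, h2⟩ := hmain 0 (by rwa [abs_zero]) m w c hm (by rw [e0, hc]) (moves hb w)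
  obtain ⟨⟨z₁, hz₁, -⟩, -, -⟩ := h2 1 hT
  rw [e0] at hz₁
  obtain ⟨P, Q, hP, hQ⟩ := exists_both hr F hψ hb hθ hκ hyp hz₁
  obtain ⟨δ, hδ, hno⟩ := no_mix hr F hψ hb hθ hf hsh hκ hyp hP hQ
  obtain ⟨l₁, Y, hl₁, hY0, hY1, hY⟩ := chain_conn F.continuous hCR hδ P Q
  obtain ⟨l₂, Z, hl₂, hZ0, hZ1, hZ⟩ := chain_conn F.continuous hCR hδ Q P
  exact hno l₁ l₂ Y Z hl₁ hl₂ hY0 hY1 hZ0 hZ1 hY hZ

end Pool.Agent.J4.H98.Fib
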