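import Pool.Agent.J4.H98.FibJ
import Pool.Agent.J4.H85.IS.Main

/-!
# Circle-fibred `Ω`-stable maps: the two parts of the nonwandering set

Assembly of `FibJ.lean` (density of periodic points, chain classes) and of helper85's
`J4/H85/IS/Main.lean` (separation of indices).
-/

set_option autoImplicit false
set_option linter.unusedSectionVars false

open scoped Manifold ContDiff Topology
open Filter Set

universe u v

namespace Pool.Agent.J4.H98.Fib

open Pool.Agent.J4.H98.Orb Pool.Agent.TH80.OMS Pool.Agent.R774.OS Pool.Agent.Y504.CO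
open Pool.Agent.TH80.CLX
open Pool.Agent.H718R2.G
open Pool.Agent.TH290.CL (IsFlow)
open Pool.Agent.J4.H85.IS (Circ theta AttPer RepPer PeriodicShadowing ExpansiveOnPer)

section adapt

variable {N : Type u} [TopologicalSpace N] {B : Type v} [TopologicalSpace B]
  {ψ : ℝ → N → N} {F : N → N} {ρ : N → ℝ} {π : N → B} {f : B → B}

theorem circ_bundle (C : Circ ψ F ρ π f) : CircleBundle ψ π :=
  ⟨C.contπ, C.surj, C.fib, fun z t => C.free t z⟩

theorem circ_orbit (C : Circ ψ F ρ π f) : OrbitMap F ψ (theta ψ ρ) := by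
  refine ⟨fun z => ?_, fun z => ?_, fun z => Pool.Agent.J4.H85.IS.Circ.theta_zero z,
    fun z t => C.maps t z⟩
  · rw [continuous_iff_continuousAt]
    exact fun t => (C.theta_der z t).continuousAt
  · refine strictMono_of_deriv_pos fun t => ?_
    rw [(C.theta_der z t).deriv]
    exact C.pos _

/-- derivatives of the return maps -/
theorem LT_der0 (C : Circ ψ F ρ π f) (k : ℕ) (z : N) (t : ℝ) :
    HasDerivAt (LT F (theta ψ ρ) 0 k z) (∏ i ∈ Finset.range k, ρ (F^[i] (ψ t z))) t := by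
  induction k with
  | zero =>
    rw [Finset.prod_range_zero]
    exact hasDerivAt_id t
  | succ k ih =>
    rw [Finset.prod_range_succ]
    have h1 := C.theta_der (F^[k] z) (LT F (theta ψ ρ) 0 k z t)
    have h2 := (HasDerivAt.comp t (h₂ := theta ψ ρ (F^[k] z)) (h := LT F (theta ψ ρ) 0 k z) h1
      ih).const_add (0 : ℝ)
    have h3 : (fun y => ψ 0 (F y))^[k] (ψ t z) = ψ (LT F (theta ψ ρ) 0 k z t) (F^[k] z) :=
      LT_apply C.act.add (circ_orbit C) 0 k z t
    have e0 : (fun y => ψ 0 (F y)) = F := by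
      funext y
      exact C.act.zero _
    rw [e0] at h3
    rw [h3, mul_comm]
    exact h2

end adapt

theorem perShadow {B : Type v} [MetricSpace B] {f : B → B} (hS : PeriodicShadowing f) :
    PerShadow f := by
  intro η hη
  obtain ⟨δ, hδ, h⟩ := hS (η / 2) (half_pos hη)
  refine ⟨δ, hδ, fun m x hm hx hd => ?_⟩
  obtain ⟨c, hc, hcd⟩ := h (fun i => x (i % m)) m hm (fun i => by
    show x ((i + m) % m) = x (i % m)
    rw [Nat.add_mod_right]) (fun i => by
    show dist (f (x (i % m))) (x ((i + 1) % m)) ≤ δ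
    have h1 := hd (i % m) (Nat.mod_lt _ hm)
    have e : x ((i + 1) % m) = x (i % m + 1) := by
      by_cases h2 : i % m + 1 = m
      · have h3 : (i + 1) % m = 0 := by
          rw [Nat.add_mod, ← Nat.add_mod_mod]
          rw [Nat.mod_mod]
          have : (i % m + 1) % m = 0 := by rw [h2, Nat.mod_self]
          rw [Nat.add_mod] at this
          rw [Nat.mod_mod] at this
          exact this
        rw [h3, h2, hx]
      · have h3 : (i + 1) % m = i % m + 1 := by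
          have h4 : i % m < m := Nat.mod_lt _ hm
          rw [← Nat.mod_add_mod]
          exact Nat.mod_eq_of_lt (by omega)
        rw [h3]
    rw [e]
    exact h1.le)
  refine ⟨c, hc, fun i hi => ?_⟩
  have h1 := hcd i
  rw [Nat.mod_eq_of_lt hi] at h1
  linarith

section types

variable {n : ℕ} {N : Type u} [MetricSpace N] [CompactSpace N] [ChartedSpace (V n) N]
  [IsManifold (𝓡 n) ∞ N] {B : Type v} [MetricSpace B]

theorem prod_ne {r : ℕ∞} (F : DiffM n N r) {ψ : ℝ → N → N}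
    (hψ : IsFlow n N ψ) {ρ : N → ℝ} {π : N → B} {f : B → B} (C : Circ ψ (F : N → N) ρ π f)
    {κ₀ : ℝ} (hκ₀ : 0 < κ₀) (hyp : AllHyp n (F : N → N) ψ κ₀)
    {k : ℕ} (hk : 1 ≤ k) {z : N} (hz : (F : N → N)^[k] z = z) :
    ∏ i ∈ Finset.range k, ρ ((F : N → N)^[i] z) ≠ 1 := by
  obtain ⟨d, hd1, hd⟩ := ne_of_hyp F hψ (circ_bundle C) (circ_orbit C) hκ₀ hyp hk hz
    (LT_zero0 (circ_orbit C) k z)
  have h1 := LT_der0 C k z 0
  rw [hψ.zero] at h1
  rw [h1.unique hd]
  exact hd1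

/-- the points of a fibre over a periodic point -/
theorem both_types {r : ℕ∞} (hr : 1 ≤ r) (F : DiffM n N r) {ψ : ℝ → N → N}
    (hψ : IsFlow n N ψ) {ρ : N → ℝ} {π : N → B} {f : B → B} (C : Circ ψ (F : N → N) ρ π f)
    {κ₀ : ℝ} (hκ₀ : 0 < κ₀) (hyp : AllHyp n (F : N → N) ψ κ₀) {z : N}
    (hz : z ∈ Per (F : N → N)) :
    (∃ t, ψ t z ∈ AttPer (F : N → N) ρ) ∧ ∃ t, ψ t z ∈ RepPer (F : N → N) ρ := by
  have hψ' := flw hψ
  have hb := circ_bundle C
  have h := circ_orbit C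
  have i1 : ∀ z, F (F.symm z) = z := fun z => F.apply_symm_apply z
  have i2 : ∀ z, F.symm (F z) = z := fun z => F.symm_apply_apply z
  obtain ⟨θ', h', -⟩ := inv_map hψ' hb h i1 i2
  obtain ⟨k, hk, hzk⟩ := hz
  have hzk' := per_inv i2 hzk
  have hne : ∀ z, (F : N → N)^[k] z = z → ∀ t, LT (F : N → N) (theta ψ ρ) 0 k z t = t →
      ∃ d, d ≠ 1 ∧ HasDerivAt (LT (F : N → N) (theta ψ ρ) 0 k z) d t := fun z hz t ht =>
    ne_of_hyp F hψ hb h hκ₀ hyp hk hz ht
  have hne' : ∀ z, (F : N → N)^[k] z = z → ∀ t, LT (F.symm : N → N) θ' 0 k z t = t →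
      ∃ d, d ≠ 1 ∧ HasDerivAt (LT (F.symm : N → N) θ' 0 k z) d t := by
    intro z hz t ht
    have hz' := per_inv i2 hz
    have hzt : (F.symm : N → N)^[k] (ψ t z) = ψ t z := fix_shift hψ' h' hz' ht
    have hzt' : (F : N → N)^[k] (ψ t z) = ψ t z := per_inv i1 hzt
    obtain ⟨d, hd1, hd⟩ := hne (ψ t z) hzt' 0 (LT_zero0 h k _)
    obtain ⟨d', hdd, hd'⟩ := der_inv hr F.symm hψ hb h h' i2 hzt' hd
    refine ⟨d', fun he => hd1 ?_, (der_shift hψ' hb h' ht).2 hd'⟩
    rw [he, one_mul] at hdd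
    exact hdd
  have hc1 : Continuous (LT (F : N → N) (theta ψ ρ) 0 k z) :=
    (LT_cont h k z).comp (continuous_const.prodMk continuous_id)
  have hc2 : Continuous (LT (F.symm : N → N) θ' 0 k z) :=
    (LT_cont h' k z).comp (continuous_const.prodMk continuous_id)
  have hz0 : ψ 0 z = z := hψ.zero z
  have hd := LT_der0 C k z 0
  rw [hz0] at hd
  rcases lt_or_gt_of_ne (prod_ne F hψ C hκ₀ hyp hk hzk) with h1 | h1
  · refine ⟨⟨0, k, hk, by rw [hz0]; exact hzk, by rw [hz0]; exact h1⟩, ?_⟩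
    obtain ⟨ϱ, dϱ, -, -, hϱϱ, -, hdϱ, hdϱ1⟩ := next_fixed hc1 (LT_zero0 h k z)
      (LT_one hψ' hb h F.injective k z) hd h1 (hne z hzk)
    refine ⟨ϱ, k, hk, fix_shift hψ' h hzk hϱϱ, ?_⟩
    have h2 := (LT_der0 C k z ϱ).unique hdϱ
    rw [h2]
    exact hdϱ1
  · refine ⟨?_, ⟨0, k, hk, by rw [hz0]; exact hzk, by rw [hz0]; exact h1⟩⟩
    obtain ⟨e, hed, he⟩ := der_inv hr F.symm hψ hb h h' i2 hzk hd
    have he1 : e < 1 := by nlinarith
    obtain ⟨ϱ, dϱ, -, -, hϱϱ, -, hdϱ, hdϱ1⟩ := next_fixed hc2 (LT_zero0 h' k z)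
      (LT_one hψ' hb h' F.symm.injective k z) he he1 (hne' z hzk)
    have hzϱ' := fix_shift hψ' h' hzk' hϱϱ
    obtain ⟨e', hed', he'⟩ := der_inv hr F hψ hb h' h i1 hzϱ' ((der_shift hψ' hb h' hϱϱ).1 hdϱ)
    refine ⟨ϱ, k, hk, per_inv i1 hzϱ', ?_⟩
    have h2 := LT_der0 C k (ψ ϱ z) 0
    rw [hψ.zero] at h2
    rw [h2.unique he']
    nlinarith


theorem att_closer {r : ℕ∞} (F : DiffM n N r) {ψ : ℝ → N → N}
    (hψ : IsFlow n N ψ) {ρ : N → ℝ} {π : N → B} {f : B → B} (C : Circ ψ (F : N → N) ρ π f)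
    {P : N} (hP : P ∈ AttPer (F : N → N) ρ) : Closer (F : N → N) ψ P := by
  obtain ⟨k, hk, hzk, hp⟩ := hP
  have hd := LT_der0 C k P 0
  rw [hψ.zero] at hd
  exact closer_of_deriv (flw hψ) (circ_orbit C) hk hzk hd hp

theorem rep_closer {r : ℕ∞} (hr : 1 ≤ r) (F : DiffM n N r) {ψ : ℝ → N → N}
    (hψ : IsFlow n N ψ) {ρ : N → ℝ} {π : N → B} {f : B → B} (C : Circ ψ (F : N → N) ρ π f)
    {P : N} (hP : P ∈ RepPer (F : N → N) ρ) : Closer (F.symm : N → N) ψ P := by
  have hψ' := flw hψ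
  have i1 : ∀ z, F (F.symm z) = z := fun z => F.apply_symm_apply z
  have i2 : ∀ z, F.symm (F z) = z := fun z => F.symm_apply_apply z
  obtain ⟨θ', h', -⟩ := inv_map hψ' (circ_bundle C) (circ_orbit C) i1 i2
  obtain ⟨k, hk, hzk, hp⟩ := hP
  have hd := LT_der0 C k P 0
  rw [hψ.zero] at hd
  obtain ⟨e, hed, he⟩ := der_inv hr F.symm hψ (circ_bundle C) (circ_orbit C) h' i2 hzk hd
  exact closer_of_deriv hψ' h' hk (per_inv i2 hzk) he (by nlinarith)

end types

section final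

variable {n : ℕ} {N : Type u} [TopologicalSpace N] [T2Space N] [CompactSpace N]
  [ChartedSpace (V n) N] [IsManifold (𝓡 n) ∞ N] {B : Type v} [MetricSpace B]

/-- the periodic points are of one of the two types -/
theorem per_eq {r : ℕ∞} (hr : 1 ≤ r) (F : DiffM n N r) (hF : OmegaStable n N r F)
    {ψ : ℝ → N → N} (hψ : IsFlow n N ψ) {ρ : N → ℝ} {π : N → B} {f : B → B}
    (C : Circ ψ (F : N → N) ρ π f) :
    Per (F : N → N) = AttPer (F : N → N) ρ ∪ RepPer (F : N → N) ρ := by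
  refine Subset.antisymm (fun z hz => ?_) ?_
  · obtain ⟨κ, hκ, hyp⟩ := all_hyp r hr F hF hψ z
    have : SecondCountableTopology N := ChartedSpace.secondCountable_of_sigmaCompact (V n) N
    let _ : MetricSpace N := TopologicalSpace.metrizableSpaceMetric N
    obtain ⟨k, hk, hzk⟩ := hz
    rcases lt_or_gt_of_ne (prod_ne F hψ C hκ hyp hk hzk) with h1 | h1
    · exact Or.inl ⟨k, hk, hzk, h1⟩
    · exact Or.inr ⟨k, hk, hzk, h1⟩
  · rintro z (⟨k, hk, hz, -⟩ | ⟨k, hk, hz, -⟩)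
    · exact ⟨k, hk, hz⟩
    · exact ⟨k, hk, hz⟩

/-- there are periodic points of both types over every periodic point of `f` -/
theorem over_per {r : ℕ∞} (hr : 1 ≤ r) (F : DiffM n N r) (hF : OmegaStable n N r F)
    {ψ : ℝ → N → N} (hψ : IsFlow n N ψ) {ρ : N → ℝ} {π : N → B} {f : B → B}
    (C : Circ ψ (F : N → N) ρ π f) {c : B} (hc : c ∈ Per f) :
    (∃ z ∈ AttPer (F : N → N) ρ, π z = c) ∧ ∃ z ∈ RepPer (F : N → N) ρ, π z = c := by
  obtain ⟨w, rfl⟩ := C.surj c
  obtain ⟨κ, hκ, hyp⟩ := all_hyp r hr F hF hψ w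
  obtain ⟨ε, hε, hmain⟩ := main r hr F hF hψ (circ_orbit C)
  have : SecondCountableTopology N := ChartedSpace.secondCountable_of_sigmaCompact (V n) N
  let _ : MetricSpace N := TopologicalSpace.metrizableSpaceMetric N
  obtain ⟨m, hm, hwm⟩ := hc
  obtain ⟨t, ht⟩ := (C.fib w ((F : N → N)^[m] w)).1 (by rw [C.pi_iter, hwm])
  have hT : ClosedOrbit ψ 1 w := ⟨one_pos, fun t => by
    rw [C.free]
    simp⟩
  have e0 : (fun y => ψ 0 (F y)) = (F : N → N) := by
    funext y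
    exact hψ.zero _
  obtain ⟨-, h2⟩ := hmain 0 (by rwa [abs_zero]) m w t hm (by rw [e0, ht])
    (moves (circ_bundle C) w)
  obtain ⟨⟨z₁, hz₁, t₁, ht₁⟩, -, -⟩ := h2 1 hT
  rw [e0] at hz₁
  have hπ : π z₁ = π w := by
    rw [← ht₁]
    exact C.pi_psi t₁ w
  obtain ⟨⟨a, ha⟩, b, hb⟩ := both_types hr F hψ C hκ hyp hz₁
  exact ⟨⟨_, ha, by rw [C.pi_psi, hπ]⟩, ⟨_, hb, by rw [C.pi_psi, hπ]⟩⟩

theorem image_closure {π : N → B} (hπ : Continuous π) {A : Set N} {D : Set B}
    (h1 : ∀ z ∈ A, π z ∈ D) (h2 : ∀ c ∈ D, ∃ z ∈ A, π z = c) : π '' closure A = closure D := by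
  refine Subset.antisymm ?_ ?_
  · rintro _ ⟨z, hz, rfl⟩
    exact closure_mono (image_subset_iff.2 h1) (image_closure_subset_closure_image hπ ⟨z, hz, rfl⟩)
  · refine closure_minimal (fun c hc => ?_) ((isClosed_closure.isCompact.image hπ).isClosed)
    obtain ⟨z, hz, rfl⟩ := h2 c hc
    exact ⟨z, subset_closure hz, rfl⟩

/-- the two closures project onto the closure of the periodic points of `f` -/
theorem images {r : ℕ∞} (hr : 1 ≤ r) (F : DiffM n N r) (hF : OmegaStable n N r F)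
    {ψ : ℝ → N → N} (hψ : IsFlow n N ψ) {ρ : N → ℝ} {π : N → B} {f : B → B}
    (C : Circ ψ (F : N → N) ρ π f) :
    π '' closure (AttPer (F : N → N) ρ) = closure (Per f) ∧
      π '' closure (RepPer (F : N → N) ρ) = closure (Per f) := by
  have hper : ∀ z (k : ℕ), (F : N → N)^[k] z = z → f^[k] (π z) = π z := fun z k hz => by
    rw [← C.pi_iter, hz]
  constructor
  · refine image_closure C.contπ ?_ fun c hc => (over_per hr F hF hψ C hc).1
    rintro z ⟨k, hk, hz, -⟩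
    exact ⟨k, hk, hper z k hz⟩
  · refine image_closure C.contπ ?_ fun c hc => (over_per hr F hF hψ C hc).2
    rintro z ⟨k, hk, hz, -⟩
    exact ⟨k, hk, hper z k hz⟩

theorem att_rep {r : ℕ∞} (hr : 1 ≤ r) (F : DiffM n N r) (hF : OmegaStable n N r F)
    {ψ : ℝ → N → N} (hψ : IsFlow n N ψ) {ρ : N → ℝ} {π : N → B} {f : B → B}
    (C : Circ ψ (F : N → N) ρ π f) (hS : PeriodicShadowing f) {P Q : N}
    (hP : P ∈ AttPer (F : N → N) ρ) (hQ : Q ∈ RepPer (F : N → N) ρ) :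
    ¬ (ChainTo (F : N → N) P Q ∧ ChainTo (F : N → N) Q P) := by
  have : SecondCountableTopology N := ChartedSpace.secondCountable_of_sigmaCompact (V n) N
  have hP' : Closer (F : N → N) ψ P := by
    let _ : MetricSpace N := TopologicalSpace.metrizableSpaceMetric N
    exact att_closer F hψ C hP
  have hQ' : Closer (F.symm : N → N) ψ Q := by
    let _ : MetricSpace N := TopologicalSpace.metrizableSpaceMetric N
    exact rep_closer hr F hψ C hQ
  exact classes r hr F hF hψ (circ_orbit C) (circ_bundle C) C.semi (perShadow hS) hP' hQ'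

end final

end Pool.Agent.J4.H98.Fib
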