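import Pool.Agent.J4.H98.FibK

/-!
# Centre shadowing: density of the periodic points for maps which preserve the orbits of a flow
-/

set_option autoImplicit false
set_option linter.unusedSectionVars false

open scoped Manifold ContDiff Topology Uniformity
open Filter Set

universe u v

namespace Pool.Agent.J4.H98.Fib

open Pool.Agent.J4.H98.Orb Pool.Agent.TH80.OMS Pool.Agent.R774.OS Pool.Agent.Y504.CO
open Pool.Agent.TH80.CLX
open Pool.Agent.H718R2.G
open Pool.Agent.N102.UF (flow_fam)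
open Pool.Agent.TH290.CL (IsFlow)
open Pool.Agent.J4.H85.IS (Circ theta AttPer RepPer PeriodicShadowing ExpansiveOnPer)

/-- `G` has the centre shadowing property along the orbits of `ψ`, for periodic pseudo-orbits: every
closed pseudo-orbit `X 0, …, X m = X 0` of `G` with small jumps is traced by a closed pseudo-orbit
`w 0, …, w m = w 0` all of whose jumps are small and along the orbits of `ψ`:
`G (w j) = ψ_(u j) (w (j + 1))`. (`W`, `V`: open neighbourhoods of the diagonal.) -/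
def CentreShadowing {N : Type u} [TopologicalSpace N] (G : N → N) (ψ : ℝ → N → N) : Prop :=
  ∀ W : Set (N × N), IsOpen W → (∀ z, (z, z) ∈ W) → ∀ σ : ℝ, 0 < σ →
    ∃ V : Set (N × N), IsOpen V ∧ (∀ z, (z, z) ∈ V) ∧ ∀ (m : ℕ) (X : ℕ → N), 1 ≤ m → X m = X 0 →
      (∀ j < m, (G (X j), X (j + 1)) ∈ V) →
      ∃ (w : ℕ → N) (u : ℕ → ℝ), w m = w 0 ∧
        ∀ j < m, (w j, X j) ∈ W ∧ |u j| < σ ∧ G (w j) = ψ (u j) (w (j + 1))

/-- The flow `ψ` has the shadowing property for periodic pseudo-orbits: a closed pseudo-orbit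
`X 0, …, X m = X 0` with times `T j ∈ [a, b]` and small jumps from `ψ_(T j) (X j)` to `X (j + 1)` is
traced by a closed orbit: `ψ_(T j + u j) (w j) = w (j + 1)`, `w m = w 0`, with small `u j`. -/
def FlowShadowing {N : Type u} [TopologicalSpace N] (ψ : ℝ → N → N) : Prop :=
  ∀ a b : ℝ, 0 < a → ∀ W : Set (N × N), IsOpen W → (∀ z, (z, z) ∈ W) → ∀ σ : ℝ, 0 < σ →
    ∃ V : Set (N × N), IsOpen V ∧ (∀ z, (z, z) ∈ V) ∧ ∀ (m : ℕ) (X : ℕ → N) (T : ℕ → ℝ), 1 ≤ m →
      X m = X 0 → (∀ j < m, a ≤ T j ∧ T j ≤ b ∧ (ψ (T j) (X j), X (j + 1)) ∈ V) →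
      ∃ (w : ℕ → N) (u : ℕ → ℝ), w m = w 0 ∧
        ∀ j < m, (w j, X j) ∈ W ∧ |u j| < σ ∧ ψ (T j + u j) (w j) = w (j + 1)

theorem diag_dist {N : Type u} [MetricSpace N] [CompactSpace N] {V : Set (N × N)} (hV : IsOpen V)
    (hd : ∀ z, (z, z) ∈ V) : ∃ δ : ℝ, 0 < δ ∧ ∀ a b : N, dist a b < δ → (a, b) ∈ V := by
  have h1 : V ∈ 𝓤 N := by
    rw [← nhdsSet_diagonal_eq_uniformity, hV.mem_nhdsSet]
    rintro ⟨a, b⟩ hab
    have : a = b := hab
    rw [← this]
    exact hd a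
  obtain ⟨δ, hδ, h⟩ := Metric.mem_uniformity_dist.1 h1
  exact ⟨δ, hδ, fun a b hab => h hab⟩

section metric

variable {N : Type u} [MetricSpace N] [CompactSpace N] {ψ : ℝ → N → N} {G : N → N}
  {θ : N → ℝ → ℝ}

theorem cs_metric (h : CentreShadowing G ψ) {η σ : ℝ} (hη : 0 < η) (hσ : 0 < σ) :
    ∃ δ : ℝ, 0 < δ ∧ ∀ (m : ℕ) (X : ℕ → N), 1 ≤ m → X m = X 0 →
      (∀ j < m, dist (G (X j)) (X (j + 1)) < δ) →
      ∃ (w : ℕ → N) (u : ℕ → ℝ), w m = w 0 ∧
        ∀ j < m, dist (w j) (X j) < η ∧ |u j| < σ ∧ G (w j) = ψ (u j) (w (j + 1)) := by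
  obtain ⟨V, hV, hd, H⟩ := h {q | dist q.1 q.2 < η} (isOpen_lt continuous_dist continuous_const)
    (fun z => by show dist z z < η; rw [dist_self]; exact hη) σ hσ
  obtain ⟨δ, hδ, hδV⟩ := diag_dist hV hd
  exact ⟨δ, hδ, fun m X hm hX hj => H m X hm hX fun j hjm => hδV _ _ (hj j hjm)⟩

theorem cs_of_metric (H : ∀ η σ : ℝ, 0 < η → 0 < σ →
    ∃ δ : ℝ, 0 < δ ∧ ∀ (m : ℕ) (X : ℕ → N), 1 ≤ m → X m = X 0 →
      (∀ j < m, dist (G (X j)) (X (j + 1)) < δ) →
      ∃ (w : ℕ → N) (u : ℕ → ℝ), w m = w 0 ∧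
        ∀ j < m, dist (w j) (X j) < η ∧ |u j| < σ ∧ G (w j) = ψ (u j) (w (j + 1))) :
    CentreShadowing G ψ := by
  intro W hW hd σ hσ
  obtain ⟨η, hη, hηW⟩ := diag_dist hW hd
  obtain ⟨δ, hδ, h⟩ := H η σ hη hσ
  refine ⟨{q | dist q.1 q.2 < δ}, isOpen_lt continuous_dist continuous_const,
    fun z => by show dist z z < δ; rw [dist_self]; exact hδ, fun m X hm hX hj => ?_⟩
  obtain ⟨w, u, hw, hwu⟩ := h m X hm hX hj
  exact ⟨w, u, hw, fun j hjm => ⟨hηW _ _ (hwu j hjm).1, (hwu j hjm).2⟩⟩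

/-- closing, from centre shadowing -/
theorem closing_cs (hψ : Flw ψ) (h : OrbitMap G ψ θ) (hcs : CentreShadowing G ψ) {z : N}
    (hz : z ∈ CR G) {O : Set N} (hO : O ∈ 𝓝 z) {s₀ : ℝ} (hs₀ : 0 < s₀) :
    ∃ s : ℝ, |s| ≤ s₀ ∧ ∃ w ∈ O, w ∈ Per (fun y => ψ s (G y)) := by
  obtain ⟨ρ, hρ, hρO⟩ := Metric.mem_nhds_iff.1 hO
  obtain ⟨δ, hδ, hch⟩ := cs_metric hcs hρ hs₀
  obtain ⟨m, X, hm, hX0, hXm, hX⟩ := mem_CR.1 hz δ hδ
  have hXm' : X m = X 0 := by
    have := hXm 0
    rwa [zero_add] at this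
  obtain ⟨w, u, hwm, hw⟩ := hch m X hm hXm' (fun j _ => hX j)
  have hret : ∀ s t, (fun y => ψ s (G y))^[m] (ψ t (w 0)) = ψ (run θ w u s 0 m t) (w 0) := by
    intro s t
    have h1 := run_apply (θ := θ) (w := w) (u := u) hψ h s 0 m
      (fun i hi => by rw [zero_add]; exact (hw i hi).2.2) t
    rw [zero_add, hwm] at h1
    exact h1
  have hcont : ContinuousOn (fun s => run θ w u s 0 m 0) (Icc (-s₀) s₀) :=
    ((run_cont h 0 m).comp (continuous_id.prodMk continuous_const)).continuousOn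
  have hpos : 0 ≤ run θ w u s₀ 0 m 0 := by
    refine run_pos (w := w) h (β := 0) le_rfl (s := s₀) (a := 0) (j := m) (u := u)
      (fun i hi => ?_) le_rfl hm
    have := abs_lt.1 (hw i hi).2.1
    rw [zero_add]
    linarith [this.1]
  have hneg : run θ w u (-s₀) 0 m 0 ≤ 0 := by
    have := run_neg (w := w) h (β := 0) le_rfl (s := -s₀) (a := 0) (j := m)
      (u := u) (fun i hi => by
        have := abs_lt.1 (hw i hi).2.1
        rw [zero_add]
        linarith [this.2]) le_rfl hm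
    linarith
  obtain ⟨s, hs, hs'⟩ := intermediate_value_Icc (by linarith : -s₀ ≤ s₀) hcont ⟨hneg, hpos⟩
  refine ⟨s, abs_le.2 hs, w 0, hρO ?_, m, hm, ?_⟩
  · have h2 := (hw 0 (by omega)).1
    rw [hX0] at h2
    exact h2
  · have h1 := hret s 0
    rw [hψ.zero] at h1
    have hs'' : run θ w u s 0 m 0 = 0 := hs'
    rw [h1, hs'', hψ.zero]

/-- small periods -/
theorem fixed_of_small (hψ : Flw ψ) {y : N} {a : ℝ} (ha : 0 < a)
    (hy : ∀ t, 0 ≤ t → t ≤ a → ψ t y = y) : ∀ t, ψ t y = y := by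
  have hn : ∀ (n : ℕ) (t : ℝ), 0 ≤ t → t ≤ a → ψ (n * t) y = y := by
    intro n t h0 h1
    induction n with
    | zero => rw [Nat.cast_zero, zero_mul, hψ.zero]
    | succ n ih =>
      rw [Nat.cast_succ, add_mul, one_mul, hψ.add, hy t h0 h1, ih]
  have hp : ∀ t, 0 ≤ t → ψ t y = y := by
    intro t ht
    obtain ⟨n, hn'⟩ := exists_nat_ge (t / a)
    have hn1 : t / a ≤ ((n + 1 : ℕ) : ℝ) := by push_cast; linarith
    have hpos : (0 : ℝ) < ((n + 1 : ℕ) : ℝ) := by positivity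
    have e : t = ((n + 1 : ℕ) : ℝ) * (t / ((n + 1 : ℕ) : ℝ)) := by field_simp
    rw [e]
    refine hn (n + 1) _ (by positivity) ?_
    rw [div_le_iff₀ hpos]
    rw [div_le_iff₀ ha] at hn1
    linarith
  intro t
  rcases le_total 0 t with h | h
  · exact hp t h
  · have h1 := hp (-t) (by linarith)
    have h2 : ψ t (ψ (-t) y) = y := by rw [← hψ.add, add_neg_cancel, hψ.zero]
    rwa [h1] at h2

theorem image_fixed (hψ : Flw ψ) (h : OrbitMap G ψ θ) {y : N} (hy : ∀ t, ψ t y = y) :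
    ∀ t, ψ t (G y) = G y := by
  have hpos : 0 < θ y 1 := by
    have := h.mono y one_pos
    rwa [h.zero] at this
  refine fixed_of_small hψ hpos fun t h0 h1 => ?_
  obtain ⟨t', -, ht'⟩ := intermediate_value_Icc (zero_le_one (α := ℝ)) (h.cont y).continuousOn
    (show t ∈ Icc (θ y 0) (θ y 1) by rw [h.zero]; exact ⟨h0, h1⟩)
  have e := h.eq y t'
  rw [hy, ht'] at e
  exact e.symm

end metric

variable {n : ℕ} {N : Type u} [TopologicalSpace N] [ChartedSpace (V n) N] [IsManifold (𝓡 n) ∞ N]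
  [T2Space N] [CompactSpace N]

theorem persist' {G : N → N} {ψ : ℝ → N → N} {θ : N → ℝ → ℝ} {κ : ℝ} (hκ : 0 < κ)
    (hψ : IsFlow n N ψ) (h : OrbitMap G ψ θ) (hyp : AllHyp n G ψ κ)
    {w : N} (hw : w ∈ Per G) {O : Set N} (hO : O ∈ 𝓝 w) :
    ∀ᶠ s in 𝓝 (0 : ℝ), ∃ w' ∈ O, w' ∈ Per (fun y => ψ s (G y)) := by
  by_cases hnf : ∃ t, ψ t w ≠ w
  · exact persist hκ hψ h hyp hnf hw hO
  · push Not at hnf
    refine Eventually.of_forall fun s => ⟨w, mem_of_mem_nhds hO, ?_⟩
    have : SecondCountableTopology N := ChartedSpace.secondCountable_of_sigmaCompact (V n) N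
    let _ : MetricSpace N := TopologicalSpace.metrizableSpaceMetric N
    have hψ' : Flw ψ := flw hψ
    have hfix : ∀ j : ℕ, ∀ t, ψ t (G^[j] w) = G^[j] w := by
      intro j
      induction j with
      | zero => exact hnf
      | succ j ih =>
        rw [Function.iterate_succ_apply']
        exact image_fixed hψ' h ih
    have hit : ∀ j : ℕ, (fun y => ψ s (G y))^[j] w = G^[j] w := by
      intro j
      induction j with
      | zero => rfl
      | succ j ih =>
        rw [Function.iterate_succ_apply', Function.iterate_succ_apply', ih]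
        have := hfix (j + 1) s
        rwa [Function.iterate_succ_apply'] at this
    obtain ⟨m, hm, hwm⟩ := hw
    exact ⟨m, hm, by rw [hit, hwm]⟩

theorem generic_cs (r : ℕ∞) (hr : 1 ≤ r) (F : DiffM n N r) (hF : OmegaStable n N r F)
    {ψ : ℝ → N → N} (hψ : IsFlow n N ψ) {θ : N → ℝ → ℝ} (hθ : OrbitMap (F : N → N) ψ θ)
    (hcs : ∃ κ : ℝ, 0 < κ ∧ ∀ s : ℝ, |s| < κ → CentreShadowing (fun y => ψ s (F y)) ψ) :
    ∃ ε : ℝ, 0 < ε ∧ ∀ᶠ s in residual ℝ, |s| < ε →
      CR (fun y => ψ s (F y)) = closure (Per (fun y => ψ s (F y))) := by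
  rcases isEmpty_or_nonempty N with hN | ⟨⟨z₀⟩⟩
  · refine ⟨1, one_pos, Eventually.of_forall fun s _ => ?_⟩
    ext x
    exact (hN.false x).elim
  have : SecondCountableTopology N := ChartedSpace.secondCountable_of_sigmaCompact (V n) N
  let _ : MetricSpace N := TopologicalSpace.metrizableSpaceMetric N
  have hψ' := flw hψ
  obtain ⟨κ₁, hκ₁, hyp₁⟩ := all_hyp r hr F hF hψ z₀
  obtain ⟨κ₂, hκ₂, hcs⟩ := hcs
  obtain ⟨κ, hκd⟩ : ∃ κ : ℝ, κ = min κ₁ κ₂ := ⟨_, rfl⟩
  have hκ : 0 < κ := by rw [hκd]; exact lt_min hκ₁ hκ₂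
  have hκ1 : κ ≤ κ₁ := by rw [hκd]; exact min_le_left _ _
  have hκ2 : κ ≤ κ₂ := by rw [hκd]; exact min_le_right _ _
  have hyp : AllHyp n (F : N → N) ψ κ := fun s hs => hyp₁ s (hs.trans_le hκ1)
  have hcc : ∀ s, Continuous (fun y => ψ s (F y)) := fun s =>
    hψ'.cont.comp (continuous_const.prodMk F.continuous)
  have hpush : ∀ s s' : ℝ, (fun y => ψ s' (ψ s (F y))) = fun y => ψ (s' + s) (F y) := by
    intro s s'
    funext y
    rw [hψ.add]
  obtain ⟨A, hA⟩ : ∃ A : Set N → Set ℝ, ∀ O s, s ∈ A O ↔ |s| < κ / 2 ∧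
      ∃ w ∈ O, w ∈ Per (fun y => ψ s (F y)) := ⟨fun O => {s | |s| < κ / 2 ∧
        ∃ w ∈ O, w ∈ Per (fun y => ψ s (F y))}, fun _ _ => Iff.rfl⟩
  have hAo : ∀ O, IsOpen O → IsOpen (A O) := by
    intro O hO
    rw [isOpen_iff_mem_nhds]
    intro s hs
    obtain ⟨hs1, w, hwO, hw⟩ := (hA O s).1 hs
    have h1 := persist' (half_pos hκ) hψ (hθ.push hψ s) (hyp.shift hψ hs1) hw
      (hO.mem_nhds hwO)
    have h2 : ∀ᶠ s' in 𝓝 s, ∃ w' ∈ O, w' ∈ Per (fun y => ψ s' (F y)) := by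
      have h3 : Tendsto (fun s' => s' - s) (𝓝 s) (𝓝 0) := by
        have h3c : Continuous fun s' : ℝ => s' - s := continuous_id.sub continuous_const
        have := h3c.tendsto s
        rwa [sub_self] at this
      have h4 := h3.eventually h1
      filter_upwards [h4] with s' hs'
      have e := hpush s (s' - s)
      rw [sub_add_cancel] at e
      rw [← e]
      exact hs'
    have h5 : ∀ᶠ s' in 𝓝 s, |s'| < κ / 2 := continuous_abs.continuousAt.eventually_lt
      continuousAt_const hs1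
    filter_upwards [h2, h5] with s' h6 h7
    exact (hA O s').2 ⟨h7, h6⟩
  obtain ⟨𝓑, hcount, -, hbas⟩ := TopologicalSpace.exists_countable_basis N
  have hres : ∀ᶠ s in residual ℝ, ∀ O ∈ 𝓑, s ∈ A O ∪ (closure (A O))ᶜ := by
    rw [eventually_countable_ball hcount]
    intro O hO
    have ho : IsOpen (A O ∪ (closure (A O))ᶜ) :=
      (hAo O (hbas.isOpen hO)).union isClosed_closure.isOpen_compl
    refine residual_of_dense_open ho ?_
    intro s
    by_cases hs : s ∈ closure (A O)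
    · exact closure_mono subset_union_left hs
    · exact subset_closure (Or.inr hs)
  refine ⟨κ / 2, half_pos hκ, ?_⟩
  filter_upwards [hres] with s hs hsκ
  refine Subset.antisymm (fun z hz => ?_) (per_sub_CR (hcc s))
  rw [mem_closure_iff_nhds_basis (hbas.nhds_hasBasis (a := z))]
  rintro O ⟨hO, hzO⟩
  have hcl : s ∈ closure (A O) := by
    rw [Metric.mem_closure_iff]
    intro ε hε
    obtain ⟨s', hs', w, hwO, hw⟩ := closing_cs hψ' (hθ.push hψ s) (hcs s (by linarith)) hz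
      ((hbas.isOpen hO).mem_nhds hzO) (s₀ := min (ε / 2) ((κ / 2 - |s|) / 2))
      (lt_min (half_pos hε) (by linarith))
    rw [hpush] at hw
    have h1 : |s'| ≤ ε / 2 := hs'.trans (min_le_left _ _)
    have h2 : |s'| ≤ (κ / 2 - |s|) / 2 := hs'.trans (min_le_right _ _)
    refine ⟨s' + s, (hA O _).2 ⟨?_, w, hwO, hw⟩, ?_⟩
    · have := abs_add_le s' s
      linarith
    · rw [Real.dist_eq, show s - (s' + s) = -s' by ring, abs_neg]
      linarith
  rcases hs O hO with h1 | h1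
  · obtain ⟨-, w, hwO, hw⟩ := (hA O s).1 h1
    exact ⟨w, hw, hwO⟩
  · exact absurd hcl h1

/-- density of the periodic points in the nonwandering set -/
theorem dense_cs (r : ℕ∞) (hr : 1 ≤ r) (F : DiffM n N r) (hF : OmegaStable n N r F)
    {ψ : ℝ → N → N} (hψ : IsFlow n N ψ) {θ : N → ℝ → ℝ} (hθ : OrbitMap (F : N → N) ψ θ)
    (hcs : ∃ κ : ℝ, 0 < κ ∧ ∀ s : ℝ, |s| < κ → CentreShadowing (fun y => ψ s (F y)) ψ) :
    Omega (F : N → N) = closure (Per (F : N → N)) := by
  refine Subset.antisymm ?_ closure_per_sub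
  rcases isEmpty_or_nonempty N with hN | ⟨⟨z₀⟩⟩
  · intro x
    exact (hN.false x).elim
  obtain ⟨ε, hε, hgen⟩ := generic_cs r hr F hF hψ hθ hcs
  obtain ⟨U, hU, hFU, hconj⟩ := hF
  obtain ⟨H, hfam, hH, hH0⟩ := flow_fam hψ r F
  obtain ⟨κ, hκ, hmem⟩ := fam_mem r hr H hfam z₀ U hU (by rw [hH0]; exact hFU)
  have hd : Dense {s : ℝ | |s| < ε → CR (fun y => ψ s (F y)) =
      closure (Per (fun y => ψ s (F y)))} := dense_of_mem_residual hgen
  obtain ⟨s, hs, hs'⟩ := hd.exists_mem_open (Metric.isOpen_ball (x := (0 : ℝ)) (ε := min ε κ))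
    ⟨0, Metric.mem_ball_self (lt_min hε hκ)⟩
  rw [mem_ball_zero_iff, Real.norm_eq_abs] at hs'
  have h1 : CR (fun y => ψ s (F y)) = closure (Per (fun y => ψ s (F y))) :=
    hs (hs'.trans_le (min_le_left _ _))
  have hG := hmem s (by rw [Real.norm_eq_abs]; exact hs'.trans_le (min_le_right _ _))
  obtain ⟨h, hh⟩ := hconj _ hG
  have e : (H s : N → N) = fun y => ψ s (F y) := by
    funext y
    exact hH s y
  refine dense_of_conj F.continuous (H s).continuous h hh ?_
  rw [e, ← h1]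
  have hc : Continuous fun y => ψ s (F y) :=
    (flw hψ).cont.comp (continuous_const.prodMk F.continuous)
  have : SecondCountableTopology N := ChartedSpace.secondCountable_of_sigmaCompact (V n) N
  let _ : MetricSpace N := TopologicalSpace.metrizableSpaceMetric N
  exact fun x hx => omega_CR hc hx

section instances

variable {B : Type v} [MetricSpace B]

/-- circle-fibred maps over maps with periodic shadowing have the centre shadowing property -/
theorem circ_cs {ψ : ℝ → N → N} (hψ : IsFlow n N ψ) {F : N → N} {ρ : N → ℝ} {π : N → B}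
    {f : B → B} (C : Circ ψ F ρ π f) (hS : PeriodicShadowing f) (s : ℝ) :
    CentreShadowing (fun y => ψ s (F y)) ψ := by
  have : SecondCountableTopology N := ChartedSpace.secondCountable_of_sigmaCompact (V n) N
  let _ : MetricSpace N := TopologicalSpace.metrizableSpaceMetric N
  have hψ' := flw hψ
  have hb := circ_bundle C
  have hGc : Continuous fun y => ψ s (F y) := hψ'.cont.comp (continuous_const.prodMk C.contF)
  have hf : ∀ z, π (ψ s (F z)) = f (π z) := fun z => by rw [C.pi_psi, C.semi]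
  refine cs_of_metric fun η σ hη hσ => ?_
  obtain ⟨η₁, hη₁, htime⟩ := time_of_near hψ' hb (half_pos hσ)
  obtain ⟨δ, hδ, hch⟩ := lift_chain hψ' hb hGc hf (perShadow hS) (half_pos hσ)
    (lt_min hη (half_pos hη₁))
  refine ⟨δ, hδ, fun m X hm hXm hX => ?_⟩
  obtain ⟨w, u, hw, hu, hwm⟩ := hch m X hm (by rw [hXm]) hX
  have hd : dist (w m) (w 0) < η₁ := by
    have h1 := hw m le_rfl
    have h2 := hw 0 (Nat.zero_le _)
    have h3 := dist_triangle_right (w m) (w 0) (X 0)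
    rw [hXm] at h1
    have h4 := min_le_right η (η₁ / 2)
    linarith
  obtain ⟨c, hc, hwc⟩ := htime (w 0) (w m) hwm.symm hd
  refine ⟨fun j => if j = m then w 0 else w j, fun j => if j + 1 = m then u j + c else u j, ?_,
    fun j hj => ⟨?_, ?_, ?_⟩⟩
  · show (if m = m then w 0 else w m) = if 0 = m then w 0 else w 0
    rw [if_pos rfl, ite_self]
  · show dist (if j = m then w 0 else w j) (X j) < η
    rw [if_neg hj.ne]
    exact (hw j hj.le).trans_le (min_le_left _ _)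
  · show |if j + 1 = m then u j + c else u j| < σ
    have h1 := (hu j hj).1
    split_ifs
    · have := abs_add_le (u j) c
      linarith
    · linarith
  · show ψ s (F (if j = m then w 0 else w j)) =
      ψ (if j + 1 = m then u j + c else u j) (if j + 1 = m then w 0 else w (j + 1))
    rw [if_neg hj.ne]
    have h1 := (hu j hj).2
    split_ifs with h2
    · rw [h1, h2, hwc, ← hψ'.add]
    · exact h1

/-- the times along the orbits of a map `y ↦ ψ_(τ y) y` -/
theorem disc_orbit {ψ : ℝ → N → N} (hψ : IsFlow n N ψ) {F : N → N} (hF : Function.Injective F)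
    {τ : N → ℝ} (hτ : Continuous τ) (hFτ : ∀ y, F y = ψ (τ y) y) :
    OrbitMap F ψ (fun z t => t + τ (ψ t z) - τ z) := by
  have : SecondCountableTopology N := ChartedSpace.secondCountable_of_sigmaCompact (V n) N
  let _ : MetricSpace N := TopologicalSpace.metrizableSpaceMetric N
  have hψ' := flw hψ
  have hct : ∀ z, Continuous fun t => ψ t z := fun z =>
    hψ'.cont.comp (continuous_id.prodMk continuous_const)
  have hc : ∀ z, Continuous fun t : ℝ => t + τ (ψ t z) - τ z := fun z =>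
    (continuous_id.add (hτ.comp (hct z))).sub continuous_const
  refine ⟨hc, fun z => ?_, fun z => ?_, fun z t => ?_⟩
  · have hinj : Function.Injective fun t : ℝ => t + τ (ψ t z) - τ z := by
      intro t t' h
      have h1 : t + τ (ψ t z) = t' + τ (ψ t' z) := by
        have : t + τ (ψ t z) - τ z = t' + τ (ψ t' z) - τ z := h
        linarith
      have h2 : F (ψ t z) = F (ψ t' z) := by
        rw [hFτ, hFτ, ← hψ.add, ← hψ.add, add_comm (τ (ψ t z)), add_comm (τ (ψ t' z)), h1]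
      have h3 := hF h2
      rw [h3] at h1
      linarith
    rcases (hc z).strictMono_of_inj hinj with h1 | h1
    · exact h1
    · exfalso
      obtain ⟨b, hb⟩ := (isCompact_univ.image hτ).isBounded.exists_norm_le
      have hb' : ∀ y, |τ y| ≤ b := fun y => hb _ ⟨y, mem_univ y, rfl⟩
      have hb0 : 0 ≤ b := (abs_nonneg _).trans (hb' z)
      have h2 := h1 (show (0 : ℝ) < 3 * b + 1 by linarith)
      have h3 : 3 * b + 1 + τ (ψ (3 * b + 1) z) - τ z < 0 + τ (ψ 0 z) - τ z := h2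
      have h4 := abs_le.1 (hb' (ψ (3 * b + 1) z))
      have h5 := abs_le.1 (hb' (ψ 0 z))
      linarith [h4.1, h5.2]
  · show 0 + τ (ψ 0 z) - τ z = 0
    rw [hψ.zero]
    ring
  · show F (ψ t z) = ψ (t + τ (ψ t z) - τ z) (F z)
    rw [hFτ, hFτ, ← hψ.add, ← hψ.add]
    congr 1
    ring

/-- maps `y ↦ ψ_(τ y) y`, `τ > 0`, of a flow with the shadowing property have the centre shadowing
property -/
theorem disc_cs {ψ : ℝ → N → N} (hψ : IsFlow n N ψ) (hS : FlowShadowing ψ) {F : N → N}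
    {τ : N → ℝ} (hτ : Continuous τ) (hpos : ∀ y, 0 < τ y) (hFτ : ∀ y, F y = ψ (τ y) y) :
    ∃ κ : ℝ, 0 < κ ∧ ∀ s : ℝ, |s| < κ → CentreShadowing (fun y => ψ s (F y)) ψ := by
  rcases isEmpty_or_nonempty N with hN | hN
  · exact ⟨1, one_pos, fun s _ W hW hd σ hσ => ⟨W, hW, hd, fun m X => (hN.false (X 0)).elim⟩⟩
  have : SecondCountableTopology N := ChartedSpace.secondCountable_of_sigmaCompact (V n) N
  let _ : MetricSpace N := TopologicalSpace.metrizableSpaceMetric N
  have hψ' := flw hψ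
  obtain ⟨y₀, -, hy₀⟩ := isCompact_univ.exists_isMinOn (f := τ) univ_nonempty hτ.continuousOn
  obtain ⟨y₁, -, hy₁⟩ := isCompact_univ.exists_isMaxOn (f := τ) univ_nonempty hτ.continuousOn
  have h0 := hpos y₀
  refine ⟨τ y₀ / 2, half_pos h0, fun s hs => ?_⟩
  rw [abs_lt] at hs
  refine cs_of_metric fun η σ hη hσ => ?_
  obtain ⟨η₁, hη₁, hu⟩ := Metric.uniformContinuous_iff.1
    (CompactSpace.uniformContinuous_of_continuous hτ) (σ / 2) (half_pos hσ)
  obtain ⟨V, hV, hd, H⟩ := hS (τ y₀ / 2) (τ y₁ + τ y₀ / 2) (half_pos h0)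
    {q | dist q.1 q.2 < min η η₁} (isOpen_lt continuous_dist continuous_const)
    (fun z => by show dist z z < min η η₁; rw [dist_self]; exact lt_min hη hη₁) (σ / 2)
    (half_pos hσ)
  obtain ⟨δ, hδ, hδV⟩ := diag_dist hV hd
  refine ⟨δ, hδ, fun m X hm hXm hX => ?_⟩
  have hFs : ∀ y, ψ s (F y) = ψ (s + τ y) y := fun y => by rw [hFτ, ← hψ.add]
  obtain ⟨w, u, hwm, hw⟩ := H m X (fun j => s + τ (X j)) hm hXm fun j hj => by
    have h1 : τ y₀ ≤ τ (X j) := hy₀ (mem_univ _)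
    have h2 : τ (X j) ≤ τ y₁ := hy₁ (mem_univ _)
    refine ⟨by linarith [hs.1], by linarith [hs.2], ?_⟩
    rw [← hFs]
    exact hδV _ _ (hX j hj)
  refine ⟨w, fun j => τ (w j) - τ (X j) - u j, hwm, fun j hj => ?_⟩
  obtain ⟨h1, h2, h3⟩ := hw j hj
  have h1' : dist (w j) (X j) < min η η₁ := h1
  refine ⟨h1'.trans_le (min_le_left _ _), ?_, ?_⟩
  · have h4 := hu (h1'.trans_le (min_le_right _ _))
    rw [Real.dist_eq] at h4
    have := abs_sub (τ (w j) - τ (X j)) (u j)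
    linarith
  · show ψ s (F (w j)) = ψ (τ (w j) - τ (X j) - u j) (w (j + 1))
    rw [← h3, ← hψ.add, hFs]
    congr 1
    ring

end instances

end Pool.Agent.J4.H98.Fib
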