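import Mathlib
import Pool.Agent.N102.UF.Irr
import Pool.Agent.N102.UF.MS

/-!
# Monotone families of increasing maps of the line whose fixed points are hyperbolic
-/

set_option autoImplicit false

open Filter Set Topology

namespace Pool.Agent.J4.H98.Orb

open CircleDeg1Lift

/-- A continuous family of nondecreasing maps which is pushed with speed at least one. -/
structure Fam (L : ℝ → ℝ → ℝ) : Prop where
  cont : Continuous fun q : ℝ × ℝ => L q.1 q.2
  mono : ∀ s, Monotone (L s)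
  push : ∀ s' s t, s' ≤ s → L s' t + (s - s') ≤ L s t

/-- All fixed points of the maps with small parameters are hyperbolic. -/
def HypFix (L : ℝ → ℝ → ℝ) (ε : ℝ) : Prop :=
  ∀ s, |s| < ε → ∀ t, L s t = t → ∃ κ : ℝ, κ ≠ 1 ∧ HasDerivAt (L s) κ t

theorem Fam.contS {L : ℝ → ℝ → ℝ} (h : Fam L) (t : ℝ) : Continuous fun s => L s t :=
  h.cont.comp (continuous_id.prodMk continuous_const)

theorem Fam.contT {L : ℝ → ℝ → ℝ} (h : Fam L) (s : ℝ) : Continuous (L s) :=
  h.cont.comp (continuous_const.prodMk continuous_id)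

theorem gap1 {L : ℝ → ℝ → ℝ} {ε : ℝ} (h : Fam L) (hyp : HypFix L ε) {t t' x : ℝ} (htt : t < t')
    (ht : L 0 t = t) (ht' : L 0 t' = t') (hx : x ∈ Icc t t') (hLx : L 0 x < x) : ε ≤ t' - t := by
  by_contra hlt
  push Not at hlt
  set s₁ := (t' - t + ε) / 2 with hs₁
  have h1 : t' - t < s₁ := by rw [hs₁]; linarith
  have h2 : s₁ < ε := by rw [hs₁]; linarith
  have h0 : 0 < s₁ := by linarith
  set A : Set (ℝ × ℝ) := (Icc 0 s₁ ×ˢ Icc t t') ∩ {q | L q.1 q.2 ≤ q.2} with hA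
  have hAc : IsCompact A := (isCompact_Icc.prod isCompact_Icc).inter_right
    (isClosed_le h.cont continuous_snd)
  have hSc : IsCompact (Prod.fst '' A) := hAc.image continuous_fst
  have hSne : (Prod.fst '' A).Nonempty :=
    ⟨0, (0, x), ⟨⟨⟨le_rfl, h0.le⟩, hx⟩, hLx.le⟩, rfl⟩
  obtain ⟨s, ⟨⟨s', y⟩, hsy, rfl⟩, hmax⟩ := hSc.exists_isGreatest hSne
  obtain ⟨⟨hs, hy⟩, hLy⟩ := hsy
  simp only [mem_ofPred_eq] at hs hy hLy
  have hin : ∀ s ∈ Icc 0 s₁, ∀ u ∈ Icc t t', L s u ≤ u → s ≤ s' := fun s hs u hu hL =>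
    hmax ⟨(s, u), ⟨⟨hs, hu⟩, hL⟩, rfl⟩
  have hs1 : s' < s₁ := by
    refine lt_of_le_of_ne hs.2 fun he => ?_
    have e1 := h.push 0 s₁ t h0.le
    have e2 := h.mono s₁ hy.1
    rw [he] at hLy
    linarith [hy.2]
  have hs0 : 0 < s' := by
    have hc : ContinuousAt (fun s => L s x) 0 := (h.contS x).continuousAt
    have hev : ∀ᶠ s in 𝓝 (0 : ℝ), L s x < x := hc.eventually_lt continuousAt_const hLx
    obtain ⟨δ, hδ, hδ'⟩ := Metric.eventually_nhds_iff.1 hev
    have h3 : 0 < min (δ / 2) s₁ := lt_min (half_pos hδ) h0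
    have h4 : L (min (δ / 2) s₁) x < x := hδ' (by
      rw [Real.dist_eq, sub_zero, abs_of_pos h3]
      exact (min_le_left _ _).trans_lt (by linarith))
    exact h3.trans_le (hin _ ⟨h3.le, min_le_right _ _⟩ x hx h4.le)
  have hge : ∀ u ∈ Icc t t', u ≤ L s' u := by
    intro u hu
    by_contra hcon
    push Not at hcon
    have hc : ContinuousAt (fun s => L s u) s' := (h.contS u).continuousAt
    have hev : ∀ᶠ s in 𝓝 s', L s u < u := hc.eventually_lt continuousAt_const hcon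
    obtain ⟨δ, hδ, hδ'⟩ := Metric.eventually_nhds_iff.1 hev
    have h3 : s' < min (s' + δ / 2) s₁ := lt_min (by linarith) hs1
    have h4 : L (min (s' + δ / 2) s₁) u < u := hδ' (by
      rw [Real.dist_eq, abs_of_pos (sub_pos.2 h3)]
      have := min_le_left (s' + δ / 2) s₁
      linarith)
    have := hin _ ⟨hs0.le.trans h3.le, min_le_right _ _⟩ u hu h4.le
    linarith
  have hLeq : L s' y = y := le_antisymm hLy (hge y hy)
  have hyt : t < y := by
    refine lt_of_le_of_ne hy.1 fun he => ?_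
    have e1 := h.push 0 s' t hs0.le
    rw [← he] at hLeq
    linarith
  have hyt' : y < t' := by
    refine lt_of_le_of_ne hy.2 fun he => ?_
    have e1 := h.push 0 s' t' hs0.le
    rw [he] at hLeq
    linarith
  obtain ⟨κ, hκ, hd⟩ := hyp s' (by rw [abs_of_pos hs0]; linarith) y hLeq
  have hmin : IsLocalMin (fun u => L s' u - u) y := by
    filter_upwards [Ioo_mem_nhds hyt hyt'] with u hu
    have := hge u ⟨hu.1.le, hu.2.le⟩
    rw [hLeq]
    linarith
  have h5 := hmin.hasDerivAt_eq_zero (hd.sub (hasDerivAt_id y))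
  exact hκ (by linarith)

theorem Fam.reflect {L : ℝ → ℝ → ℝ} (h : Fam L) : Fam fun s t => -L (-s) (-t) where
  cont := (h.cont.comp (continuous_fst.neg.prodMk continuous_snd.neg)).neg
  mono := fun s t t' htt => by
    have := h.mono (-s) (neg_le_neg htt)
    show -L (-s) (-t) ≤ -L (-s) (-t')
    linarith
  push := fun s' s t hs => by
    have := h.push (-s) (-s') (-t) (neg_le_neg hs)
    linarith

theorem HypFix.reflect {L : ℝ → ℝ → ℝ} {ε : ℝ} (h : HypFix L ε) :
    HypFix (fun s t => -L (-s) (-t)) ε := by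
  intro s hs t ht
  obtain ⟨κ, hκ, hd⟩ := h (-s) (by rwa [abs_neg]) (-t) (by linarith)
  refine ⟨κ, hκ, ?_⟩
  have h1 := (hd.comp t (hasDerivAt_neg t)).neg
  have e : -(κ * -1) = κ := by ring
  rw [e] at h1
  exact h1

/-- Fixed points are uniformly separated. -/
theorem gap {L : ℝ → ℝ → ℝ} {ε : ℝ} (hε : 0 < ε) (h : Fam L) (hyp : HypFix L ε) {t t' : ℝ}
    (htt : t < t') (ht : L 0 t = t) (ht' : L 0 t' = t') : ε ≤ t' - t := by
  by_cases hc : ∃ x ∈ Icc t t', L 0 x < x
  · obtain ⟨x, hx, hLx⟩ := hc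
    exact gap1 h hyp htt ht ht' hx hLx
  push Not at hc
  obtain ⟨κ, hκ, hd⟩ := hyp 0 (by rwa [abs_zero]) t ht
  have hd' : HasDerivAt (fun x => L 0 x - x) (κ - 1) t := hd.sub (hasDerivAt_id t)
  have hev : ∀ᶠ x in 𝓝[≠] t, L 0 x - x ≠ 0 := hd'.eventually_ne (sub_ne_zero.2 hκ)
  have hev' : ∀ᶠ x in 𝓝[>] t, L 0 x - x ≠ 0 :=
    hev.filter_mono (nhdsWithin_mono _ fun x (hx : t < x) => ne_of_gt hx)
  have hev2 : ∀ᶠ x in 𝓝[>] t, x ∈ Ioo t t' := Ioo_mem_nhdsGT htt
  obtain ⟨x, hx1, hx2⟩ := (hev'.and hev2).exists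
  have h3 : x < L 0 x := by
    have := hc x ⟨hx2.1.le, hx2.2.le⟩
    refine lt_of_le_of_ne this fun he => hx1 ?_
    rw [← he, sub_self]
  have h4 := gap1 h.reflect hyp.reflect (t := -t') (t' := -t) (x := -x) (by linarith)
    (by simp [ht']) (by simp [ht]) ⟨by linarith [hx2.2], by linarith [hx2.1]⟩
    (by simp only [neg_zero, neg_neg]; linarith)
  linarith

/-! ### Rational rotation numbers -/

theorem iter_cont {L : ℝ → ℝ → ℝ} (h : Fam L) (Q : ℕ) :
    Continuous fun q : ℝ × ℝ => (L q.1)^[Q] q.2 := by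
  induction Q with
  | zero => exact continuous_snd
  | succ Q ih =>
    have e : (fun q : ℝ × ℝ => (L q.1)^[Q + 1] q.2) = fun q : ℝ × ℝ => L q.1 ((L q.1)^[Q] q.2) := by
      funext q
      rw [Function.iterate_succ_apply']
    rw [e]
    exact h.cont.comp (continuous_fst.prodMk ih)

/-- the family of the iterates -/
theorem Fam.iterate {L : ℝ → ℝ → ℝ} (h : Fam L) {Q : ℕ} (hQ : 1 ≤ Q) (c : ℝ) :
    Fam fun s t => (L s)^[Q] t + c where
  cont := (iter_cont h Q).add continuous_const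
  mono := fun s t t' htt => by
    have := (h.mono s).iterate Q htt
    show (L s)^[Q] t + c ≤ (L s)^[Q] t' + c
    linarith
  push := fun s' s t hs => by
    have key : ∀ k : ℕ, (L s')^[k] t ≤ (L s)^[k] t := by
      intro k
      induction k with
      | zero => exact le_rfl
      | succ k ih =>
        rw [Function.iterate_succ_apply', Function.iterate_succ_apply']
        have h1 := h.mono s' ih
        have h2 := h.push s' s ((L s)^[k] t) hs
        linarith
    obtain ⟨k, rfl⟩ : ∃ k, Q = k + 1 := ⟨Q - 1, by omega⟩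
    rw [Function.iterate_succ_apply', Function.iterate_succ_apply']
    have h1 := h.mono s' (key k)
    have h2 := h.push s' s ((L s)^[k] t) hs
    linarith

/-- If all periodic points (modulo one) of the maps with small parameters are hyperbolic, then there
are some. -/
theorem exists_periodic {L : ℝ → ℝ → ℝ} {ε : ℝ} (hε : 0 < ε) (h : Fam L)
    (hdeg : ∀ s t, L s (t + 1) = L s t + 1)
    (hyp : ∀ s, |s| < ε → ∀ Q : ℕ, 1 ≤ Q → ∀ (P : ℤ) (t : ℝ), (L s)^[Q] t = t + P →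
      ∃ κ : ℝ, κ ≠ 1 ∧ HasDerivAt (L s)^[Q] κ t) :
    ∃ (Q : ℕ) (P : ℤ) (t : ℝ), 1 ≤ Q ∧ (L 0)^[Q] t = t + P := by
  obtain ⟨g, hg⟩ : ∃ g : ℝ → CircleDeg1Lift, ∀ s t, g s t = L s t :=
    ⟨fun s => ⟨⟨L s, h.mono s⟩, hdeg s⟩, fun _ _ => rfl⟩
  have hgi : ∀ s (Q : ℕ) t, (g s ^ Q) t = (L s)^[Q] t := by
    intro s Q t
    rw [CircleDeg1Lift.coe_pow]
    have : (g s : ℝ → ℝ) = L s := funext (hg s)
    rw [this]
  have hgc : ∀ s, Continuous (g s) := by
    intro s
    have : (g s : ℝ → ℝ) = L s := funext (hg s)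
    rw [this]
    exact h.contT s
  by_contra hno
  push Not at hno
  have hirr : Irrational (translationNumber (g 0)) := by
    rintro ⟨q, hq⟩
    obtain ⟨x, hx⟩ := exists_eq_add_translationNumber (g 0 ^ q.den)
      (continuous_pow _ (hgc 0) _)
    rw [translationNumber_pow, ← hq] at hx
    have e : (q.den : ℝ) * (q : ℝ) = (q.num : ℝ) := by
      have h3 : (q.den : ℚ) * q = q.num := Rat.den_mul_eq_num q
      exact_mod_cast h3
    rw [e, hgi] at hx
    exact hno q.den q.num x q.den_pos hx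
  set s₁ := ε / 2 with hs₁
  have hs₁0 : 0 < s₁ := half_pos hε
  have hs₁ε : s₁ < ε := by rw [hs₁]; linarith
  have hlt : translationNumber (g 0) < translationNumber (g s₁) := by
    refine (Pool.Agent.N102.UF.lt_of_irrational (hgc 0) hirr hs₁0).trans_le ?_
    refine translationNumber_mono (fun t => ?_)
    rw [Pool.Agent.N102.UF.rot_apply, hg, hg]
    have := h.push 0 s₁ t hs₁0.le
    linarith
  obtain ⟨q, hq1, hq2⟩ := exists_rat_btwn hlt
  set Q := q.den with hQ
  set P := q.num with hP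
  have hQ1 : 1 ≤ Q := q.den_pos
  have hQ0 : (0 : ℝ) < Q := by exact_mod_cast hQ1
  have e : (Q : ℝ) * (q : ℝ) = (P : ℝ) := by
    have h3 : (q.den : ℚ) * q = q.num := Rat.den_mul_eq_num q
    exact_mod_cast h3
  have hA0 : ∀ t, (L 0)^[Q] t < t + P := by
    intro t
    by_contra hcon
    push Not at hcon
    rw [← hgi] at hcon
    have h3 := le_translationNumber_of_add_int_le _ hcon
    rw [translationNumber_pow, ← e] at h3
    have := le_of_mul_le_mul_left h3 hQ0
    linarith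
  have hA1 : ∃ t, t + P ≤ (L s₁)^[Q] t := by
    by_contra hcon
    push Not at hcon
    have h3 : translationNumber (g s₁ ^ Q) ≤ P :=
      translationNumber_le_of_le_add_int (x := 0) _ (by rw [hgi]; exact (hcon 0).le)
    rw [translationNumber_pow, ← e] at h3
    have := le_of_mul_le_mul_left h3 hQ0
    linarith
  have hshift : ∀ s t, ∃ u ∈ Icc (0 : ℝ) 1, (L s)^[Q] u - u = (L s)^[Q] t - t := by
    intro s t
    refine ⟨Int.fract t, ⟨Int.fract_nonneg t, (Int.fract_lt_one t).le⟩, ?_⟩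
    have h3 : t = Int.fract t + ((⌊t⌋ : ℤ) : ℝ) := (Int.fract_add_floor t).symm
    rw [← hgi, ← hgi]
    conv_rhs => rw [h3, map_add_int]
    ring
  set A : Set (ℝ × ℝ) := (Icc 0 s₁ ×ˢ Icc 0 1) ∩ {q | q.2 + P ≤ (L q.1)^[Q] q.2} with hA
  have hAc : IsCompact A := (isCompact_Icc.prod isCompact_Icc).inter_right
    (isClosed_le (continuous_snd.add continuous_const) (iter_cont h Q))
  have hSc : IsCompact (Prod.fst '' A) := hAc.image continuous_fst
  have hin : ∀ s ∈ Icc 0 s₁, ∀ t, t + P ≤ (L s)^[Q] t → s ∈ Prod.fst '' A := by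
    intro s hs t ht
    obtain ⟨u, hu, hu'⟩ := hshift s t
    exact ⟨(s, u), ⟨⟨hs, hu⟩, by show u + P ≤ (L s)^[Q] u; linarith⟩, rfl⟩
  have hSne : (Prod.fst '' A).Nonempty := by
    obtain ⟨t, ht⟩ := hA1
    exact ⟨s₁, hin s₁ ⟨hs₁0.le, le_rfl⟩ t ht⟩
  obtain ⟨s, ⟨⟨s', y⟩, hsy, rfl⟩, hmin⟩ := hSc.exists_isLeast hSne
  obtain ⟨⟨hs, hy⟩, hLy⟩ := hsy
  simp only [mem_ofPred_eq] at hs hy hLy
  have hs0 : 0 < s' := by
    refine lt_of_le_of_ne hs.1 fun he => ?_
    rw [← he] at hLy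
    exact absurd (hA0 y) (not_lt.2 hLy)
  have hle : ∀ t, (L s')^[Q] t ≤ t + P := by
    intro t
    by_contra hcon
    push Not at hcon
    have hc : ContinuousAt (fun s => (L s)^[Q] t) s' :=
      ((iter_cont h Q).comp (continuous_id.prodMk continuous_const)).continuousAt
    have hev : ∀ᶠ s in 𝓝 s', t + P < (L s)^[Q] t := continuousAt_const.eventually_lt hc hcon
    obtain ⟨δ, hδ, hδ'⟩ := Metric.eventually_nhds_iff.1 hev
    have h3 : max (s' - δ / 2) 0 < s' := max_lt (by linarith) hs0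
    have h4 : t + P < (L (max (s' - δ / 2) 0))^[Q] t := hδ' (by
      rw [Real.dist_eq, abs_of_neg (sub_neg.2 h3)]
      have := le_max_left (s' - δ / 2) 0
      linarith)
    have := hmin (hin _ ⟨le_max_right _ _, h3.le.trans hs.2⟩ t h4.le)
    linarith
  have hLeq : (L s')^[Q] y = y + P := le_antisymm (hle y) hLy
  obtain ⟨κ, hκ, hd⟩ := hyp s' (by rw [abs_of_pos hs0]; linarith [hs.2]) Q hQ1 P y hLeq
  have hmax : IsLocalMax (fun u => (L s')^[Q] u - u) y := by
    refine Filter.Eventually.of_forall fun u => ?_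
    show (L s')^[Q] u - u ≤ (L s')^[Q] y - y
    have := hle u
    rw [hLeq]
    linarith
  have h5 := hmax.hasDerivAt_eq_zero (hd.sub (hasDerivAt_id y))
  exact hκ (by linarith)

/-- A separated set which is invariant under the translation by `T` has at most `T / ε` points in a
period. -/
theorem count {Z : Set ℝ} {T ε : ℝ} (hε : 0 < ε) (hT : 0 < T) (hZ : ∀ t ∈ Z, t + T ∈ Z)
    (hsep : ∀ t ∈ Z, ∀ t' ∈ Z, t < t' → ε ≤ t' - t) {a : ℝ} (ha : a ∈ Z) :
    (Z ∩ Ico a (a + T)).Finite ∧ ((Z ∩ Ico a (a + T)).ncard : ℝ) ≤ T / ε := by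
  have hTε : ∀ t ∈ Z ∩ Ico a (a + T), ⌊(t - a) / ε⌋₊ ∈ (Finset.range ⌊T / ε⌋₊ : Set ℕ) := by
    rintro t ⟨ht, h1, h2⟩
    have h3 := hsep t ht (a + T) (hZ a ha) h2
    have h4 : 0 ≤ (t - a) / ε := div_nonneg (by linarith) hε.le
    have h5 : (t - a) / ε + 1 ≤ T / ε := by
      rw [div_add_one hε.ne', div_le_div_iff_of_pos_right hε]
      linarith
    rw [Finset.coe_range, mem_Iio, Nat.lt_iff_add_one_le, Nat.le_floor_iff (by positivity)]
    have h6 := Nat.floor_le h4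
    push_cast
    linarith
  have hinj : InjOn (fun t : ℝ => ⌊(t - a) / ε⌋₊) (Z ∩ Ico a (a + T)) := by
    have key : ∀ t ∈ Z ∩ Ico a (a + T), ∀ t' ∈ Z ∩ Ico a (a + T),
        ⌊(t - a) / ε⌋₊ = ⌊(t' - a) / ε⌋₊ → ¬ t < t' := by
      rintro t ⟨ht, h1, h2⟩ t' ⟨ht', h1', h2'⟩ he hlt
      have h3 := hsep t ht t' ht' hlt
      have h4 : 0 ≤ (t - a) / ε := div_nonneg (by linarith) hε.le
      have h4' : 0 ≤ (t' - a) / ε := div_nonneg (by linarith) hε.le
      have h5 := Nat.floor_le h4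
      have h6 := Nat.lt_floor_add_one ((t' - a) / ε)
      rw [he] at h5
      have h7 : (t' - a) / ε - (t - a) / ε < 1 := by linarith
      rw [← sub_div, div_lt_one hε] at h7
      linarith
    intro t ht t' ht' he
    exact le_antisymm (not_lt.1 (key t' ht' t ht he.symm)) (not_lt.1 (key t ht t' ht' he))
  have hfin : (Z ∩ Ico a (a + T)).Finite :=
    Set.Finite.of_injOn (f := fun t : ℝ => ⌊(t - a) / ε⌋₊) hTε hinj (Finset.finite_toSet _)
  refine ⟨hfin, ?_⟩
  have h1 : (Z ∩ Ico a (a + T)).ncard ≤ (Finset.range ⌊T / ε⌋₊ : Set ℕ).ncard :=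
    Set.ncard_le_ncard_of_injOn _ hTε hinj (Finset.finite_toSet _)
  rw [Set.ncard_coe_finset, Finset.card_range] at h1
  have h2 : ((Z ∩ Ico a (a + T)).ncard : ℝ) ≤ (⌊T / ε⌋₊ : ℝ) := by exact_mod_cast h1
  exact h2.trans (Nat.floor_le (by positivity))

end Pool.Agent.J4.H98.Orb
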