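import Pool.Agent.N102.UF.Hyp

/-!
# Hyperbolic periodic points on orbits of flows
-/

set_option autoImplicit false
set_option linter.unusedSectionVars false

open scoped Manifold ContDiff Topology
open Filter Set Asymptotics

universe u

namespace Pool.Agent.J4.H98.Orb

open Pool.Agent.H718R2.G Pool.Agent.TH80.OMS Pool.Agent.Y504.CO
open Pool.Agent.TH290.CL (IsFlow)

theorem hasDerivAt_of_comp {h l k : ℝ → ℝ} {κ : ℝ} (hh : HasDerivAt h 1 0) (hh0 : h 0 = 0)
    (hl : ContinuousAt l 0) (hl0 : l 0 = 0) (hk : HasDerivAt k κ 0) (hk0 : k 0 = 0)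
    (he : ∀ᶠ u in 𝓝 (0 : ℝ), h (l u) = k u) : HasDerivAt l κ 0 := by
  have h1 : (fun x => h x - x) =o[𝓝 0] fun x => x := by
    have := hasDerivAt_iff_isLittleO.1 hh
    refine (this.congr (fun x => ?_) (fun x => ?_))
    · rw [hh0]; simp
    · simp
  have ht : Tendsto l (𝓝 0) (𝓝 0) := by
    have := hl.tendsto
    rwa [hl0] at this
  have h2 : (fun u => h (l u) - l u) =o[𝓝 0] l := h1.comp_tendsto ht
  have h3 : (fun u => l u - h (l u)) =o[𝓝 0] l := by
    refine h2.neg_left.congr_left fun u => ?_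
    ring
  have h4 : l =O[𝓝 0] fun u => l u - (l u - h (l u)) := h3.right_isBigO_sub
  have h5 : (fun u => l u - (l u - h (l u))) =ᶠ[𝓝 0] k := by
    filter_upwards [he] with u hu
    rw [← hu]
    ring
  have h6 : k =O[𝓝 0] fun u => u := by
    have := hk.isBigO_sub
    refine this.congr (fun x => ?_) (fun x => ?_)
    · rw [hk0, sub_zero]
    · rw [sub_zero]
  have h7 : l =O[𝓝 0] fun u => u := (h4.congr' EventuallyEq.rfl h5).trans h6
  have h8 : (fun u => k u - κ * u) =o[𝓝 0] fun u => u := by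
    have := hasDerivAt_iff_isLittleO.1 hk
    refine (this.congr (fun x => ?_) (fun x => ?_))
    · rw [hk0]; simp [mul_comm]
    · simp
  rw [hasDerivAt_iff_isLittleO]
  have h9 : (fun u => (l u - h (l u)) + (k u - κ * u)) =o[𝓝 0] fun u => u :=
    (h3.trans_isBigO h7).add h8
  refine h9.congr' ?_ ?_
  · filter_upwards [he] with u hu
    rw [hu, hl0]
    simp only [sub_zero, smul_eq_mul]
    ring
  · exact Eventually.of_forall fun u => (sub_zero u).symm

variable {n : ℕ} {N : Type u} [TopologicalSpace N] [ChartedSpace (V n) N] [IsManifold (𝓡 n) ∞ N]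

theorem flow_cont {ψ : ℝ → N → N} (hψ : IsFlow n N ψ) (p : N) : Continuous fun t => ψ t p :=
  hψ.smooth.continuous.comp (continuous_id.prodMk continuous_const)

theorem flow_line {ψ : ℝ → N → N} (hψ : IsFlow n N ψ) (p q : N) {t : ℝ}
    (hq : ψ t p ∈ (chartAt (V n) q).source) :
    DifferentiableAt ℝ (fun t => chartAt (V n) q (ψ t p)) t := by
  have hγN : ContMDiff 𝓘(ℝ, ℝ) (𝓡 n) ∞ (fun t => ψ t p) := by
    have h1 : ContMDiff 𝓘(ℝ, ℝ) (𝓘(ℝ, ℝ).prod (𝓡 n)) ∞ (fun t : ℝ => (t, p)) :=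
      contMDiff_id.prodMk contMDiff_const
    exact ContMDiff.comp (g := fun q : ℝ × N => ψ q.1 q.2) (f := fun t : ℝ => (t, p))
      hψ.smooth h1
  have h1 : ContMDiffAt (𝓡 n) (𝓡 n) ∞ (chartAt (V n) q) (ψ t p) :=
    contMDiffAt_of_mem_maximalAtlas (IsManifold.chart_mem_maximalAtlas q) hq
  have h2 : ContMDiffAt 𝓘(ℝ, ℝ) (𝓡 n) ∞ (fun t => chartAt (V n) q (ψ t p)) t :=
    ContMDiffAt.comp (g := chartAt (V n) q) (f := fun t => ψ t p) t h1 hγN.contMDiffAt
  have h3 : ContDiffAt ℝ ∞ (fun t => chartAt (V n) q (ψ t p)) t := contMDiffAt_iff_contDiffAt.1 h2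
  exact h3.differentiableAt (by norm_num)

/-- A point at which the flow has velocity zero is fixed. -/
theorem fixed_of_velocity [T2Space N] {ψ : ℝ → N → N} (hψ : IsFlow n N ψ) (p : N)
    (h0 : HasDerivAt (fun t => chartAt (V n) p (ψ t p)) 0 0) : ∀ t, ψ t p = p := by
  obtain ⟨φ, hφd⟩ : ∃ φ : OpenPartialHomeomorph N (V n), φ = chartAt (V n) p := ⟨_, rfl⟩
  have hc := flow_cont hψ p
  have hps : p ∈ φ.source := by rw [hφd]; exact mem_chart_source _ _
  have hψ0 : ψ 0 p = p := hψ.zero p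
  -- the velocity is zero everywhere
  have hv : ∀ t, ψ t p ∈ φ.source → HasDerivAt (fun t => φ (ψ t p)) 0 t := by
    intro t ht
    have hφ : φ ∈ IsManifold.maximalAtlas (𝓡 n) ∞ N := by
      rw [hφd]; exact IsManifold.chart_mem_maximalAtlas p
    have hsymm : ContMDiffAt (𝓡 n) (𝓡 n) ∞ φ.symm (φ p) :=
      contMDiffAt_symm_of_mem_maximalAtlas hφ (φ.map_source hps)
    have hsl : ContMDiff (𝓡 n) (𝓡 n) ∞ (ψ t) := by
      have h1 : ContMDiff (𝓡 n) (𝓘(ℝ, ℝ).prod (𝓡 n)) ∞ (fun y : N => (t, y)) :=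
        contMDiff_const.prodMk contMDiff_id
      exact ContMDiff.comp (g := fun q : ℝ × N => ψ q.1 q.2) (f := fun y : N => (t, y))
        hψ.smooth h1
    have h1 : ContMDiffAt (𝓡 n) (𝓡 n) ∞ φ (ψ t (φ.symm (φ p))) := by
      rw [φ.left_inv hps]
      exact contMDiffAt_of_mem_maximalAtlas hφ ht
    have h2 : ContMDiffAt (𝓡 n) (𝓡 n) ∞ (fun v => φ (ψ t (φ.symm v))) (φ p) := by
      have h3 : ContMDiffAt (𝓡 n) (𝓡 n) ∞ (fun v => ψ t (φ.symm v)) (φ p) :=
        ContMDiffAt.comp (g := ψ t) (f := φ.symm) _ hsl.contMDiffAt hsymm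
      exact ContMDiffAt.comp (g := φ) (f := fun v => ψ t (φ.symm v)) _ h1 h3
    have h3 : DifferentiableAt ℝ (fun v => φ (ψ t (φ.symm v))) (φ (ψ 0 p)) := by
      rw [hψ0]
      exact (contMDiffAt_iff_contDiffAt.1 h2).differentiableAt (by norm_num)
    rw [← hφd] at h0
    have h4 : HasDerivAt (fun s => φ (ψ t (φ.symm (φ (ψ s p)))))
        (fderiv ℝ (fun v => φ (ψ t (φ.symm v))) (φ (ψ 0 p)) 0) 0 :=
      HasFDerivAt.comp_hasDerivAt (x := (0 : ℝ)) (l := fun v => φ (ψ t (φ.symm v)))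
        (f := fun s => φ (ψ s p)) h3.hasFDerivAt h0
    rw [map_zero] at h4
    have h5 : HasDerivAt (fun s => φ (ψ (t + s) p)) 0 0 := by
      refine h4.congr_of_eventuallyEq ?_
      have hev : ∀ᶠ s in 𝓝 (0 : ℝ), ψ s p ∈ φ.source :=
        hc.continuousAt (φ.open_source.mem_nhds (by rw [hψ0]; exact hps))
      filter_upwards [hev] with s hs
      rw [φ.left_inv hs, hψ.add]
    have h6 : HasDerivAt (fun s : ℝ => s - t) 1 t := (hasDerivAt_id t).sub_const t
    have h7 : HasDerivAt (fun s => φ (ψ (t + s) p)) 0 (t - t) := by rw [sub_self]; exact h5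
    have h8 := HasDerivAt.scomp (h := fun s : ℝ => s - t) (g₁ := fun s => φ (ψ (t + s) p)) t h7 h6
    rw [smul_zero] at h8
    refine h8.congr_of_eventuallyEq (Eventually.of_forall fun s => ?_)
    show φ (ψ s p) = φ (ψ (t + (s - t)) p)
    rw [add_sub_cancel]
  have hclosed : IsClosed {t | ψ t p = p} := isClosed_eq hc continuous_const
  have hopen : IsOpen {t | ψ t p = p} := by
    rw [Metric.isOpen_iff]
    intro t ht
    have ht' : ψ t p = p := ht
    have hev : ∀ᶠ s in 𝓝 t, ψ s p ∈ φ.source :=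
      hc.continuousAt (φ.open_source.mem_nhds (by rw [ht']; exact hps))
    obtain ⟨δ, hδ, hδ'⟩ := Metric.eventually_nhds_iff.1 hev
    refine ⟨δ, hδ, fun s hs => ?_⟩
    have hball : ∀ x ∈ Metric.ball t δ, HasDerivWithinAt (fun t => φ (ψ t p)) 0
        (Metric.ball t δ) x := fun x hx => (hv x (hδ' hx)).hasDerivWithinAt
    have h1 := (convex_ball t δ).norm_image_sub_le_of_norm_hasDerivWithin_le (C := 0) hball
      (fun x _ => by simp) (Metric.mem_ball_self hδ) hs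
    rw [zero_mul] at h1
    have h2 : φ (ψ s p) = φ (ψ t p) := sub_eq_zero.1 (norm_le_zero_iff.1 h1)
    rw [ht'] at h2
    exact φ.injOn (hδ' hs) hps h2
  have huniv := IsClopen.eq_univ ⟨hclosed, hopen⟩ ⟨0, hψ0⟩
  intro t
  have : t ∈ {t | ψ t p = p} := by rw [huniv]; exact mem_univ _
  exact this

/-- The return map along the orbit of the flow through a hyperbolic periodic point is differentiable
and its derivative is not one. -/
theorem hyper_flow [T2Space N] {ψ : ℝ → N → N} (hψ : IsFlow n N ψ) {G : N → N}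
    {p : N} {m : ℕ} (hm : 1 ≤ m) (hp : G^[m] p = p) (hyp : IsHyperbolicPer n G p)
    (hnf : ∃ t, ψ t p ≠ p) {l : ℝ → ℝ} (hl : ContinuousAt l 0) (hl0 : l 0 = 0)
    (heq : ∀ u, G^[m] (ψ u p) = ψ (l u) p) : ∃ κ : ℝ, κ ≠ 1 ∧ HasDerivAt l κ 0 := by
  obtain ⟨φ, hφd⟩ : ∃ φ : OpenPartialHomeomorph N (V n), φ = chartAt (V n) p := ⟨_, rfl⟩
  have hc := flow_cont hψ p
  have hps : p ∈ φ.source := by rw [hφd]; exact mem_chart_source _ _
  have hψ0 : ψ 0 p = p := hψ.zero p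
  have hφ : φ ∈ IsManifold.maximalAtlas (𝓡 n) ∞ N := by
    rw [hφd]; exact IsManifold.chart_mem_maximalAtlas p
  obtain ⟨D, hD, hroot⟩ := hyp.2 m hm hp φ hφ hps
  obtain ⟨γ, hγd⟩ : ∃ γ : ℝ → V n, γ = fun t => φ (ψ t p) := ⟨_, rfl⟩
  have hγ0 : γ 0 = φ p := by rw [hγd]; show φ (ψ 0 p) = φ p; rw [hψ0]
  have hγ : HasDerivAt γ (deriv γ 0) 0 := by
    rw [hasDerivAt_deriv_iff, hγd, hφd]
    refine flow_line hψ p p ?_
    rw [hψ0, ← hφd]
    exact hps
  obtain ⟨w, hw⟩ : ∃ w, w = deriv γ 0 := ⟨_, rfl⟩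
  rw [← hw] at hγ
  have hw0 : w ≠ 0 := by
    intro h
    obtain ⟨t, ht⟩ := hnf
    apply ht
    refine fixed_of_velocity hψ p ?_ t
    rw [h, hγd, hφd] at hγ
    exact hγ
  have hwn : ‖w‖ ^ 2 ≠ 0 := pow_ne_zero _ (norm_ne_zero_iff.2 hw0)
  obtain ⟨lam, hlam⟩ : ∃ lam : V n →L[ℝ] ℝ, lam w = 1 := by
    refine ⟨(‖w‖ ^ 2)⁻¹ • innerSL ℝ w, ?_⟩
    rw [smul_apply, innerSL_apply_apply, real_inner_self_eq_norm_sq,
      smul_eq_mul, inv_mul_cancel₀ hwn]
  obtain ⟨T, hTd⟩ : ∃ T : V n → V n, T = fun v => φ (G^[m] (φ.symm v)) := ⟨_, rfl⟩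
  rw [← hTd] at hD
  have hTγ : ∀ᶠ u in 𝓝 (0 : ℝ), T (γ u) = γ (l u) := by
    have hev : ∀ᶠ s in 𝓝 (0 : ℝ), ψ s p ∈ φ.source :=
      hc.continuousAt (φ.open_source.mem_nhds (by rw [hψ0]; exact hps))
    filter_upwards [hev] with u hu
    rw [hTd, hγd]
    show φ (G^[m] (φ.symm (φ (ψ u p)))) = φ (ψ (l u) p)
    rw [φ.left_inv hu, heq]
  have hT0 : T (φ p) = φ p := by
    rw [hTd]
    show φ (G^[m] (φ.symm (φ p))) = φ p
    rw [φ.left_inv hps, hp]
  have hTγd : HasDerivAt (fun u => T (γ u)) (D w) 0 := by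
    rw [← hγ0] at hD
    exact HasFDerivAt.comp_hasDerivAt (x := (0 : ℝ)) (l := T) (f := γ) hD hγ
  have hh : HasDerivAt (fun t => lam (γ t - γ 0)) 1 0 := by
    have h1 := lam.hasFDerivAt.comp_hasDerivAt (0 : ℝ) (hγ.sub_const (γ 0))
    rw [hlam] at h1
    exact h1
  have hk : HasDerivAt (fun t => lam (T (γ t) - γ 0)) (lam (D w)) 0 :=
    lam.hasFDerivAt.comp_hasDerivAt (0 : ℝ) (hTγd.sub_const (γ 0))
  have hld : HasDerivAt l (lam (D w)) 0 := by
    refine hasDerivAt_of_comp hh (by simp) hl hl0 hk ?_ ?_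
    · show lam (T (γ 0) - γ 0) = 0
      rw [hγ0, hT0, sub_self, map_zero]
    · filter_upwards [hTγ] with u hu
      show lam (γ (l u) - γ 0) = lam (T (γ u) - γ 0)
      rw [hu]
  refine ⟨lam (D w), ?_, hld⟩
  have hDw : D w = (lam (D w)) • w := by
    have h1 : HasDerivAt (fun u => γ (l u)) ((lam (D w)) • w) 0 := by
      have h2 : HasDerivAt γ w (l 0) := by rw [hl0]; exact hγ
      exact HasDerivAt.scomp (0 : ℝ) h2 hld
    have h2 : HasDerivAt (fun u => T (γ u)) ((lam (D w)) • w) 0 :=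
      h1.congr_of_eventuallyEq hTγ
    exact hTγd.unique h2
  intro hκ
  rw [hκ, one_smul] at hDw
  have h1 : Module.End.HasEigenvalue (D : V n →ₗ[ℝ] V n) (1 : ℝ) := by
    refine Module.End.hasEigenvalue_of_hasEigenvector (x := w) ⟨?_, hw0⟩
    rw [Module.End.mem_eigenspace_iff, one_smul]
    exact hDw
  have h2 := (Module.End.hasEigenvalue_iff_isRoot_charpoly (D : Module.End ℝ (V n)) 1).1 h1
  have h3 := hroot (algebraMap ℝ ℂ 1) h2.map
  simp at h3

end Pool.Agent.J4.H98.Orb
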