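import Pool.Agent.TH290.CL.Flow
import Pool.Agent.TH80.OMS.CycDefs

/-!
# Maps which preserve the orbits of a flow: definitions
-/

set_option autoImplicit false

universe u

namespace Pool.Agent.J4.H98.Orb

/-- `F` maps the orbits of the flow `ψ` to orbits and preserves their direction: while `z` moves for
the time `t` along its orbit, `F z` moves for the time `θ z t`. -/
structure OrbitMap {N : Type u} (F : N → N) (ψ : ℝ → N → N) (θ : N → ℝ → ℝ) : Prop where
  cont : ∀ z, Continuous (θ z)
  mono : ∀ z, StrictMono (θ z)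
  zero : ∀ z, θ z 0 = 0
  eq : ∀ z t, F (ψ t z) = ψ (θ z t) (F z)

/-- The same for the iterates: `F^m (ψ_t z) = ψ_(iterTime F θ m z t) (F^m z)`. -/
def iterTime {N : Type u} (F : N → N) (θ : N → ℝ → ℝ) : ℕ → N → ℝ → ℝ
  | 0, _, t => t
  | m + 1, z, t => θ (F^[m] z) (iterTime F θ m z t)

/-- The orbit of `z` is closed, with the least period `T > 0`. -/
def ClosedOrbit {N : Type u} (ψ : ℝ → N → N) (T : ℝ) (z : N) : Prop :=
  0 < T ∧ ∀ t, ψ t z = z ↔ ∃ k : ℤ, t = k * T

end Pool.Agent.J4.H98.Orb
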