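import Pool.Agent.J4.H98.OrbA
import Pool.Agent.J4.H98.OrbB
import Pool.Agent.J4.H98.OrbDefs

/-!
# Maps which preserve the orbits of a flow: return maps
-/

set_option autoImplicit false
set_option linter.unusedSectionVars false

open scoped Manifold ContDiff Topology
open Filter Set

universe u

namespace Pool.Agent.J4.H98.Orb

open Pool.Agent.H718R2.G Pool.Agent.TH80.OMS Pool.Agent.Y504.CO
open Pool.Agent.TH290.CL (IsFlow)

section lifts

variable {N : Type u} (G : N → N) (θ : N → ℝ → ℝ)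

/-- times along the orbits for the maps `ψ_s ∘ G` -/
def LT (s : ℝ) : ℕ → N → ℝ → ℝ
  | 0, _, t => t
  | m + 1, z, t => s + θ (G^[m] z) (LT s m z t)

theorem LT_zero_eq (m : ℕ) (z : N) (t : ℝ) : LT G θ 0 m z t = iterTime G θ m z t := by
  induction m with
  | zero => rfl
  | succ m ih =>
    show 0 + θ (G^[m] z) (LT G θ 0 m z t) = θ (G^[m] z) (iterTime G θ m z t)
    rw [ih, zero_add]

variable {G θ} {ψ : ℝ → N → N}

theorem LT_apply (hψ : ∀ s t y, ψ (s + t) y = ψ s (ψ t y)) (h : OrbitMap G ψ θ) (s : ℝ) (m : ℕ)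
    (z : N) (t : ℝ) : (fun y => ψ s (G y))^[m] (ψ t z) = ψ (LT G θ s m z t) (G^[m] z) := by
  induction m with
  | zero => rfl
  | succ m ih =>
    rw [Function.iterate_succ_apply', ih]
    show ψ s (G (ψ (LT G θ s m z t) (G^[m] z))) = _
    rw [h.eq, ← hψ, Function.iterate_succ_apply']
    rfl

theorem LT_mono (h : OrbitMap G ψ θ) (s : ℝ) (m : ℕ) (z : N) : StrictMono (LT G θ s m z) := by
  induction m with
  | zero => exact fun _ _ h => h
  | succ m ih =>
    intro t t' htt
    show s + θ (G^[m] z) (LT G θ s m z t) < s + θ (G^[m] z) (LT G θ s m z t')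
    have := h.mono (G^[m] z) (ih htt)
    linarith

theorem LT_cont (h : OrbitMap G ψ θ) (m : ℕ) (z : N) :
    Continuous fun q : ℝ × ℝ => LT G θ q.1 m z q.2 := by
  induction m with
  | zero => exact continuous_snd
  | succ m ih => exact continuous_fst.add ((h.cont (G^[m] z)).comp ih)

theorem LT_fam (h : OrbitMap G ψ θ) {m : ℕ} (hm : 1 ≤ m) (z : N) (c : ℝ) :
    Fam fun s t => LT G θ s m z t + c where
  cont := (LT_cont h m z).add continuous_const
  mono := fun s t t' htt => by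
    have := (LT_mono h s m z).monotone htt
    show LT G θ s m z t + c ≤ LT G θ s m z t' + c
    linarith
  push := fun s' s t hs => by
    have key : ∀ k : ℕ, LT G θ s' k z t ≤ LT G θ s k z t := by
      intro k
      induction k with
      | zero => exact le_rfl
      | succ k ih =>
        show s' + θ (G^[k] z) (LT G θ s' k z t) ≤ s + θ (G^[k] z) (LT G θ s k z t)
        have := (h.mono (G^[k] z)).monotone ih
        linarith
    obtain ⟨k, rfl⟩ : ∃ k, m = k + 1 := ⟨m - 1, by omega⟩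
    have := (h.mono (G^[k] z)).monotone (key k)
    show s' + θ (G^[k] z) (LT G θ s' k z t) + c + (s - s') ≤
      s + θ (G^[k] z) (LT G θ s k z t) + c
    linarith

/-- the return map to the orbit of `z`, `G^m z = ψ_c z` -/
theorem ret (hψ : ∀ s t y, ψ (s + t) y = ψ s (ψ t y)) (h : OrbitMap G ψ θ) {m : ℕ} {z : N}
    {c : ℝ} (hz : G^[m] z = ψ c z) (s t : ℝ) :
    (fun y => ψ s (G y))^[m] (ψ t z) = ψ (LT G θ s m z t + c) z := by
  rw [LT_apply hψ h, hz, ← hψ]

theorem ret_iter (hψ : ∀ s t y, ψ (s + t) y = ψ s (ψ t y)) (h : OrbitMap G ψ θ) {m : ℕ} {z : N}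
    {c : ℝ} (hz : G^[m] z = ψ c z) (s t : ℝ) (Q : ℕ) :
    (fun y => ψ s (G y))^[m * Q] (ψ t z) = ψ ((fun t => LT G θ s m z t + c)^[Q] t) z := by
  induction Q with
  | zero => rfl
  | succ Q ih =>
    rw [Nat.mul_succ, Nat.add_comm (m * Q) m, Function.iterate_add_apply, ih, ret hψ h hz,
      Function.iterate_succ_apply']

/-- the return map to a closed orbit has degree one -/
theorem ret_deg (hψ : ∀ s t y, ψ (s + t) y = ψ s (ψ t y)) (h0 : ∀ y, ψ 0 y = y)
    (h : OrbitMap G ψ θ) (hG : Function.Injective G) {m : ℕ} {z : N} {c : ℝ}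
    (hz : G^[m] z = ψ c z) {T : ℝ} (hT : ClosedOrbit ψ T z) (s t : ℝ) :
    LT G θ s m z (t + T) + c = LT G θ s m z t + c + T := by
  have hinj : Function.Injective (fun y => ψ s (G y))^[m] := by
    refine Function.Injective.iterate (fun y y' hy => ?_) m
    apply hG
    have h1 : ψ s (G y) = ψ s (G y') := hy
    have h2 := congrArg (ψ (-s)) h1
    rwa [← hψ, ← hψ, neg_add_cancel, h0, h0] at h2
  have hR := fun t => ret hψ h hz s t
  have hper : ∀ a b : ℝ, ψ a z = ψ b z → ∃ k : ℤ, a - b = k * T := by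
    intro a b hab
    have h1 := congrArg (ψ (-b)) hab
    rw [← hψ, ← hψ, neg_add_cancel, h0] at h1
    obtain ⟨k, hk⟩ := (hT.2 _).1 h1
    exact ⟨k, by rw [← hk]; ring⟩
  have hper' : ∀ (a : ℝ) (k : ℤ), ψ (a + k * T) z = ψ a z := by
    intro a k
    rw [hψ, (hT.2 _).2 ⟨k, rfl⟩]
  obtain ⟨R, hRd⟩ : ∃ R : ℝ → ℝ, R = fun t => LT G θ s m z t + c := ⟨_, rfl⟩
  have hRm : StrictMono R := by
    intro a b hab
    rw [hRd]
    have := LT_mono h s m z hab
    show LT G θ s m z a + c < LT G θ s m z b + c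
    linarith
  have hRc : Continuous R := by
    rw [hRd]
    exact ((LT_cont h m z).comp (continuous_const.prodMk continuous_id)).add continuous_const
  have hR' : ∀ t, (fun y => ψ s (G y))^[m] (ψ t z) = ψ (R t) z := by
    intro t
    rw [hRd]
    exact hR t
  have e1 : ψ (R (t + T)) z = ψ (R t) z := by
    rw [← hR', ← hR']
    have := hper' t 1
    rw [Int.cast_one, one_mul] at this
    rw [this]
  obtain ⟨k, hk⟩ := hper _ _ e1
  have hlt := hRm (show t < t + T by linarith [hT.1])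
  have hk0 : 0 < k := by
    have : 0 < (k : ℝ) * T := by rw [← hk]; linarith
    have h3 := (mul_pos_iff_of_pos_right hT.1).1 this
    exact_mod_cast h3
  have hk1 : k ≤ 1 := by
    by_contra hcon
    push Not at hcon
    have h2 : (2 : ℝ) ≤ k := by exact_mod_cast hcon
    have h3 : R t + T < R (t + T) := by nlinarith [hT.1]
    have hmem : R t + T ∈ Icc (R t) (R (t + T)) := ⟨by linarith [hT.1], h3.le⟩
    obtain ⟨u, hu, hu'⟩ := intermediate_value_Icc (by linarith [hT.1] : t ≤ t + T)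
      hRc.continuousOn hmem
    have e2 : ψ (R u) z = ψ (R t) z := by
      rw [hu']
      have := hper' (R t) 1
      rwa [Int.cast_one, one_mul] at this
    rw [← hR', ← hR'] at e2
    obtain ⟨j, hj⟩ := hper _ _ (hinj e2)
    have h5 : t < u := by
      refine lt_of_le_of_ne hu.1 fun he => ?_
      rw [← he] at hu'
      linarith [hT.1]
    have h6 : u < t + T := by
      refine lt_of_le_of_ne hu.2 fun he => ?_
      rw [he] at hu'
      linarith
    have h7 : 0 < (j : ℝ) * T := by rw [← hj]; linarith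
    have h8 : (j : ℝ) * T < 1 * T := by rw [← hj]; linarith
    have h9 : (0 : ℝ) < j := (mul_pos_iff_of_pos_right hT.1).1 h7
    have h10 : (j : ℝ) < 1 := lt_of_mul_lt_mul_right h8 hT.1.le
    have h11 : 0 < j := by exact_mod_cast h9
    have h12 : j < 1 := by exact_mod_cast h10
    omega
  have hk' : k = 1 := by omega
  rw [hk', Int.cast_one, one_mul] at hk
  have : R (t + T) = R t + T := by linarith
  rw [hRd] at this
  exact this

end lifts

variable {n : ℕ} {N : Type u} [TopologicalSpace N] [ChartedSpace (V n) N] [IsManifold (𝓡 n) ∞ N]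
  [T2Space N]

/-- the periodic points of all maps `ψ_s ∘ G`, `|s| < ε`, are hyperbolic -/
def AllHyp (n : ℕ) {N : Type u} [TopologicalSpace N] [ChartedSpace (V n) N] (G : N → N)
    (ψ : ℝ → N → N) (ε : ℝ) : Prop :=
  ∀ s : ℝ, |s| < ε → ∀ p ∈ Per (fun y => ψ s (G y)), IsHyperbolicPer n (fun y => ψ s (G y)) p

theorem not_fixed {ψ : ℝ → N → N} (hψ : IsFlow n N ψ) {z : N} (hz : ∃ t, ψ t z ≠ z) (t : ℝ) :
    ∃ u, ψ u (ψ t z) ≠ ψ t z := by
  by_contra hcon
  push Not at hcon
  obtain ⟨v, hv⟩ := hz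
  have h1 := hcon (-t)
  rw [← hψ.add, neg_add_cancel, hψ.zero] at h1
  have h2 := hcon (v - t)
  rw [← hψ.add, sub_add_cancel, ← h1] at h2
  exact hv h2

/-- derivatives of the return maps -/
theorem ret_hyp {G : N → N} {ψ : ℝ → N → N} {θ : N → ℝ → ℝ} {ε : ℝ} (hψ : IsFlow n N ψ)
    (h : OrbitMap G ψ θ) (hyp : AllHyp n G ψ ε) {m : ℕ} (hm : 1 ≤ m) {z : N}
    (hnf : ∃ t, ψ t z ≠ z) {c : ℝ} (hz : G^[m] z = ψ c z) {s : ℝ} (hs : |s| < ε) {Q : ℕ}
    (hQ : 1 ≤ Q) {t d : ℝ} (hd : ψ d z = z)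
    (ht : (fun t => LT G θ s m z t + c)^[Q] t = t + d) :
    ∃ κ : ℝ, κ ≠ 1 ∧ HasDerivAt (fun t => LT G θ s m z t + c)^[Q] κ t := by
  obtain ⟨R, hRd⟩ : ∃ R : ℝ → ℝ, R = (fun t => LT G θ s m z t + c)^[Q] := ⟨_, rfl⟩
  rw [← hRd] at ht ⊢
  have hR : ∀ t, (fun y => ψ s (G y))^[m * Q] (ψ t z) = ψ (R t) z := by
    intro t
    rw [hRd]
    exact ret_iter hψ.add h hz s t Q
  have hRc : Continuous R := by
    rw [hRd]
    have h1 : Continuous fun t => LT G θ s m z t + c :=
      ((LT_cont h m z).comp (continuous_const.prodMk continuous_id)).add continuous_const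
    exact h1.iterate Q
  have hd' : ∀ a, ψ (a + d) z = ψ a z := fun a => by rw [hψ.add, hd]
  have hmQ : 1 ≤ m * Q := Nat.one_le_iff_ne_zero.2 (by positivity)
  have hp : (fun y => ψ s (G y))^[m * Q] (ψ t z) = ψ t z := by rw [hR, ht, hd']
  obtain ⟨κ, hκ, hκd⟩ := hyper_flow hψ hmQ hp (hyp s hs _ ⟨m * Q, hmQ, hp⟩)
    (not_fixed hψ hnf t) (l := fun u => R (t + u) - (t + d))
    ((hRc.comp (continuous_const.add continuous_id)).sub continuous_const).continuousAt
    (by show R (t + 0) - (t + d) = 0; rw [add_zero, ht, sub_self])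
    (fun u => by
      rw [← hψ.add, hR, ← hψ.add]
      have : R (t + u) - (t + d) + t = R (u + t) + -d := by rw [add_comm u t]; ring
      rw [this]
      have h1 := hd' (R (u + t) + -d)
      rw [neg_add_cancel_right] at h1
      exact h1)
  refine ⟨κ, hκ, ?_⟩
  have h1 : HasDerivAt (fun x : ℝ => x - t) 1 t := (hasDerivAt_id t).sub_const t
  have h2 : HasDerivAt (fun u => R (t + u) - (t + d)) κ (t - t) := by rw [sub_self]; exact hκd
  have h3 := HasDerivAt.comp t (h₂ := fun u => R (t + u) - (t + d)) (h := fun x => x - t) h2 h1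
  rw [mul_one] at h3
  have h4 := h3.add_const (t + d)
  refine h4.congr_of_eventuallyEq (Eventually.of_forall fun x => ?_)
  show R x = R (t + (x - t)) - (t + d) + (t + d)
  rw [sub_add_cancel, add_sub_cancel]

/-- (a) Fixed points of the return maps are uniformly separated. -/
theorem gap_main {G : N → N} {ψ : ℝ → N → N} {θ : N → ℝ → ℝ} {ε : ℝ} (hε : 0 < ε)
    (hψ : IsFlow n N ψ) (h : OrbitMap G ψ θ) (hyp : AllHyp n G ψ ε) {m : ℕ} (hm : 1 ≤ m) {z : N}
    (hnf : ∃ t, ψ t z ≠ z) {c : ℝ} (hz : G^[m] z = ψ c z) {t t' : ℝ}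
    (ht : iterTime G θ m z t + c = t) (ht' : iterTime G θ m z t' + c = t') (htt : t ≠ t') :
    ε ≤ |t - t'| := by
  rw [← LT_zero_eq] at ht ht'
  have hfam := LT_fam h hm z c
  have hfix : HypFix (fun s t => LT G θ s m z t + c) ε := by
    intro s hs u hu
    obtain ⟨κ, hκ, hd⟩ := ret_hyp hψ h hyp hm hnf hz hs le_rfl (d := 0) (hψ.zero z)
      (t := u) (by rw [add_zero]; exact hu)
    exact ⟨κ, hκ, hd⟩
  rcases lt_or_gt_of_ne htt with h1 | h1
  · have := gap hε hfam hfix h1 ht ht'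
    rw [abs_sub_comm, abs_of_pos (sub_pos.2 h1)]
    exact this
  · have := gap hε hfam hfix h1 ht' ht
    rw [abs_of_pos (sub_pos.2 h1)]
    exact this

/-- the scaled return map of a closed orbit -/
theorem exists_per_closed {G : N → N} {ψ : ℝ → N → N} {θ : N → ℝ → ℝ} {ε : ℝ} (hε : 0 < ε)
    (hψ : IsFlow n N ψ) (h : OrbitMap G ψ θ) (hG : Function.Injective G) (hyp : AllHyp n G ψ ε)
    {m : ℕ} (hm : 1 ≤ m) {z : N} {T : ℝ} (hT : ClosedOrbit ψ T z) {c : ℝ}
    (hz : G^[m] z = ψ c z) :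
    ∃ (Q : ℕ) (P : ℤ) (a : ℝ), 1 ≤ Q ∧ (fun t => LT G θ 0 m z t + c)^[Q] a = a + P * T := by
  have hT0 := hT.1
  have hnf : ∃ t, ψ t z ≠ z := by
    refine ⟨T / 2, fun he => ?_⟩
    obtain ⟨k, hk⟩ := (hT.2 _).1 he
    have h1 : (k : ℝ) = 1 / 2 := by
      have : (k : ℝ) * T = 1 / 2 * T := by rw [← hk]; ring
      exact mul_right_cancel₀ hT0.ne' this
    have h2 : ((2 * k : ℤ) : ℝ) = ((1 : ℤ) : ℝ) := by push_cast; linarith
    have h3 : 2 * k = 1 := by exact_mod_cast h2
    omega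
  obtain ⟨L, hL⟩ : ∃ L : ℝ → ℝ → ℝ, ∀ s t, L s t = (LT G θ (T * s) m z (T * t) + c) / T :=
    ⟨_, fun _ _ => rfl⟩
  have hLe : L = fun s t => (LT G θ (T * s) m z (T * t) + c) / T := by
    funext s t
    exact hL s t
  have hfam := LT_fam h hm z c
  have hLf : Fam L := by
    refine ⟨?_, fun s t t' htt => ?_, fun s' s t hs => ?_⟩
    · rw [hLe]
      exact (hfam.cont.comp ((continuous_const.mul continuous_fst).prodMk
        (continuous_const.mul continuous_snd))).div_const T
    · rw [hL, hL]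
      exact div_le_div_of_nonneg_right (hfam.mono (T * s) (mul_le_mul_of_nonneg_left htt hT0.le))
        hT0.le
    · rw [hL, hL]
      have h1 := hfam.push (T * s') (T * s) (T * t) (mul_le_mul_of_nonneg_left hs hT0.le)
      have h2 : (LT G θ (T * s') m z (T * t) + c) / T + (s - s') =
          (LT G θ (T * s') m z (T * t) + c + (T * s - T * s')) / T := by
        field_simp
      rw [h2]
      exact div_le_div_of_nonneg_right h1 hT0.le
  have hLi : ∀ s (Q : ℕ) t, (L s)^[Q] t =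
      ((fun t => LT G θ (T * s) m z t + c)^[Q] (T * t)) / T := by
    intro s Q t
    induction Q with
    | zero => show t = T * t / T; field_simp
    | succ Q ih =>
      rw [Function.iterate_succ_apply', Function.iterate_succ_apply', ih, hL, mul_div_cancel₀ _ hT0.ne']
  obtain ⟨Q, P, t, hQ, ht⟩ := exists_periodic (ε := ε / T) (div_pos hε hT0) hLf
    (fun s t => by
      rw [hL, hL, mul_add, mul_one, ret_deg hψ.add hψ.zero h hG hz hT]
      field_simp)
    (fun s hs Q hQ P t ht => by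
      have hs' : |T * s| < ε := by
        rw [abs_mul, abs_of_pos hT0, mul_comm]
        rwa [lt_div_iff₀ hT0] at hs
      rw [hLi, div_eq_iff hT0.ne'] at ht
      obtain ⟨κ, hκ, hd⟩ := ret_hyp hψ h hyp hm hnf hz hs' hQ (d := P * T)
        ((hT.2 _).2 ⟨P, rfl⟩) (t := T * t) (by rw [ht]; ring)
      refine ⟨κ, hκ, ?_⟩
      have h1 : HasDerivAt (fun x : ℝ => T * x) T t := by
        have := (hasDerivAt_id t).const_mul T
        rwa [mul_one] at this
      have h2 := (HasDerivAt.comp t hd h1).div_const T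
      rw [mul_div_assoc, div_self hT0.ne', mul_one] at h2
      refine h2.congr_of_eventuallyEq (Eventually.of_forall fun x => ?_)
      exact hLi s Q x)
  refine ⟨Q, P, T * t, hQ, ?_⟩
  rw [hLi, div_eq_iff hT0.ne', mul_zero] at ht
  rw [ht]
  ring

/-- all periodic points of the return map to a closed orbit satisfy the same equation -/
theorem same_closed {G : N → N} {ψ : ℝ → N → N} {θ : N → ℝ → ℝ}
    (hψ : IsFlow n N ψ) (h : OrbitMap G ψ θ) (hG : Function.Injective G)
    {m : ℕ} {z : N} {T : ℝ} (hT : ClosedOrbit ψ T z) {c : ℝ}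
    (hz : G^[m] z = ψ c z) {Q Q' : ℕ} (hQ : 1 ≤ Q) (hQ' : 1 ≤ Q') {P P' : ℤ} {a t : ℝ}
    (ha : (fun t => LT G θ 0 m z t + c)^[Q] a = a + P * T)
    (ht : (fun t => LT G θ 0 m z t + c)^[Q'] t = t + P' * T) :
    (fun t => LT G θ 0 m z t + c)^[Q] t = t + P * T := by
  have hT0 := hT.1
  obtain ⟨g, hg⟩ : ∃ g : CircleDeg1Lift, ∀ t, g t = (LT G θ 0 m z (T * t) + c) / T := by
    refine ⟨⟨⟨fun t => (LT G θ 0 m z (T * t) + c) / T, fun t t' htt => ?_⟩, fun t => ?_⟩,
      fun _ => rfl⟩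
    · refine div_le_div_of_nonneg_right ?_ hT0.le
      have := (LT_mono h 0 m z).monotone (mul_le_mul_of_nonneg_left htt hT0.le)
      show LT G θ 0 m z (T * t) + c ≤ LT G θ 0 m z (T * t') + c
      linarith
    · show (LT G θ 0 m z (T * (t + 1)) + c) / T = (LT G θ 0 m z (T * t) + c) / T + 1
      rw [mul_add, mul_one, ret_deg hψ.add hψ.zero h hG hz hT]
      field_simp
  have hgi : ∀ (Q : ℕ) t, g^[Q] t = ((fun t => LT G θ 0 m z t + c)^[Q] (T * t)) / T := by
    intro Q t
    induction Q with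
    | zero => show t = T * t / T; field_simp
    | succ Q ih =>
      rw [Function.iterate_succ_apply', Function.iterate_succ_apply', ih, hg,
        mul_div_cancel₀ _ hT0.ne']
  have e1 : g^[Q] (a / T) = a / T + P := by
    rw [hgi, mul_div_cancel₀ _ hT0.ne', ha]
    field_simp
  have e2 : g^[Q'] (t / T) = t / T + P' := by
    rw [hgi, mul_div_cancel₀ _ hT0.ne', ht]
    field_simp
  have e3 := Pool.Agent.N102.UF.same_period g hQ' hQ e2 e1
  rw [hgi, mul_div_cancel₀ _ hT0.ne', div_eq_iff hT0.ne'] at e3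
  rw [e3]
  field_simp

end Pool.Agent.J4.H98.Orb
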