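import Pool.Agent.J4.H98.OrbC
import Pool.Agent.Y504.CO.Gen

/-!
# Maps which preserve the orbits of a flow: closed orbits, recurrent points
-/

set_option autoImplicit false
set_option linter.unusedSectionVars false

open scoped Manifold ContDiff Topology
open Filter Set

universe u

namespace Pool.Agent.J4.H98.Orb

open Pool.Agent.H718R2.G Pool.Agent.TH80.OMS Pool.Agent.Y504.CO Pool.Agent.TH80.CLX
open Pool.Agent.TH290.CL (IsFlow)

variable {n : ℕ} {N : Type u} [TopologicalSpace N] [ChartedSpace (V n) N] [IsManifold (𝓡 n) ∞ N]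
  [T2Space N]

theorem nonfixed {ψ : ℝ → N → N} {z : N} {T : ℝ} (hT : ClosedOrbit ψ T z) :
    ∃ t, ψ t z ≠ z := by
  have hT0 := hT.1
  refine ⟨T / 2, fun he => ?_⟩
  obtain ⟨k, hk⟩ := (hT.2 _).1 he
  have h1 : (k : ℝ) = 1 / 2 := by
    have : (k : ℝ) * T = 1 / 2 * T := by rw [← hk]; ring
    exact mul_right_cancel₀ hT0.ne' this
  have h2 : ((2 * k : ℤ) : ℝ) = ((1 : ℤ) : ℝ) := by push_cast; linarith
  have h3 : 2 * k = 1 := by exact_mod_cast h2
  omega

/-- (b) the periodic points on a closed orbit -/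
theorem closed_main {G : N → N} {ψ : ℝ → N → N} {θ : N → ℝ → ℝ} {ε : ℝ} (hε : 0 < ε)
    (hψ : IsFlow n N ψ) (h : OrbitMap G ψ θ) (hG : Function.Injective G) (hyp : AllHyp n G ψ ε)
    {m : ℕ} (hm : 1 ≤ m) {z : N} {T : ℝ} (hT : ClosedOrbit ψ T z) {c : ℝ}
    (hz : G^[m] z = ψ c z) :
    (Per G ∩ range fun t => ψ t z).Nonempty ∧ (Per G ∩ range fun t => ψ t z).Finite ∧
      ((Per G ∩ range fun t => ψ t z).ncard : ℝ) ≤ T / ε := by
  obtain ⟨Q, P, a, hQ, ha⟩ := exists_per_closed hε hψ h hG hyp hm hT hz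
  have hT0 := hT.1
  have hnf := nonfixed hT
  have hG0 : (fun y => ψ 0 (G y)) = G := by
    funext y
    exact hψ.zero _
  have hret : ∀ (t : ℝ) (Q : ℕ), G^[m * Q] (ψ t z) =
      ψ ((fun t => LT G θ 0 m z t + c)^[Q] t) z := by
    intro t Q
    have := ret_iter hψ.add h hz 0 t Q
    rwa [hG0] at this
  have hper : ∀ (t : ℝ) (k : ℤ), ψ (t + k * T) z = ψ t z := by
    intro t k
    rw [hψ.add, (hT.2 _).2 ⟨k, rfl⟩]
  obtain ⟨L, hL⟩ : ∃ L : ℝ → ℝ → ℝ,
      L = fun s t => (fun t => LT G θ s m z t + c)^[Q] t + -(P * T) := ⟨_, rfl⟩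
  have hfam : Fam L := by
    rw [hL]
    exact (LT_fam h hm z c).iterate hQ _
  have hfix : HypFix L ε := by
    intro s hs t ht
    rw [hL] at ht ⊢
    obtain ⟨κ, hκ, hd⟩ := ret_hyp hψ h hyp hm hnf hz hs hQ (d := P * T) ((hT.2 _).2 ⟨P, rfl⟩)
      (t := t) (by linarith)
    exact ⟨κ, hκ, hd.add_const _⟩
  obtain ⟨Z, hZ⟩ : ∃ Z : Set ℝ, Z = {t | L 0 t = t} := ⟨_, rfl⟩
  have hmemZ : ∀ t, t ∈ Z ↔ (fun t => LT G θ 0 m z t + c)^[Q] t = t + P * T := by
    intro t
    rw [hZ, hL]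
    show (fun t => LT G θ 0 m z t + c)^[Q] t + -(P * T) = t ↔ _
    constructor <;> intro h1 <;> linarith
  have haZ : a ∈ Z := (hmemZ a).2 ha
  have hperZ : ∀ t, ψ t z ∈ Per G ↔ t ∈ Z := by
    intro t
    constructor
    · rintro ⟨k, hk, hkt⟩
      have h1 : G^[m * k] (ψ t z) = ψ t z := by
        rw [mul_comm, Function.iterate_mul]
        exact Function.iterate_fixed hkt m
      rw [hret] at h1
      have h2 := congrArg (ψ (-t)) h1
      rw [← hψ.add, ← hψ.add, neg_add_cancel, hψ.zero] at h2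
      obtain ⟨j, hj⟩ := (hT.2 _).1 h2
      rw [hmemZ]
      exact same_closed hψ h hG hT hz hQ hk ha (P' := j) (by rw [← hj]; ring)
    · intro ht
      refine ⟨m * Q, Nat.one_le_iff_ne_zero.2 (by positivity), ?_⟩
      rw [hret, (hmemZ t).1 ht, hper]
  have hZT : ∀ t ∈ Z, ∀ k : ℤ, t + k * T ∈ Z := by
    intro t ht k
    rw [← hperZ, hper, hperZ]
    exact ht
  have hsep : ∀ t ∈ Z, ∀ t' ∈ Z, t < t' → ε ≤ t' - t := by
    intro t ht t' ht' htt
    rw [hZ] at ht ht'
    exact gap hε hfam hfix htt ht ht'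
  have hcount := count hε hT0 (fun t ht => by
    have := hZT t ht 1
    rwa [Int.cast_one, one_mul] at this) hsep haZ
  have himg : (Per G ∩ range fun t => ψ t z) = (fun t => ψ t z) '' (Z ∩ Ico a (a + T)) := by
    ext p
    constructor
    · rintro ⟨hp, t, rfl⟩
      have ht := (hperZ t).1 hp
      obtain ⟨k, hk, -⟩ := existsUnique_add_zsmul_mem_Ico hT0 t a
      rw [zsmul_eq_mul] at hk
      exact ⟨t + k * T, ⟨hZT t ht k, hk⟩, hper t k⟩
    · rintro ⟨t, ⟨ht, -⟩, rfl⟩
      exact ⟨(hperZ t).2 ht, t, rfl⟩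
  refine ⟨⟨ψ a z, (hperZ a).2 haZ, a, rfl⟩, ?_, ?_⟩
  · rw [himg]
    exact hcount.1.image _
  · rw [himg]
    have h1 := Set.ncard_image_le (f := fun t => ψ t z) hcount.1
    exact (Nat.cast_le.2 h1).trans hcount.2

/-! ### Recurrent points -/

theorem per_of_rec {G : N → N} (hG : Continuous G) {z : N} (hz : z ∈ Rec G) {M : ℕ}
    (hM : 1 ≤ M) {q : N} (hq : G^[M] q = q)
    (hlim : Tendsto (fun j : ℕ => G^[M * j] z) atTop (𝓝 q)) : z ∈ Per G := by
  by_contra hnp
  have hqi : ∀ i, z ≠ G^[i] q := by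
    intro i hi
    apply hnp
    refine ⟨M, hM, ?_⟩
    rw [hi, ← Function.iterate_add_apply, add_comm, Function.iterate_add_apply, hq]
  have hsep : ∀ i : ℕ, ∃ W W' : Set N, IsOpen W ∧ IsOpen W' ∧ z ∈ W ∧ G^[i] q ∈ W' ∧
      Disjoint W W' := fun i => t2_separation (hqi i)
  choose W W' hWo hW'o hzW hqW' hdis using hsep
  have hev : ∀ᶠ j : ℕ in atTop, ∀ i ∈ Finset.range M, G^[i] (G^[M * j] z) ∈ W' i := by
    rw [Filter.eventually_all_finset]
    intro i _
    exact (((hG.iterate i).tendsto q).comp hlim).eventually ((hW'o i).mem_nhds (hqW' i))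
  obtain ⟨J, hJ⟩ := eventually_atTop.1 hev
  obtain ⟨V, hV⟩ : ∃ V : Set N, V = (⋂ i ∈ Finset.range M, W i) ∩
      ((fun k : ℕ => G^[k] z) '' (Icc 1 (M * J) : Set ℕ))ᶜ := ⟨_, rfl⟩
  have hVo : IsOpen V := by
    rw [hV]
    refine (isOpen_biInter_finset fun i _ => hWo i).inter ?_
    exact ((finite_Icc 1 (M * J)).image _).isClosed.isOpen_compl
  have hzV : z ∈ V := by
    rw [hV]
    refine ⟨mem_iInter₂.2 fun i _ => hzW i, ?_⟩
    rintro ⟨k, hk, hkz⟩
    exact hnp ⟨k, hk.1, hkz⟩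
  obtain ⟨k, hk, hkV⟩ := hz V (hVo.mem_nhds hzV)
  rw [hV] at hkV
  by_cases hkJ : k ≤ M * J
  · exact hkV.2 ⟨k, ⟨hk, hkJ⟩, rfl⟩
  · push Not at hkJ
    have h1 : M * (k / M) + k % M = k := Nat.div_add_mod k M
    have h2 : J ≤ k / M := by
      rw [Nat.le_div_iff_mul_le (by omega)]
      rw [mul_comm]
      exact hkJ.le
    have h3 : k % M ∈ Finset.range M := Finset.mem_range.2 (Nat.mod_lt _ (by omega))
    have h4 := hJ _ h2 _ h3
    rw [← Function.iterate_add_apply, add_comm, h1] at h4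
    have h5 : G^[k] z ∈ W (k % M) := (mem_iInter₂.1 hkV.1) _ h3
    exact Set.disjoint_left.1 (hdis _) h5 h4

/-- recurrent points on periodic closed orbits are periodic -/
theorem per_of_rec_closed {G : N → N} {ψ : ℝ → N → N} {θ : N → ℝ → ℝ} {ε : ℝ} (hε : 0 < ε)
    (hψ : IsFlow n N ψ) (h : OrbitMap G ψ θ) (hGc : Continuous G) (hG : Function.Injective G)
    (hyp : AllHyp n G ψ ε) {m : ℕ} (hm : 1 ≤ m) {z : N} {T : ℝ} (hT : ClosedOrbit ψ T z) {c : ℝ}
    (hz : G^[m] z = ψ c z) (hrec : z ∈ Rec G) : z ∈ Per G := by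
  obtain ⟨Q, P, a, hQ, ha⟩ := exists_per_closed hε hψ h hG hyp hm hT hz
  have hT0 := hT.1
  have hG0 : (fun y => ψ 0 (G y)) = G := by
    funext y
    exact hψ.zero _
  have hper : ∀ (t : ℝ) (k : ℤ), ψ (t + k * T) z = ψ t z := by
    intro t k
    rw [hψ.add, (hT.2 _).2 ⟨k, rfl⟩]
  obtain ⟨R, hR⟩ : ∃ R : ℝ → ℝ, R = fun t => LT G θ 0 m z t + c := ⟨_, rfl⟩
  rw [← hR] at ha
  have hret : ∀ (t : ℝ) (Q : ℕ), G^[m * Q] (ψ t z) = ψ (R^[Q] t) z := by
    intro t Q
    have := ret_iter hψ.add h hz 0 t Q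
    rw [hG0] at this
    rw [hR]
    exact this
  have hRm : Monotone R := by
    rw [hR]
    exact (LT_fam h hm z c).mono 0
  have hRc : Continuous R := by
    rw [hR]
    exact (LT_fam h hm z c).contT 0
  have hRT : ∀ t, R (t + T) = R t + T := by
    intro t
    rw [hR]
    exact ret_deg hψ.add hψ.zero h hG hz hT 0 t
  obtain ⟨S, hS⟩ : ∃ S : ℝ → ℝ, S = fun t => R^[Q] t - P * T := ⟨_, rfl⟩
  have hSm : Monotone S := by
    intro t t' htt
    rw [hS]
    have := hRm.iterate Q htt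
    show R^[Q] t - P * T ≤ R^[Q] t' - P * T
    linarith
  have hSc : Continuous S := by
    rw [hS]
    exact (hRc.iterate Q).sub continuous_const
  have hSa : S a = a := by
    rw [hS]
    show R^[Q] a - P * T = a
    rw [ha]
    ring
  have hRQT : ∀ (Q : ℕ) (t : ℝ) (k : ℕ), R^[Q] (t + k * T) = R^[Q] t + k * T := by
    have h1 : ∀ (t : ℝ) (k : ℕ), R (t + k * T) = R t + k * T := by
      intro t k
      induction k with
      | zero => simp
      | succ k ih =>
        push_cast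
        rw [add_mul, one_mul, ← add_assoc, hRT, ih]
        ring
    intro Q t k
    induction Q with
    | zero => rfl
    | succ Q ih =>
      rw [Function.iterate_succ_apply', ih, h1, Function.iterate_succ_apply']
  have hSaT : ∀ k : ℕ, S (a + k * T) = a + k * T := by
    intro k
    have h1 := hSa
    rw [hS] at h1 ⊢
    have h1' : R^[Q] a - P * T = a := h1
    show R^[Q] (a + k * T) - P * T = a + k * T
    rw [hRQT]
    linarith
  have hSaT' : ∀ k : ℕ, S (a - k * T) = a - k * T := by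
    intro k
    have h1 := hSa
    have h2 := hRQT Q (a - k * T) k
    rw [sub_add_cancel] at h2
    rw [hS] at h1 ⊢
    have h1' : R^[Q] a - P * T = a := h1
    show R^[Q] (a - k * T) - P * T = a - k * T
    linarith
  have hGS : ∀ (t : ℝ) (j : ℕ), G^[(m * Q) * j] (ψ t z) = ψ (S^[j] t) z := by
    intro t j
    induction j with
    | zero => rfl
    | succ j ih =>
      rw [Nat.mul_succ, Nat.add_comm (m * Q * j), Function.iterate_add_apply, ih, hret,
        Function.iterate_succ_apply', hS]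
      show _ = ψ (R^[Q] _ - P * T) z
      have := hper (R^[Q] ((fun t => R^[Q] t - P * T)^[j] t) - P * T) P
      rw [sub_add_cancel] at this
      exact this
  obtain ⟨x, hx⟩ : ∃ x, Tendsto (fun j : ℕ => S^[j] 0) atTop (𝓝 x) := by
    rcases le_total 0 (S 0) with h0 | h0
    · have hmon : Monotone fun j : ℕ => S^[j] 0 := hSm.monotone_iterate_of_le_map h0
      obtain ⟨k, hk⟩ := exists_nat_ge (-a / T)
      have hk' : 0 ≤ a + k * T := by
        rw [div_le_iff₀ hT0] at hk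
        linarith
      have hb : ∀ j : ℕ, S^[j] 0 ≤ a + k * T := by
        intro j
        have := hSm.iterate j hk'
        rwa [Function.iterate_fixed (hSaT k) j] at this
      exact ⟨_, tendsto_atTop_ciSup hmon ⟨a + k * T, by rintro _ ⟨j, rfl⟩; exact hb j⟩⟩
    · have hmon : Antitone fun j : ℕ => S^[j] 0 := hSm.antitone_iterate_of_map_le h0
      obtain ⟨k, hk⟩ := exists_nat_ge (a / T)
      have hk' : a - k * T ≤ 0 := by
        rw [div_le_iff₀ hT0] at hk
        linarith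
      have hb : ∀ j : ℕ, a - k * T ≤ S^[j] 0 := by
        intro j
        have := hSm.iterate j hk'
        rwa [Function.iterate_fixed (hSaT' k) j] at this
      exact ⟨_, tendsto_atTop_ciInf hmon ⟨a - k * T, by rintro _ ⟨j, rfl⟩; exact hb j⟩⟩
  have hSx : S x = x := isFixedPt_of_tendsto_iterate hx hSc.continuousAt
  have hmQ : 1 ≤ m * Q := Nat.one_le_iff_ne_zero.2 (by positivity)
  refine per_of_rec hGc hrec hmQ (q := ψ x z) ?_ ?_
  · have := hGS x 1
    rwa [mul_one, Function.iterate_one, hSx] at this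
  · have h1 : ∀ j : ℕ, G^[m * Q * j] z = ψ (S^[j] 0) z := by
      intro j
      have := hGS 0 j
      rwa [hψ.zero] at this
    simp_rw [h1]
    exact ((flow_cont hψ z).tendsto x).comp hx

/-- a point with a closed orbit which is not fixed has a least period -/
theorem exists_least {ψ : ℝ → N → N} (hψ : IsFlow n N ψ) {z : N} {T : ℝ} (hT : T ≠ 0)
    (hz : ψ T z = z) (hnf : ∃ t, ψ t z ≠ z) : ∃ T₀, ClosedOrbit ψ T₀ z := by
  obtain ⟨S, hS⟩ : ∃ S : AddSubgroup ℝ, ∀ t, t ∈ S ↔ ψ t z = z := by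
    refine ⟨{ carrier := {t | ψ t z = z}, add_mem' := ?_, zero_mem' := hψ.zero z,
              neg_mem' := ?_ }, fun t => Iff.rfl⟩
    · intro a b ha hb
      show ψ (a + b) z = z
      have ha' : ψ a z = z := ha
      have hb' : ψ b z = z := hb
      rw [hψ.add, hb', ha']
    · intro a ha
      show ψ (-a) z = z
      have ha' : ψ a z = z := ha
      have := congrArg (ψ (-a)) ha'
      rw [← hψ.add, neg_add_cancel, hψ.zero] at this
      exact this.symm
  have hcl : IsClosed (S : Set ℝ) := by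
    have : (S : Set ℝ) = {t | ψ t z = z} := by ext t; exact hS t
    rw [this]
    exact isClosed_eq (flow_cont hψ z) continuous_const
  rcases S.dense_or_cyclic with hd | ⟨a, ha⟩
  · exfalso
    obtain ⟨t, ht⟩ := hnf
    apply ht
    have h1 : (S : Set ℝ) = univ := by rw [← hcl.closure_eq, hd.closure_eq]
    rw [← hS]
    have : t ∈ (S : Set ℝ) := by rw [h1]; exact mem_univ t
    exact this
  · have hmem : ∀ t, ψ t z = z ↔ ∃ k : ℤ, t = k * a := by
      intro t
      rw [← hS, ha, AddSubgroup.mem_closure_singleton]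
      constructor
      · rintro ⟨k, hk⟩
        exact ⟨k, by rw [← hk, zsmul_eq_mul]⟩
      · rintro ⟨k, hk⟩
        exact ⟨k, by rw [hk, zsmul_eq_mul]⟩
    have ha0 : a ≠ 0 := by
      intro h0
      obtain ⟨k, hk⟩ := (hmem T).1 hz
      rw [h0, mul_zero] at hk
      exact hT hk
    rcases lt_or_gt_of_ne ha0 with h1 | h1
    · refine ⟨-a, by linarith, fun t => ?_⟩
      rw [hmem]
      constructor
      · rintro ⟨k, hk⟩
        exact ⟨-k, by rw [hk]; push_cast; ring⟩
      · rintro ⟨k, hk⟩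
        exact ⟨-k, by rw [hk]; push_cast; ring⟩
    · exact ⟨a, h1, hmem⟩

end Pool.Agent.J4.H98.Orb
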