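import Pool.Agent.J4.H98.OrbD

/-!
# Maps which preserve the orbits of a flow: the main theorem
-/

set_option autoImplicit false
set_option linter.unusedSectionVars false

open scoped Manifold ContDiff Topology
open Filter Set

universe u

namespace Pool.Agent.J4.H98.Orb

open Pool.Agent.H718R2.G Pool.Agent.TH80.OMS Pool.Agent.Y504.CO Pool.Agent.TH80.CLX
open Pool.Agent.N102.UF (flow_fam)
open Pool.Agent.TH290.CL (IsFlow)

variable {n : ℕ} {N : Type u} [TopologicalSpace N] [ChartedSpace (V n) N] [IsManifold (𝓡 n) ∞ N]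
  [T2Space N] [CompactSpace N]

/-- all periodic points of the maps `ψ_s ∘ F` with small `s` are hyperbolic -/
theorem all_hyp (r : ℕ∞) (hr : 1 ≤ r) (F : DiffM n N r) (hF : OmegaStable n N r F)
    {ψ : ℝ → N → N} (hψ : IsFlow n N ψ) (z : N) :
    ∃ κ : ℝ, 0 < κ ∧ AllHyp n (F : N → N) ψ κ := by
  obtain ⟨U, hU, hFU, hconj⟩ := hF
  obtain ⟨H, hfam, hH, hH0⟩ := flow_fam hψ r F
  obtain ⟨κ, hκ, hmem⟩ := fam_mem r hr H hfam z U hU (by rw [hH0]; exact hFU)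
  refine ⟨κ, hκ, fun s hs => ?_⟩
  have hG := hmem s (by rwa [Real.norm_eq_abs])
  have hst : OmegaStable n N r (H s) := by
    refine ⟨U, hU, hG, fun G' hG' => ?_⟩
    obtain ⟨h, hh⟩ := hconj _ hG
    obtain ⟨h', hh'⟩ := hconj _ hG'
    refine ⟨h.symm.trans h', fun x y hxy => ?_⟩
    exact hh' _ _ (conj_symm F.continuous h hh x y hxy)
  have e : (fun y => ψ s (F y)) = H s := by
    funext y
    exact (hH s y).symm
  rw [e]
  exact Gen.stable_hyp hr hst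

theorem AllHyp.shift {G : N → N} {ψ : ℝ → N → N} {κ : ℝ} (hψ : IsFlow n N ψ)
    (h : AllHyp n G ψ κ) {s : ℝ} (hs : |s| < κ / 2) : AllHyp n (fun y => ψ s (G y)) ψ (κ / 2) := by
  intro s' hs'
  have e : (fun y => ψ s' (ψ s (G y))) = fun y => ψ (s' + s) (G y) := by
    funext y
    rw [hψ.add]
  have h1 := h (s' + s) (by
    have := abs_add_le s' s
    linarith)
  show ∀ p ∈ Per (fun y => ψ s' (ψ s (G y))), IsHyperbolicPer n (fun y => ψ s' (ψ s (G y))) p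
  rw [e]
  exact h1

theorem OrbitMap.push {G : N → N} {ψ : ℝ → N → N} {θ : N → ℝ → ℝ} (hψ : IsFlow n N ψ)
    (h : OrbitMap G ψ θ) (s : ℝ) : OrbitMap (fun y => ψ s (G y)) ψ θ where
  cont := h.cont
  mono := h.mono
  zero := h.zero
  eq := fun z t => by
    show ψ s (G (ψ t z)) = ψ (θ z t) (ψ s (G z))
    rw [h.eq, ← hψ.add, ← hψ.add, add_comm]

/-- the two estimates, for all maps `ψ_s ∘ F` with small `s` -/
theorem main (r : ℕ∞) (hr : 1 ≤ r) (F : DiffM n N r) (hF : OmegaStable n N r F)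
    {ψ : ℝ → N → N} (hψ : IsFlow n N ψ) {θ : N → ℝ → ℝ} (hθ : OrbitMap (F : N → N) ψ θ) :
    ∃ ε : ℝ, 0 < ε ∧ ∀ s : ℝ, |s| < ε → ∀ (m : ℕ) (z : N) (c : ℝ), 1 ≤ m →
      (fun y => ψ s (F y))^[m] z = ψ c z → (∃ t, ψ t z ≠ z) →
      (∀ t t' : ℝ, iterTime (fun y => ψ s (F y)) θ m z t + c = t →
        iterTime (fun y => ψ s (F y)) θ m z t' + c = t' → t ≠ t' → ε ≤ |t - t'|) ∧
      ∀ T : ℝ, ClosedOrbit ψ T z →
        (Per (fun y => ψ s (F y)) ∩ range fun t => ψ t z).Nonempty ∧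
        (Per (fun y => ψ s (F y)) ∩ range fun t => ψ t z).Finite ∧
        ((Per (fun y => ψ s (F y)) ∩ range fun t => ψ t z).ncard : ℝ) ≤ T / ε := by
  rcases isEmpty_or_nonempty N with hN | ⟨⟨z₀⟩⟩
  · exact ⟨1, one_pos, fun s _ m z => (hN.false z).elim⟩
  obtain ⟨κ, hκ, hyp⟩ := all_hyp r hr F hF hψ z₀
  refine ⟨κ / 2, half_pos hκ, fun s hs m z c hm hz hnf => ?_⟩
  have hyp' := hyp.shift hψ hs
  have hθ' := hθ.push hψ s
  have hinj : Function.Injective (fun y => ψ s (F y)) := by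
    intro y y' hy
    have h1 : ψ s (F y) = ψ s (F y') := hy
    have h2 := congrArg (ψ (-s)) h1
    rw [← hψ.add, ← hψ.add, neg_add_cancel, hψ.zero, hψ.zero] at h2
    exact F.injective h2
  exact ⟨fun t t' ht ht' htt => gap_main (half_pos hκ) hψ hθ' hyp' hm hnf hz ht ht' htt,
    fun T hT => closed_main (half_pos hκ) hψ hθ' hinj hyp' hm hT hz⟩

/-- recurrent points on periodic closed orbits are periodic -/
theorem rec_per (r : ℕ∞) (hr : 1 ≤ r) (F : DiffM n N r) (hF : OmegaStable n N r F)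
    {ψ : ℝ → N → N} (hψ : IsFlow n N ψ) {θ : N → ℝ → ℝ} (hθ : OrbitMap (F : N → N) ψ θ)
    {z : N} (hrec : z ∈ Rec (F : N → N)) {m : ℕ} {c : ℝ} (hm : 1 ≤ m)
    (hz : (F : N → N)^[m] z = ψ c z) {T : ℝ} (hT : T ≠ 0) (hzT : ψ T z = z) :
    z ∈ Per (F : N → N) := by
  by_cases hnf : ∃ t, ψ t z ≠ z
  · obtain ⟨T₀, hT₀⟩ := exists_least hψ hT hzT hnf
    obtain ⟨κ, hκ, hyp⟩ := all_hyp r hr F hF hψ z
    exact per_of_rec_closed hκ hψ hθ F.continuous F.injective hyp hm hT₀ hz hrec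
  · push Not at hnf
    exact ⟨m, hm, by rw [hz, hnf]⟩

end Pool.Agent.J4.H98.Orb
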