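import Pool.Agent.J4.H98.RotDefs

/-!
# The greatest rotation number on a compact invariant set
-/

set_option autoImplicit false

open Filter Set Topology

universe u

namespace Pool.Agent.J4.H98.Rot

open Pool.Agent.TH80.OMS

/-- Birkhoff sums -/
def S {N : Type u} (G : N → N) (β : N → ℝ) (k : ℕ) (x : N) : ℝ :=
  ∑ i ∈ Finset.range k, β (G^[i] x)

section basic

variable {N : Type u} {G : N → N} {β : N → ℝ}

theorem S_zero (x : N) : S G β 0 x = 0 := by simp [S]

theorem S_succ (k : ℕ) (x : N) : S G β (k + 1) x = S G β k x + β (G^[k] x) :=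
  Finset.sum_range_succ _ _

theorem S_add (k l : ℕ) (x : N) : S G β (k + l) x = S G β k x + S G β l (G^[k] x) := by
  induction l with
  | zero => simp [S]
  | succ l ih =>
    rw [← add_assoc, S_succ, ih, S_succ, add_assoc]
    congr 2
    rw [← Function.iterate_add_apply, add_comm]

theorem S_one (x : N) : S G β 1 x = β x := by simp [S]

theorem S_succ' (k : ℕ) (x : N) : S G β (k + 1) x = β x + S G β k (G x) := by
  rw [add_comm k 1, S_add, S_one]
  rfl

theorem S_neg (k : ℕ) (x : N) : S G (fun y => -β y) k x = -S G β k x := by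
  simp [S]

theorem iter_mem {K : Set N} (hG : MapsTo G K K) (k : ℕ) {x : N} (hx : x ∈ K) : G^[k] x ∈ K := by
  exact hG.iterate k hx

theorem S_le {K : Set N} (hG : MapsTo G K K) {M : ℝ} (hM : ∀ x ∈ K, β x ≤ M) (k : ℕ) {x : N}
    (hx : x ∈ K) : S G β k x ≤ k * M := by
  unfold S
  calc ∑ i ∈ Finset.range k, β (G^[i] x) ≤ ∑ _i ∈ Finset.range k, M :=
        Finset.sum_le_sum fun i _ => hM _ (iter_mem hG i hx)
    _ = k * M := by simp

theorem le_S {K : Set N} (hG : MapsTo G K K) {M : ℝ} (hM : ∀ x ∈ K, M ≤ β x) (k : ℕ) {x : N}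
    (hx : x ∈ K) : k * M ≤ S G β k x := by
  unfold S
  calc (k : ℝ) * M = ∑ _i ∈ Finset.range k, M := by simp
    _ ≤ ∑ i ∈ Finset.range k, β (G^[i] x) :=
        Finset.sum_le_sum fun i _ => hM _ (iter_mem hG i hx)

theorem S_cont [TopologicalSpace N] {K : Set N} (hGc : Continuous G) (hG : MapsTo G K K)
    (hβ : ContinuousOn β K) (k : ℕ) : ContinuousOn (S G β k) K := by
  unfold S
  refine continuousOn_finsetSum _ fun i _ => ?_
  exact hβ.comp (hGc.iterate i).continuousOn (fun x hx => iter_mem hG i hx)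

end basic

section top

variable {N : Type u} [TopologicalSpace N] [T2Space N] {G : N → N} {β : N → ℝ} {K : Set N}

/-- points with good sums up to a finite time accumulate at points with good sums for all times -/
theorem good_limit (hK : IsCompact K) (hGc : Continuous G) (hG : MapsTo G K K)
    (hβ : ContinuousOn β K) {c : ℝ} {P : ℕ → Set N} (hP : ∀ k, IsClosed (P k))
    (hPK : ∀ k, P k ⊆ K) (hmono : ∀ k, P (k + 1) ⊆ P k)
    (hne : ∀ k : ℕ, ∃ z ∈ P k, ∀ l : ℕ, l ≤ k → l * (c - 1 / (k + 1)) ≤ S G β l z) :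
    ∃ w, (∀ k, w ∈ P k) ∧ ∀ l : ℕ, l * c ≤ S G β l w := by
  set E : ℕ → Set N := fun k =>
    P k ∩ ⋂ l : {l : ℕ // l ≤ k}, (K ∩ S G β l ⁻¹' Ici ((l : ℕ) * (c - 1 / ((k : ℝ) + 1)))) with hE
  have hcl : ∀ k, IsClosed (E k) := by
    intro k
    refine (hP k).inter (isClosed_iInter fun l => ?_)
    exact (S_cont hGc hG hβ l).preimage_isClosed_of_isClosed hK.isClosed isClosed_Ici
  have hEne : ∀ k, (E k).Nonempty := by
    intro k
    obtain ⟨z, hz, hl⟩ := hne k
    refine ⟨z, hz, ?_⟩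
    rw [mem_iInter]
    rintro ⟨l, hlk⟩
    exact ⟨hPK k hz, hl l hlk⟩
  have hdec : ∀ k, E (k + 1) ⊆ E k := by
    rintro k z ⟨hz1, hz2⟩
    refine ⟨hmono k hz1, ?_⟩
    rw [mem_iInter] at hz2 ⊢
    rintro ⟨l, hlk⟩
    obtain ⟨h1, h2⟩ := hz2 ⟨l, hlk.trans (Nat.le_succ k)⟩
    refine ⟨h1, ?_⟩
    have h2' : (l : ℝ) * (c - 1 / (((k + 1 : ℕ) : ℝ) + 1)) ≤ S G β l z := h2
    show (l : ℝ) * (c - 1 / ((k : ℝ) + 1)) ≤ S G β l z
    refine le_trans ?_ h2'
    have h3 : 1 / (((k + 1 : ℕ) : ℝ) + 1) ≤ 1 / ((k : ℝ) + 1) := by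
      apply one_div_le_one_div_of_le
      · positivity
      · push_cast; linarith
    exact mul_le_mul_of_nonneg_left (by linarith) (Nat.cast_nonneg l)
  have hcomp : IsCompact (E 0) := hK.of_isClosed_subset (hcl 0) (fun z hz => hPK 0 hz.1)
  obtain ⟨w, hw⟩ := IsCompact.nonempty_iInter_of_sequence_nonempty_isCompact_isClosed E hdec hEne
    hcomp hcl
  rw [mem_iInter] at hw
  refine ⟨w, fun k => (hw k).1, fun l => ?_⟩
  have h1 : ∀ᶠ k : ℕ in atTop, (l : ℝ) * (c - 1 / ((k : ℝ) + 1)) ≤ S G β l w := by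
    filter_upwards [eventually_ge_atTop l] with k hk
    have h2 := (hw k).2
    rw [mem_iInter] at h2
    exact (h2 ⟨l, hk⟩).2
  have h2 : Tendsto (fun k : ℕ => (l : ℝ) * (c - 1 / ((k : ℝ) + 1))) atTop (𝓝 (l * (c - 0))) :=
    tendsto_const_nhds.mul (tendsto_const_nhds.sub tendsto_one_div_add_atTop_nhds_zero_nat)
  rw [sub_zero] at h2
  exact le_of_tendsto h2 h1

/-- the points of the forward orbit of `z`, from time `k` on, and their limits -/
def Tail (G : N → N) (z : N) (k : ℕ) : Set N := closure {y | ∃ i : ℕ, k ≤ i ∧ G^[i] z = y}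

omit [T2Space N] in
theorem tail_omega {z w : N} (h : ∀ k, w ∈ Tail G z k) : w ∈ Omega G := by
  intro W hW hwW
  obtain ⟨y1, hy1, i, -, rfl⟩ := mem_closure_iff.1 (h 0) W hW hwW
  obtain ⟨y2, hy2, j, hj, rfl⟩ := mem_closure_iff.1 (h (i + 1)) W hW hwW
  refine ⟨j - i, by omega, _, hy1, ?_⟩
  rw [← Function.iterate_add_apply, Nat.sub_add_cancel (by omega)]
  exact hy2

/-- large sums along an orbit lead to a point of its limit set with large sums for all times -/
theorem good_of_frequently (hK : IsCompact K) (hGc : Continuous G) (hG : MapsTo G K K)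
    (hβ : ContinuousOn β K) {c : ℝ} {z : N} (hz : z ∈ K)
    (hf : ∃ᶠ m : ℕ in atTop, m * c ≤ S G β m z) :
    ∃ w ∈ K, w ∈ Omega G ∧ ∀ l : ℕ, l * c ≤ S G β l w := by
  obtain ⟨M, hM⟩ := (hK.image_of_continuousOn hβ).bddAbove
  have hM' : ∀ x ∈ K, β x ≤ M := fun x hx => hM ⟨x, hx, rfl⟩
  have key : ∀ k : ℕ, ∃ y ∈ (K ∩ Tail G z k), ∀ l : ℕ, l ≤ k →
      l * (c - 1 / ((k : ℝ) + 1)) ≤ S G β l y := by
    intro k
    set c' : ℝ := c - 1 / ((k : ℝ) + 1) with hc'
    set D : ℕ → ℝ := fun j => S G β j z - j * c' with hD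
    have hk0 : (0 : ℝ) < (k : ℝ) + 1 := by positivity
    obtain ⟨m₀, hm₀⟩ := exists_nat_gt (((k : ℝ) + 1) * (k * (|M| + |c'|) + |D k|))
    obtain ⟨m, hm, hmc⟩ := (frequently_atTop.1 hf) (max m₀ k)
    have hmm₀ : m₀ ≤ m := (le_max_left _ _).trans hm
    have hkm : k ≤ m := (le_max_right _ _).trans hm
    have hDm : k * (|M| + |c'|) + |D k| < D m := by
      have h1 : (m : ℝ) / (k + 1) ≤ D m := by
        have : (m : ℝ) * c - m * c' = m / (k + 1) := by
          rw [hc']; field_simp; ring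
        show (m : ℝ) / (k + 1) ≤ S G β m z - m * c'
        linarith
      refine lt_of_lt_of_le ?_ h1
      rw [lt_div_iff₀ hk0, mul_comm]
      exact hm₀.trans_le (by exact_mod_cast hmm₀)
    obtain ⟨i, hi, hmin⟩ := Finset.exists_min_image (Finset.Icc k m) D ⟨k, by simp [hkm]⟩
    rw [Finset.mem_Icc] at hi
    have hDi : D i ≤ D k := hmin k (by simp [hkm])
    have hik : i + k ≤ m := by
      by_contra hcon
      push Not at hcon
      obtain ⟨q, rfl⟩ : ∃ q, m = i + q := ⟨m - i, by omega⟩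
      have hq : q < k := by omega
      have h1 : D (i + q) - D i = S G β q (G^[i] z) - q * c' := by
        simp only [hD]
        rw [S_add]
        push_cast
        ring
      have h2 : S G β q (G^[i] z) ≤ q * M := S_le hG hM' q (iter_mem hG i hz)
      have h3 : (q : ℝ) * M - q * c' ≤ k * (|M| + |c'|) := by
        have h4 : (q : ℝ) ≤ k := by exact_mod_cast hq.le
        calc (q : ℝ) * M - q * c' = q * (M - c') := by ring
          _ ≤ q * (|M| + |c'|) := by
              apply mul_le_mul_of_nonneg_left _ (Nat.cast_nonneg q)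
              have := le_abs_self M
              have := neg_abs_le c'
              linarith
          _ ≤ k * (|M| + |c'|) := mul_le_mul_of_nonneg_right h4 (by positivity)
      have h5 := le_abs_self (D k)
      linarith
    refine ⟨G^[i] z, ⟨iter_mem hG i hz, subset_closure ⟨i, hi.1, rfl⟩⟩, fun l hl => ?_⟩
    have h1 := hmin (i + l) (by rw [Finset.mem_Icc]; omega)
    have h2 : D (i + l) - D i = S G β l (G^[i] z) - l * c' := by
      simp only [hD]
      rw [S_add]
      push_cast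
      ring
    linarith
  obtain ⟨w, hw, hl⟩ := good_limit (P := fun k => K ∩ Tail G z k) hK hGc hG hβ
    (fun k => hK.isClosed.inter isClosed_closure) (fun k => inter_subset_left)
    (fun k => inter_subset_inter_right _ (closure_mono (by
      rintro y ⟨i, hi, rfl⟩
      exact ⟨i, by omega, rfl⟩))) key
  exact ⟨w, (hw 0).1, tail_omega fun k => (hw k).2, hl⟩

/-- `c` is the greatest rotation number of the points of `K`. -/
structure Top (G : N → N) (K : Set N) (β : N → ℝ) (c : ℝ) : Prop where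
  att : ∃ w ∈ K, w ∈ Omega G ∧ ∀ l : ℕ, l * c ≤ S G β l w
  le : ∀ z ∈ K, ∀ c' : ℝ, (∃ᶠ m : ℕ in atTop, m * c' ≤ S G β m z) → c' ≤ c

theorem exists_top (hK : IsCompact K) (hne : K.Nonempty) (hGc : Continuous G)
    (hG : MapsTo G K K) (hβ : ContinuousOn β K) : ∃ c, Top G K β c := by
  obtain ⟨M, hM⟩ := (hK.image_of_continuousOn hβ).bddAbove
  have hM' : ∀ x ∈ K, β x ≤ M := fun x hx => hM ⟨x, hx, rfl⟩
  obtain ⟨M₁, hM₁⟩ := (hK.image_of_continuousOn hβ).bddBelow
  have hM₁' : ∀ x ∈ K, M₁ ≤ β x := fun x hx => hM₁ ⟨x, hx, rfl⟩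
  set B : Set ℝ := {c | ∃ z ∈ K, ∀ l : ℕ, l * c ≤ S G β l z} with hB
  have hBne : B.Nonempty := by
    obtain ⟨z, hz⟩ := hne
    exact ⟨M₁, z, hz, fun l => le_S hG hM₁' l hz⟩
  have hBb : BddAbove B := by
    refine ⟨M, ?_⟩
    rintro c ⟨z, hz, hl⟩
    have h1 := hl 1
    rw [S_one, Nat.cast_one, one_mul] at h1
    exact h1.trans (hM' z hz)
  have hmem : sSup B ∈ B := by
    have key : ∀ k : ℕ, ∃ z ∈ K, ∀ l : ℕ, l ≤ k →
        l * (sSup B - 1 / ((k : ℝ) + 1)) ≤ S G β l z := by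
      intro k
      obtain ⟨c, ⟨z, hz, hl⟩, hc⟩ := exists_lt_of_lt_csSup hBne
        (show sSup B - 1 / ((k : ℝ) + 1) < sSup B by
          have : (0 : ℝ) < 1 / ((k : ℝ) + 1) := by positivity
          linarith)
      refine ⟨z, hz, fun l _ => le_trans ?_ (hl l)⟩
      exact mul_le_mul_of_nonneg_left hc.le (Nat.cast_nonneg l)
    obtain ⟨w, hw, hl⟩ := good_limit (P := fun _ => K) hK hGc hG hβ
      (fun _ => hK.isClosed) (fun _ => subset_rfl) (fun _ => subset_rfl) key
    exact ⟨w, hw 0, hl⟩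
  obtain ⟨z, hz, hl⟩ := hmem
  obtain ⟨w, hw, hwO, hwl⟩ := good_of_frequently hK hGc hG hβ hz
    (Frequently.of_forall hl)
  refine ⟨sSup B, ⟨w, hw, hwO, hwl⟩, fun y hy c' hf => ?_⟩
  obtain ⟨w', hw', -, hl'⟩ := good_of_frequently hK hGc hG hβ hy hf
  exact le_csSup hBb ⟨w', hw', hl'⟩

omit [T2Space N] in
theorem Top.eventually_lt {c c' : ℝ} (h : Top G K β c) {z : N} (hz : z ∈ K) (hc : c < c') :
    ∀ᶠ m : ℕ in atTop, S G β m z < m * c' := by
  by_contra hcon
  have hf : ∃ᶠ m : ℕ in atTop, m * c' ≤ S G β m z := by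
    rw [not_eventually] at hcon
    exact hcon.mono fun m hm => not_lt.1 hm
  exact absurd (h.le z hz c' hf) (not_le.2 hc)

omit [T2Space N] in
theorem Top.cmp {G' : N → N} {β' : N → ℝ} {c c' δ : ℝ} (h : Top G K β c) (h' : Top G' K β' c')
    (hf : ∀ z ∈ K, ∃ᶠ m : ℕ in atTop, S G β m z - m * δ ≤ S G' β' m z) : c - δ ≤ c' := by
  obtain ⟨w, hw, -, hl⟩ := h.att
  refine h'.le w hw _ ((hf w hw).mono fun m hm => ?_)
  have := hl m
  linarith

omit [T2Space N] in
theorem Top.unique {c c' : ℝ} (h : Top G K β c) (h' : Top G K β c') : c = c' := by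
  apply le_antisymm
  · have := h.cmp (δ := 0) h' fun z _ => Frequently.of_forall fun m => by simp
    linarith
  · have := h'.cmp (δ := 0) h fun z _ => Frequently.of_forall fun m => by simp
    linarith

omit [T2Space N] in
theorem Top.isGreatest {c : ℝ} (h : Top G K β c) {C : Set N} (hC : K ∩ Omega G ⊆ C)
    (hC' : ∀ x ∈ C, G x ∈ K) : IsGreatest (Rots G C β) c := by
  constructor
  · obtain ⟨w, hw, hwO, hl⟩ := h.att
    refine ⟨w, hC ⟨hw, hwO⟩, ?_⟩
    refine tendsto_order.2 ⟨fun a ha => ?_, fun a ha => ?_⟩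
    · filter_upwards [eventually_ge_atTop 1] with k hk
      have hk0 : (0 : ℝ) < k := by exact_mod_cast hk
      rw [lt_div_iff₀ hk0]
      have h1 := hl k
      calc a * k < c * k := mul_lt_mul_of_pos_right ha hk0
        _ = k * c := mul_comm _ _
        _ ≤ _ := h1
    · filter_upwards [eventually_ge_atTop 1, h.eventually_lt hw ha] with k hk h1
      have hk0 : (0 : ℝ) < k := by exact_mod_cast hk
      rw [div_lt_iff₀ hk0, mul_comm]
      exact h1
  · rintro v ⟨x, hx, hv⟩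
    by_contra hcon
    push Not at hcon
    obtain ⟨c₁, hc₁, hc₁'⟩ := exists_between hcon
    obtain ⟨c₂, hc₂, hc₂'⟩ := exists_between hc₁'
    have h1 : ∀ᶠ k : ℕ in atTop, c₂ < (∑ i ∈ Finset.range k, β (G^[i] x)) / k :=
      hv.eventually (lt_mem_nhds hc₂')
    have h2 : ∀ᶠ k : ℕ in atTop, β x + k * c₁ < (k + 1 : ℕ) * c₂ := by
      obtain ⟨m, hm⟩ := exists_nat_gt ((β x - c₂) / (c₂ - c₁))
      filter_upwards [eventually_ge_atTop m] with k hk
      rw [div_lt_iff₀ (by linarith)] at hm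
      have : (m : ℝ) * (c₂ - c₁) ≤ k * (c₂ - c₁) :=
        mul_le_mul_of_nonneg_right (by exact_mod_cast hk) (by linarith)
      push_cast
      linarith
    have h3 : ∀ᶠ k : ℕ in atTop, k * c₁ ≤ S G β k (G x) := by
      filter_upwards [h2, (tendsto_add_atTop_nat 1).eventually h1] with k h4 h5
      have hk0 : (0 : ℝ) < (k + 1 : ℕ) := by positivity
      rw [lt_div_iff₀ hk0] at h5
      have h6 : (∑ i ∈ Finset.range (k + 1), β (G^[i] x)) = β x + S G β k (G x) := S_succ' k x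
      rw [h6] at h5
      linarith
    have := h.le (G x) (hC' x hx) c₁ h3.frequently
    linarith

end top

end Pool.Agent.J4.H98.Rot
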