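import Pool.Agent.J4.H98.RotA
import Pool.Agent.N102.UF.Fac

/-!
# Circle-valued cocycles over conjugate maps have countably many rotation sets
-/

set_option autoImplicit false
set_option linter.unusedSectionVars false

open Filter Set Topology

universe u

namespace Pool.Agent.J4.H98.Rot

open Pool.Agent.TH80.OMS Pool.Agent.N102.UF
open Pool.Agent.TH290.CL (ex ex_add ex_zero ex_eq_ex norm_ex ex_add_int ex_ne ex_eq ex_neg)

open scoped ComplexConjugate

/-- Data on a compact space. -/
structure CocData (X : Type u) [TopologicalSpace X] (T : X → X) (C : Set X) (a : X → ℂ)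
    (β : X → ℝ) : Prop where
  inv : ∀ x ∈ C, T x ∈ C
  contA : Continuous a
  off : ∀ x, x ∉ C → a x = 0
  one : ∀ x ∈ C, ‖a x‖ = 1
  contB : Continuous β
  eq : ∀ x ∈ C, a (T x) = ex (β x) * a x

/-- angles near an integer -/
theorem near_int {t : ℝ} (h : ‖ex t - 1‖ < 1 / 4) : ∃ m : ℤ, |t - m| < 1 / 8 := by
  refine ⟨round t, ?_⟩
  by_contra hcon
  push Not at hcon
  set s : ℝ := t - round t with hs
  have h1 : |s| ≤ 1 / 2 := abs_sub_round t
  have h2 : ex t = ex s := by
    have : t = s + (round t : ℤ) := by rw [hs]; ring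
    rw [this, ex_add_int]
  have h3 : (ex s).re = Real.cos (2 * Real.pi * s) := by
    rw [ex_eq]
    exact Complex.exp_ofReal_mul_I_re _
  have hpi := Real.pi_pos
  have h4 : Real.cos (2 * Real.pi * s) ≤ Real.cos (Real.pi / 4) := by
    rw [← Real.cos_abs (2 * Real.pi * s)]
    have e : |2 * Real.pi * s| = 2 * Real.pi * |s| := by
      rw [abs_mul, abs_of_pos (by positivity : (0 : ℝ) < 2 * Real.pi)]
    rw [e]
    apply Real.cos_le_cos_of_nonneg_of_le_pi
    · positivity
    · nlinarith
    · nlinarith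
  have h5 : Real.cos (Real.pi / 4) ≤ 3 / 4 := by
    rw [Real.cos_pi_div_four]
    have : Real.sqrt 2 ≤ 3 / 2 := by
      rw [Real.sqrt_le_left (by norm_num)]
      norm_num
    linarith
  have h6 : (1 : ℝ) - (ex s).re ≤ ‖ex s - 1‖ := by
    have := Complex.abs_re_le_norm (ex s - 1)
    rw [Complex.sub_re, Complex.one_re] at this
    have h7 := neg_abs_le ((ex s).re - 1)
    linarith
  rw [h2] at h
  linarith

theorem S_cocycle {X : Type u} [TopologicalSpace X] {T : X → X} {C : Set X} {a : X → ℂ}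
    {β : X → ℝ} (h : CocData X T C a β) (k : ℕ) {x : X} (hx : x ∈ C) :
    a (T^[k] x) = ex (S T β k x) * a x := by
  induction k with
  | zero => simp [S_zero, ex_zero]
  | succ k ih =>
    rw [Function.iterate_succ_apply', h.eq _ (iter_mem h.inv k hx), ih, S_succ, ex_add]
    ring

theorem unit_cancel {z : ℂ} (hz : ‖z‖ = 1) : z * conj z = 1 := by
  rw [mul_comm, ← Complex.normSq_eq_conj_mul_self, Complex.normSq_eq_norm_sq, hz]
  norm_num

theorem CocData.close {X : Type u} [TopologicalSpace X] {T : X → X} {C C' : Set X} {a a' : X → ℂ}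
    {β β' : X → ℝ} (h : CocData X T C a β) (h' : CocData X T C' a' β')
    (ha : ∀ x, ‖a x - a' x‖ < 1 / 8) (hb : ∀ x, |β x - β' x| < 1 / 4) :
    C = C' ∧ ∀ x ∈ C, ∀ k : ℕ, |S T β k x - S T β' k x| < 1 / 8 := by
  have hC : C = C' := by
    ext x
    by_cases hx : x ∈ C
    · by_cases hx' : x ∈ C'
      · exact ⟨fun _ => hx', fun _ => hx⟩
      · have := ha x
        rw [h'.off x hx', sub_zero, h.one x hx] at this
        norm_num at this
    · by_cases hx' : x ∈ C'
      · have := ha x
        rw [h.off x hx, zero_sub, norm_neg, h'.one x hx'] at this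
        norm_num at this
      · exact ⟨fun h1 => absurd h1 hx, fun h1 => absurd h1 hx'⟩
  refine ⟨hC, fun x hx k => ?_⟩
  subst hC
  have hD : ∀ k : ℕ, ‖ex (S T β k x - S T β' k x) - 1‖ < 1 / 4 := by
    intro k
    have h1 := S_cocycle h k hx
    have h2 := S_cocycle h' k hx
    have hy := iter_mem h.inv k hx
    set y := T^[k] x
    have e1 : ex (S T β k x - S T β' k x) = (a y * conj (a' y)) * conj (a x * conj (a' x)) := by
      have h3 : a y * conj (a' y) =
          ex (S T β k x - S T β' k x) * (a x * conj (a' x)) := by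
        rw [h1, h2, map_mul, sub_eq_add_neg, ex_add, ex_neg]
        ring
      have h4 : ‖a x * conj (a' x)‖ = 1 := by
        rw [norm_mul, RCLike.norm_conj, h.one x hx, h'.one x hx, one_mul]
      rw [h3, mul_assoc, unit_cancel h4, mul_one]
    have hq : ∀ z ∈ C, ‖a z * conj (a' z) - 1‖ < 1 / 8 := by
      intro z hz
      have h3 : a z * conj (a' z) - 1 = (a z - a' z) * conj (a' z) := by
        rw [sub_mul, unit_cancel (h'.one z hz)]
      rw [h3, norm_mul, RCLike.norm_conj, h'.one z hz, mul_one]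
      exact ha z
    rw [e1]
    have h5 : (a y * conj (a' y)) * conj (a x * conj (a' x)) - 1 =
        (a y * conj (a' y) - 1) * conj (a x * conj (a' x)) + conj (a x * conj (a' x) - 1) := by
      rw [map_sub, map_one]
      ring
    rw [h5]
    refine (norm_add_le _ _).trans_lt ?_
    rw [norm_mul, RCLike.norm_conj, RCLike.norm_conj, norm_mul, RCLike.norm_conj, h.one x hx,
      h'.one x hx, one_mul, mul_one]
    have h6 := hq y hy
    have h7 := hq x hx
    linarith
  induction k with
  | zero => rw [S_zero, S_zero]; norm_num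
  | succ k ih =>
    obtain ⟨m, hm⟩ := near_int (hD (k + 1))
    have h1 := hb (T^[k] x)
    have h2 : |(m : ℝ)| < 1 := by
      rw [abs_lt] at hm ih h1 ⊢
      rw [S_succ, S_succ] at hm
      constructor <;> linarith
    have h3 : m = 0 := by
      have h4 : |m| < 1 := by exact_mod_cast h2
      exact Int.abs_lt_one_iff.1 h4
    rw [h3] at hm
    simpa using hm

theorem rots_congr {X : Type u} {T : X → X} {C : Set X} {β β' : X → ℝ} {M : ℝ}
    (h : ∀ x ∈ C, ∀ k : ℕ, |S T β k x - S T β' k x| ≤ M) : Rots T C β ⊆ Rots T C β' := by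
  rintro v ⟨x, hx, hv⟩
  refine ⟨x, hx, ?_⟩
  have h1 : Tendsto (fun k : ℕ => (S T β' k x - S T β k x) / (k : ℝ)) atTop (𝓝 0) := by
    refine squeeze_zero_norm (a := fun k : ℕ => |M| / (k : ℝ)) (fun k => ?_)
      (tendsto_const_div_atTop_nhds_zero_nat |M|)
    rw [Real.norm_eq_abs, abs_div, Nat.abs_cast]
    apply div_le_div_of_nonneg_right _ (Nat.cast_nonneg k)
    rw [abs_sub_comm]
    exact (h x hx k).trans (le_abs_self M)
  have h2 := hv.add h1
  rw [add_zero] at h2
  refine h2.congr fun k => ?_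
  rw [← add_div]
  congr 1
  show S T β k x + (S T β' k x - S T β k x) = S T β' k x
  ring

/-- On a compact metrizable space there are only countably many rotation sets. -/
theorem countable_rots {X : Type u} [TopologicalSpace X] [CompactSpace X] [T2Space X]
    [SecondCountableTopology X] (T : X → X) :
    {R : Set ℝ | ∃ (C : Set X) (a : X → ℂ) (β : X → ℝ), CocData X T C a β ∧
      R = Rots T C β}.Countable := by
  classical
  obtain ⟨D, hDc, hDd⟩ := TopologicalSpace.exists_countable_dense (C(X, ℂ) × C(X, ℝ))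
  set Q : C(X, ℂ) × C(X, ℝ) → Set (Set ℝ) := fun d =>
    {R : Set ℝ | ∃ (C : Set X) (p : C(X, ℂ) × C(X, ℝ)), CocData X T C p.1 p.2 ∧
      dist p d < 1 / 16 ∧ R = Rots T C p.2} with hQ
  have hsub : {R : Set ℝ | ∃ (C : Set X) (a : X → ℂ) (β : X → ℝ), CocData X T C a β ∧
      R = Rots T C β} ⊆ ⋃ d ∈ D, Q d := by
    rintro R ⟨C, a, β, h, rfl⟩
    obtain ⟨d, hd, hdist⟩ := hDd.exists_dist_lt ((⟨a, h.contA⟩ : C(X, ℂ)),
      (⟨β, h.contB⟩ : C(X, ℝ))) (show (0 : ℝ) < 1 / 16 by norm_num)
    rw [mem_iUnion₂]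
    exact ⟨d, hd, C, (⟨a, h.contA⟩, ⟨β, h.contB⟩), h, hdist, rfl⟩
  refine Set.Countable.mono hsub (hDc.biUnion fun d _ => Set.Subsingleton.countable ?_)
  rintro R ⟨C, p, hp, hpd, rfl⟩ R' ⟨C', p', hp', hpd', rfl⟩
  have hpp : dist p p' < 1 / 8 := by
    have := dist_triangle_right p p' d
    linarith
  have ha : ∀ x, ‖p.1 x - p'.1 x‖ < 1 / 8 := by
    intro x
    calc ‖p.1 x - p'.1 x‖ = dist (p.1 x) (p'.1 x) := (dist_eq_norm _ _).symm
      _ ≤ dist p.1 p'.1 := ContinuousMap.dist_apply_le_dist x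
      _ ≤ dist p p' := le_max_left _ _
      _ < 1 / 8 := hpp
  have hb : ∀ x, |p.2 x - p'.2 x| < 1 / 8 := by
    intro x
    calc |p.2 x - p'.2 x| = dist (p.2 x) (p'.2 x) := (Real.dist_eq _ _).symm
      _ ≤ dist p.2 p'.2 := ContinuousMap.dist_apply_le_dist x
      _ ≤ dist p p' := le_max_right _ _
      _ < 1 / 8 := hpp
  obtain ⟨hC, hS⟩ := hp.close hp' ha (fun x => (hb x).trans (by norm_num))
  subst hC
  apply Subset.antisymm
  · exact rots_congr (M := 1 / 8) fun x hx k => (hS x hx k).le
  · exact rots_congr (M := 1 / 8) fun x hx k => by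
      rw [abs_sub_comm]
      exact (hS x hx k).le

section trans

variable {N : Type u} [TopologicalSpace N] [T2Space N] [CompactSpace N]

open Classical in
theorem OmegaCocycle.transfer {F G : N → N} (hF : Continuous F) {C : Set N} {a : N → ℂ}
    {β : N → ℝ} (hE : OmegaCocycle G C a β) (h : Omega F ≃ₜ Omega G)
    (hh : ∀ x y : Omega F, F x = y → G (h x) = h y) :
    CocData (Omega F) (fun x => ⟨F x, omega_maps hF x.2⟩) {x | (h x : N) ∈ C}
      (fun x => if (h x : N) ∈ C then a (h x) else 0)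
      (fun x => if (h x : N) ∈ C then β (h x) else 0) := by
  have hG : ∀ x : Omega F, (h ⟨F x, omega_maps hF x.2⟩ : N) = G (h x) :=
    fun x => (hh x ⟨F x, omega_maps hF x.2⟩ rfl).symm
  have hval : Continuous fun x : Omega F => (h x : N) := continuous_subtype_val.comp h.continuous
  have hcont : ∀ {E : Type} [TopologicalSpace E] [Zero E] (u : N → E), ContinuousOn u C →
      Continuous fun x : Omega F => if (h x : N) ∈ C then u (h x) else 0 := by
    intro E _ _ u hu
    rw [continuous_iff_continuousAt]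
    intro x
    by_cases hx : (h x : N) ∈ C
    · have hev : ∀ᶠ z in 𝓝 x, (h z : N) ∈ C := by
        have h1 : ∀ᶠ z in 𝓝 x, (h z : N) ∈ (Omega G \ C)ᶜ :=
          hval.continuousAt (hE.closed'.isOpen_compl.mem_nhds fun h2 => h2.2 hx)
        filter_upwards [h1] with z hz
        by_contra hzC
        exact hz ⟨(h z).2, hzC⟩
      have h2 : Tendsto (fun z : Omega F => (h z : N)) (𝓝 x) (𝓝[C] (h x : N)) :=
        tendsto_nhdsWithin_iff.2 ⟨hval.continuousAt, hev⟩
      have h3 : Tendsto (fun z : Omega F => u (h z)) (𝓝 x) (𝓝 (u (h x))) :=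
        (hu _ hx).tendsto.comp h2
      have h4 : (fun z : Omega F => if (h z : N) ∈ C then u (h z) else 0) =ᶠ[𝓝 x]
          fun z => u (h z) := by
        filter_upwards [hev] with z hz
        exact if_pos hz
      exact (ContinuousAt.congr (f := fun z : Omega F => u (h z)) h3 h4.symm)
    · have hev : ∀ᶠ z in 𝓝 x, (h z : N) ∈ Cᶜ :=
        hval.continuousAt (hE.closed.isOpen_compl.mem_nhds hx)
      have h4 : (fun z : Omega F => if (h z : N) ∈ C then u (h z) else 0) =ᶠ[𝓝 x]
          fun _ => (0 : E) := by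
        filter_upwards [hev] with z hz
        exact if_neg hz
      exact continuousAt_const.congr h4.symm
  refine
    { inv := ?_
      contA := hcont a hE.contA
      off := ?_
      one := ?_
      contB := hcont β hE.contB
      eq := ?_ }
  · intro x hx
    show (h ⟨F x, omega_maps hF x.2⟩ : N) ∈ C
    rw [hG]
    exact hE.inv _ hx
  · intro x hx
    exact if_neg hx
  · intro x hx
    have hx2 : (h x : N) ∈ C := hx
    show ‖(if (h x : N) ∈ C then a (h x) else 0)‖ = 1
    rw [if_pos hx2]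
    exact hE.one _ hx
  · intro x hx
    have hx2 : (h x : N) ∈ C := hx
    have hx' : (h ⟨F x, omega_maps hF x.2⟩ : N) ∈ C := by
      rw [hG]
      exact hE.inv _ hx2
    show (if (h ⟨F x, omega_maps hF x.2⟩ : N) ∈ C then
      a (h ⟨F x, omega_maps hF x.2⟩) else 0) =
        ex (if (h x : N) ∈ C then β (h x) else 0) * (if (h x : N) ∈ C then a (h x) else 0)
    rw [if_pos hx', if_pos hx2, if_pos hx2, hG]
    exact hE.eq _ hx

open Classical in
theorem OmegaCocycle.rots_eq {F G : N → N} (hF : Continuous F) {C : Set N} {a : N → ℂ}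
    {β : N → ℝ} (hE : OmegaCocycle G C a β) (h : Omega F ≃ₜ Omega G)
    (hh : ∀ x y : Omega F, F x = y → G (h x) = h y) :
    Rots G C β = Rots (fun x : Omega F => (⟨F x, omega_maps hF x.2⟩ : Omega F))
      {x | (h x : N) ∈ C} (fun x => if (h x : N) ∈ C then β (h x) else 0) := by
  set T : Omega F → Omega F := fun x => ⟨F x, omega_maps hF x.2⟩ with hT
  have hG : ∀ x : Omega F, (h (T x) : N) = G (h x) :=
    fun x => (hh x ⟨F x, omega_maps hF x.2⟩ rfl).symm
  have hGi : ∀ (k : ℕ) (x : Omega F), (h (T^[k] x) : N) = G^[k] (h x) := by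
    intro k
    induction k with
    | zero => intro x; rfl
    | succ k ih =>
      intro x
      rw [Function.iterate_succ_apply', Function.iterate_succ_apply', hG, ih]
  have hin : ∀ (k : ℕ) (y : N), y ∈ C → G^[k] y ∈ C := fun k y hy => iter_mem hE.inv k hy
  have hS : ∀ (k : ℕ) (x : Omega F), (h x : N) ∈ C →
      ∑ i ∈ Finset.range k, (if (h (T^[i] x) : N) ∈ C then β (h (T^[i] x)) else 0) =
        ∑ i ∈ Finset.range k, β (G^[i] (h x)) := by
    intro k x hx
    refine Finset.sum_congr rfl fun i _ => ?_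
    rw [hGi, if_pos (hin i _ hx)]
  ext v
  constructor
  · rintro ⟨y, hy, hv⟩
    have hx : (h (h.symm ⟨y, hE.sub hy⟩) : N) = y := by rw [h.apply_symm_apply]
    refine ⟨h.symm ⟨y, hE.sub hy⟩, ?_, ?_⟩
    · show (h (h.symm ⟨y, hE.sub hy⟩) : N) ∈ C
      rw [hx]
      exact hy
    · refine hv.congr fun k => ?_
      rw [hS k _ (by rw [hx]; exact hy), hx]
  · rintro ⟨x, hx, hv⟩
    refine ⟨h x, hx, hv.congr fun k => ?_⟩
    rw [hS k x hx]

/-- The rotation sets of all maps `Ω`-conjugate to `F` form a countable set. -/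
theorem countable_conj_rots [SecondCountableTopology N] {F : N → N} (hF : Continuous F) :
    {R : Set ℝ | ∃ (G : N → N) (C : Set N) (a : N → ℂ) (β : N → ℝ), OmegaConj F G ∧
      OmegaCocycle G C a β ∧ R = Rots G C β}.Countable := by
  classical
  have : CompactSpace (Omega F) := isCompact_iff_compactSpace.1 (omega_closed F).isCompact
  refine (countable_rots (X := Omega F) (fun x => ⟨F x, omega_maps hF x.2⟩)).mono ?_
  rintro R ⟨G, C, a, β, ⟨h, hh⟩, hE, rfl⟩
  exact ⟨_, _, _, hE.transfer hF h hh, hE.rots_eq hF h hh⟩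

end trans

end Pool.Agent.J4.H98.Rot
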