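import Pool.Agent.J4.H98.RotB
import Pool.Agent.N102.UF.Main

/-!
# The greatest rotation number is locked
-/

set_option autoImplicit false
set_option linter.unusedSectionVars false

open scoped Manifold ContDiff Topology
open Filter Set

universe u

namespace Pool.Agent.J4.H98.Rot

open Pool.Agent.H718R2.G Pool.Agent.TH80.OMS Pool.Agent.TH80.CLX Pool.Agent.N102.UF
open Pool.Agent.TH290.CL (ex ex_add ex_zero ex_eq_ex norm_ex ex_add_int ex_ne ex_eq ex_neg IsFlow)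

/-- A continuous family with countably many possible greatest rotation numbers has only one. -/
theorem lock {N : Type u} [TopologicalSpace N] [T2Space N] {κ : ℝ} (hκ : 0 < κ) {K : Set N}
    (hK : IsCompact K) (hne : K.Nonempty) {G : ℝ → N → N} {β : ℝ → N → ℝ}
    (hGc : ∀ s, |s| < κ → Continuous (G s)) (hG : ∀ s, |s| < κ → MapsTo (G s) K K)
    (hβ : ∀ s, |s| < κ → ContinuousOn (β s) K) {𝒱 : Set (Set ℝ)} (h𝒱 : 𝒱.Countable)
    (hrot : ∀ s, |s| < κ → ∃ C : Set N, K ∩ Omega (G s) ⊆ C ∧ (∀ x ∈ C, G s x ∈ K) ∧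
      Rots (G s) C (β s) ∈ 𝒱)
    (hcmp : ∀ s₀, |s₀| < κ → ∀ δ : ℝ, 0 < δ → ∃ η : ℝ, 0 < η ∧ ∀ s, |s| < κ → |s - s₀| < η →
      ∀ z ∈ K, ∃ᶠ m : ℕ in atTop, |S (G s) (β s) m z - S (G s₀) (β s₀) m z| ≤ m * δ) :
    ∃ c, ∀ s, |s| < κ → Top (G s) K (β s) c := by
  have hex : ∀ s, |s| < κ → ∃ c, Top (G s) K (β s) c := fun s hs =>
    exists_top hK hne (hGc s hs) (hG s hs) (hβ s hs)
  choose! c hc using hex
  have hcont : ContinuousOn c (Ioo (-κ) κ) := by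
    rw [Metric.continuousOn_iff]
    intro s₀ hs₀ ε hε
    have hs₀' : |s₀| < κ := abs_lt.2 hs₀
    obtain ⟨η, hη, h⟩ := hcmp s₀ hs₀' (ε / 2) (half_pos hε)
    refine ⟨η, hη, fun s hs hd => ?_⟩
    have hs' : |s| < κ := abs_lt.2 hs
    have h1 := h s hs' (by rwa [← Real.dist_eq])
    rw [Real.dist_eq]
    have h2 : c s₀ - ε / 2 ≤ c s := (hc s₀ hs₀').cmp (hc s hs') fun z hz =>
      (h1 z hz).mono fun m hm => by
        have := (abs_le.1 hm).1
        linarith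
    have h3 : c s - ε / 2 ≤ c s₀ := (hc s hs').cmp (hc s₀ hs₀') fun z hz =>
      (h1 z hz).mono fun m hm => by
        have := (abs_le.1 hm).2
        linarith
    rw [abs_lt]
    constructor <;> linarith
  have hcount : (c '' Ioo (-κ) κ).Countable := by
    have h1 : (⋃ R ∈ 𝒱, {v : ℝ | IsGreatest R v}).Countable := by
      refine h𝒱.biUnion fun R _ => Set.Subsingleton.countable ?_
      intro v hv w hw
      exact hv.unique hw
    refine h1.mono ?_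
    rintro _ ⟨s, hs, rfl⟩
    have hs' : |s| < κ := abs_lt.2 hs
    obtain ⟨C, hC1, hC2, hC3⟩ := hrot s hs'
    rw [mem_iUnion₂]
    exact ⟨_, hC3, (hc s hs').isGreatest hC1 hC2⟩
  have hpre : IsPreconnected (c '' Ioo (-κ) κ) := isPreconnected_Ioo.image c hcont
  have hsub := hcount.isTotallyDisconnected _ subset_rfl hpre
  refine ⟨c 0, fun s hs => ?_⟩
  have h0 : (0 : ℝ) ∈ Ioo (-κ) κ := ⟨by linarith, hκ⟩
  have := hsub ⟨s, abs_lt.1 hs, rfl⟩ ⟨0, h0, rfl⟩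
  rw [← this]
  exact hc s hs

variable {n : ℕ} {N : Type u} [TopologicalSpace N] [ChartedSpace (V n) N] [IsManifold (𝓡 n) ∞ N]
  [T2Space N] [CompactSpace N]

/-- The rotation sets of the maps near an `Ω`-stable one. -/
theorem rotation_sets (r : ℕ∞) (F : DiffM n N r) (hF : OmegaStable n N r F) :
    ∃ U : Set (DiffM n N r), IsOpen[strongTop n N r] U ∧ F ∈ U ∧ ∃ 𝒱 : Set (Set ℝ), 𝒱.Countable ∧
      ∀ G ∈ U, ∀ (C : Set N) (a : N → ℂ) (β : N → ℝ), OmegaCocycle G C a β → Rots G C β ∈ 𝒱 := by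
  have : SecondCountableTopology N := ChartedSpace.secondCountable_of_sigmaCompact (V n) N
  obtain ⟨U, hU, hFU, hc⟩ := hF
  exact ⟨U, hU, hFU, _, countable_conj_rots F.continuous,
    fun G hG C a β h => ⟨G, C, a, β, hc G hG, h, rfl⟩⟩

/-- the same along the family `ψ_s ∘ F` -/
theorem rotation_sets_flow (r : ℕ∞) (hr : 1 ≤ r) (F : DiffM n N r) (hF : OmegaStable n N r F)
    {ψ : ℝ → N → N} (hψ : IsFlow n N ψ) (z : N) :
    ∃ κ : ℝ, 0 < κ ∧ ∃ 𝒱 : Set (Set ℝ), 𝒱.Countable ∧ ∀ s, |s| < κ →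
      ∀ (C : Set N) (a : N → ℂ) (β : N → ℝ), OmegaCocycle (fun y => ψ s (F y)) C a β →
        Rots (fun y => ψ s (F y)) C β ∈ 𝒱 := by
  obtain ⟨U, hU, hFU, 𝒱, h𝒱, h⟩ := rotation_sets r F hF
  obtain ⟨H, hfam, hH, hH0⟩ := flow_fam hψ r F
  obtain ⟨κ, hκ, hmem⟩ := fam_mem r hr H hfam z U hU (by rw [hH0]; exact hFU)
  refine ⟨κ, hκ, 𝒱, h𝒱, fun s hs C a β hC => ?_⟩
  have e : (fun y => ψ s (F y)) = H s := by
    funext y
    exact (hH s y).symm
  rw [e] at hC ⊢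
  exact h (H s) (hmem s (by rwa [Real.norm_eq_abs])) C a β hC

/-! ### Pieces between two trapping regions -/

section piece

variable {N : Type u} [TopologicalSpace N] [T2Space N] [CompactSpace N] {G : N → N}
  {A₁ A₂ : Set N}

/-- a nonwandering point with image in a trapping region lies in the region -/
theorem mem_of_image_mem (hG : Continuous G) {A : Set N} (hAo : IsOpen A)
    (hA : ∀ y ∈ closure A, G y ∈ A) {y : N} (hy : y ∈ Omega G) (hGy : G y ∈ A) : y ∈ A := by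
  by_cases hfix : G y = y
  · rwa [hfix] at hGy
  refine trap_omega_mem hG hAo hA ?_ hy
  rw [mem_closure_iff]
  intro W hW hyW
  obtain ⟨W1, W2, hW1, hW2, hGy1, hy2, hdis⟩ := t2_separation hfix
  have hWo : IsOpen ((W ∩ W2) ∩ (G ⁻¹' (A ∩ W1))) :=
    (hW.inter hW2).inter ((hAo.inter hW1).preimage hG)
  obtain ⟨k, hk, z, hz, hkz⟩ := hy _ hWo ⟨⟨hyW, hy2⟩, hGy, hGy1⟩
  rcases Nat.eq_or_lt_of_le hk with h1 | h1
  · rw [← h1] at hkz
    exact absurd hkz.1.2 (Set.disjoint_left.1 hdis hz.2.2)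
  · obtain ⟨j, rfl⟩ : ∃ j, k = j + 1 := ⟨k - 1, by omega⟩
    refine ⟨_, hkz.1.1, ?_⟩
    rw [Function.iterate_succ_apply]
    exact trap_iter hA j _ hz.2.1

theorem piece_inv (hG : Continuous G) (h₁ : IsOpen A₁) (h₂ : IsOpen A₂)
    (t₁ : ∀ y ∈ closure A₁, G y ∈ A₁) (t₂ : ∀ y ∈ closure A₂, G y ∈ A₂) :
    ∀ y ∈ Omega G ∩ (A₁ \ A₂), G y ∈ Omega G ∩ (A₁ \ A₂) := by
  rintro y ⟨hyO, hy1, hy2⟩
  exact ⟨omega_maps hG hyO, t₁ y (subset_closure hy1),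
    fun h => hy2 (mem_of_image_mem hG h₂ t₂ hyO h)⟩

theorem piece_stay (hG : Continuous G) (h₁ : IsOpen A₁) (h₂ : IsOpen A₂)
    (t₁ : ∀ y ∈ closure A₁, G y ∈ A₁) (t₂ : ∀ y ∈ closure A₂, G y ∈ A₂) :
    Omega G ∩ (A₁ \ A₂) ⊆ Stay G A₁ A₂ := by
  rintro y hy
  refine ⟨hy.2.1, fun j => ?_⟩
  have : ∀ j : ℕ, G^[j] y ∈ Omega G ∩ (A₁ \ A₂) := by
    intro j
    induction j with
    | zero => exact hy
    | succ j ih =>
      rw [Function.iterate_succ_apply']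
      exact piece_inv hG h₁ h₂ t₁ t₂ _ ih
  exact (this j).2.2

theorem piece_closed (hG : Continuous G) (h₁ : IsOpen A₁) (h₂ : IsOpen A₂)
    (t₁ : ∀ y ∈ closure A₁, G y ∈ A₁) : IsClosed (Omega G ∩ (A₁ \ A₂)) := by
  have h := omega_inter_closed hG h₁ t₁ (omega_closed G)
  have : Omega G ∩ (A₁ \ A₂) = (Omega G ∩ A₁) ∩ A₂ᶜ := by
    rw [inter_assoc]
    rfl
  rw [this]
  exact h.inter h₂.isClosed_compl

theorem piece_closed' (hG : Continuous G) (h₁ : IsOpen A₁) (h₂ : IsOpen A₂)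
    (t₁ : ∀ y ∈ closure A₁, G y ∈ A₁) (t₂ : ∀ y ∈ closure A₂, G y ∈ A₂) :
    IsClosed (Omega G \ (Omega G ∩ (A₁ \ A₂))) := by
  have h := omega_inter_closed hG h₁ t₁ (omega_closed G)
  have h' := omega_inter_closed hG h₂ t₂ (omega_closed G)
  have : Omega G \ (Omega G ∩ (A₁ \ A₂)) = (Omega G ∩ A₁ᶜ) ∪ ((Omega G ∩ A₂)) := by
    ext y
    constructor
    · rintro ⟨hy, hy'⟩
      by_cases h3 : y ∈ A₁
      · right
        refine ⟨hy, ?_⟩
        by_contra h4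
        exact hy' ⟨hy, h3, h4⟩
      · exact Or.inl ⟨hy, h3⟩
    · rintro (⟨hy, hy'⟩ | ⟨hy, hy'⟩)
      · exact ⟨hy, fun h3 => hy' h3.2.1⟩
      · exact ⟨hy, fun h3 => h3.2.2 hy'⟩
  rw [this]
  exact ((omega_closed G).inter h₁.isClosed_compl).union h'

end piece

end Pool.Agent.J4.H98.Rot
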