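import Pool.Agent.J4.H98.RotC

/-!
# Fibred circle maps over arbitrary maps
-/

set_option autoImplicit false
set_option linter.unusedSectionVars false

open scoped Manifold ContDiff Topology ComplexConjugate
open Filter Set

universe u v

namespace Pool.Agent.J4.H98.Rot

open Pool.Agent.H718R2.G Pool.Agent.TH80.OMS Pool.Agent.TH80.CLX Pool.Agent.N102.UF
open Pool.Agent.TH290.CL (ex ex_add ex_zero ex_eq_ex norm_ex ex_add_int ex_ne ex_eq ex_neg IsFlow)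

theorem OmegaCocycle.conj {N : Type u} [TopologicalSpace N] {G : N → N} {C : Set N} {a : N → ℂ}
    {β : N → ℝ} (h : OmegaCocycle G C a β) :
    OmegaCocycle G C (fun y => conj (a y)) (fun y => -β y) where
  sub := h.sub
  closed := h.closed
  closed' := h.closed'
  inv := h.inv
  contA := Complex.continuous_conj.comp_continuousOn h.contA
  one := fun y hy => by rw [RCLike.norm_conj]; exact h.one y hy
  contB := h.contB.neg
  eq := fun y hy => by rw [h.eq y hy, map_mul, ex_neg]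

/-- both extremal rotation numbers are locked -/
theorem lock₂ {N : Type u} [TopologicalSpace N] [T2Space N] {κ : ℝ} (hκ : 0 < κ) {K : Set N}
    (hK : IsCompact K) (hne : K.Nonempty) {G : ℝ → N → N} {β : ℝ → N → ℝ} {a : N → ℂ}
    {C : ℝ → Set N}
    (hGc : ∀ s, |s| < κ → Continuous (G s)) (hG : ∀ s, |s| < κ → MapsTo (G s) K K)
    (hβ : ∀ s, |s| < κ → ContinuousOn (β s) K) {𝒱 : Set (Set ℝ)} (h𝒱 : 𝒱.Countable)
    (hV : ∀ s, |s| < κ → ∀ (C : Set N) (a : N → ℂ) (β : N → ℝ), OmegaCocycle (G s) C a β →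
      Rots (G s) C β ∈ 𝒱)
    (hcoc : ∀ s, |s| < κ → OmegaCocycle (G s) (C s) a (β s))
    (hC : ∀ s, |s| < κ → K ∩ Omega (G s) ⊆ C s) (hC' : ∀ s, |s| < κ → ∀ x ∈ C s, G s x ∈ K)
    (hcmp : ∀ s₀, |s₀| < κ → ∀ δ : ℝ, 0 < δ → ∃ η : ℝ, 0 < η ∧ ∀ s, |s| < κ → |s - s₀| < η →
      ∀ z ∈ K, ∃ᶠ m : ℕ in atTop, |S (G s) (β s) m z - S (G s₀) (β s₀) m z| ≤ m * δ) :
    ∃ c₁ c₂, ∀ s, |s| < κ → Top (G s) K (fun y => -β s y) (-c₁) ∧ Top (G s) K (β s) c₂ := by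
  obtain ⟨c₂, h₂⟩ := lock hκ hK hne hGc hG hβ h𝒱
    (fun s hs => ⟨C s, hC s hs, hC' s hs, hV s hs _ _ _ (hcoc s hs)⟩) hcmp
  obtain ⟨c₁, h₁⟩ := lock (β := fun s y => -β s y) hκ hK hne hGc hG
    (fun s hs => (hβ s hs).neg) h𝒱
    (fun s hs => ⟨C s, hC s hs, hC' s hs, hV s hs _ _ _ (hcoc s hs).conj⟩) (by
      intro s₀ hs₀ δ hδ
      obtain ⟨η, hη, h⟩ := hcmp s₀ hs₀ δ hδ
      refine ⟨η, hη, fun s hs hd z hz => (h s hs hd z hz).mono fun m hm => ?_⟩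
      rw [S_neg, S_neg]
      rw [show -S (G s) (β s) m z - -S (G s₀) (β s₀) m z =
        -(S (G s) (β s) m z - S (G s₀) (β s₀) m z) by ring, abs_neg]
      exact hm)
  exact ⟨-c₁, c₂, fun s hs => ⟨by rw [neg_neg]; exact h₁ s hs, h₂ s hs⟩⟩

theorem rots_neg {N : Type u} (G : N → N) (C : Set N) (β : N → ℝ) (v : ℝ) :
    v ∈ Rots G C (fun y => -β y) ↔ -v ∈ Rots G C β := by
  have e : ∀ (w : ℝ) (b : N → ℝ), w ∈ Rots G C b → -w ∈ Rots G C (fun y => -b y) := by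
    rintro w b ⟨x, hx, hv⟩
    refine ⟨x, hx, hv.neg.congr fun k => ?_⟩
    rw [Finset.sum_neg_distrib, neg_div]
  constructor
  · intro h
    have := e v _ h
    simpa using this
  · intro h
    have := e (-v) _ h
    simpa using this

theorem Top.isLeast {N : Type u} [TopologicalSpace N] {G : N → N} {K : Set N} {β : N → ℝ} {c : ℝ}
    (h : Top G K (fun y => -β y) (-c)) {C : Set N} (hC : K ∩ Omega G ⊆ C)
    (hC' : ∀ x ∈ C, G x ∈ K) : IsLeast (Rots G C β) c := by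
  obtain ⟨h1, h2⟩ := h.isGreatest hC hC'
  constructor
  · rw [rots_neg, neg_neg] at h1
    exact h1
  · intro v hv
    have h3 : -v ∈ Rots G C (fun y => -β y) := by rw [rots_neg, neg_neg]; exact hv
    have := h2 h3
    linarith

/-- small times of the flow do not destroy inclusions in open sets -/
theorem small_trap {N : Type u} [TopologicalSpace N] {ψ : ℝ → N → N}
    (hψ : Continuous fun q : ℝ × N => ψ q.1 q.2) (h0 : ∀ y, ψ 0 y = y) {F : N → N}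
    (hF : Continuous F) {C O : Set N} (hC : IsCompact C) (hO : IsOpen O)
    (h : ∀ y ∈ C, F y ∈ O) : ∃ κ : ℝ, 0 < κ ∧ ∀ s : ℝ, |s| < κ → ∀ y ∈ C, ψ s (F y) ∈ O := by
  have h1 : ∀ᶠ s in 𝓝 (0 : ℝ), ∀ y ∈ C, ψ s (F y) ∈ O := by
    apply hC.eventually_forall_of_forall_eventually
    intro y hy
    have h2 : Continuous fun q : ℝ × N => ψ q.1 (F q.2) :=
      hψ.comp (continuous_fst.prodMk (hF.comp continuous_snd))
    refine h2.continuousAt.eventually (hO.mem_nhds ?_)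
    show ψ 0 (F y) ∈ O
    rw [h0]
    exact h y hy
  obtain ⟨κ, hκ, h3⟩ := Metric.eventually_nhds_iff.1 h1
  refine ⟨κ, hκ, fun s hs => h3 ?_⟩
  rw [Real.dist_eq, sub_zero]
  exact hs

section lifts

variable {Y : Type v} (g : Y → CircleDeg1Lift) (f : Y → Y)

/-- the lifts of the iterates of the rotated fibre maps -/
noncomputable def LL (s : ℝ) (b : Y) : ℕ → CircleDeg1Lift
  | 0 => 1
  | k + 1 => rot (g (f^[k] b)) s * LL s b k

theorem LL_zero (s : ℝ) (b : Y) (t : ℝ) : LL g f s b 0 t = t := rfl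

theorem LL_succ (s : ℝ) (b : Y) (k : ℕ) (t : ℝ) :
    LL g f s b (k + 1) t = s + g (f^[k] b) (LL g f s b k t) := by
  show (rot (g (f^[k] b)) s * LL g f s b k) t = _
  rw [CircleDeg1Lift.mul_apply, rot_apply]

end lifts

/-- What is used about the perturbed maps -/
structure FibData {N : Type u} [TopologicalSpace N] {Y : Type v} (G : ℝ → N → N) (κ : ℝ)
    (A₁ A₂ : Set N) (p : N → Y) (f : Y → Y) (a : N → ℂ) (α : N → ℝ) (g : Y → CircleDeg1Lift) :
    Prop where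
  maps : ∀ s, |s| < κ → ∀ y ∈ A₁, G s y ∈ A₁
  sat : ∀ y ∈ A₁, ∀ z ∈ A₁, p y = p z → y ∈ A₂ → z ∈ A₂
  cov : ∀ s, |s| < κ → ∀ y ∈ A₁ \ A₂, p (G s y) = f (p y)
  one : ∀ y ∈ A₁ \ A₂, ‖a y‖ = 1
  fac : ∀ s, |s| < κ → ∀ y ∈ A₁ \ A₂, ∀ x : ℝ, a y = ex x →
    g (p y) x = x + α y ∧ (G s y ∉ A₂ → a (G s y) = ex (s + (x + α y)))

section fib

variable {N : Type u} [TopologicalSpace N] {Y : Type v} {G : ℝ → N → N} {κ : ℝ}
  {A₁ A₂ : Set N} {p : N → Y} {f : Y → Y} {a : N → ℂ} {α : N → ℝ} {g : Y → CircleDeg1Lift}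

theorem FibData.iter (h : FibData G κ A₁ A₂ p f a α g) {s : ℝ} (hs : |s| < κ) {y : N}
    (hy : y ∈ Stay (G s) A₁ A₂) (j : ℕ) :
    (G s)^[j] y ∈ A₁ \ A₂ ∧ p ((G s)^[j] y) = f^[j] (p y) := by
  induction j with
  | zero => exact ⟨⟨hy.1, hy.2 0⟩, rfl⟩
  | succ j ih =>
    have h1 : (G s)^[j + 1] y ∈ A₁ := by
      rw [Function.iterate_succ_apply']
      exact h.maps s hs _ ih.1.1
    refine ⟨⟨h1, hy.2 _⟩, ?_⟩
    rw [Function.iterate_succ_apply', Function.iterate_succ_apply', h.cov s hs _ ih.1, ih.2]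

theorem FibData.stay_of (h : FibData G κ A₁ A₂ p f a α g) {s s' : ℝ} (hs : |s| < κ)
    (hs' : |s'| < κ) {y y' : N} (hy : y ∈ Stay (G s) A₁ A₂) (hy' : y' ∈ A₁) (hp : p y' = p y) :
    y' ∈ Stay (G s') A₁ A₂ := by
  have key : ∀ j : ℕ, (G s')^[j] y' ∈ A₁ \ A₂ ∧ p ((G s')^[j] y') = f^[j] (p y) := by
    intro j
    induction j with
    | zero => exact ⟨⟨hy', fun hc => hy.2 0 (h.sat _ hy' _ hy.1 hp hc)⟩, hp⟩
    | succ j ih =>
      have h1 : (G s')^[j + 1] y' ∈ A₁ := by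
        rw [Function.iterate_succ_apply']
        exact h.maps s' hs' _ ih.1.1
      have h2 : p ((G s')^[j + 1] y') = f^[j + 1] (p y) := by
        rw [Function.iterate_succ_apply', Function.iterate_succ_apply', h.cov s' hs' _ ih.1, ih.2]
      have h3 := h.iter hs hy (j + 1)
      exact ⟨⟨h1, fun hc => h3.1.2 (h.sat _ h1 _ h3.1.1 (h2.trans h3.2.symm) hc)⟩, h2⟩
  exact ⟨hy', fun j => (key j).1.2⟩

theorem FibData.stay_eq (h : FibData G κ A₁ A₂ p f a α g) {s s' : ℝ} (hs : |s| < κ)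
    (hs' : |s'| < κ) : Stay (G s) A₁ A₂ = Stay (G s') A₁ A₂ :=
  Subset.antisymm (fun _ hy => h.stay_of hs hs' hy hy.1 rfl)
    (fun _ hy => h.stay_of hs' hs hy hy.1 rfl)

theorem FibData.lift (h : FibData G κ A₁ A₂ p f a α g) {s : ℝ} (hs : |s| < κ) {y : N}
    (hy : y ∈ Stay (G s) A₁ A₂) {t : ℝ} (ht : a y = ex t) (j : ℕ) :
    a ((G s)^[j] y) = ex (LL g f s (p y) j t) ∧
      LL g f s (p y) j t = t + S (G s) (fun z => α z + s) j y := by
  induction j with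
  | zero => exact ⟨ht, by rw [LL_zero, S_zero, add_zero]⟩
  | succ j ih =>
    obtain ⟨hW, hp⟩ := h.iter hs hy j
    obtain ⟨h1, h2⟩ := h.fac s hs _ hW _ ih.1
    have h3 : G s ((G s)^[j] y) ∉ A₂ := by
      have := hy.2 (j + 1)
      rwa [Function.iterate_succ_apply'] at this
    rw [hp] at h1
    have h4 := h2 h3
    refine ⟨?_, ?_⟩
    · rw [Function.iterate_succ_apply', h4, LL_succ, h1]
    · rw [LL_succ, h1, ih.2, S_succ]
      ring

theorem FibData.bound (h : FibData G κ A₁ A₂ p f a α g) {s : ℝ} (hs : |s| < κ) {y z : N}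
    (hy : y ∈ Stay (G s) A₁ A₂) (hz : z ∈ Stay (G s) A₁ A₂) (hp : p y = p z) (j : ℕ) :
    |S (G s) (fun z => α z + s) j y - S (G s) (fun z => α z + s) j z| ≤ 1 := by
  obtain ⟨t, ht⟩ : ∃ t : ℝ, a y = ex t := ⟨_, (exists_ex' (h.one y ⟨hy.1, hy.2 0⟩)).symm⟩
  obtain ⟨t₀, ht₀⟩ : ∃ t : ℝ, a z = ex t := ⟨_, (exists_ex' (h.one z ⟨hz.1, hz.2 0⟩)).symm⟩
  set t' : ℝ := t₀ + ((-⌊t₀ - t⌋ : ℤ) : ℝ) with ht'
  have hz' : a z = ex t' := by rw [ht', ex_add_int]; exact ht₀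
  have h1 := Int.floor_le (t₀ - t)
  have h2 := Int.lt_floor_add_one (t₀ - t)
  have h3 : t ≤ t' := by rw [ht']; push_cast; linarith
  have h4 : t' ≤ t + 1 := by rw [ht']; push_cast; linarith
  have h5 := (h.lift hs hy ht j).2
  have h6 := (h.lift hs hz hz' j).2
  rw [← hp] at h6
  have h7 : LL g f s (p y) j t ≤ LL g f s (p y) j t' := (LL g f s (p y) j).monotone h3
  have h8 : LL g f s (p y) j t' ≤ LL g f s (p y) j t + 1 := by
    rw [← (LL g f s (p y) j).map_add_one]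
    exact (LL g f s (p y) j).monotone h4
  rw [abs_le]
  constructor <;> linarith

end fib

end Pool.Agent.J4.H98.Rot
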