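import Pool.Agent.TH80.OMS.Defs
import Pool.Agent.TH290.CL.Flow
import Pool.Agent.TH290.CL.Ex

/-!
# Rotation numbers of `Ω`-stable diffeomorphisms: definitions
-/

set_option autoImplicit false

open scoped Manifold ContDiff Topology
open Filter Set

universe u v

namespace Pool.Agent.J4.H98.Rot

open Pool.Agent.H718R2.G Pool.Agent.TH80.OMS
open Pool.Agent.TH290.CL (ex IsFlow)

/-- The rotation numbers of the points of `C` under `G`, for the displacement `β`. -/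
def Rots {N : Type u} (G : N → N) (C : Set N) (β : N → ℝ) : Set ℝ :=
  {v | ∃ x ∈ C, Tendsto (fun k : ℕ => (∑ i ∈ Finset.range k, β (G^[i] x)) / k) atTop (𝓝 v)}

/-- `a : C → S¹` is rotated by the angle `β` under `G`, on an invariant relatively open and closed
part `C` of the nonwandering set. -/
structure OmegaCocycle {N : Type u} [TopologicalSpace N] (G : N → N) (C : Set N) (a : N → ℂ)
    (β : N → ℝ) : Prop where
  sub : C ⊆ Omega G
  closed : IsClosed C
  closed' : IsClosed (Omega G \ C)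
  inv : ∀ y ∈ C, G y ∈ C
  contA : ContinuousOn a C
  one : ∀ y ∈ C, ‖a y‖ = 1
  contB : ContinuousOn β C
  eq : ∀ y ∈ C, a (G y) = ex (β y) * a y

/-- The points of `A₁` whose forward orbit does not enter `A₂`. -/
def Stay {N : Type u} (G : N → N) (A₁ A₂ : Set N) : Set N := {y ∈ A₁ | ∀ j : ℕ, G^[j] y ∉ A₂}

/-- The extremal rotation numbers do not change: for small `s` the set of the rotation numbers of
`G s` on `C s` has the same least and greatest elements. -/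
def Locked {N : Type u} (G : ℝ → N → N) (C : ℝ → Set N) (β : ℝ → N → ℝ) : Prop :=
  ∃ ε : ℝ, 0 < ε ∧ ∃ c₁ c₂ : ℝ, ∀ s : ℝ, |s| < ε →
    IsLeast (Rots (G s) (C s) (β s)) c₁ ∧ IsGreatest (Rots (G s) (C s) (β s)) c₂

/-- On the part `A₁ ∖ A₂` between two trapping regions the map `F` is fibred over an arbitrary map
`f : Y → Y` (`p ∘ F = f ∘ p`, where `p` is any map), and in the fibre of `b` it covers the circle map
with the lift `g b`: `a (F y) = g_(p y) (a y)` for the continuous map `a` to the circle; `α` is the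
continuous displacement. The sets `A₁`, `A₂` are unions of fibres, and `ψ` is a smooth flow which
preserves the fibres and rotates the circle. -/
structure FibredPiece (n : ℕ) (N : Type u) [TopologicalSpace N] [ChartedSpace (V n) N] {Y : Type v}
    (F : N → N) (A₁ A₂ : Set N) (ψ : ℝ → N → N) (p : N → Y) (f : Y → Y) (a : N → ℂ) (α : N → ℝ)
    (g : Y → CircleDeg1Lift) : Prop where
  open₁ : IsOpen A₁
  open₂ : IsOpen A₂
  /-- `A₁` is a trapping region: `F (closure A₁) ⊆ A₁` -/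
  trap₁ : ∀ y ∈ closure A₁, F y ∈ A₁
  /-- `A₂` is a trapping region -/
  trap₂ : ∀ y ∈ closure A₂, F y ∈ A₂
  /-- some orbit stays in `A₁ ∖ A₂` -/
  stay : (Stay F A₁ A₂).Nonempty
  sat : ∀ y ∈ A₁, ∀ z ∈ A₁, p y = p z → y ∈ A₂ → z ∈ A₂
  cov : ∀ y ∈ A₁ \ A₂, p (F y) = f (p y)
  contA : ContinuousOn a (A₁ \ A₂)
  one : ∀ y ∈ A₁ \ A₂, ‖a y‖ = 1
  contB : ContinuousOn α (A₁ \ A₂)
  fac : ∀ y ∈ A₁ \ A₂, ∀ x : ℝ, a y = ex x →
    g (p y) x = x + α y ∧ (F y ∉ A₂ → a (F y) = ex (x + α y))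
  /-- `ψ` is a smooth flow on `N` -/
  flow : IsFlow n N ψ
  equi : ∃ ε : ℝ, 0 < ε ∧ ∀ y ∈ A₁, ∀ t : ℝ, |t| < ε → p (ψ t (F y)) = p (F y) ∧
    (F y ∉ A₂ → a (ψ t (F y)) = ex t * a (F y))

/-- On `A₁` the map `F` commutes with the smooth flow `ψ`, which preserves the trapping regions
`A₁`, `A₂`, and on `A₁ ∖ A₂` the continuous map `a` to the circle is rotated continuously: by the
angle `α y` under `F`, and by the angle `ξ t y` under `ψ t`, `ξ 0 y = 0` (so that the class of `a` is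
invariant under `F`, and `ξ t y` is the winding of the orbit segment). -/
structure FlowPiece (n : ℕ) (N : Type u) [TopologicalSpace N] [ChartedSpace (V n) N]
    (F : N → N) (A₁ A₂ : Set N) (ψ : ℝ → N → N) (a : N → ℂ) (α : N → ℝ) (ξ : ℝ → N → ℝ) :
    Prop where
  open₁ : IsOpen A₁
  open₂ : IsOpen A₂
  /-- `A₁` is a trapping region: `F (closure A₁) ⊆ A₁` -/
  trap₁ : ∀ y ∈ closure A₁, F y ∈ A₁
  /-- `A₂` is a trapping region -/
  trap₂ : ∀ y ∈ closure A₂, F y ∈ A₂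
  /-- some orbit stays in `A₁ ∖ A₂` -/
  stay : (Stay F A₁ A₂).Nonempty
  /-- `ψ` is a smooth flow on `N` -/
  flow : IsFlow n N ψ
  comm : ∀ t, ∀ y ∈ A₁, F (ψ t y) = ψ t (F y)
  inv₁ : ∀ t, ∀ y ∈ A₁, ψ t y ∈ A₁
  inv₂ : ∀ t, ∀ y ∈ A₂, ψ t y ∈ A₂
  contA : ContinuousOn a (A₁ \ A₂)
  one : ∀ y ∈ A₁ \ A₂, ‖a y‖ = 1
  contB : ContinuousOn α (A₁ \ A₂)
  facF : ∀ y ∈ A₁ \ A₂, F y ∉ A₂ → a (F y) = ex (α y) * a y
  contX : ContinuousOn (fun q : ℝ × N => ξ q.1 q.2) (univ ×ˢ (A₁ \ A₂))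
  zeroX : ∀ y ∈ A₁ \ A₂, ξ 0 y = 0
  facX : ∀ y ∈ A₁ \ A₂, ∀ t, a (ψ t y) = ex (ξ t y) * a y

end Pool.Agent.J4.H98.Rot
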