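import Pool.Agent.J4.H98.RotD

/-!
# Fibred circle maps over arbitrary maps: mode locking
-/

set_option autoImplicit false
set_option linter.unusedSectionVars false

open scoped Manifold ContDiff Topology
open Filter Set

universe u v

namespace Pool.Agent.J4.H98.Rot

open Pool.Agent.H718R2.G Pool.Agent.TH80.OMS Pool.Agent.TH80.CLX Pool.Agent.N102.UF
open Pool.Agent.TH290.CL (ex ex_add ex_zero ex_eq_ex norm_ex ex_add_int ex_ne ex_eq ex_neg IsFlow)

section fib

variable {N : Type u} [TopologicalSpace N] {Y : Type v} {G : ℝ → N → N} {κ : ℝ}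
  {A₁ A₂ : Set N} {p : N → Y} {f : Y → Y} {a : N → ℂ} {α : N → ℝ} {g : Y → CircleDeg1Lift}

theorem iter_cont (hGc : Continuous fun q : ℝ × N => G q.1 q.2) (i : ℕ) :
    Continuous fun q : ℝ × N => (G q.1)^[i] q.2 := by
  induction i with
  | zero => exact continuous_snd
  | succ i ih =>
    have : (fun q : ℝ × N => (G q.1)^[i + 1] q.2) =
        fun q : ℝ × N => G q.1 ((G q.1)^[i] q.2) := by
      funext q
      rw [Function.iterate_succ_apply']
    rw [this]
    exact hGc.comp (continuous_fst.prodMk ih)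

theorem FibData.cmp (h : FibData G κ A₁ A₂ p f a α g)
    (hGc : Continuous fun q : ℝ × N => G q.1 q.2) {K : Set N} (hK : IsCompact K)
    (hKW : ∀ s, |s| < κ → K ⊆ Stay (G s) A₁ A₂) (hGK : ∀ s, |s| < κ → MapsTo (G s) K K)
    (hα : ContinuousOn α K) :
    ∀ s₀, |s₀| < κ → ∀ δ : ℝ, 0 < δ → ∃ η : ℝ, 0 < η ∧ ∀ s, |s| < κ → |s - s₀| < η →
      ∀ z ∈ K, ∃ᶠ m : ℕ in atTop,
        |S (G s) (fun z => α z + s) m z - S (G s₀) (fun z => α z + s₀) m z| ≤ m * δ := by
  intro s₀ hs₀ δ hδ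
  obtain ⟨m, hm⟩ := exists_nat_gt (2 / δ)
  have hm0 : 0 < m := by
    have : (0 : ℝ) < m := lt_trans (by positivity) hm
    exact_mod_cast this
  have hmδ : 2 ≤ m * δ := by
    rw [div_lt_iff₀ hδ] at hm
    exact hm.le
  have : CompactSpace K := isCompact_iff_compactSpace.1 hK
  obtain ⟨Φ, hΦ⟩ : ∃ Φ : ℝ → K → ℝ, Φ = fun (s : ℝ) (x : K) =>
    S (G s) (fun z => α z + s) m (x : N) := ⟨_, rfl⟩
  have hunif : ∀ᶠ s in 𝓝 s₀, ∀ x : K, dist (Φ s₀ x) (Φ s x) < 1 := by
    have hc : ContinuousOn (fun q : ℝ × K => Φ q.1 q.2) (Ioo (-κ) κ ×ˢ (univ : Set K)) := by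
      have e : (fun q : ℝ × K => Φ q.1 q.2) =
          fun q : ℝ × K => ∑ i ∈ Finset.range m, (α ((G q.1)^[i] (q.2 : N)) + q.1) := by
        rw [hΦ]
        rfl
      rw [e]
      refine continuousOn_finsetSum _ fun i _ => ContinuousOn.add ?_ continuous_fst.continuousOn
      have h1 : Continuous fun q : ℝ × K => (G q.1)^[i] (q.2 : N) :=
        (iter_cont hGc i).comp (continuous_fst.prodMk (continuous_subtype_val.comp continuous_snd))
      refine hα.comp h1.continuousOn ?_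
      rintro ⟨s, x⟩ ⟨hs, -⟩
      exact iter_mem (hGK s (abs_lt.2 hs)) i x.2
    have h2 : ∀ᶠ s in 𝓝 s₀, ∀ x ∈ (univ : Set K), dist (Φ s₀ x) (Φ s x) < 1 := by
      apply isCompact_univ.eventually_forall_of_forall_eventually
      intro x _
      have h3 : ContinuousAt (fun q : ℝ × K => Φ q.1 q.2) (s₀, x) := by
        refine hc.continuousAt ?_
        exact prod_mem_nhds (Ioo_mem_nhds (abs_lt.1 hs₀).1 (abs_lt.1 hs₀).2) univ_mem
      have h4 : ContinuousAt (fun q : ℝ × K => Φ s₀ q.2) (s₀, x) := by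
        have h5 : ContinuousAt (fun q : ℝ × K => ((s₀, q.2) : ℝ × K)) (s₀, x) :=
          continuousAt_const.prodMk continuousAt_snd
        exact ContinuousAt.comp (g := fun q : ℝ × K => Φ q.1 q.2)
          (f := fun q : ℝ × K => ((s₀, q.2) : ℝ × K)) h3 h5
      have h6 := h4.dist h3
      refine h6.eventually_lt continuousAt_const ?_
      show dist (Φ s₀ x) (Φ s₀ x) < 1
      rw [dist_self]
      exact one_pos
    filter_upwards [h2] with s hs x
    exact hs x (mem_univ x)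
  obtain ⟨η, hη, hun⟩ := Metric.eventually_nhds_iff.1 hunif
  refine ⟨η, hη, fun s hs hd z hz => ?_⟩
  have hun' : ∀ x ∈ K, |S (G s₀) (fun z => α z + s₀) m x - S (G s) (fun z => α z + s) m x| < 1 := by
    intro x hx
    have := hun (y := s) (by rwa [Real.dist_eq]) ⟨x, hx⟩
    rw [hΦ, Real.dist_eq] at this
    exact this
  have key : ∀ k : ℕ,
      |S (G s) (fun z => α z + s) (k * m) z - S (G s₀) (fun z => α z + s₀) (k * m) z| ≤ 2 * k := by
    intro k
    induction k with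
    | zero => rw [Nat.zero_mul, S_zero, S_zero]; simp
    | succ k ih =>
      have hw := iter_mem (hGK s hs) (k * m) hz
      have hw' := iter_mem (hGK s₀ hs₀) (k * m) hz
      have hpw : p ((G s)^[k * m] z) = p ((G s₀)^[k * m] z) := by
        rw [(h.iter hs (hKW s hs hz) _).2, (h.iter hs₀ (hKW s₀ hs₀ hz) _).2]
      have h1 := h.bound hs₀ (hKW s₀ hs₀ hw) (hKW s₀ hs₀ hw') hpw m
      have h2 := hun' _ hw
      rw [Nat.succ_mul, S_add, S_add]
      rw [abs_le] at ih h1 ⊢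
      rw [abs_lt] at h2
      push_cast
      constructor <;> linarith
  rw [frequently_atTop]
  intro M
  refine ⟨M * m, Nat.le_mul_of_pos_right M hm0, (key M).trans ?_⟩
  push_cast
  have : (0 : ℝ) ≤ M := Nat.cast_nonneg M
  nlinarith

end fib

variable {n : ℕ} {N : Type u} [TopologicalSpace N] [ChartedSpace (V n) N] [IsManifold (𝓡 n) ∞ N]
  [T2Space N] [CompactSpace N] {Y : Type v}

theorem stay_closed {F : N → N} (hF : Continuous F) {A₁ A₂ L : Set N} (h₂ : IsOpen A₂)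
    (hL : IsClosed L) (hLA : L ⊆ A₁) : IsClosed (L ∩ Stay F A₁ A₂) := by
  have : L ∩ Stay F A₁ A₂ = L ∩ ⋂ j : ℕ, F^[j] ⁻¹' A₂ᶜ := by
    ext y
    constructor
    · rintro ⟨hy, -, hy2⟩
      exact ⟨hy, mem_iInter.2 hy2⟩
    · rintro ⟨hy, hy2⟩
      exact ⟨hy, hLA hy, mem_iInter.1 hy2⟩
  rw [this]
  exact hL.inter (isClosed_iInter fun j => h₂.isClosed_compl.preimage (hF.iterate j))

/-- the data of a fibred piece, for small parameters -/
theorem FibredPiece.data (r : ℕ∞) (hr : 1 ≤ r) (F : DiffM n N r) (hF : OmegaStable n N r F)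
    {A₁ A₂ : Set N} {ψ : ℝ → N → N} {p : N → Y} {f : Y → Y} {a : N → ℂ} {α : N → ℝ}
    {g : Y → CircleDeg1Lift} (h : FibredPiece n N F A₁ A₂ ψ p f a α g) :
    ∃ κ : ℝ, 0 < κ ∧ ∃ K : Set N, K.Nonempty ∧ ∃ c₁ c₂ : ℝ,
      FibData (fun s y => ψ s (F y)) κ A₁ A₂ p f a α g ∧
      ∀ s : ℝ, |s| < κ →
        (∀ x ∈ Stay (fun y => ψ s (F y)) A₁ A₂, ψ s (F x) ∈ K) ∧
        K ⊆ Stay (fun y => ψ s (F y)) A₁ A₂ ∧
        Top (fun y => ψ s (F y)) K (fun y => -(α y + s)) (-c₁) ∧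
        Top (fun y => ψ s (F y)) K (fun y => α y + s) c₂ := by
  obtain ⟨z, hz⟩ := h.stay
  obtain ⟨κ₁, hκ₁, 𝒱, h𝒱, hV⟩ := rotation_sets_flow r hr F hF h.flow z
  have hFc : Continuous F := F.continuous
  have hψc : Continuous fun q : ℝ × N => ψ q.1 q.2 := h.flow.smooth.continuous
  have hψF : Continuous fun q : ℝ × N => ψ q.1 (F q.2) :=
    hψc.comp (continuous_fst.prodMk (hFc.comp continuous_snd))
  have hGc : ∀ s : ℝ, Continuous fun y => ψ s (F y) := fun s =>
    hψF.comp (continuous_const.prodMk continuous_id)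
  obtain ⟨L, hL, hFL, hLA⟩ := exists_compact_between
    (isClosed_closure.isCompact.image hFc : IsCompact (F '' closure A₁)) h.open₁ (by
      rintro _ ⟨y, hy, rfl⟩
      exact h.trap₁ y hy)
  obtain ⟨κ₂, hκ₂, hs₂⟩ := small_trap hψc h.flow.zero hFc
    (isClosed_closure.isCompact : IsCompact (closure A₁)) isOpen_interior
    (fun y hy => hFL ⟨y, hy, rfl⟩)
  obtain ⟨κ₃, hκ₃, hs₃⟩ := small_trap hψc h.flow.zero hFc
    (isClosed_closure.isCompact : IsCompact (closure A₂)) h.open₂ h.trap₂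
  obtain ⟨ε, hε, hequi⟩ := h.equi
  set κ := min (min κ₁ κ₂) (min κ₃ ε) with hκd
  have hκ : 0 < κ := lt_min (lt_min hκ₁ hκ₂) (lt_min hκ₃ hε)
  have k1 : ∀ s : ℝ, |s| < κ → |s| < κ₁ := fun s hs =>
    hs.trans_le ((min_le_left _ _).trans (min_le_left _ _))
  have k2 : ∀ s : ℝ, |s| < κ → |s| < κ₂ := fun s hs =>
    hs.trans_le ((min_le_left _ _).trans (min_le_right _ _))
  have k3 : ∀ s : ℝ, |s| < κ → |s| < κ₃ := fun s hs =>
    hs.trans_le ((min_le_right _ _).trans (min_le_left _ _))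
  have k4 : ∀ s : ℝ, |s| < κ → |s| < ε := fun s hs =>
    hs.trans_le ((min_le_right _ _).trans (min_le_right _ _))
  have htr₁ : ∀ s : ℝ, |s| < κ → ∀ y ∈ closure A₁, ψ s (F y) ∈ L := fun s hs y hy =>
    interior_subset (hs₂ s (k2 s hs) y hy)
  have hdata : FibData (fun s y => ψ s (F y)) κ A₁ A₂ p f a α g := by
    refine
      { maps := fun s hs y hy => hLA (htr₁ s hs y (subset_closure hy))
        sat := h.sat
        cov := fun s hs y hy => ?_
        one := h.one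
        fac := fun s hs y hy x hx => ?_ }
    · show p (ψ s (F y)) = f (p y)
      rw [(hequi y hy.1 s (k4 s hs)).1, h.cov y hy]
    · obtain ⟨h1, h2⟩ := h.fac y hy x hx
      refine ⟨h1, fun h3 => ?_⟩
      have h4 : F y ∉ A₂ := fun h5 => h3 (h.sat _ (h.trap₁ y (subset_closure hy.1)) _
        (hLA (htr₁ s hs y (subset_closure hy.1))) ((hequi y hy.1 s (k4 s hs)).1.symm) h5)
      show a (ψ s (F y)) = _
      rw [(hequi y hy.1 s (k4 s hs)).2 h4, h2 h4, ← ex_add]
  have hG0 : (fun y => ψ 0 (F y)) = F := by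
    funext y
    exact h.flow.zero _
  have h0 : |(0 : ℝ)| < κ := by rwa [abs_zero]
  have hst : ∀ s : ℝ, |s| < κ → Stay (fun y => ψ s (F y)) A₁ A₂ = Stay F A₁ A₂ := by
    intro s hs
    have := hdata.stay_eq hs h0
    rw [this]
    show Stay (fun y => ψ 0 (F y)) A₁ A₂ = _
    rw [hG0]
  set K : Set N := L ∩ Stay F A₁ A₂ with hK
  have hKcl : IsClosed K := stay_closed hFc h.open₂ hL.isClosed hLA
  have hKc : IsCompact K := hL.of_isClosed_subset hKcl inter_subset_left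
  have hstep : ∀ s : ℝ, |s| < κ → ∀ x ∈ Stay (fun y => ψ s (F y)) A₁ A₂, ψ s (F x) ∈ K := by
    intro s hs x hx
    refine ⟨htr₁ s hs x (subset_closure hx.1), ?_⟩
    rw [← hst s hs]
    refine ⟨hLA (htr₁ s hs x (subset_closure hx.1)), fun j => ?_⟩
    have := hx.2 (j + 1)
    rwa [Function.iterate_succ_apply] at this
  have hKs : ∀ s : ℝ, |s| < κ → K ⊆ Stay (fun y => ψ s (F y)) A₁ A₂ := by
    intro s hs y hy
    rw [hst s hs]
    exact hy.2
  have hKne : K.Nonempty := by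
    refine ⟨_, hstep 0 h0 z ?_⟩
    rw [hst 0 h0]
    exact hz
  have hKW : K ⊆ A₁ \ A₂ := fun y hy => ⟨hy.2.1, hy.2.2 0⟩
  have hGK : ∀ s : ℝ, |s| < κ → MapsTo (fun y => ψ s (F y)) K K := fun s hs y hy =>
    hstep s hs y (hKs s hs hy)
  have htr₁' : ∀ s : ℝ, |s| < κ → ∀ y ∈ closure A₁, ψ s (F y) ∈ A₁ := fun s hs y hy =>
    hLA (htr₁ s hs y hy)
  have htr₂' : ∀ s : ℝ, |s| < κ → ∀ y ∈ closure A₂, ψ s (F y) ∈ A₂ := fun s hs y hy =>
    hs₃ s (k3 s hs) y hy
  have hcoc : ∀ s : ℝ, |s| < κ → OmegaCocycle (fun y => ψ s (F y))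
      (Omega (fun y => ψ s (F y)) ∩ (A₁ \ A₂)) a (fun y => α y + s) := by
    intro s hs
    refine
      { sub := inter_subset_left
        closed := piece_closed (hGc s) h.open₁ h.open₂ (htr₁' s hs)
        closed' := piece_closed' (hGc s) h.open₁ h.open₂ (htr₁' s hs) (htr₂' s hs)
        inv := piece_inv (hGc s) h.open₁ h.open₂ (htr₁' s hs) (htr₂' s hs)
        contA := h.contA.mono inter_subset_right
        one := fun y hy => h.one y hy.2
        contB := (h.contB.mono inter_subset_right).add continuousOn_const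
        eq := fun y hy => ?_ }
    obtain ⟨x, hx⟩ : ∃ x : ℝ, a y = ex x := ⟨_, (exists_ex' (h.one y hy.2)).symm⟩
    have h1 := (piece_inv (hGc s) h.open₁ h.open₂ (htr₁' s hs) (htr₂' s hs) y hy).2.2
    have h2 := (hdata.fac s hs y hy.2 x hx).2 h1
    show a (ψ s (F y)) = _
    rw [h2, hx, ← ex_add]
    congr 1
    ring
  obtain ⟨c₁, c₂, hc⟩ := lock₂ (G := fun s y => ψ s (F y)) (β := fun s y => α y + s) (a := a)
    (C := fun s => Omega (fun y => ψ s (F y)) ∩ (A₁ \ A₂)) hκ hKc hKne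
    (fun s _ => hGc s) hGK (fun s _ => (h.contB.mono hKW).add continuousOn_const) h𝒱
    (fun s hs => hV s (k1 s hs)) hcoc
    (fun s hs y hy => ⟨hy.2, hKW hy.1⟩)
    (fun s hs x hx => hstep s hs x
      (piece_stay (hGc s) h.open₁ h.open₂ (htr₁' s hs) (htr₂' s hs) hx))
    (hdata.cmp hψF hKc hKs hGK (h.contB.mono hKW))
  exact ⟨κ, hκ, K, hKne, c₁, c₂, hdata, fun s hs => ⟨hstep s hs, hKs s hs, (hc s hs).1,
    (hc s hs).2⟩⟩

/-- Mode locking for fibred circle maps over arbitrary maps. -/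
theorem FibredPiece.locked (r : ℕ∞) (hr : 1 ≤ r) (F : DiffM n N r) (hF : OmegaStable n N r F)
    {A₁ A₂ : Set N} {ψ : ℝ → N → N} {p : N → Y} {f : Y → Y} {a : N → ℂ} {α : N → ℝ}
    {g : Y → CircleDeg1Lift} (h : FibredPiece n N F A₁ A₂ ψ p f a α g) :
    Locked (fun s y => ψ s (F y)) (fun s => Stay (fun y => ψ s (F y)) A₁ A₂)
      (fun s y => α y + s) := by
  obtain ⟨κ, hκ, K, -, c₁, c₂, -, hc⟩ := h.data r hr F hF
  refine ⟨κ, hκ, c₁, c₂, fun s hs => ?_⟩
  obtain ⟨h1, h2, h3, h4⟩ := hc s hs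
  exact ⟨h3.isLeast (fun y hy => h2 hy.1) h1, h4.isGreatest (fun y hy => h2 hy.1) h1⟩

/-- The fibre maps are not all rotations. -/
theorem FibredPiece.not_isometric (r : ℕ∞) (hr : 1 ≤ r) (F : DiffM n N r)
    (hF : OmegaStable n N r F)
    {A₁ A₂ : Set N} {ψ : ℝ → N → N} {p : N → Y} {f : Y → Y} {a : N → ℂ} {α : N → ℝ}
    {g : Y → CircleDeg1Lift} (h : FibredPiece n N F A₁ A₂ ψ p f a α g) :
    ∃ y ∈ A₁ \ A₂, ∃ z ∈ A₁ \ A₂, p y = p z ∧ α y ≠ α z := by
  by_contra hcon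
  push Not at hcon
  obtain ⟨κ, hκ, K, hKne, c₁, c₂, hdata, hc⟩ := h.data r hr F hF
  have h0 : |(0 : ℝ)| < κ := by rwa [abs_zero]
  have hs : |κ / 2| < κ := by rw [abs_of_pos (half_pos hκ)]; linarith
  obtain ⟨-, hK0, -, htop0⟩ := hc 0 h0
  obtain ⟨-, hKs, -, htops⟩ := hc (κ / 2) hs
  obtain ⟨w, hw, -, hl⟩ := htop0.att
  have key : ∀ m : ℕ, S (fun y => ψ (κ / 2) (F y)) (fun y => α y + κ / 2) m w =
      S (fun y => ψ 0 (F y)) (fun y => α y + 0) m w + m * (κ / 2) := by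
    intro m
    induction m with
    | zero => simp [S_zero]
    | succ m ih =>
      rw [S_succ, S_succ, ih]
      have h1 := hdata.iter hs (hKs hw) m
      have h2 := hdata.iter h0 (hK0 hw) m
      have h3 := hcon _ h1.1 _ h2.1 (h1.2.trans h2.2.symm)
      show _ + (α ((fun y => ψ (κ / 2) (F y))^[m] w) + κ / 2) = _
      rw [h3]
      push_cast
      ring
  have h1 : c₂ + κ / 2 ≤ c₂ := by
    refine htops.le w hw _ (Frequently.of_forall fun m => ?_)
    rw [key]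
    have := hl m
    linarith
  linarith

end Pool.Agent.J4.H98.Rot
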