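import Pool.Agent.J4.H98.RotE

/-!
# Maps commuting with a flow
-/

set_option autoImplicit false
set_option linter.unusedSectionVars false

open scoped Manifold ContDiff Topology ComplexConjugate
open Filter Set

universe u v

namespace Pool.Agent.J4.H98.Rot

open Pool.Agent.H718R2.G Pool.Agent.TH80.OMS Pool.Agent.TH80.CLX Pool.Agent.N102.UF
open Pool.Agent.TH290.CL (ex ex_add ex_zero ex_eq_ex ex_eq_one norm_ex ex_add_int ex_ne ex_eq ex_neg
  IsFlow)

/-- continuous integer valued functions on the line are constant -/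
theorem int_const {D : ℝ → ℝ} (hc : Continuous D) (hi : ∀ t, ex (D t) = 1) (h0 : D 0 = 0) (t : ℝ) :
    D t = 0 := by
  have hcount : (D '' univ).Countable := by
    refine (countable_range fun m : ℤ => (m : ℝ)).mono ?_
    rintro _ ⟨s, -, rfl⟩
    obtain ⟨m, hm⟩ := ex_eq_one (hi s)
    exact ⟨m, hm.symm⟩
  have hpre : IsPreconnected (D '' univ) := isPreconnected_univ.image D hc.continuousOn
  have := hcount.isTotallyDisconnected _ subset_rfl hpre ⟨t, mem_univ t, rfl⟩ ⟨0, mem_univ 0, rfl⟩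
  rw [this, h0]

section flow

variable {n : ℕ} {N : Type u} [TopologicalSpace N] [ChartedSpace (V n) N]
  {F : N → N} {A₁ A₂ : Set N} {ψ : ℝ → N → N} {a : N → ℂ} {α : N → ℝ} {ξ : ℝ → N → ℝ}

theorem FlowPiece.psi_cont (h : FlowPiece n N F A₁ A₂ ψ a α ξ) :
    Continuous fun q : ℝ × N => ψ q.1 q.2 := h.flow.smooth.continuous

theorem FlowPiece.neg_psi (h : FlowPiece n N F A₁ A₂ ψ a α ξ) (t : ℝ) (y : N) :
    ψ (-t) (ψ t y) = y := by
  rw [← h.flow.add, neg_add_cancel, h.flow.zero]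

theorem FlowPiece.notMem₂ (h : FlowPiece n N F A₁ A₂ ψ a α ξ) {y : N} (hy : y ∉ A₂) (t : ℝ) :
    ψ t y ∉ A₂ := by
  intro h1
  have := h.inv₂ (-t) _ h1
  rw [h.neg_psi] at this
  exact hy this

theorem FlowPiece.memW (h : FlowPiece n N F A₁ A₂ ψ a α ξ) {y : N} (hy : y ∈ A₁ \ A₂) (t : ℝ) :
    ψ t y ∈ A₁ \ A₂ := ⟨h.inv₁ t y hy.1, h.notMem₂ hy.2 t⟩

theorem FlowPiece.line_cont (h : FlowPiece n N F A₁ A₂ ψ a α ξ) {y : N} (hy : y ∈ A₁ \ A₂) :
    Continuous fun t => ξ t y := by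
  rw [← continuousOn_univ]
  refine h.contX.comp (f := fun t : ℝ => ((t, y) : ℝ × N))
    (continuous_id.prodMk continuous_const).continuousOn ?_
  intro t _
  exact ⟨mem_univ _, hy⟩

theorem FlowPiece.line_cont' (h : FlowPiece n N F A₁ A₂ ψ a α ξ) {y : N} (hy : y ∈ A₁ \ A₂) :
    Continuous fun t => α (ψ t y) := by
  rw [← continuousOn_univ]
  refine h.contB.comp (f := fun t : ℝ => ψ t y) ?_ (fun t _ => h.memW hy t)
  exact (h.psi_cont.comp (continuous_id.prodMk continuous_const)).continuousOn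

theorem FlowPiece.xi_add (h : FlowPiece n N F A₁ A₂ ψ a α ξ) {y : N} (hy : y ∈ A₁ \ A₂)
    (s t : ℝ) : ξ (s + t) y = ξ s y + ξ t (ψ s y) := by
  have hay : a y ≠ 0 := by
    intro h0
    have := h.one y hy
    rw [h0, norm_zero] at this
    exact zero_ne_one this
  have key := int_const (D := fun t => ξ (s + t) y - ξ s y - ξ t (ψ s y)) (by
    have h1 := h.line_cont hy
    have h2 := h.line_cont (h.memW hy s)
    exact ((h1.comp (continuous_const.add continuous_id)).sub continuous_const).sub h2) (by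
    intro t
    have h1 := h.facX y hy (s + t)
    have h2 := h.facX _ (h.memW hy s) t
    rw [← h.flow.add, h.facX y hy s, ← mul_assoc, ← ex_add] at h2
    rw [add_comm t s, h1] at h2
    have h3 : ex (ξ (s + t) y) = ex (ξ t (ψ s y) + ξ s y) := mul_right_cancel₀ hay h2
    have h4 : ex (ξ (s + t) y - ξ s y - ξ t (ψ s y)) * ex (ξ t (ψ s y) + ξ s y) =
        ex (ξ (s + t) y) := by
      rw [← ex_add]
      congr 1
      ring
    rw [h3] at h4
    exact (mul_eq_right₀ (ex_ne _)).1 h4) (by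
    show ξ (s + 0) y - ξ s y - ξ 0 (ψ s y) = 0
    rw [add_zero, h.zeroX _ (h.memW hy s)]
    ring) t
  have key' : ξ (s + t) y - ξ s y - ξ t (ψ s y) = 0 := key
  linarith

theorem FlowPiece.alpha_psi (h : FlowPiece n N F A₁ A₂ ψ a α ξ) {y : N} (hy : y ∈ A₁ \ A₂)
    (hFy : F y ∉ A₂) (t : ℝ) : α (ψ t y) + ξ t y = ξ t (F y) + α y := by
  have hay : a y ≠ 0 := by
    intro h0
    have := h.one y hy
    rw [h0, norm_zero] at this
    exact zero_ne_one this
  have hFW : F y ∈ A₁ \ A₂ := ⟨h.trap₁ y (subset_closure hy.1), hFy⟩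
  have key := int_const (D := fun t => α (ψ t y) + ξ t y - (ξ t (F y) + α y)) (by
    have h1 := h.line_cont hy
    have h2 := h.line_cont' hy
    have h3 := h.line_cont hFW
    exact (h2.add h1).sub (h3.add continuous_const)) (by
    intro t
    have h1 := h.facF (ψ t y) (h.memW hy t) (by
      rw [h.comm t y hy.1]
      exact h.notMem₂ hFy t)
    rw [h.facX y hy t, h.comm t y hy.1, h.facX _ hFW t, h.facF y hy hFy, ← mul_assoc, ← mul_assoc,
      ← ex_add, ← ex_add] at h1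
    have h3 : ex (ξ t (F y) + α y) = ex (α (ψ t y) + ξ t y) := mul_right_cancel₀ hay h1
    have h4 : ex (α (ψ t y) + ξ t y - (ξ t (F y) + α y)) * ex (ξ t (F y) + α y) =
        ex (α (ψ t y) + ξ t y) := by
      rw [← ex_add]
      congr 1
      ring
    rw [← h3] at h4
    exact (mul_eq_right₀ (ex_ne _)).1 h4) (by
    show α (ψ 0 y) + ξ 0 y - (ξ 0 (F y) + α y) = 0
    rw [h.flow.zero, h.zeroX y hy, h.zeroX _ hFW]
    ring) t
  have key' : α (ψ t y) + ξ t y - (ξ t (F y) + α y) = 0 := key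
  linarith

theorem FlowPiece.iterF (h : FlowPiece n N F A₁ A₂ ψ a α ξ) (k : ℕ) {y : N} (hy : y ∈ A₁) :
    F^[k] y ∈ A₁ := by
  induction k with
  | zero => exact hy
  | succ k ih =>
    rw [Function.iterate_succ_apply']
    exact h.trap₁ _ (subset_closure ih)

theorem FlowPiece.iter (h : FlowPiece n N F A₁ A₂ ψ a α ξ) (s : ℝ) (k : ℕ) {y : N} (hy : y ∈ A₁) :
    (fun y => ψ s (F y))^[k] y = ψ (k * s) (F^[k] y) := by
  induction k with
  | zero => simp [h.flow.zero]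
  | succ k ih =>
    rw [Function.iterate_succ_apply', ih, Function.iterate_succ_apply']
    show ψ s (F (ψ (k * s) (F^[k] y))) = _
    rw [h.comm _ _ (h.iterF k hy), ← h.flow.add]
    congr 1
    push_cast
    ring

theorem FlowPiece.stay_eq (h : FlowPiece n N F A₁ A₂ ψ a α ξ) (s : ℝ) :
    Stay (fun y => ψ s (F y)) A₁ A₂ = Stay F A₁ A₂ := by
  ext y
  constructor
  · rintro ⟨hy, hj⟩
    refine ⟨hy, fun j hc => hj j ?_⟩
    rw [h.iter s j hy]
    exact h.inv₂ _ _ hc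
  · rintro ⟨hy, hj⟩
    refine ⟨hy, fun j hc => ?_⟩
    rw [h.iter s j hy] at hc
    exact h.notMem₂ (hj j) _ hc

theorem stay_iter {N : Type u} {F : N → N} {A₁ A₂ : Set N} (hF : ∀ y ∈ A₁, F y ∈ A₁) (k : ℕ)
    {y : N} (hy : y ∈ Stay F A₁ A₂) : F^[k] y ∈ Stay F A₁ A₂ := by
  refine ⟨?_, fun j => ?_⟩
  · induction k with
    | zero => exact hy.1
    | succ k ih => rw [Function.iterate_succ_apply']; exact hF _ ih
  · rw [← Function.iterate_add_apply]
    exact hy.2 _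

theorem FlowPiece.mapsA (h : FlowPiece n N F A₁ A₂ ψ a α ξ) : ∀ y ∈ A₁, F y ∈ A₁ :=
  fun y hy => h.trap₁ y (subset_closure hy)

/-- the sums for the perturbed maps -/
theorem FlowPiece.sums (h : FlowPiece n N F A₁ A₂ ψ a α ξ) (s : ℝ) {y : N}
    (hy : y ∈ Stay F A₁ A₂) (k : ℕ) :
    S (fun y => ψ s (F y)) (fun y => α y + ξ s (F y)) k y =
      S F α k y + ξ (k * s) (F^[k] y) := by
  induction k with
  | zero =>
    rw [S_zero, S_zero, Nat.cast_zero, zero_mul, zero_add]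
    exact (h.zeroX y ⟨hy.1, hy.2 0⟩).symm
  | succ k ih =>
    have hk := stay_iter h.mapsA k hy
    have hk1 := stay_iter h.mapsA (k + 1) hy
    have hW : F^[k] y ∈ A₁ \ A₂ := ⟨hk.1, hk.2 0⟩
    have hF2 : F (F^[k] y) ∉ A₂ := by
      have := hk.2 1
      exact this
    have hFW : F (F^[k] y) ∈ A₁ \ A₂ := ⟨h.mapsA _ hW.1, hF2⟩
    rw [S_succ, S_succ, ih, h.iter s k hy.1]
    have h1 := h.alpha_psi hW hF2 (k * s)
    have h2 := h.xi_add hFW (k * s) s
    rw [h.comm _ _ hW.1, Function.iterate_succ_apply']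
    have h3 : ((k + 1 : ℕ) : ℝ) * s = k * s + s := by push_cast; ring
    rw [h3, h2]
    linarith

theorem FlowPiece.conj (h : FlowPiece n N F A₁ A₂ ψ a α ξ) :
    FlowPiece n N F A₁ A₂ ψ (fun y => conj (a y)) (fun y => -α y) (fun t y => -ξ t y) where
  open₁ := h.open₁
  open₂ := h.open₂
  trap₁ := h.trap₁
  trap₂ := h.trap₂
  stay := h.stay
  flow := h.flow
  comm := h.comm
  inv₁ := h.inv₁
  inv₂ := h.inv₂
  contA := Complex.continuous_conj.comp_continuousOn h.contA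
  one := fun y hy => by rw [RCLike.norm_conj]; exact h.one y hy
  contB := h.contB.neg
  facF := fun y hy hFy => by rw [h.facF y hy hFy, map_mul, ex_neg]
  contX := h.contX.neg
  zeroX := fun y hy => by rw [h.zeroX y hy, neg_zero]
  facX := fun y hy t => by rw [h.facX y hy t, map_mul, ex_neg]

variable [T2Space N] [CompactSpace N]

/-- the angles of `ψ τ` on a compact set are small for small `τ` -/
theorem FlowPiece.small (h : FlowPiece n N F A₁ A₂ ψ a α ξ) {K : Set N} (hK : IsCompact K)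
    (hKW : K ⊆ A₁ \ A₂) {δ : ℝ} (hδ : 0 < δ) :
    ∃ η : ℝ, 0 < η ∧ ∀ τ : ℝ, |τ| < η → ∀ y ∈ K, |ξ τ y| ≤ δ := by
  have : CompactSpace K := isCompact_iff_compactSpace.1 hK
  have hc : Continuous fun q : ℝ × K => ξ q.1 (q.2 : N) := by
    rw [← continuousOn_univ]
    refine h.contX.comp (f := fun q : ℝ × K => ((q.1, (q.2 : N)) : ℝ × N))
      (continuous_fst.prodMk (continuous_subtype_val.comp continuous_snd)).continuousOn ?_
    rintro ⟨t, y⟩ -
    exact ⟨mem_univ _, hKW y.2⟩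
  have h2 : ∀ᶠ s in 𝓝 (0 : ℝ), ∀ x ∈ (univ : Set K), |ξ s x| < δ := by
    apply isCompact_univ.eventually_forall_of_forall_eventually
    intro x _
    have h3 : ContinuousAt (fun q : ℝ × K => |ξ q.1 (q.2 : N)|) (0, x) := hc.abs.continuousAt
    refine h3.eventually_lt continuousAt_const ?_
    show |ξ 0 (x : N)| < δ
    rw [h.zeroX _ (hKW x.2), abs_zero]
    exact hδ
  obtain ⟨η, hη, hun⟩ := Metric.eventually_nhds_iff.1 h2
  refine ⟨η, hη, fun τ hτ y hy => ?_⟩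
  exact (hun (y := τ) (by rwa [Real.dist_eq, sub_zero]) ⟨y, hy⟩ (mem_univ _)).le

/-- the angles of the times in a bounded interval are bounded on a compact set -/
theorem FlowPiece.bdd (h : FlowPiece n N F A₁ A₂ ψ a α ξ) {K : Set N} (hK : IsCompact K)
    (hKW : K ⊆ A₁ \ A₂) : ∃ M : ℝ, 0 ≤ M ∧ ∀ τ ∈ Icc (0 : ℝ) 1, ∀ y ∈ K, |ξ τ y| ≤ M := by
  have hc : ContinuousOn (fun q : ℝ × N => ξ q.1 q.2) (Icc (0 : ℝ) 1 ×ˢ K) :=
    h.contX.mono (prod_mono (subset_univ _) hKW)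
  obtain ⟨M, hM⟩ := (isCompact_Icc.prod hK).exists_bound_of_continuousOn hc
  refine ⟨max M 0, le_max_right _ _, fun τ hτ y hy => ?_⟩
  have := hM (τ, y) ⟨hτ, hy⟩
  rw [Real.norm_eq_abs] at this
  exact this.trans (le_max_left _ _)

theorem FlowPiece.xi_mul_le (h : FlowPiece n N F A₁ A₂ ψ a α ξ) {K : Set N}
    (hKW : K ⊆ A₁ \ A₂) (hKψ : ∀ t, ∀ y ∈ K, ψ t y ∈ K) {δ τ : ℝ} (hδ : ∀ y ∈ K, |ξ τ y| ≤ δ)
    (k : ℕ) {y : N} (hy : y ∈ K) : |ξ (k * τ) y| ≤ k * δ := by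
  induction k with
  | zero => simp [h.zeroX y (hKW hy)]
  | succ k ih =>
    have h1 : ((k + 1 : ℕ) : ℝ) * τ = k * τ + τ := by push_cast; ring
    rw [h1, h.xi_add (hKW hy)]
    have h2 := hδ _ (hKψ (k * τ) y hy)
    refine (abs_add_le _ _).trans ?_
    push_cast
    linarith

theorem FlowPiece.le_xi_mul (h : FlowPiece n N F A₁ A₂ ψ a α ξ) {K : Set N}
    (hKW : K ⊆ A₁ \ A₂) (hKψ : ∀ t, ∀ y ∈ K, ψ t y ∈ K) {δ τ : ℝ} (hδ : ∀ y ∈ K, δ ≤ ξ τ y)
    (k : ℕ) {y : N} (hy : y ∈ K) : k * δ ≤ ξ (k * τ) y := by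
  induction k with
  | zero => simp [h.zeroX y (hKW hy)]
  | succ k ih =>
    have h1 : ((k + 1 : ℕ) : ℝ) * τ = k * τ + τ := by push_cast; ring
    rw [h1, h.xi_add (hKW hy)]
    have h2 := hδ _ (hKψ (k * τ) y hy)
    push_cast
    linarith

end flow

variable {n : ℕ} {N : Type u} [TopologicalSpace N] [ChartedSpace (V n) N] [IsManifold (𝓡 n) ∞ N]
  [T2Space N] [CompactSpace N]

theorem FlowPiece.data (r : ℕ∞) (hr : 1 ≤ r) (F : DiffM n N r) (hF : OmegaStable n N r F)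
    {A₁ A₂ : Set N} {ψ : ℝ → N → N} {a : N → ℂ} {α : N → ℝ} {ξ : ℝ → N → ℝ}
    (h : FlowPiece n N F A₁ A₂ ψ a α ξ) :
    ∃ κ : ℝ, 0 < κ ∧ ∃ K : Set N, IsCompact K ∧ K.Nonempty ∧ K ⊆ Stay F A₁ A₂ ∧
      (∀ t, ∀ y ∈ K, ψ t y ∈ K) ∧ (∀ x ∈ Stay F A₁ A₂, F x ∈ K) ∧ ∃ c₁ c₂ : ℝ,
      ∀ s : ℝ, |s| < κ →
        Top (fun y => ψ s (F y)) K (fun y => -(α y + ξ s (F y))) (-c₁) ∧
        Top (fun y => ψ s (F y)) K (fun y => α y + ξ s (F y)) c₂ := by
  obtain ⟨z, hz⟩ := h.stay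
  obtain ⟨κ, hκ, 𝒱, h𝒱, hV⟩ := rotation_sets_flow r hr F hF h.flow z
  have hFc : Continuous F := F.continuous
  have hψc := h.psi_cont
  have hψF : Continuous fun q : ℝ × N => ψ q.1 (F q.2) :=
    hψc.comp (continuous_fst.prodMk (hFc.comp continuous_snd))
  have hGc : ∀ s : ℝ, Continuous fun y => ψ s (F y) := fun s =>
    hψF.comp (continuous_const.prodMk continuous_id)
  have hψt : ∀ t : ℝ, Continuous (ψ t) := fun t =>
    hψc.comp (continuous_const.prodMk continuous_id)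
  have hcl : ∀ (A : Set N), (∀ t, ∀ y ∈ A, ψ t y ∈ A) → ∀ t, ∀ y ∈ closure A, ψ t y ∈ closure A := by
    intro A hA t y hy
    exact map_mem_closure (hψt t) hy (hA t)
  have hcomm : ∀ t, ∀ y ∈ closure A₁, F (ψ t y) = ψ t (F y) := by
    intro t y hy
    have hcl2 : IsClosed {y | F (ψ t y) = ψ t (F y)} :=
      isClosed_eq (hFc.comp (hψt t)) ((hψt t).comp hFc)
    exact closure_minimal (fun y hy => h.comm t y hy) hcl2 hy
  have htr : ∀ s : ℝ, ∀ y ∈ closure A₁, ψ s (F y) ∈ A₁ := fun s y hy => h.inv₁ s _ (h.trap₁ y hy)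
  have htr₂ : ∀ s : ℝ, ∀ y ∈ closure A₂, ψ s (F y) ∈ A₂ := fun s y hy => h.inv₂ s _ (h.trap₂ y hy)
  set L : Set N := F '' closure A₁ with hL
  have hLc : IsCompact L := isClosed_closure.isCompact.image hFc
  have hLA : L ⊆ A₁ := by
    rintro _ ⟨y, hy, rfl⟩
    exact h.trap₁ y hy
  set K : Set N := L ∩ Stay F A₁ A₂ with hK
  have hKcl : IsClosed K := stay_closed hFc h.open₂ hLc.isClosed hLA
  have hKc : IsCompact K := hLc.of_isClosed_subset hKcl inter_subset_left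
  have hstψ : ∀ t, ∀ y ∈ Stay F A₁ A₂, ψ t y ∈ Stay F A₁ A₂ := by
    intro t y hy
    have hcomm' : ∀ j : ℕ, F^[j] (ψ t y) = ψ t (F^[j] y) := by
      intro j
      induction j with
      | zero => rfl
      | succ j ih =>
        rw [Function.iterate_succ_apply', ih, h.comm t _ (h.iterF j hy.1),
          Function.iterate_succ_apply']
    refine ⟨h.inv₁ t y hy.1, fun j => ?_⟩
    rw [hcomm' j]
    exact h.notMem₂ (hy.2 j) t
  have hKψ : ∀ t, ∀ y ∈ K, ψ t y ∈ K := by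
    rintro t y ⟨⟨x, hx, rfl⟩, hy⟩
    exact ⟨⟨ψ t x, hcl A₁ h.inv₁ t x hx, hcomm t x hx⟩, hstψ t _ hy⟩
  have hFK : ∀ x ∈ Stay F A₁ A₂, F x ∈ K := fun x hx =>
    ⟨⟨x, subset_closure hx.1, rfl⟩, stay_iter h.mapsA 1 hx⟩
  have hKW : K ⊆ A₁ \ A₂ := fun y hy => ⟨hy.2.1, hy.2.2 0⟩
  have hGK : ∀ s : ℝ, MapsTo (fun y => ψ s (F y)) K K := fun s y hy =>
    hKψ s _ (hFK y hy.2)
  have hcoc : ∀ s : ℝ, |s| < κ → OmegaCocycle (fun y => ψ s (F y))
      (Omega (fun y => ψ s (F y)) ∩ (A₁ \ A₂)) a (fun y => α y + ξ s (F y)) := by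
    intro s hs
    have hinv := piece_inv (hGc s) h.open₁ h.open₂ (htr s) (htr₂ s)
    have hFW : ∀ y ∈ Omega (fun y => ψ s (F y)) ∩ (A₁ \ A₂), F y ∈ A₁ \ A₂ := by
      intro y hy
      have h1 := h.memW (hinv y hy).2 (-s)
      rwa [h.neg_psi] at h1
    refine
      { sub := inter_subset_left
        closed := piece_closed (hGc s) h.open₁ h.open₂ (htr s)
        closed' := piece_closed' (hGc s) h.open₁ h.open₂ (htr s) (htr₂ s)
        inv := hinv
        contA := h.contA.mono inter_subset_right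
        one := fun y hy => h.one y hy.2
        contB := (h.contB.mono inter_subset_right).add ?_
        eq := fun y hy => ?_ }
    · refine h.contX.comp (f := fun y : N => ((s, F y) : ℝ × N))
        (continuous_const.prodMk hFc).continuousOn ?_
      intro y hy
      exact ⟨mem_univ _, hFW y hy⟩
    · show a (ψ s (F y)) = _
      rw [h.facX _ (hFW y hy) s, h.facF y hy.2 (hFW y hy).2, ← mul_assoc, ← ex_add, add_comm]
  have hcmp : ∀ s₀, |s₀| < κ → ∀ δ : ℝ, 0 < δ → ∃ η : ℝ, 0 < η ∧ ∀ s, |s| < κ → |s - s₀| < η →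
      ∀ z ∈ K, ∃ᶠ m : ℕ in atTop,
        |S (fun y => ψ s (F y)) (fun y => α y + ξ s (F y)) m z -
          S (fun y => ψ s₀ (F y)) (fun y => α y + ξ s₀ (F y)) m z| ≤ m * δ := by
    intro s₀ hs₀ δ hδ
    obtain ⟨η, hη, hsm⟩ := h.small hKc hKW hδ
    refine ⟨η, hη, fun s hs hd z hz => Frequently.of_forall fun m => ?_⟩
    rw [h.sums s hz.2, h.sums s₀ hz.2]
    have hFm : F^[m] z ∈ K := by
      have : MapsTo F K K := fun y hy => hFK y hy.2
      exact iter_mem this m hz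
    have h1 := h.xi_add (hKW hFm) (m * s₀) (m * (s - s₀))
    have h2 : (m : ℝ) * s₀ + m * (s - s₀) = m * s := by ring
    rw [h2] at h1
    rw [h1]
    have h3 := h.xi_mul_le hKW hKψ (hsm (s - s₀) hd) m (hKψ (m * s₀) _ hFm)
    rw [show S F α m z + (ξ (m * s₀) (F^[m] z) + ξ (m * (s - s₀)) (ψ (m * s₀) (F^[m] z))) -
      (S F α m z + ξ (m * s₀) (F^[m] z)) = ξ (m * (s - s₀)) (ψ (m * s₀) (F^[m] z)) by ring]
    exact h3
  obtain ⟨c₁, c₂, hc⟩ := lock₂ (G := fun s y => ψ s (F y)) (β := fun s y => α y + ξ s (F y))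
    (a := a) (C := fun s => Omega (fun y => ψ s (F y)) ∩ (A₁ \ A₂)) hκ hKc ⟨_, hFK z hz⟩
    (fun s _ => hGc s) (fun s _ => hGK s) (fun s _ => (h.contB.mono hKW).add (by
      refine h.contX.comp (f := fun y : N => ((s, F y) : ℝ × N))
        (continuous_const.prodMk hFc).continuousOn ?_
      intro y hy
      exact ⟨mem_univ _, hKW (hFK y hy.2)⟩)) h𝒱
    (fun s hs => hV s hs) hcoc
    (fun s hs y hy => ⟨hy.2, hKW hy.1⟩)
    (fun s hs x hx => by
      have h1 := piece_stay (hGc s) h.open₁ h.open₂ (htr s) (htr₂ s) hx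
      rw [h.stay_eq s] at h1
      exact hKψ s _ (hFK x h1)) hcmp
  exact ⟨κ, hκ, K, hKc, ⟨_, hFK z hz⟩, inter_subset_right, hKψ, hFK, c₁, c₂, hc⟩

theorem FlowPiece.locked (r : ℕ∞) (hr : 1 ≤ r) (F : DiffM n N r) (hF : OmegaStable n N r F)
    {A₁ A₂ : Set N} {ψ : ℝ → N → N} {a : N → ℂ} {α : N → ℝ} {ξ : ℝ → N → ℝ}
    (h : FlowPiece n N F A₁ A₂ ψ a α ξ) :
    Locked (fun s y => ψ s (F y)) (fun s => Stay (fun y => ψ s (F y)) A₁ A₂)
      (fun s y => α y + ξ s (F y)) := by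
  obtain ⟨κ, hκ, K, -, -, hKS, hKψ, hFK, c₁, c₂, hc⟩ := h.data r hr F hF
  refine ⟨κ, hκ, c₁, c₂, fun s hs => ?_⟩
  obtain ⟨h3, h4⟩ := hc s hs
  have e := h.stay_eq s
  show IsLeast (Rots (fun y => ψ s (F y)) (Stay (fun y => ψ s (F y)) A₁ A₂) _) c₁ ∧
    IsGreatest (Rots (fun y => ψ s (F y)) (Stay (fun y => ψ s (F y)) A₁ A₂) _) c₂
  rw [e]
  exact ⟨h3.isLeast (fun y hy => hKS hy.1) (fun x hx => hKψ s _ (hFK x hx)),
    h4.isGreatest (fun y hy => hKS hy.1) (fun x hx => hKψ s _ (hFK x hx))⟩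

/-- The winding under the flow is not positive everywhere. -/
theorem FlowPiece.not_pos (r : ℕ∞) (hr : 1 ≤ r) (F : DiffM n N r) (hF : OmegaStable n N r F)
    {A₁ A₂ : Set N} {ψ : ℝ → N → N} {a : N → ℂ} {α : N → ℝ} {ξ : ℝ → N → ℝ}
    (h : FlowPiece n N F A₁ A₂ ψ a α ξ) {T : ℝ} (hT : 0 < T) :
    ∃ y ∈ Stay F A₁ A₂, ξ T y ≤ 0 := by
  by_contra hcon
  push Not at hcon
  obtain ⟨κ, hκ, K, hKc, hKne, hKS, hKψ, hFK, c₁, c₂, hc⟩ := h.data r hr F hF
  have hKW : K ⊆ A₁ \ A₂ := fun y hy => ⟨(hKS hy).1, (hKS hy).2 0⟩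
  have hcξ : ContinuousOn (fun y => ξ T y) K := by
    refine h.contX.comp (f := fun y : N => ((T, y) : ℝ × N))
      (continuous_const.prodMk continuous_id).continuousOn ?_
    intro y hy
    exact ⟨mem_univ _, hKW hy⟩
  obtain ⟨x₀, hx₀, hmin⟩ := hKc.exists_isMinOn hKne hcξ
  set c₀ := ξ T x₀ with hc₀
  have hc₀p : 0 < c₀ := hcon x₀ (hKS hx₀)
  have hc₀le : ∀ y ∈ K, c₀ ≤ ξ T y := fun y hy => hmin hy
  obtain ⟨q, hq⟩ := exists_nat_gt (T / κ)
  have hq0 : (0 : ℝ) < q := lt_trans (div_pos hT hκ) hq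
  have hsκ : |T / q| < κ := by
    rw [abs_of_pos (div_pos hT hq0), div_lt_iff₀ hq0, mul_comm]
    rw [div_lt_iff₀ hκ] at hq
    exact hq
  have h0 : |(0 : ℝ)| < κ := by rwa [abs_zero]
  obtain ⟨w, hw, -, hl⟩ := (hc 0 h0).2.att
  have hle : c₂ + c₀ / q ≤ c₂ := by
    refine (hc _ hsκ).2.le w hw _ ?_
    rw [frequently_atTop]
    intro M
    refine ⟨M * q, Nat.le_mul_of_pos_right M (by exact_mod_cast hq0), ?_⟩
    have h1 := hl (M * q)
    rw [h.sums 0 (hKS hw), mul_zero] at h1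
    rw [h.sums (T / q) (hKS hw)]
    have hFm : F^[M * q] w ∈ K := by
      have : MapsTo F K K := fun y hy => hFK y (hKS hy)
      exact iter_mem this _ hw
    rw [h.zeroX _ (hKW hFm), add_zero] at h1
    have e : ((M * q : ℕ) : ℝ) * (T / q) = M * T := by
      push_cast
      field_simp
    rw [e]
    have h2 := h.le_xi_mul hKW hKψ hc₀le M hFm
    have h3 : ((M * q : ℕ) : ℝ) * (c₂ + c₀ / q) = ((M * q : ℕ) : ℝ) * c₂ + M * c₀ := by
      push_cast
      field_simp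
    rw [h3]
    linarith
  have : 0 < c₀ / q := div_pos hc₀p hq0
  linarith

end Pool.Agent.J4.H98.Rot
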