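import Pool.Agent.J4.H98.RotF

/-!
# Time-one maps of flows: the asymptotic cycles vanish
-/

set_option autoImplicit false
set_option linter.unusedSectionVars false

open scoped Manifold ContDiff Topology ComplexConjugate
open Filter Set

universe u v

namespace Pool.Agent.J4.H98.Rot

open Pool.Agent.H718R2.G Pool.Agent.TH80.OMS Pool.Agent.TH80.CLX Pool.Agent.N102.UF
open Pool.Agent.TH290.CL (ex ex_add ex_zero ex_eq_ex ex_eq_one norm_ex ex_add_int ex_ne ex_eq ex_neg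
  IsFlow)

section flow

variable {n : ℕ} {N : Type u} [TopologicalSpace N] [ChartedSpace (V n) N]
  {F : N → N} {A₁ A₂ : Set N} {ψ : ℝ → N → N} {a : N → ℂ} {α : N → ℝ} {ξ : ℝ → N → ℝ}

/-- for a time-one map the angle `ξ 1` may be used for `α` -/
theorem FlowPiece.one_map (h : FlowPiece n N F A₁ A₂ ψ a α ξ) (h1 : ∀ y ∈ A₁, F y = ψ 1 y) :
    FlowPiece n N F A₁ A₂ ψ a (fun y => ξ 1 y) ξ :=
  { h with
    contB := by
      refine h.contX.comp (f := fun y : N => (((1 : ℝ), y) : ℝ × N))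
        (continuous_const.prodMk continuous_id).continuousOn ?_
      intro y hy
      exact ⟨mem_univ _, hy⟩
    facF := fun y hy _ => by rw [h1 y hy.1, h.facX y hy 1] }

theorem FlowPiece.iter_one (h : FlowPiece n N F A₁ A₂ ψ a α ξ) (h1 : ∀ y ∈ A₁, F y = ψ 1 y)
    (k : ℕ) {y : N} (hy : y ∈ A₁) : F^[k] y = ψ k y := by
  induction k with
  | zero => rw [Nat.cast_zero, h.flow.zero]; rfl
  | succ k ih =>
    rw [Function.iterate_succ_apply', h1 _ (h.iterF k hy), ih, ← h.flow.add]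
    congr 1
    push_cast
    ring

theorem FlowPiece.sum_one (h : FlowPiece n N F A₁ A₂ ψ a α ξ) (h1 : ∀ y ∈ A₁, F y = ψ 1 y)
    (k : ℕ) {y : N} (hy : y ∈ Stay F A₁ A₂) : S F (fun y => ξ 1 y) k y = ξ k y := by
  have hW : y ∈ A₁ \ A₂ := ⟨hy.1, hy.2 0⟩
  induction k with
  | zero => rw [S_zero, Nat.cast_zero, h.zeroX y hW]
  | succ k ih =>
    rw [S_succ, ih, h.iter_one h1 k hy.1]
    push_cast
    rw [h.xi_add hW]

/-- comparison of real and integer times -/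
theorem FlowPiece.floor_le (h : FlowPiece n N F A₁ A₂ ψ a α ξ) {K : Set N}
    (hKW : K ⊆ A₁ \ A₂) (hKψ : ∀ t, ∀ y ∈ K, ψ t y ∈ K) {M : ℝ}
    (hM : ∀ τ ∈ Icc (0 : ℝ) 1, ∀ y ∈ K, |ξ τ y| ≤ M) {t : ℝ} (ht : 0 ≤ t) {y : N} (hy : y ∈ K) :
    |ξ t y - ξ (⌊t⌋₊ : ℝ) y| ≤ M := by
  have h1 := h.xi_add (hKW hy) (⌊t⌋₊ : ℝ) (t - ⌊t⌋₊)
  rw [add_sub_cancel] at h1
  rw [h1, add_sub_cancel_left]
  refine hM _ ⟨?_, ?_⟩ _ (hKψ _ y hy)
  · have := Nat.floor_le ht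
    linarith
  · have := Nat.lt_floor_add_one t
    linarith

end flow

variable {n : ℕ} {N : Type u} [TopologicalSpace N] [ChartedSpace (V n) N] [IsManifold (𝓡 n) ∞ N]
  [T2Space N] [CompactSpace N]

theorem top_zero {F : N → N} {A₁ A₂ : Set N} {ψ : ℝ → N → N} {a : N → ℂ}
    {ξ : ℝ → N → ℝ} (h : FlowPiece n N F A₁ A₂ ψ a (fun y => ξ 1 y) ξ)
    (h1 : ∀ y ∈ A₁, F y = ψ 1 y) {κ : ℝ} (hκ : 0 < κ) {K : Set N} (hKc : IsCompact K)
    (hKS : K ⊆ Stay F A₁ A₂) (hKψ : ∀ t, ∀ y ∈ K, ψ t y ∈ K) {c : ℝ}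
    (hc : ∀ s : ℝ, |s| < κ → Top (fun y => ψ s (F y)) K (fun y => ξ 1 y + ξ s (F y)) c) :
    c = 0 := by
  have hKW : K ⊆ A₁ \ A₂ := fun y hy => ⟨(hKS hy).1, (hKS hy).2 0⟩
  obtain ⟨M, hM0, hM⟩ := h.bdd hKc hKW
  have h0 : |(0 : ℝ)| < κ := by rwa [abs_zero]
  obtain ⟨w, hw, -, hl⟩ := (hc 0 h0).att
  have hl' : ∀ l : ℕ, l * c ≤ ξ l w := by
    intro l
    have h2 := hl l
    rw [h.sums 0 (hKS hw), mul_zero, h.zeroX, add_zero, h.sum_one h1 l (hKS hw)] at h2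
    · exact h2
    · have h3 := stay_iter h.mapsA l (hKS hw)
      exact ⟨h3.1, h3.2 0⟩
  have hreal : ∀ t : ℝ, 0 ≤ t → t * c - |c| - M ≤ ξ t w := by
    intro t ht
    have h2 := h.floor_le hKW hKψ hM ht hw
    have h3 := hl' ⌊t⌋₊
    have h4 := Nat.floor_le ht
    have h5 := Nat.lt_floor_add_one t
    have h6 : t * c - |c| ≤ (⌊t⌋₊ : ℝ) * c := by
      have h7 : (t - ⌊t⌋₊) * c ≤ |c| := by
        calc (t - ⌊t⌋₊) * c ≤ |(t - ⌊t⌋₊) * c| := le_abs_self _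
          _ = |t - ⌊t⌋₊| * |c| := abs_mul _ _
          _ ≤ 1 * |c| := by
              apply mul_le_mul_of_nonneg_right _ (abs_nonneg c)
              rw [abs_le]
              constructor <;> linarith
          _ = |c| := one_mul _
      linarith
    have h7 := (abs_le.1 h2).1
    linarith
  have key : ∀ s : ℝ, |s| < κ → |s| < 1 → s * c ≤ 0 := by
    intro s hs hs1
    have hsum : ∀ m : ℕ, S (fun y => ψ s (F y)) (fun y => ξ 1 y + ξ s (F y)) m w =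
        ξ (m * (1 + s)) w := by
      intro m
      rw [h.sums s (hKS hw), h.sum_one h1 m (hKS hw), h.iter_one h1 m (hKS hw).1,
        ← h.xi_add (hKW hw)]
      congr 1
      ring
    have hs2 : 0 ≤ 1 + s := by
      have := (abs_lt.1 hs1).1
      linarith
    have hle : ∀ δ : ℝ, 0 < δ → (1 + s) * c - δ ≤ c := by
      intro δ hδ
      refine (hc s hs).le w hw _ ?_
      refine Eventually.frequently ?_
      obtain ⟨m₀, hm₀⟩ := exists_nat_gt ((|c| + M) / δ)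
      filter_upwards [eventually_ge_atTop m₀] with m hm
      rw [hsum]
      have h2 := hreal (m * (1 + s)) (mul_nonneg (Nat.cast_nonneg m) hs2)
      rw [div_lt_iff₀ hδ] at hm₀
      have h3 : (m₀ : ℝ) * δ ≤ m * δ := mul_le_mul_of_nonneg_right (by exact_mod_cast hm) hδ.le
      have h4 : (m : ℝ) * ((1 + s) * c - δ) = m * (1 + s) * c - m * δ := by ring
      rw [h4]
      linarith
    by_contra hcon
    push Not at hcon
    have := hle (s * c / 2) (half_pos hcon)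
    linarith
  set s₀ := min κ 1 / 2 with hs₀
  have hp : 0 < s₀ := half_pos (lt_min hκ one_pos)
  have hp1 : s₀ < κ := by
    have := min_le_left κ 1
    have := lt_min hκ one_pos
    rw [hs₀]
    linarith
  have hp2 : s₀ < 1 := by
    have := min_le_right κ 1
    have := lt_min hκ one_pos
    rw [hs₀]
    linarith
  have k1 := key s₀ (by rwa [abs_of_pos hp]) (by rwa [abs_of_pos hp])
  have k2 := key (-s₀) (by rwa [abs_neg, abs_of_pos hp]) (by rwa [abs_neg, abs_of_pos hp])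
  have k3 : s₀ * c = 0 := le_antisymm k1 (by linarith)
  rcases mul_eq_zero.1 k3 with h5 | h5
  · linarith
  · exact h5

/-- If a time-one map is `Ω`-stable then all asymptotic cycles vanish. -/
theorem FlowPiece.time_one (r : ℕ∞) (hr : 1 ≤ r) (F : DiffM n N r) (hF : OmegaStable n N r F)
    {A₁ A₂ : Set N} {ψ : ℝ → N → N} {a : N → ℂ} {α : N → ℝ} {ξ : ℝ → N → ℝ}
    (h : FlowPiece n N F A₁ A₂ ψ a α ξ) (h1 : ∀ y ∈ A₁, F y = ψ 1 y) :
    ∀ x ∈ Stay F A₁ A₂, Tendsto (fun t : ℝ => ξ t x / t) atTop (𝓝 0) := by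
  have h' := h.one_map h1
  obtain ⟨κ, hκ, K, hKc, hKne, hKS, hKψ, hFK, c₁, c₂, hc⟩ := h'.data r hr F hF
  have hKW : K ⊆ A₁ \ A₂ := fun y hy => ⟨(hKS hy).1, (hKS hy).2 0⟩
  have h0 : |(0 : ℝ)| < κ := by rwa [abs_zero]
  have e₂ : c₂ = 0 := top_zero h' h1 hκ hKc hKS hKψ fun s hs => (hc s hs).2
  have e₁ : -c₁ = 0 := by
    refine top_zero (ξ := fun t y => -ξ t y) h'.conj h1 hκ hKc hKS hKψ fun s hs => ?_
    have := (hc s hs).1
    have e : (fun y => -(ξ 1 y + ξ s (F y))) = fun y => -ξ 1 y + -ξ s (F y) := by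
      funext y
      ring
    rw [e] at this
    exact this
  obtain ⟨M, hM0, hM⟩ := h.bdd hKc hKW
  intro x hx
  have hxK := hFK x hx
  have hxW : x ∈ A₁ \ A₂ := ⟨hx.1, hx.2 0⟩
  have hG0 : (fun y => ψ 0 (F y)) = F := by
    funext y
    exact h.flow.zero _
  have hβ : ∀ y ∈ K, ∀ m : ℕ, S (fun y => ψ 0 (F y)) (fun y => ξ 1 y + ξ 0 (F y)) m y = ξ m y := by
    intro y hy m
    rw [h'.sums 0 (hKS hy), mul_zero, h.zeroX, add_zero, h.sum_one h1 m (hKS hy)]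
    have h3 := stay_iter h.mapsA m (hKS hy)
    exact ⟨h3.1, h3.2 0⟩
  have hup : ∀ δ : ℝ, 0 < δ → ∀ᶠ m : ℕ in atTop, |ξ m (F x)| ≤ m * δ := by
    intro δ hδ
    have u1 := (hc 0 h0).2.eventually_lt hxK (show c₂ < δ by rw [e₂]; exact hδ)
    have u2 := (hc 0 h0).1.eventually_lt hxK (show -c₁ < δ by rw [e₁]; exact hδ)
    filter_upwards [u1, u2] with m v1 v2
    rw [hβ _ hxK] at v1
    rw [S_neg, hβ _ hxK] at v2
    rw [abs_le]
    constructor <;> linarith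
  rw [Metric.tendsto_atTop]
  intro ε hε
  obtain ⟨m₀, hm₀⟩ := eventually_atTop.1 (hup (ε / 4) (by linarith))
  refine ⟨max ((m₀ : ℝ) + 2) (4 * (|ξ 1 x| + M) / ε + 1), fun t ht => ?_⟩
  have ht1 : (m₀ : ℝ) + 2 ≤ t := (le_max_left _ _).trans ht
  have ht2 : 4 * (|ξ 1 x| + M) / ε + 1 ≤ t := (le_max_right _ _).trans ht
  have hm₀' : (0 : ℝ) ≤ m₀ := Nat.cast_nonneg m₀
  have htp : 0 < t := by linarith
  have hx1 : ξ t x = ξ 1 x + ξ (t - 1) (F x) := by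
    have := h.xi_add hxW 1 (t - 1)
    rw [add_sub_cancel] at this
    rw [this, h1 x hx.1]
  have hfl := h.floor_le hKW hKψ hM (show 0 ≤ t - 1 by linarith) hxK
  have hfm : m₀ ≤ ⌊t - 1⌋₊ := Nat.le_floor (by linarith)
  have h5 := hm₀ _ hfm
  have h6 := Nat.floor_le (show 0 ≤ t - 1 by linarith)
  have h7 : (⌊t - 1⌋₊ : ℝ) * (ε / 4) ≤ t * (ε / 4) :=
    mul_le_mul_of_nonneg_right (by linarith) (by linarith)
  have h8 : |ξ 1 x| + M < t * (ε / 2) := by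
    have h9 : 4 * (|ξ 1 x| + M) / ε < t := by linarith
    rw [div_lt_iff₀ hε] at h9
    have : 0 ≤ |ξ 1 x| + M := by positivity
    linarith
  have h10 : |ξ t x| < t * ε := by
    rw [hx1]
    have h11 : |ξ 1 x + ξ (t - 1) (F x)| ≤ |ξ 1 x| + |ξ (t - 1) (F x)| := abs_add_le _ _
    have h12 : |ξ (t - 1) (F x)| ≤ M + |ξ (⌊t - 1⌋₊ : ℝ) (F x)| := by
      have h13 := abs_add_le (ξ (t - 1) (F x) - ξ (⌊t - 1⌋₊ : ℝ) (F x)) (ξ (⌊t - 1⌋₊ : ℝ) (F x))
      rw [sub_add_cancel] at h13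
      linarith
    have h14 : t * (ε / 4) < t * (ε / 2) := mul_lt_mul_of_pos_left (by linarith) htp
    have h15 : t * (ε / 2) + t * (ε / 2) = t * ε := by ring
    linarith
  rw [Real.dist_eq, sub_zero, abs_div, abs_of_pos htp, div_lt_iff₀ htp, mul_comm]
  exact h10

end Pool.Agent.J4.H98.Rot
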