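import Mathlib

/-! A functional equation on the unit sphere of `ℝ³`. -/

open MeasureTheory Set Metric
open scoped RealInnerProductSpace

namespace Pool.Agent.J4.H98.Rotor

/-- a continuous solution of a restricted additive equation is linear -/
lemma linear_of_eq {φ : ℝ → ℝ} (hc : Continuous φ)
    (h1 : ∀ s t : ℝ, |s| ≤ 1 / 2 → |t| ≤ 1 / 2 → φ s + φ t + φ (-s - t) = 0)
    (h2 : ∀ x : ℝ, |x| ≤ 1 → φ x + 2 * φ (-x / 2) = 0) :
    ∀ x : ℝ, |x| ≤ 1 → φ x = x * φ 1 := by
  have h0 : φ 0 = 0 := by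
    have := h1 0 0 (by norm_num) (by norm_num)
    simp at this
    linarith
  have hodd : ∀ s : ℝ, |s| ≤ 1 / 2 → φ (-s) = -φ s := by
    intro s hs
    have := h1 s 0 hs (by norm_num)
    rw [h0, sub_zero] at this
    linarith
  have hadd : ∀ s t : ℝ, 0 ≤ s → 0 ≤ t → s + t ≤ 1 / 2 → φ (s + t) = φ s + φ t := by
    intro s t hs ht hst
    have a1 := h1 s t (by rw [abs_of_nonneg hs]; linarith) (by rw [abs_of_nonneg ht]; linarith)
    have a2 := hodd (s + t) (by rw [abs_of_nonneg (by linarith)]; exact hst)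
    rw [neg_add'] at a2
    linarith
  set D : ℝ → ℝ := fun x => φ x - 2 * x * φ (1 / 2) with hD
  have hDc : Continuous D := by fun_prop
  have hDadd : ∀ s t : ℝ, 0 ≤ s → 0 ≤ t → s + t ≤ 1 / 2 → D (s + t) = D s + D t := by
    intro s t hs ht hst
    simp only [hD, hadd s t hs ht hst]
    ring
  have hDh : D (1 / 2) = 0 := by simp [hD]
  have hDz : ∀ x ∈ Icc (0 : ℝ) (1 / 2), D x = 0 := by
    obtain ⟨x₀, hx₀, hmax⟩ := (isCompact_Icc (a := (0 : ℝ)) (b := 1 / 2)).exists_isMaxOn
      ⟨0, by constructor <;> norm_num⟩ (hDc.abs.continuousOn)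
    have hm : |D x₀| = 0 := by
      by_contra hne
      have hpos : 0 < |D x₀| := lt_of_le_of_ne (abs_nonneg _) (Ne.symm hne)
      obtain ⟨hx0, hx1⟩ := hx₀
      rcases le_or_gt x₀ (1 / 4) with hle | hgt
      · have e1 := hDadd x₀ x₀ hx0 hx0 (by linarith)
        have e2 := hmax (show x₀ + x₀ ∈ Icc (0 : ℝ) (1 / 2) from ⟨by linarith, by linarith⟩)
        simp only [mem_ofPred_eq] at e2
        rw [e1, ← two_mul, abs_mul, abs_two] at e2
        linarith
      · have e0 := hDadd x₀ (1 / 2 - x₀) hx0 (by linarith) (by linarith)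
        rw [add_sub_cancel, hDh] at e0
        have e1 := hDadd (1 / 2 - x₀) (1 / 2 - x₀) (by linarith) (by linarith) (by linarith)
        have e2 := hmax (show (1 / 2 - x₀) + (1 / 2 - x₀) ∈ Icc (0 : ℝ) (1 / 2) from
          ⟨by linarith, by linarith⟩)
        simp only [mem_ofPred_eq] at e2
        rw [e1, ← two_mul, abs_mul, abs_two, show D (1 / 2 - x₀) = - D x₀ by linarith,
          abs_neg] at e2
        linarith
    intro x hx
    have := hmax hx
    simp only [mem_ofPred_eq] at this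
    rw [hm] at this
    exact abs_nonpos_iff.1 this
  have hhalf : ∀ x : ℝ, |x| ≤ 1 / 2 → φ x = 2 * x * φ (1 / 2) := by
    intro x hx
    rcases le_total 0 x with h | h
    · have := hDz x ⟨h, by rwa [abs_of_nonneg h] at hx⟩
      simp only [hD] at this
      linarith
    · have e1 := hDz (-x) ⟨by linarith, by rwa [abs_of_nonpos h] at hx⟩
      have e2 := hodd x hx
      simp only [hD] at e1
      linarith
  have hall : ∀ x : ℝ, |x| ≤ 1 → φ x = 2 * x * φ (1 / 2) := by
    intro x hx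
    have e1 := h2 x hx
    have e2 := hhalf (-x / 2) (by rw [abs_div, abs_neg, abs_two]; linarith)
    rw [e2] at e1
    linarith
  intro x hx
  rw [hall x hx, hall 1 (by norm_num)]
  ring


/-- `ℝ³` -/
abbrev E3 := EuclideanSpace ℝ (Fin 3)

/-- rotation about the third axis as a linear map -/
noncomputable def rotLin (α : ℝ) : E3 →ₗ[ℝ] E3 where
  toFun x := !₂[x 0 * Real.cos α - x 1 * Real.sin α, x 0 * Real.sin α + x 1 * Real.cos α, x 2]
  map_add' x y := by
    ext i
    fin_cases i <;> simp <;> ring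
  map_smul' c x := by
    ext i
    fin_cases i <;> simp <;> ring

lemma normsq (x : E3) : ‖x‖ ^ 2 = x 0 ^ 2 + x 1 ^ 2 + x 2 ^ 2 := by
  rw [EuclideanSpace.norm_sq_eq, Fin.sum_univ_three]
  simp [Real.norm_eq_abs, sq_abs]

/-- rotation about the third axis -/
noncomputable def rotI (α : ℝ) : E3 →ₗᵢ[ℝ] E3 where
  toLinearMap := rotLin α
  norm_map' x := by
    have h : ‖rotLin α x‖ ^ 2 = ‖x‖ ^ 2 := by
      rw [normsq, normsq]
      simp only [rotLin, LinearMap.coe_mk, AddHom.coe_mk]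
      simp
      nlinarith [Real.sin_sq_add_cos_sq α]
    exact (sq_eq_sq₀ (norm_nonneg _) (norm_nonneg _)).1 h

noncomputable def rot (α : ℝ) : E3 ≃ₗᵢ[ℝ] E3 := (rotI α).toLinearIsometryEquiv rfl

lemma rot_apply (α : ℝ) (x : E3) : rot α x =
    !₂[x 0 * Real.cos α - x 1 * Real.sin α, x 0 * Real.sin α + x 1 * Real.cos α, x 2] := rfl

lemma rot_two (α : ℝ) (x : E3) : rot α x 2 = x 2 := by
  rw [rot_apply]; rfl

lemma continuous_rot : Continuous fun q : ℝ × E3 => rot q.1 q.2 := by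
  simp only [rot_apply]
  fun_prop


attribute [irreducible] rot

/-- The functional equation. -/
structure Sys (f : E3 → ℝ) : Prop where
  cont : Continuous f
  homog : ∀ t : ℝ, 0 ≤ t → ∀ x, f (t • x) = t * f x
  eq : ∀ u v w : E3, ‖u‖ = 1 → ‖v‖ = 1 → ‖w‖ = 1 → u + v + w = 0 → f u + f v + f w = 0

/-- average over the circle of radius `ρ` at height `z` -/
noncomputable def circ (f : E3 → ℝ) (ρ z : ℝ) : ℝ :=
  ∫ α in (0 : ℝ)..(2 * Real.pi), f !₂[ρ * Real.cos α, ρ * Real.sin α, z]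

lemma integral_rot (f : E3 → ℝ) (x : E3) :
    ∫ α in (0 : ℝ)..(2 * Real.pi), f (rot α x) = circ f (√(x 0 ^ 2 + x 1 ^ 2)) (x 2) := by
  set z : ℂ := ⟨x 0, x 1⟩ with hz
  set β := Complex.arg z with hβ
  set ρ := √(x 0 ^ 2 + x 1 ^ 2) with hρ
  have hn : ‖z‖ = ρ := by
    rw [Complex.norm_def, Complex.normSq_apply, hρ]
    congr 1
    simp only [hz]
    ring
  have h0 : x 0 = ρ * Real.cos β := by
    rw [← hn]
    exact (Complex.norm_mul_cos_arg z).symm
  have h1 : x 1 = ρ * Real.sin β := by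
    rw [← hn]
    exact (Complex.norm_mul_sin_arg z).symm
  have hr : ∀ α, rot α x = !₂[ρ * Real.cos (α + β), ρ * Real.sin (α + β), x 2] := by
    intro α
    rw [rot_apply, Real.cos_add, Real.sin_add, h0, h1]
    congr 2
    · ring
    · congr 1
      ring
  set g : ℝ → ℝ := fun α => f !₂[ρ * Real.cos α, ρ * Real.sin α, x 2] with hg
  have hper : Function.Periodic g (2 * Real.pi) := by
    intro α
    simp only [hg, Real.cos_add_two_pi, Real.sin_add_two_pi]
  calc ∫ α in (0 : ℝ)..(2 * Real.pi), f (rot α x)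
      = ∫ α in (0 : ℝ)..(2 * Real.pi), g (α + β) := by
        congr 1
        ext α
        rw [hr]
    _ = ∫ α in (0 + β)..(2 * Real.pi + β), g α := by
        rw [intervalIntegral.integral_comp_add_right]
    _ = ∫ α in β..(β + 2 * Real.pi), g α := by rw [zero_add, add_comm]
    _ = ∫ α in (0 : ℝ)..(0 + 2 * Real.pi), g α := hper.intervalIntegral_add_eq _ _
    _ = circ f ρ (x 2) := by rw [zero_add, circ]

/-- for two numbers `s`, `t` there are three unit vectors in a plane at angles of `120` degrees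
with third coordinates `s`, `t`, `- s - t` -/
lemma exists_triple {s t : ℝ} (hs : s ^ 2 < 1) (h : s ^ 2 + s * t + t ^ 2 ≤ 3 / 4) :
    ∃ u v w : E3, ‖u‖ = 1 ∧ ‖v‖ = 1 ∧ ‖w‖ = 1 ∧ u + v + w = 0 ∧ u 2 = s ∧ v 2 = t ∧
      w 2 = - s - t := by
  set q := √3 with hq
  have hq2 : q ^ 2 = 3 := Real.sq_sqrt (by norm_num)
  have hqpos : 0 < q := Real.sqrt_pos.2 (by norm_num)
  set B := (2 * t + s) / q with hB
  have hBq : B * q = 2 * t + s := div_mul_cancel₀ _ hqpos.ne'
  have hB2 : 3 * B ^ 2 = (2 * t + s) ^ 2 := by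
    rw [← hBq, mul_pow, hq2]
    ring
  set a := √(1 - s ^ 2) with ha
  have ha2 : a ^ 2 = 1 - s ^ 2 := Real.sq_sqrt (by linarith)
  have hapos : 0 < a := Real.sqrt_pos.2 (by linarith)
  set x := -(s * B) / a with hx
  have hxa : x * a = -(s * B) := div_mul_cancel₀ _ hapos.ne'
  have hx2 : x ^ 2 * (1 - s ^ 2) = s ^ 2 * B ^ 2 := by
    rw [← ha2, ← mul_pow, hxa]
    ring
  have hy0 : 0 ≤ 1 - B ^ 2 - x ^ 2 := by
    by_contra hneg
    push Not at hneg
    have h1 : 0 < 1 - s ^ 2 := by linarith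
    have h2 : (1 - B ^ 2 - x ^ 2) * (1 - s ^ 2) < 0 := mul_neg_of_neg_of_pos hneg h1
    have h3 : (1 - B ^ 2 - x ^ 2) * (1 - s ^ 2) = 1 - s ^ 2 - B ^ 2 := by
      linear_combination -hx2
    nlinarith
  set y := √(1 - B ^ 2 - x ^ 2) with hy
  have hy2 : y ^ 2 = 1 - B ^ 2 - x ^ 2 := Real.sq_sqrt hy0
  refine ⟨!₂[a, 0, s], !₂[-(1 / 2) * a + q / 2 * x, q / 2 * y, -(1 / 2) * s + q / 2 * B],
    !₂[-(1 / 2) * a - q / 2 * x, -(q / 2 * y), -(1 / 2) * s - q / 2 * B], ?_, ?_, ?_, ?_, rfl, ?_,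
    ?_⟩
  · have : ‖(!₂[a, 0, s] : E3)‖ ^ 2 = 1 := by
      rw [normsq]
      simp
      linarith
    exact (pow_eq_one_iff_of_nonneg (norm_nonneg _) two_ne_zero).1 this
  · have : ‖(!₂[-(1 / 2) * a + q / 2 * x, q / 2 * y, -(1 / 2) * s + q / 2 * B] : E3)‖ ^ 2 = 1 := by
      rw [normsq]
      simp
      linear_combination (1 / 4) * ha2 + (q ^ 2 / 4) * hy2 + (1 / 4) * hq2 - (q / 2) * hxa
    exact (pow_eq_one_iff_of_nonneg (norm_nonneg _) two_ne_zero).1 this
  · have : ‖(!₂[-(1 / 2) * a - q / 2 * x, -(q / 2 * y), -(1 / 2) * s - q / 2 * B] : E3)‖ ^ 2 = 1 := by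
      rw [normsq]
      simp
      linear_combination (1 / 4) * ha2 + (q ^ 2 / 4) * hy2 + (1 / 4) * hq2 + (q / 2) * hxa
    exact (pow_eq_one_iff_of_nonneg (norm_nonneg _) two_ne_zero).1 this
  · ext i
    fin_cases i <;> simp <;> ring
  · show -(1 / 2) * s + q / 2 * B = t
    linarith
  · show -(1 / 2) * s - q / 2 * B = - s - t
    linarith

lemma Sys.average {f : E3 → ℝ} (hf : Sys f) {s t : ℝ} (hs : s ^ 2 < 1)
    (h : s ^ 2 + s * t + t ^ 2 ≤ 3 / 4) :
    circ f (√(1 - s ^ 2)) s + circ f (√(1 - t ^ 2)) t + circ f (√(1 - (-s - t) ^ 2)) (-s - t)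
      = 0 := by
  obtain ⟨u, v, w, hu, hv, hw, huvw, hus, hvt, hwst⟩ := exists_triple hs h
  have key : ∀ x : E3, ‖x‖ = 1 → circ f (√(1 - (x 2) ^ 2)) (x 2) =
      ∫ α in (0 : ℝ)..(2 * Real.pi), f (rot α x) := by
    intro x hx
    rw [integral_rot]
    have h1 := normsq x
    rw [hx] at h1
    congr 2
    linarith
  have e1 := key u hu
  have e2 := key v hv
  have e3 := key w hw
  rw [hus] at e1
  rw [hvt] at e2
  rw [hwst] at e3
  rw [e1, e2, e3]
  have hi : ∀ x : E3, IntervalIntegrable (fun α => f (rot α x)) volume 0 (2 * Real.pi) := by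
    intro x
    apply Continuous.intervalIntegrable
    have h2 : Continuous fun α : ℝ => rot α x := by
      simp only [rot_apply]
      fun_prop
    exact hf.cont.comp h2
  rw [← intervalIntegral.integral_add (hi u) (hi v),
    ← intervalIntegral.integral_add ((hi u).add (hi v)) (hi w)]
  have : ∀ α, f (rot α u) + f (rot α v) + f (rot α w) = 0 := by
    intro α
    refine hf.eq _ _ _ (by simpa using hu) (by simpa using hv) (by simpa using hw) ?_
    rw [← map_add, ← map_add, huvw, map_zero]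
  simp [this]

lemma Sys.rot_average {f : E3 → ℝ} (hf : Sys f) (x : E3) :
    ∫ α in (0 : ℝ)..(2 * Real.pi), f (rot α x) = 2 * Real.pi * f !₂[0, 0, 1] * x 2 := by
  set φ : ℝ → ℝ := fun z => circ f (√(1 - z ^ 2)) z with hφ
  have hφc : Continuous φ := by
    apply intervalIntegral.continuous_parametric_intervalIntegral_of_continuous'
    apply hf.cont.comp
    fun_prop
  have hlin := linear_of_eq hφc (fun s t hs ht => by
    have hs2 : s ^ 2 ≤ 1 / 4 := by
      have := sq_le_sq' (by linarith [neg_abs_le s] : -(1 / 2 : ℝ) ≤ s) (le_trans (le_abs_self s) hs)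
      linarith
    have ht2 : t ^ 2 ≤ 1 / 4 := by
      have := sq_le_sq' (by linarith [neg_abs_le t] : -(1 / 2 : ℝ) ≤ t) (le_trans (le_abs_self t) ht)
      linarith
    exact hf.average (by linarith) (by nlinarith [sq_nonneg (s - t)])) (fun x hx => by
    have hx2 : x ^ 2 ≤ 1 := by
      have := sq_le_sq' (by linarith [neg_abs_le x] : -(1 : ℝ) ≤ x) (le_trans (le_abs_self x) hx)
      linarith
    have := hf.average (s := -x / 2) (t := -x / 2) (by nlinarith) (by nlinarith)
    rw [show -(-x / 2) - -x / 2 = x by ring] at this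
    simp only [hφ]
    linarith)
  have hφ1 : φ 1 = 2 * Real.pi * f !₂[0, 0, 1] := by
    simp only [hφ, circ]
    simp
  have hunit : ∀ y : E3, ‖y‖ = 1 →
      ∫ α in (0 : ℝ)..(2 * Real.pi), f (rot α y) = 2 * Real.pi * f !₂[0, 0, 1] * y 2 := by
    intro y hy
    have h1 := normsq y
    rw [hy] at h1
    rw [integral_rot, ← hφ1, mul_comm, ← hlin (y 2) (by
      apply abs_le_of_sq_le_sq _ (by norm_num)
      nlinarith [sq_nonneg (y 0), sq_nonneg (y 1)])]
    simp only [hφ]
    congr 2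
    linarith
  rcases eq_or_ne x 0 with rfl | hx
  · have h0 : f 0 = 0 := by
      have := hf.homog 0 le_rfl 0
      simpa using this
    simp [h0]
  · have hn : ‖x‖ ≠ 0 := norm_ne_zero_iff.2 hx
    have h1 := hunit (‖x‖⁻¹ • x) (by rw [norm_smul, norm_inv, norm_norm, inv_mul_cancel₀ hn])
    have h2 : ∀ α, f (rot α x) = ‖x‖ * f (rot α (‖x‖⁻¹ • x)) := by
      intro α
      rw [← hf.homog _ (norm_nonneg x), ← map_smul, smul_smul, mul_inv_cancel₀ hn, one_smul]
    simp_rw [h2]
    rw [intervalIntegral.integral_const_mul, h1]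
    simp
    field_simp


/-- the unit ball -/
noncomputable abbrev B : Set E3 := closedBall (0 : E3) 1

lemma integral_ball_comp (g : E3 ≃ₗᵢ[ℝ] E3) (F : E3 → ℝ) :
    ∫ x in B, F (g x) = ∫ y in B, F y := by
  have h := g.measurePreserving.setIntegral_preimage_emb
    g.toHomeomorph.measurableEmbedding F B
  have h2 : (g : E3 → E3) ⁻¹' B = B := by
    ext x
    simp [B]
  rw [h2] at h
  exact h

lemma Sys.third {f : E3 → ℝ} (hf : Sys f) :
    ∫ x in B, f x * x 2 = f !₂[0, 0, 1] * ∫ x in B, (x 2) ^ 2 := by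
  have h1 : ∀ α : ℝ, ∫ x in B, f (rot α x) * x 2 = ∫ x in B, f x * x 2 := by
    intro α
    rw [← integral_ball_comp (rot α) (fun x => f x * x 2)]
    simp only [rot_two]
  have h2 : ∫ α in (0 : ℝ)..(2 * Real.pi), (∫ x in B, f (rot α x) * x 2) =
      2 * Real.pi * ∫ x in B, f x * x 2 := by
    simp only [h1, intervalIntegral.integral_const, sub_zero, smul_eq_mul]
  have h3 : ∫ α in (0 : ℝ)..(2 * Real.pi), (∫ x in B, f (rot α x) * x 2) =
      ∫ x in B, (∫ α in (0 : ℝ)..(2 * Real.pi), f (rot α x) * x 2) := by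
    simp only [intervalIntegral.integral_of_le Real.two_pi_pos.le]
    apply integral_integral_swap
    have hcont : Continuous fun q : ℝ × E3 => f (rot q.1 q.2) * q.2 2 := by
      have h4 : Continuous fun q : ℝ × E3 => f (rot q.1 q.2) := hf.cont.comp continuous_rot
      have h5 : Continuous fun q : ℝ × E3 => q.2 2 := by fun_prop
      exact h4.mul h5
    have hK : IsCompact (Icc (0 : ℝ) (2 * Real.pi) ×ˢ B) :=
      isCompact_Icc.prod (isCompact_closedBall _ _)
    have hint := (hcont.continuousOn (s := Icc (0 : ℝ) (2 * Real.pi) ×ˢ B)).integrableOn_compact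
      (μ := (volume : Measure ℝ).prod (volume : Measure E3)) hK
    rw [Measure.prod_restrict]
    exact hint.mono_set (prod_mono_left Ioc_subset_Icc_self)
  have h5 : ∀ x : E3, ∫ α in (0 : ℝ)..(2 * Real.pi), f (rot α x) * x 2 =
      2 * Real.pi * (f !₂[0, 0, 1] * (x 2) ^ 2) := by
    intro x
    rw [intervalIntegral.integral_mul_const, hf.rot_average]
    ring
  rw [h3] at h2
  simp only [h5] at h2
  rw [integral_const_mul, integral_const_mul] at h2
  have hpi : (2 * Real.pi) ≠ 0 := by positivity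
  exact (mul_left_cancel₀ hpi h2).symm

lemma exists_isometry (p : E3) (hp : ‖p‖ = 1) : ∃ g : E3 ≃ₗᵢ[ℝ] E3, g !₂[0, 0, 1] = p := by
  have h1 : ‖(!₂[0, 0, 1] : E3)‖ = 1 := by
    have : ‖(!₂[0, 0, 1] : E3)‖ ^ 2 = 1 := by
      rw [normsq]
      simp
    exact (pow_eq_one_iff_of_nonneg (norm_nonneg _) two_ne_zero).1 this
  rcases eq_or_ne (!₂[0, 0, 1] : E3) p with h | h
  · exact ⟨LinearIsometryEquiv.refl ℝ E3, h⟩
  · refine ⟨(ℝ ∙ ((!₂[0, 0, 1] : E3) - p))ᗮ.reflection, ?_⟩
    exact Submodule.reflection_sub (by rw [h1, hp])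

lemma Sys.comp {f : E3 → ℝ} (hf : Sys f) (g : E3 ≃ₗᵢ[ℝ] E3) : Sys fun x => f (g x) where
  cont := hf.cont.comp g.continuous
  homog t ht x := by rw [map_smul, hf.homog t ht]
  eq u v w hu hv hw h := by
    refine hf.eq _ _ _ (by simpa using hu) (by simpa using hv) (by simpa using hw) ?_
    rw [← map_add, ← map_add, h, map_zero]

lemma inner_third (x : E3) : ⟪x, (!₂[0, 0, 1] : E3)⟫ = x 2 := by
  rw [PiLp.inner_apply, Fin.sum_univ_three]
  simp

lemma Sys.moment {f : E3 → ℝ} (hf : Sys f) (p : E3) (hp : ‖p‖ = 1) :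
    ∫ x in B, f x * ⟪x, p⟫ = f p * ∫ x in B, (x 2) ^ 2 := by
  obtain ⟨g, hg⟩ := exists_isometry p hp
  have h1 := (hf.comp g).third
  simp only [hg] at h1
  rw [← h1, ← integral_ball_comp g (fun x => f x * ⟪x, p⟫)]
  congr 1
  ext x
  rw [← hg, g.inner_map_map, inner_third]

lemma const_pos : 0 < ∫ x in B, ((x : E3) 2) ^ 2 := by
  have hc : Continuous fun x : E3 => (x 2) ^ 2 := by fun_prop
  rw [setIntegral_pos_iff_support_of_nonneg_ae]
  · have hopen : IsOpen ((Function.support fun x : E3 => (x 2) ^ 2) ∩ ball (0 : E3) 1) :=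
      hc.isOpen_support.inter isOpen_ball
    have hne : ((Function.support fun x : E3 => (x 2) ^ 2) ∩ ball (0 : E3) 1).Nonempty := by
      refine ⟨(1 / 2 : ℝ) • !₂[0, 0, 1], ?_, ?_⟩
      · simp
      · have : ‖((1 / 2 : ℝ) • !₂[0, 0, 1] : E3)‖ ^ 2 < 1 := by
          rw [normsq]
          simp
          norm_num
        rw [mem_ball_zero_iff]
        nlinarith [norm_nonneg ((1 / 2 : ℝ) • !₂[0, 0, 1] : E3)]
    exact lt_of_lt_of_le (hopen.measure_pos volume hne)
      (measure_mono (inter_subset_inter_right _ ball_subset_closedBall))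
  · exact Filter.Eventually.of_forall fun x => sq_nonneg _
  · exact hc.continuousOn.integrableOn_compact (isCompact_closedBall _ _)

/-- Continuous solutions of the functional equation are linear. -/
theorem Sys.linear {f : E3 → ℝ} (hf : Sys f) : ∃ c : E3, ∀ x, f x = ⟪c, x⟫ := by
  set k := ∫ x in B, ((x : E3) 2) ^ 2 with hk
  have hk0 : 0 < k := const_pos
  refine ⟨k⁻¹ • ∫ x in B, f x • x, ?_⟩
  have hunit : ∀ p : E3, ‖p‖ = 1 → f p = ⟪k⁻¹ • ∫ x in B, f x • x, p⟫ := by
    intro p hp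
    have h1 := hf.moment p hp
    have hint : Integrable (fun x : E3 => f x • x) (volume.restrict B) := by
      have : Continuous fun x : E3 => f x • x := hf.cont.smul continuous_id
      exact this.continuousOn.integrableOn_compact (isCompact_closedBall _ _)
    have h2 : ⟪∫ x in B, f x • x, p⟫ = ∫ x in B, f x * ⟪x, p⟫ := by
      rw [real_inner_comm, ← integral_inner hint]
      congr 1
      ext x
      rw [real_inner_smul_right, real_inner_comm]
    rw [real_inner_smul_left, h2, h1, ← hk]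
    field_simp
  intro x
  rcases eq_or_ne x 0 with rfl | hx
  · have := hf.homog 0 le_rfl 0
    simpa using this
  · have hn : ‖x‖ ≠ 0 := norm_ne_zero_iff.2 hx
    have h1 := hunit (‖x‖⁻¹ • x) (by rw [norm_smul, norm_inv, norm_norm, inv_mul_cancel₀ hn])
    have h2 : f x = ‖x‖ * f (‖x‖⁻¹ • x) := by
      rw [← hf.homog _ (norm_nonneg x), smul_smul, mul_inv_cancel₀ hn, one_smul]
    rw [h2, h1, real_inner_smul_right]
    field_simp

end Pool.Agent.J4.H98.Rotor
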