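import Pool.Agent.J4.H98.RotorA

/-! Rotors in a triangular prism: convex geometry. -/

open MeasureTheory Set Metric Module
open scoped RealInnerProductSpace

namespace Pool.Agent.J4.H98.Rotor

lemma isometry_det (ρ : E3 ≃ₗᵢ[ℝ] E3) :
    LinearMap.det (ρ.toLinearEquiv : E3 →ₗ[ℝ] E3) = 1 ∨
      LinearMap.det (ρ.toLinearEquiv : E3 →ₗ[ℝ] E3) = -1 := by
  set b := EuclideanSpace.basisFun (Fin 3) ℝ
  have h1 := Module.Basis.det_comp b.toBasis (ρ.toLinearEquiv : E3 →ₗ[ℝ] E3) b
  have h2 : b.toBasis.det b = 1 := by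
    have := b.toBasis.det_self
    simpa using this
  have h3 : (((ρ.toLinearEquiv : E3 →ₗ[ℝ] E3) : E3 → E3) ∘ b) = (b.map ρ : Fin 3 → E3) := by
    ext i
    simp
  rw [h2, mul_one, h3] at h1
  rw [← h1]
  exact OrthonormalBasis.det_to_matrix_orthonormalBasis_real _ _

/-- a triple of unit vectors with sum zero -/
structure Tri (v : Fin 3 → E3) : Prop where
  unit : ∀ i, ‖v i‖ = 1
  sum : v 0 + v 1 + v 2 = 0

lemma Tri.inner {v : Fin 3 → E3} (h : Tri v) : ⟪v 0, v 1⟫ = -1 / 2 := by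
  have h1 : v 2 = -(v 0 + v 1) := by
    rw [eq_neg_iff_add_eq_zero, add_comm]
    exact h.sum
  have h2 := h.unit 2
  rw [h1, norm_neg] at h2
  have h3 := norm_add_sq_real (v 0) (v 1)
  rw [h2, h.unit 0, h.unit 1] at h3
  linarith

lemma Tri.orthonormal {v : Fin 3 → E3} (h : Tri v) :
    ∃ b : OrthonormalBasis (Fin 3) ℝ E3, v 0 = b 0 ∧
      v 1 = -(1 / 2 : ℝ) • b 0 + (√3 / 2) • b 1 := by
  have h3 : √3 ^ 2 = 3 := Real.sq_sqrt (by norm_num)
  have h3' : √3 ≠ 0 := (Real.sqrt_pos.2 (by norm_num)).ne'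
  set e : E3 := (2 / √3) • (v 1 + (1 / 2 : ℝ) • v 0) with he
  have hin := h.inner
  have h0 := h.unit 0
  have h1 := h.unit 1
  have he0 : ⟪v 0, e⟫ = 0 := by
    rw [he, inner_smul_right, inner_add_right, inner_smul_right, hin, real_inner_self_eq_norm_sq,
      h0]
    norm_num
  have he1 : ‖e‖ = 1 := by
    have : ‖e‖ ^ 2 = 1 := by
      rw [he, norm_smul, mul_pow, norm_add_sq_real, inner_smul_right, real_inner_comm, hin,
        norm_smul, h0, h1, Real.norm_eq_abs, sq_abs, div_pow, h3]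
      norm_num
    exact (pow_eq_one_iff_of_nonneg (norm_nonneg _) two_ne_zero).1 this
  have hv : Orthonormal ℝ (({0, 1} : Set (Fin 3)).domRestrict ![v 0, e, 0]) := by
    rw [orthonormal_iff_ite]
    rintro ⟨i, hi⟩ ⟨j, hj⟩
    simp only [mem_insert_iff, mem_singleton_iff] at hi hj
    rcases hi with rfl | rfl <;> rcases hj with rfl | rfl
    · simp [Set.domRestrict_apply, h0]
    · simp [Set.domRestrict_apply, he0]
    · simp [Set.domRestrict_apply, real_inner_comm, he0]
    · simp [Set.domRestrict_apply, he1]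
  obtain ⟨b, hb⟩ := hv.exists_orthonormalBasis_extension_of_card_eq (by simp)
  refine ⟨b, ?_, ?_⟩
  · rw [hb 0 (by simp)]
    rfl
  · rw [hb 0 (by simp), hb 1 (by simp)]
    show v 1 = -(1 / 2 : ℝ) • v 0 + (√3 / 2) • e
    rw [he, smul_smul, div_mul_div_comm, mul_comm (√3) 2, div_self (by positivity), one_smul]
    module

lemma exists_rotation {v w : Fin 3 → E3} (hv : Tri v) (hw : Tri w) :
    ∃ ρ : E3 ≃ₗᵢ[ℝ] E3, LinearMap.det (ρ.toLinearEquiv : E3 →ₗ[ℝ] E3) = 1 ∧
      ∀ i, ρ (v i) = w i := by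
  obtain ⟨b, hb0, hb1⟩ := hv.orthonormal
  obtain ⟨c, hc0, hc1⟩ := hw.orthonormal
  have key : ∀ ρ : E3 ≃ₗᵢ[ℝ] E3, ρ (b 0) = c 0 → ρ (b 1) = c 1 → ∀ i, ρ (v i) = w i := by
    intro ρ h0 h1 i
    have e0 : ρ (v 0) = w 0 := by rw [hb0, h0, hc0]
    have e1 : ρ (v 1) = w 1 := by rw [hb1, map_add, map_smul, map_smul, h0, h1, hc1]
    have e2 : ρ (v 2) = w 2 := by
      have hv2 : v 2 = -(v 0 + v 1) := by
        rw [eq_neg_iff_add_eq_zero, add_comm]
        exact hv.sum
      have hw2 : w 2 = -(w 0 + w 1) := by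
        rw [eq_neg_iff_add_eq_zero, add_comm]
        exact hw.sum
      rw [hv2, hw2, map_neg, map_add, e0, e1]
    fin_cases i
    · exact e0
    · exact e1
    · exact e2
  set ρ := b.equiv c (Equiv.refl _) with hρ
  have hρi : ∀ i, ρ (b i) = c i := fun i => by
    rw [hρ, OrthonormalBasis.equiv_apply_basis]
    rfl
  rcases isometry_det ρ with h | h
  · exact ⟨ρ, h, key ρ (hρi 0) (hρi 1)⟩
  · set σ := (ℝ ∙ (c 2))ᗮ.reflection with hσ
    have hc : ∀ i, i ≠ 2 → σ (c i) = c i := by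
      intro i hi
      rw [hσ, Submodule.reflection_eq_self_iff, Submodule.mem_orthogonal_singleton_iff_inner_right]
      exact c.orthonormal.2 hi.symm
    refine ⟨ρ.trans σ, ?_, key _ ?_ ?_⟩
    · have h1 : ((ρ.trans σ).toLinearEquiv : E3 →ₗ[ℝ] E3) =
          (σ.toLinearEquiv : E3 →ₗ[ℝ] E3) ∘ₗ (ρ.toLinearEquiv : E3 →ₗ[ℝ] E3) := rfl
      have hne : c 2 ≠ 0 := by
        intro h0
        have := c.orthonormal.1 2
        rw [h0, norm_zero] at this
        exact zero_ne_one this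
      rw [h1, LinearMap.det_comp, h, hσ, Submodule.det_reflection, Submodule.orthogonal_orthogonal,
        finrank_span_singleton hne]
      norm_num
    · rw [LinearIsometryEquiv.trans_apply, hρi, hc 0 (by decide)]
    · rw [LinearIsometryEquiv.trans_apply, hρi, hc 1 (by decide)]

/-- support function -/
noncomputable def supp (K : Set E3) (u : E3) : ℝ := sSup ((fun x => ⟪x, u⟫) '' K)

lemma continuous_supp {K : Set E3} (hK : IsCompact K) : Continuous (supp K) := by
  apply hK.continuous_sSup (f := fun u x => ⟪x, u⟫)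
  fun_prop

lemma supp_bdd {K : Set E3} (hK : IsCompact K) (u : E3) :
    BddAbove ((fun x => ⟪x, u⟫) '' K) :=
  (hK.image (by fun_prop)).bddAbove

lemma le_supp {K : Set E3} (hK : IsCompact K) {x : E3} (hx : x ∈ K) (u : E3) :
    ⟪x, u⟫ ≤ supp K u := le_csSup (supp_bdd hK u) ⟨x, hx, rfl⟩

lemma supp_eq {K : Set E3} (hK : IsCompact K) {u x : E3} {s : ℝ} (hx : x ∈ K) (h1 : ⟪x, u⟫ = s)
    (h2 : ∀ y ∈ K, ⟪y, u⟫ ≤ s) : supp K u = s := by
  apply le_antisymm
  · apply csSup_le (Set.Nonempty.image _ ⟨x, hx⟩)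
    rintro _ ⟨y, hy, rfl⟩
    exact h2 y hy
  · rw [← h1]
    exact le_supp hK hx u

lemma supp_smul {K : Set E3} (hK : IsCompact K) (hne : K.Nonempty) {t : ℝ} (ht : 0 ≤ t) (u : E3) :
    supp K (t • u) = t * supp K u := by
  obtain ⟨x, hx, hmax⟩ := hK.exists_isMaxOn hne (f := fun x => ⟪x, u⟫)
    (Continuous.continuousOn (by fun_prop))
  have e1 : supp K u = ⟪x, u⟫ := supp_eq hK hx rfl fun y hy => hmax hy
  rw [e1]
  refine supp_eq hK hx (by rw [inner_smul_right]) fun y hy => ?_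
  rw [inner_smul_right]
  exact mul_le_mul_of_nonneg_left (hmax hy) ht

/-- If the support function of a convex body satisfies the functional equation up to a
constant then it is a ball. -/
theorem ball_of_supp {K : Set E3} (hK : IsCompact K) (hconv : Convex ℝ K) (hne : K.Nonempty)
    {r : ℝ} (hr : 0 ≤ r)
    (h : ∀ v : Fin 3 → E3, Tri v → supp K (v 0) + supp K (v 1) + supp K (v 2) = 3 * r) :
    ∃ c, K = closedBall c r := by
  have hf : Sys fun x => supp K x - r * ‖x‖ := by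
    refine ⟨(continuous_supp hK).sub (by fun_prop), ?_, ?_⟩
    · intro t ht x
      rw [supp_smul hK hne ht, norm_smul, Real.norm_of_nonneg ht]
      ring
    · intro u v w hu hv hw huvw
      have := h ![u, v, w] ⟨by intro i; fin_cases i <;> assumption, huvw⟩
      simp only [Matrix.cons_val_zero, Matrix.cons_val_one, Matrix.cons_val] at this
      simp only [hu, hv, hw]
      linarith
  obtain ⟨c, hc⟩ := hf.linear
  have hs : ∀ u, supp K u = ⟪c, u⟫ + r * ‖u‖ := fun u => by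
    have := hc u
    linarith
  refine ⟨c, ?_⟩
  apply Subset.antisymm
  · intro x hx
    rw [mem_closedBall_iff_norm]
    have h1 := le_supp hK hx (x - c)
    rw [hs] at h1
    have h2 : ‖x - c‖ ^ 2 = ⟪x, x - c⟫ - ⟪c, x - c⟫ := by
      rw [← inner_sub_left, real_inner_self_eq_norm_sq]
    rcases eq_or_lt_of_le (norm_nonneg (x - c)) with h0 | h0
    · rw [← h0]
      exact hr
    · have h3 : ‖x - c‖ * ‖x - c‖ ≤ r * ‖x - c‖ := by nlinarith
      exact le_of_mul_le_mul_right h3 h0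
  · intro x hx
    by_contra hxK
    obtain ⟨φ, s, hφ1, hφ2⟩ := geometric_hahn_banach_closed_point hconv hK.isClosed hxK
    obtain ⟨u, hu⟩ : ∃ u : E3, ∀ y, φ y = ⟪y, u⟫ := by
      refine ⟨(InnerProductSpace.toDual ℝ E3).symm φ, fun y => ?_⟩
      rw [real_inner_comm, InnerProductSpace.toDual_symm_apply]
    have h1 : supp K u ≤ s := by
      apply csSup_le (hne.image _)
      rintro _ ⟨y, hy, rfl⟩
      have := hφ1 y hy
      rw [hu] at this
      exact this.le
    rw [hu] at hφ2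
    rw [hs] at h1
    rw [mem_closedBall_iff_norm] at hx
    have h2 : ⟪x, u⟫ = ⟪c, u⟫ + ⟪x - c, u⟫ := by rw [inner_sub_left]; ring
    have h3 := real_inner_le_norm (x - c) u
    nlinarith [norm_nonneg u]

end Pool.Agent.J4.H98.Rotor
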